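import Mathlib

/-!
Arithmetic of the golden ratio and residues modulo the square root of five.
-/

set_option autoImplicit false

namespace Pool.Agent.Lib.MP_59160a_co

/-- The square root of five. -/
noncomputable def s : ℝ := Real.sqrt 5

/-- The inverse of the golden ratio. -/
noncomputable def g : ℝ := (s - 1) / 2

/-- The cosine of 108 degrees. -/
noncomputable def c0 : ℝ := -g / 2

lemma s_mul_s : s * s = 5 := by
  unfold s; exact Real.mul_self_sqrt (by norm_num)

lemma s_pos : 0 < s := by unfold s; positivity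

lemma s_ne : s ≠ 0 := s_pos.ne'

lemma s_eq : s = 2 * g + 1 := by unfold g; ring

lemma g_sq : g * g = 1 - g := by
  have h := s_mul_s
  unfold g
  nlinarith [h]

lemma g_pos : 0 < g := by
  have h := s_mul_s
  have h1 := s_pos
  unfold g
  nlinarith

lemma g_lt : g < 1 := by
  have h := g_sq
  have h1 := g_pos
  nlinarith

lemma c0_eq : c0 = -g / 2 := rfl

lemma c0_neg : c0 < 0 := by
  have := g_pos
  unfold c0; linarith

lemma c0_ne_one : c0 ≠ 1 := by
  have := c0_neg
  linarith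

instance fact5 : Fact (Nat.Prime 5) := ⟨by norm_num⟩

/-- `Res x r`: the real number `x` lies in the localisation of `ℤ[√5]` at `√5` and has residue
`r`. -/
def Res (x : ℝ) (r : ZMod 5) : Prop :=
  ∃ a b c : ℤ, (c : ZMod 5) ≠ 0 ∧ (c : ℝ) * x = a + b * s ∧ (a : ZMod 5) = c * r

lemma Res.int (n : ℤ) : Res (n : ℝ) (n : ZMod 5) :=
  ⟨n, 0, 1, by decide, by simp, by simp⟩

lemma Res.zero : Res 0 0 := by simpa using Res.int 0

lemma Res.one : Res 1 1 := by simpa using Res.int 1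

lemma res_s : Res s 0 := ⟨0, 1, 1, by decide, by simp, by simp⟩

lemma Res.neg {x : ℝ} {r : ZMod 5} (h : Res x r) : Res (-x) (-r) := by
  obtain ⟨a, b, c, hc, h1, h2⟩ := h
  refine ⟨-a, -b, c, hc, ?_, ?_⟩
  · push_cast; rw [mul_neg, h1]; ring
  · push_cast; rw [h2]; ring

lemma Res.add {x y : ℝ} {r t : ZMod 5} (h : Res x r) (h' : Res y t) : Res (x + y) (r + t) := by
  obtain ⟨a, b, c, hc, h1, h2⟩ := h
  obtain ⟨a', b', c', hc', h1', h2'⟩ := h'
  refine ⟨a * c' + a' * c, b * c' + b' * c, c * c', ?_, ?_, ?_⟩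
  · push_cast; exact mul_ne_zero hc hc'
  · push_cast
    have : (c : ℝ) * c' * (x + y) = c' * (c * x) + c * (c' * y) := by ring
    rw [this, h1, h1']; ring
  · push_cast; rw [h2, h2']; ring

lemma Res.sub {x y : ℝ} {r t : ZMod 5} (h : Res x r) (h' : Res y t) : Res (x - y) (r - t) := by
  rw [sub_eq_add_neg, sub_eq_add_neg]; exact h.add h'.neg

lemma Res.mul {x y : ℝ} {r t : ZMod 5} (h : Res x r) (h' : Res y t) : Res (x * y) (r * t) := by
  obtain ⟨a, b, c, hc, h1, h2⟩ := h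
  obtain ⟨a', b', c', hc', h1', h2'⟩ := h'
  refine ⟨a * a' + 5 * b * b', a * b' + a' * b, c * c', ?_, ?_, ?_⟩
  · push_cast; exact mul_ne_zero hc hc'
  · push_cast
    have : (c : ℝ) * c' * (x * y) = (c * x) * (c' * y) := by ring
    rw [this, h1, h1']
    have := s_mul_s
    linear_combination (b * b' : ℝ) * this
  · push_cast
    have h5 : (5 : ZMod 5) = 0 := by decide
    rw [h2, h2', h5]; ring

lemma Res.half : Res (1 / 2) 3 := ⟨1, 0, 2, by decide, by norm_num, by decide⟩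

lemma res_g : Res g 2 := ⟨-1, 1, 2, by decide, by unfold g; push_cast; ring, by decide⟩

lemma Res.two : Res 2 2 := by
  have := Res.int 2
  simpa using this

lemma Res.s_mul {x : ℝ} {r : ZMod 5} (h : Res x r) :
    Res (s * x) 0 := by
  have := res_s.mul h
  simpa using this

lemma Res.s_pow {x : ℝ} {r : ZMod 5} (h : Res x r) {k : ℕ} (hk : 0 < k) :
    Res (s ^ k * x) 0 := by
  obtain ⟨m, rfl⟩ : ∃ m, k = m + 1 := ⟨k - 1, by omega⟩
  clear hk
  induction m with
  | zero => simpa using h.s_mul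
  | succ m ih =>
    rw [pow_succ', mul_assoc]
    exact ih.s_mul

lemma irr_aux (a b : ℤ) (h : (a : ℝ) + b * s = 0) : a = 0 ∧ b = 0 := by
  have hb : b = 0 := by
    by_contra hb
    have hirr : Irrational s := by
      unfold s
      have := Nat.Prime.irrational_sqrt (show Nat.Prime 5 by norm_num)
      simpa using this
    apply hirr
    refine ⟨-(a : ℚ) / b, ?_⟩
    have hb' : (b : ℝ) ≠ 0 := by exact_mod_cast hb
    push_cast
    field_simp
    linarith
  subst hb
  refine ⟨?_, rfl⟩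
  have : (a : ℝ) = 0 := by simpa using h
  exact_mod_cast this

lemma Res.unique {x : ℝ} {r t : ZMod 5} (h : Res x r) (h' : Res x t) : r = t := by
  obtain ⟨a, b, c, hc, h1, h2⟩ := h
  obtain ⟨a', b', c', hc', h1', h2'⟩ := h'
  have key : ((a * c' - a' * c : ℤ) : ℝ) + ((b * c' - b' * c : ℤ) : ℝ) * s = 0 := by
    push_cast
    linear_combination (-(c' : ℝ)) * h1 + (c : ℝ) * h1'
  obtain ⟨h3, -⟩ := irr_aux _ _ key
  have h4 : ((a * c' - a' * c : ℤ) : ZMod 5) = 0 := by rw [h3]; simp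
  push_cast at h4
  rw [h2, h2'] at h4
  have h5 : (c : ZMod 5) * c' * (r - t) = 0 := by rw [← h4]; ring
  have h6 : r - t = 0 := by
    rcases mul_eq_zero.1 h5 with h | h
    · exact absurd h (mul_ne_zero hc hc')
    · exact h
  exact sub_eq_zero.1 h6

/-- The set of real numbers that are integral at `√5`. -/
def Int5 (x : ℝ) : Prop := ∃ r, Res x r

lemma Res.int5 {x : ℝ} {r : ZMod 5} (h : Res x r) : Int5 x := ⟨r, h⟩

lemma Int5.add {x y : ℝ} (h : Int5 x) (h' : Int5 y) : Int5 (x + y) := by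
  obtain ⟨r, hr⟩ := h
  obtain ⟨t, ht⟩ := h'
  exact ⟨_, hr.add ht⟩

lemma Int5.sub {x y : ℝ} (h : Int5 x) (h' : Int5 y) : Int5 (x - y) := by
  obtain ⟨r, hr⟩ := h
  obtain ⟨t, ht⟩ := h'
  exact ⟨_, hr.sub ht⟩

lemma Int5.neg {x : ℝ} (h : Int5 x) : Int5 (-x) := by
  obtain ⟨r, hr⟩ := h
  exact ⟨_, hr.neg⟩

lemma Int5.mul {x y : ℝ} (h : Int5 x) (h' : Int5 y) : Int5 (x * y) := by
  obtain ⟨r, hr⟩ := h
  obtain ⟨t, ht⟩ := h'
  exact ⟨_, hr.mul ht⟩

lemma int5_g : Int5 g := ⟨_, res_g⟩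

lemma res_c0 : Res c0 4 := by
  have := (res_g.mul Res.half).neg
  have e : c0 = -(g * (1 / 2)) := by unfold c0; ring
  rw [e]
  have e2 : (4 : ZMod 5) = -(2 * 3) := by decide
  rw [e2]
  exact this

end Pool.Agent.Lib.MP_59160a_co
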