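import Pool.Agent.Lib.MP_59160a_co.Defs

/-!
Isometries of the pentagon and elementary facts on the surface.
-/

set_option autoImplicit false
set_option linter.unusedSectionVars false

namespace Pool.Agent.Lib.MP_59160a_co

open unitInterval

/-- A distance preserving map preserves convex combinations. -/
lemma isometry_comb {A : Set E2} {φ : A → E3} (hφ : Isometry φ) {κ : Type*} (s : Finset κ)
    (w : κ → ℝ) (hw : ∑ i ∈ s, w i = 1) (v : κ → A) (x : A)
    (hx : (x : E2) = ∑ i ∈ s, w i • (v i : E2)) : φ x = ∑ i ∈ s, w i • φ (v i) := by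
  have hin : ∀ a b : A, inner ℝ (φ a - φ x) (φ b - φ x) =
      inner ℝ ((a : E2) - x) ((b : E2) - x) := by
    intro a b
    have hd : ∀ a b : A, ‖φ a - φ b‖ = ‖(a : E2) - b‖ := by
      intro a b
      rw [← dist_eq_norm, ← dist_eq_norm, hφ.dist_eq]
      rfl
    rw [real_inner_eq_norm_mul_self_add_norm_mul_self_sub_norm_sub_mul_self_div_two,
      real_inner_eq_norm_mul_self_add_norm_mul_self_sub_norm_sub_mul_self_div_two,
      sub_sub_sub_cancel_right, sub_sub_sub_cancel_right, hd, hd, hd]
  have h1 : ∑ i ∈ s, w i • (φ (v i) - φ x) = 0 := by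
    rw [← inner_self_eq_zero (𝕜 := ℝ)]
    have h2 : ∑ i ∈ s, w i • ((v i : E2) - x) = 0 := by
      simp only [smul_sub, Finset.sum_sub_distrib, ← Finset.sum_smul, hw, one_smul, ← hx, sub_self]
    have h3 : inner ℝ (∑ i ∈ s, w i • ((v i : E2) - x)) (∑ i ∈ s, w i • ((v i : E2) - x)) =
        (0 : ℝ) := by rw [h2, inner_zero_left]
    rw [← h3]
    simp only [sum_inner, inner_sum, real_inner_smul_left, real_inner_smul_right, hin]
  simp only [smul_sub, Finset.sum_sub_distrib, ← Finset.sum_smul, hw, one_smul] at h1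
  exact (sub_eq_zero.1 h1).symm

lemma pentVertex_mem (i : ZMod 5) : pentVertex i ∈ pentagon := subset_convexHull _ _ ⟨i, rfl⟩

lemma pentagon_convex : Convex ℝ pentagon := convex_convexHull ℝ _

/-- A vertex as a point of the pentagon. -/
noncomputable def pv (i : ZMod 5) : pentagon := ⟨pentVertex i, pentVertex_mem i⟩

lemma sidePoint_eq (i : ZMod 5) (t : ℝ) :
    sidePoint i t = (1 - t) • pentVertex i + t • pentVertex (i + 1) := by
  unfold sidePoint
  rw [AffineMap.lineMap_apply_module]

lemma sidePoint_mem (i : ZMod 5) (t : I) : sidePoint i t ∈ pentagon := by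
  rw [sidePoint_eq]
  exact pentagon_convex (pentVertex_mem i) (pentVertex_mem _) (by linarith [t.2.2]) t.2.1 (by ring)

/-- A point of a side as a point of the pentagon. -/
noncomputable def sP (i : ZMod 5) (t : I) : pentagon := ⟨sidePoint i t, sidePoint_mem i t⟩

lemma sP_zero (i : ZMod 5) : sP i 0 = pv i := by
  apply Subtype.ext
  change sidePoint i ((0 : I) : ℝ) = pentVertex i
  rw [sidePoint_eq]; simp

lemma sP_one (i : ZMod 5) : sP i 1 = pv (i + 1) := by
  apply Subtype.ext
  change sidePoint i ((1 : I) : ℝ) = pentVertex (i + 1)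
  rw [sidePoint_eq]; simp

lemma isometry_sP {φ : pentagon → E3} (hφ : Isometry φ) (i : ZMod 5) (t : I) :
    φ (sP i t) = (1 - (t : ℝ)) • φ (pv i) + (t : ℝ) • φ (pv (i + 1)) := by
  have h := isometry_comb hφ (Finset.univ : Finset (Fin 2)) ![1 - (t : ℝ), t]
    (by simp) ![pv i, pv (i + 1)] (sP i t) (by
      rw [Fin.sum_univ_two]
      simp only [Matrix.cons_val_zero, Matrix.cons_val_one]
      exact sidePoint_eq i t)
  rw [Fin.sum_univ_two] at h
  simpa using h

lemma exists_pent_weights {x : E2} (hx : x ∈ pentagon) : ∃ w : ZMod 5 → ℝ,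
    (∀ i, 0 ≤ w i) ∧ ∑ i, w i = 1 ∧ x = ∑ i, w i • pentVertex i := by
  unfold pentagon at hx
  rw [convexHull_range_eq_exists_affineCombination] at hx
  obtain ⟨s, w, hw0, hw1, hx⟩ := hx
  classical
  refine ⟨fun i => if i ∈ s then w i else 0, ?_, ?_, ?_⟩
  · intro i
    dsimp only
    split_ifs with h
    · exact hw0 i h
    · exact le_refl 0
  · rw [← hw1, Finset.sum_ite_mem, Finset.univ_inter]
  · rw [← hx, Finset.affineCombination_eq_linear_combination s _ _ hw1]
    rw [← Finset.univ_inter s, ← Finset.sum_ite_mem]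
    refine Finset.sum_congr rfl (fun i _ => ?_)
    by_cases h : i ∈ s <;> simp [h]

/-- The image of the pentagon is the convex hull of the images of the vertices. -/
lemma range_isometry {φ : pentagon → E3} (hφ : Isometry φ) :
    Set.range φ = convexHull ℝ (Set.range fun i => φ (pv i)) := by
  apply Set.Subset.antisymm
  · rintro _ ⟨x, rfl⟩
    obtain ⟨w, h0, h1, hx⟩ := exists_pent_weights x.2
    rw [isometry_comb hφ Finset.univ w h1 pv x hx]
    exact (convex_convexHull ℝ _).sum_mem (fun i _ => h0 i) h1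
      (fun i _ => subset_convexHull _ _ ⟨i, rfl⟩)
  · refine convexHull_min ?_ ?_
    · rintro _ ⟨i, rfl⟩
      exact ⟨pv i, rfl⟩
    · rintro _ ⟨x, rfl⟩ _ ⟨y, rfl⟩ a b ha hb hab
      have hmem : a • (x : E2) + b • (y : E2) ∈ pentagon :=
        pentagon_convex x.2 y.2 ha hb hab
      refine ⟨⟨_, hmem⟩, ?_⟩
      have h := isometry_comb hφ (Finset.univ : Finset (Fin 2)) ![a, b]
        (by simpa using hab) ![x, y] ⟨_, hmem⟩ (by
          rw [Fin.sum_univ_two]
          simp only [Matrix.cons_val_zero, Matrix.cons_val_one])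
      rw [Fin.sum_univ_two] at h
      simpa using h

end Pool.Agent.Lib.MP_59160a_co
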