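import Pool.Agent.Lib.MP_59160a_co.Build
import Pool.Agent.Lib.MP_59160a_co.Iso

/-!
The surface is the boundary of the union of dodecahedra.
-/

set_option autoImplicit false
set_option linter.unusedSectionVars false

namespace Pool.Agent.Lib.MP_59160a_co

open Module Equiv.Perm Finset unitInterval

/-- The dart structure `S` describes the surface `N` with the map `f`; `c F` tells the orientation
of the pentagon `F`. -/
structure Desc (N : PentComplex) (f : N.Carrier → E3) (c : Fin N.n → Bool)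
    (S : Pent (Fin N.n × ZMod 5) E3) : Prop where
  iso : ∀ F, Isometry fun x : pentagon => f (N.pt F x)
  hal : ∀ d, S.al d = N.glue d
  hnx : ∀ F i, S.nx (F, i) = (F, if c F then i - 1 else i + 1)
  hp : ∀ F i, S.p (F, i) = f (N.pt F (pv (if c F then i + 1 else i)))
  hrev : ∀ F i, N.rev (F, i) = (c F == c (N.glue (F, i)).1)

namespace Desc

open Pent Pent.Fl

variable {N : PentComplex} {f : N.Carrier → E3} {c : Fin N.n → Bool}
    {S : Pent (Fin N.n × ZMod 5) E3} (H : Desc N f c S)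

/-- The point with parameter `t` on a dart. -/
noncomputable def ept (N : PentComplex) (c : Fin N.n → Bool) (d : Fin N.n × ZMod 5) (t : I) :
    N.Carrier := N.pt d.1 (sP d.2 (if c d.1 then σ t else t))

include H in
lemma ept_al (d : Fin N.n × ZMod 5) (t : I) : ept N c (S.al d) (σ t) = ept N c d t := by
  obtain ⟨F, i⟩ := d
  symm
  rw [H.hal]
  have hr := H.hrev F i
  unfold ept
  apply Quot.sound
  refine ⟨i, (if c F then σ t else t : I), (if c F then σ t else t : I).2.1,
    (if c F then σ t else t : I).2.2, rfl, rfl, ?_⟩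
  rw [hr]
  change sidePoint _ _ = sidePoint _ _
  congr 1
  cases c F <;> cases c (N.glue (F, i)).1 <;> simp

include H in
lemma ept_nx (d : Fin N.n × ZMod 5) : ept N c (S.nx d) 0 = ept N c d 1 := by
  obtain ⟨F, i⟩ := d
  rw [H.hnx]
  unfold ept
  cases hc : c F
  · simp only [Bool.false_eq_true, if_false, sP_zero, sP_one]
  · simp only [if_true, symm_zero, symm_one, sP_zero, sP_one, sub_add_cancel]

include H in
lemma p_nx' (F : Fin N.n) (i : ZMod 5) :
    S.p (S.nx (F, i)) = f (N.pt F (pv (if c F then i else i + 1))) := by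
  rw [H.hnx, H.hp]
  cases c F
  · simp
  · simp

include H in
lemma f_ept (d : Fin N.n × ZMod 5) (t : I) :
    f (ept N c d t) = S.p d + (t : ℝ) • S.u d := by
  obtain ⟨F, i⟩ := d
  unfold ept
  rw [isometry_sP (H.iso F)]
  unfold Pent.u
  rw [H.p_nx', H.hp]
  cases hc : c F
  · simp only [Bool.false_eq_true, if_false]
    module
  · simp only [if_true, coe_symm_eq]
    module

include H in
lemma ept_sg (d : Fin N.n × ZMod 5) : ept N c (S.sg d) 0 = ept N c d 0 := by
  rw [S.sg_apply]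
  have h1 := H.ept_al (S.nx⁻¹ d) 1
  rw [symm_one] at h1
  rw [h1, ← H.ept_nx, perm_apply_inv]

/-- Invariant functions are constant on cycles. -/
lemma cycle_inv {X α : Type*} (ρ : Equiv.Perm X) (w : X → α) (h : ∀ x, w (ρ x) = w x) {x y : X}
    (hxy : SameCycle ρ x y) : w x = w y := by
  have h1 : ∀ (n : ℕ) z, w ((ρ ^ n) z) = w z := by
    intro n
    induction n with
    | zero => intro z; rfl
    | succ n ih => intro z; rw [pow_succ', Equiv.Perm.mul_apply, h, ih]
  obtain ⟨k, rfl⟩ := hxy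
  obtain ⟨n, rfl | rfl⟩ := k.eq_nat_or_neg
  · rw [zpow_natCast, h1]
  · rw [zpow_neg, zpow_natCast]
    have := h1 n ((ρ ^ n)⁻¹ x)
    rw [perm_apply_inv] at this
    exact this

include H in
lemma ept_same {d d' : Fin N.n × ZMod 5} (h : SameCycle S.sg d d') :
    ept N c d 0 = ept N c d' 0 :=
  cycle_inv S.sg (fun d => ept N c d 0) (fun d => H.ept_sg d) h

include H in
lemma nx_fst {d d' : Fin N.n × ZMod 5} (h : SameCycle S.nx d d') : d.1 = d'.1 :=
  cycle_inv S.nx (fun d => d.1) (fun d => by obtain ⟨F, i⟩ := d; rw [H.hnx]) h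

/-! ### Facets of faces -/

/-- The facet of a face. -/
noncomputable def OF (S : Pent (Fin N.n × ZMod 5) E3) (F : Fin N.n) : S.Fct := fct' (bfl (F, 0))

include H in
lemma fct_bfl (F : Fin N.n) (i : ZMod 5) : fct' (bfl (F, i) : S.Fl) = OF S F := by
  have h1 : ∀ i, fct' (bfl (F, i + 1) : S.Fl) = fct' (bfl (F, i) : S.Fl) := by
    intro i
    cases hc : c F
    · have := H.hnx F i
      rw [hc] at this
      simp only [Bool.false_eq_true, if_false] at this
      rw [← this, fct_bfl_nx]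
    · have := H.hnx F (i + 1)
      rw [hc] at this
      simp only [if_true, add_sub_cancel_right] at this
      conv_rhs => rw [← this]
      rw [fct_bfl_nx]
  have h2 : ∀ n : ℕ, fct' (bfl (F, (n : ZMod 5)) : S.Fl) = OF S F := by
    intro n
    induction n with
    | zero => simp [OF]
    | succ n ih => rw [Nat.cast_succ, h1, ih]
  have h3 := h2 i.val
  rwa [ZMod.natCast_zmod_val] at h3

lemma OF_not_intr (F : Fin N.n) : ¬ IntrF (OF S F) := bfl_not_intr _

lemma eq_bfl {q : S.Fl} (h : q.d 1 = S.sg (q.d 0)) : q = bfl (q.d 0) :=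
  face_ext h (bfl_one _) (by rw [bfl_zero])

include H in
/-- The flags of the facet of a face. -/
lemma face_flags {q : S.Fl} {F : Fin N.n} (h : fct' q = OF S F) :
    (q.d 1 = S.sg (q.d 0) ∧ (q.d 0).1 = F) ∨ (q.d 0 = S.sg (q.d 1) ∧ (q.d 1).1 = F) := by
  have h1 : ¬ q.Intr := by
    rw [← intrF_iff, h]; exact OF_not_intr F
  rcases not_intr h1 with h2 | h2
  · left
    refine ⟨h2, ?_⟩
    rw [eq_bfl h2] at h
    exact (H.nx_fst (fct_bfl_inj h))
  · right
    refine ⟨h2, ?_⟩
    have h3 : t1 q = bfl (q.d 1) := eq_bfl (q := t1 q) h2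
    rw [← fct_t1, h3] at h
    exact (H.nx_fst (fct_bfl_inj h))

include H in
lemma OF_inj {F F' : Fin N.n} (h : OF S F = OF S F') : F = F' :=
  H.nx_fst (fct_bfl_inj h)

include H in
/-- Every facet that is not interior comes from a face. -/
lemma exists_face {O : S.Fct} (h : ¬ IntrF O) : ∃ F, OF S F = O := by
  obtain ⟨q, rfl⟩ := exists_rep O
  rw [intrF_iff] at h
  rcases not_intr h with h2 | h2
  · refine ⟨(q.d 0).1, ?_⟩
    rw [eq_bfl h2, bfl_zero]
    exact (H.fct_bfl (q.d 0).1 (q.d 0).2).symm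
  · refine ⟨(q.d 1).1, ?_⟩
    have h3 : t1 q = bfl (q.d 1) := eq_bfl (q := t1 q) h2
    rw [← fct_t1, h3]
    exact (H.fct_bfl (q.d 1).1 (q.d 1).2).symm

include H in
lemma vpos_OF (F : Fin N.n) : vpos (OF S F) = Set.range fun i => f (N.pt F (pv i)) := by
  apply Set.Subset.antisymm
  · rintro _ ⟨q, hq, rfl⟩
    have key : ∀ d : Fin N.n × ZMod 5, d.1 = F → S.p d ∈ Set.range fun i => f (N.pt F (pv i)) := by
      rintro ⟨F', j⟩ rfl
      rw [H.hp]
      exact ⟨_, rfl⟩
    rcases H.face_flags hq with ⟨-, h2⟩ | ⟨-, h2⟩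
    · exact key _ h2
    · rw [S.p_same (q.same 0 1)]
      exact key _ h2
  · rintro _ ⟨i, rfl⟩
    refine ⟨bfl (F, if c F then i - 1 else i), H.fct_bfl _ _, ?_⟩
    rw [bfl_zero, H.hp]
    cases c F <;> simp

/-- The dodecahedron and the facet of a face. -/
noncomputable def KF (S : Pent (Fin N.n × ZMod 5) E3) (F : Fin N.n) : S.Cls := cl (OF S F)

noncomputable def kF (S : Pent (Fin N.n × ZMod 5) E3) (F : Fin N.n) : Fin 12 := fi (OF S F)

lemma OO_KF (F : Fin N.n) : OO (KF S F) (kF S F) = OF S F := OO_cl_fi _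

include H in
lemma pl_facet_KF (F : Fin N.n) :
    pl (KF S F) '' facet (kF S F) = Set.range fun x : pentagon => f (N.pt F x) := by
  rw [pl_facet, OO_KF, H.vpos_OF, range_isometry (H.iso F)]

include H in
lemma symm_mem (F : Fin N.n) (x : pentagon) :
    (pl (KF S F)).symm (f (N.pt F x)) ∈ facet (kF S F) := by
  have h1 : f (N.pt F x) ∈ pl (KF S F) '' facet (kF S F) := by
    rw [H.pl_facet_KF]; exact ⟨x, rfl⟩
  obtain ⟨z, hz, hz'⟩ := h1
  rw [← hz', AffineIsometryEquiv.symm_apply_apply]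
  exact hz

/-- The placement of a pentagon on its dodecahedron. -/
noncomputable def eF (F : Fin N.n) (x : pentagon) : dodecahedron :=
  ⟨(pl (KF S F)).symm (f (N.pt F x)), (H.symm_mem F x).1⟩

lemma eF_mem (F : Fin N.n) (x : pentagon) : (H.eF F x : E3) ∈ facet (kF S F) := H.symm_mem F x

lemma pl_eF (F : Fin N.n) (x : pentagon) : pl (KF S F) (H.eF F x : E3) = f (N.pt F x) :=
  AffineIsometryEquiv.apply_symm_apply _ _

lemma eF_iso (F : Fin N.n) : Isometry (H.eF F) := by
  intro x y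
  exact ((pl (KF S F)).symm.isometry.comp (H.iso F)) x y

lemma eF_range (F : Fin N.n) : (Set.range fun x => (H.eF F x : E3)) = facet (kF S F) := by
  ext z
  constructor
  · rintro ⟨x, rfl⟩; exact H.eF_mem F x
  · intro hz
    have h1 : pl (KF S F) z ∈ pl (KF S F) '' facet (kF S F) := ⟨z, hz, rfl⟩
    rw [H.pl_facet_KF] at h1
    obtain ⟨x, hx⟩ := h1
    refine ⟨x, ?_⟩
    apply (pl (KF S F)).injective
    rw [H.pl_eF]
    exact hx

/-! ### The fan around an edge -/

lemma ed_mem (i : Fin 20) (a : Fin 3) (t : I) : ed i a t ∈ dodecahedron := by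
  obtain ⟨c, c', hc, -⟩ := two_ports a
  exact (ed_mem_facet hc t.2.1 t.2.2).1

/-- The edge point of a flag. -/
noncomputable def wq (t : I) (q : S.Fl) : (BB S).Carrier :=
  (BB S).pt (cls q) ⟨ed (Phi q).1 ((Phi q).2 0) t, ed_mem _ _ _⟩

lemma pt_congr {K K' : S.Cls} {z z' : dodecahedron} (h : K = K') (hz : (z : E3) = z') :
    (BB S).pt K z = (BB S).pt K' z' := by
  subst h
  rw [Subtype.ext hz]

lemma wq_t2 (t : I) (q : S.Fl) : wq t (t2 q) = wq t q := by
  unfold wq
  refine pt_congr (cls_t2 q) ?_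
  change ed (Phi (t2 q)).1 ((Phi (t2 q)).2 0) t = ed (Phi q).1 ((Phi q).2 0) t
  rw [Phi_t2]
  rfl

lemma gl_t3 {q : S.Fl} : gl (cls q, fc (Phi q)) = (cls (t3 q), fc (Phi (t3 q))) := by
  unfold gl
  simp only [← fct_eq_OO, T_fct, cl_fct, fi_fct]

lemma pl_wq (t : I) (q : S.Fl) : pl (cls q) (ed (Phi q).1 ((Phi q).2 0) t) =
    S.p (q.d 0) + (t : ℝ) • S.u (q.d 0) := by
  rw [pl_ed, ← d_eq_dd]

lemma wq_t3 (t : I) {q : S.Fl} (h : q.Intr) : wq t (t3 q) = wq t q := by
  symm
  unfold wq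
  apply Quot.sound
  refine ⟨fc (Phi q), fc (Phi (t3 q)), gl_t3, ?_, ?_, ?_, ?_⟩
  · intro h1
    exact cls_t3_ne h (congrArg Prod.fst h1).symm
  · exact ed_mem_facet (fun h => absurd ((Phi q).2.injective h) (by decide)) t.2.1 t.2.2
  · exact ed_mem_facet (fun h => absurd ((Phi (t3 q)).2.injective h) (by decide)) t.2.1 t.2.2
  · change pl (cls q) (ed (Phi q).1 ((Phi q).2 0) t) =
      pl (cls (t3 q)) (ed (Phi (t3 q)).1 ((Phi (t3 q)).2 0) t)
    rw [pl_wq, pl_wq, t3_ne_two (by decide)]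

/-- The two ends of the fan around an edge. -/
lemma wq_ends (t : I) (d : Fin N.n × ZMod 5) :
    wq t (bfl d : S.Fl) = wq t (t1 (bfl (S.sg⁻¹ d)) : S.Fl) := by
  classical
  by_contra hne
  set q1 : S.Fl := bfl d with hq1
  set q2 : S.Fl := t1 (bfl (S.sg⁻¹ d)) with hq2
  let A : Finset S.Fl := univ.filter (fun q => q.d 0 = d ∧ wq t q = wq t q1)
  have hA : ∀ q, q ∈ A ↔ q.d 0 = d ∧ wq t q = wq t q1 := by intro q; simp [A]
  have hq1A : q1 ∈ A := by rw [hA]; exact ⟨bfl_zero d, rfl⟩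
  have hend : ∀ q, q ∈ A → q ≠ q1 → q.Intr := by
    intro q hq hqne
    rw [hA] at hq
    by_contra hI
    rcases not_intr hI with h2 | h2
    · apply hqne
      rw [eq_bfl h2, hq.1]
    · have h3 : t1 q = bfl (q.d 1) := eq_bfl (q := t1 q) h2
      have h4 : q.d 1 = S.sg⁻¹ d := by
        rw [← hq.1, h2, perm_inv_apply]
      have h5 : q = q2 := by
        rw [hq2, ← h4, ← h3, t1_t1]
      apply hne
      rw [← hq.2, h5]
  have h1 : ∑ _q ∈ A, (1 : ZMod 2) = 0 := by
    refine Finset.sum_involution (fun q _ => t2 q) ?_ ?_ ?_ ?_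
    · intro q _; decide
    · intro q _ _; exact t2_ne q
    · intro q hq
      rw [hA] at hq ⊢
      exact ⟨hq.1, by rw [wq_t2]; exact hq.2⟩
    · intro q _; exact t2_t2 q
  have h2 : ∑ _q ∈ A.erase q1, (1 : ZMod 2) = 0 := by
    refine Finset.sum_involution (fun q _ => t3 q) ?_ ?_ ?_ ?_
    · intro q _; decide
    · intro q hq _ h
      rw [Finset.mem_erase] at hq
      have hI := hend q hq.2 hq.1
      apply t3_two hI
      rw [h]
    · intro q hq
      rw [Finset.mem_erase] at hq ⊢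
      have hI := hend q hq.2 hq.1
      have hq' := (hA q).1 hq.2
      refine ⟨?_, ?_⟩
      · intro h
        have h3 := t3_intr hI
        rw [h] at h3
        exact intr_of_face (bfl_one d) h3
      · rw [hA, t3_ne_two (by decide), wq_t3 t hI]
        exact hq'
    · intro q hq
      rw [Finset.mem_erase] at hq
      exact t3_t3 (hend q hq.2 hq.1)
  rw [← Finset.add_sum_erase _ _ hq1A, h2] at h1
  revert h1
  decide

/-- The point of a face is the edge point of a flag. -/
lemma pt_eq_wq {F : Fin N.n} {x : pentagon} {q : S.Fl} {t : I} (h : cls q = KF S F)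
    (hx : f (N.pt F x) = S.p (q.d 0) + (t : ℝ) • S.u (q.d 0)) :
    (BB S).pt (KF S F) (H.eF F x) = wq t q := by
  unfold wq
  refine pt_congr h.symm ?_
  apply (pl (KF S F)).injective
  rw [H.pl_eF, hx, ← h, ← pl_wq]

/-! ### The boundary map -/

/-- The map to the union of dodecahedra. -/
noncomputable def hh : N.Carrier → (BB S).Carrier :=
  Quot.lift (fun a : Fin N.n × pentagon => (BB S).pt (KF S a.1) (H.eF a.1 a.2)) (by
    rintro ⟨F, x⟩ ⟨F', x'⟩ hab
    have hpt : N.pt F x = N.pt F' x' := Quot.sound hab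
    obtain ⟨i, τ, h0, h1, hx, hF, -⟩ := hab
    simp only at hx hF ⊢
    have hxs : x = sP i ⟨τ, h0, h1⟩ := Subtype.ext hx
    let t : I := if c F then σ ⟨τ, h0, h1⟩ else ⟨τ, h0, h1⟩
    have he : ept N c (F, i) t = N.pt F x := by
      unfold ept
      rw [hxs]
      simp only [t]
      cases c F <;> simp
    have hf := H.f_ept (F, i) t
    rw [he] at hf
    have e1 : (BB S).pt (KF S F) (H.eF F x) = wq t (bfl (F, i) : S.Fl) := by
      apply H.pt_eq_wq
      · rw [← cl_fct, H.fct_bfl]; rfl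
      · rw [bfl_zero]; exact hf
    have e2 : (BB S).pt (KF S F') (H.eF F' x') = wq t (t1 (bfl (S.sg⁻¹ (F, i))) : S.Fl) := by
      apply H.pt_eq_wq
      · rw [cls_t1, ← cl_fct, S.sg_inv, fct_bfl_nx, H.hal]
        have := H.fct_bfl (N.glue (F, i)).1 (N.glue (F, i)).2
        rw [← hF] at this
        unfold KF
        rw [← this, hF]
      · have h3 : (t1 (bfl (S.sg⁻¹ (F, i))) : S.Fl).d 0 = (F, i) := by
          change (bfl (S.sg⁻¹ (F, i)) : S.Fl).d 1 = (F, i)
          rw [bfl_one, bfl_zero, perm_apply_inv]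
        rw [h3, ← hpt]; exact hf
    rw [e1, e2, wq_ends])

lemma hh_pt (F : Fin N.n) (x : pentagon) :
    H.hh (N.pt F x) = (BB S).pt (KF S F) (H.eF F x) := rfl

lemma hh_continuous : Continuous H.hh := by
  apply continuous_quot_lift
  have h1 : ∀ F : Fin N.n, Continuous fun x : pentagon => (BB S).pt (KF S F) (H.eF F x) := by
    intro F
    have h2 : Continuous ((BB S).pt (KF S F)) :=
      continuous_quot_mk.comp (Continuous.prodMk_right _)
    exact h2.comp (H.eF_iso F).continuous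
  rw [continuous_prod_of_discrete_left]
  exact h1

lemma map_hh (m : N.Carrier) : (BB S).map (H.hh m) = f m := by
  induction m using Quot.ind with
  | mk a => exact H.pl_eF a.1 a.2

/-! ### Labels -/

/-- The labels of the points of the dodecahedra. -/
def Lab (K : S.Cls) (z : dodecahedron) (m : N.Carrier) : Prop :=
  (∃ (i : Fin 20) (b : Fin 3) (t : I), (z : E3) = ed i b t ∧ m = ept N c (dd K i b) t) ∨
  (∃ (F : Fin N.n) (x : pentagon), KF S F = K ∧ (z : E3) = (H.eF F x : E3) ∧ m = N.pt F x)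

include H in
lemma ept_vertex_zero (K : S.Cls) (i : Fin 20) (b b' : Fin 3) :
    ept N c (dd K i b) 0 = ept N c (dd K i b') 0 := H.ept_same (dd_same K i b b')

include H in
lemma ept_vertex_one (K : S.Cls) (i : Fin 20) (b b' : Fin 3) :
    ept N c (dd K i b) 1 = ept N c (dd K (nb i b) b') 0 := by
  have h1 := H.ept_al (dd K i b) 1
  rw [symm_one, ← dd_al] at h1
  rw [← h1]
  exact H.ept_vertex_zero K _ _ _

include H in
/-- Edge labels are well defined. -/
lemma lab_ee (K : S.Cls) {i j : Fin 20} {a b : Fin 3} {t t' : I} (h : ed i a t = ed j b t') :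
    ept N c (dd K i a) t = ept N c (dd K j b) t' := by
  rcases ed_cases t.2.1 t.2.2 t'.2.1 t'.2.2 h with ⟨rfl, rfl, h1⟩ | ⟨rfl, rfl, h1⟩ | ⟨l, h1, h2⟩
  · rw [Subtype.ext h1]
  · rw [dd_al]
    have h2 : t' = σ t := Subtype.ext h1
    rw [h2, H.ept_al]
  · have key : ∀ (i : Fin 20) (a : Fin 3) (t : I), ((i = l ∧ (t : ℝ) = 0) ∨
        (nb i a = l ∧ (t : ℝ) = 1)) → ept N c (dd K i a) t = ept N c (dd K l 0) 0 := by
      rintro i a t (⟨rfl, h3⟩ | ⟨rfl, h3⟩)
      · have : t = 0 := Subtype.ext h3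
        rw [this]
        exact H.ept_vertex_zero K _ _ _
      · have : t = 1 := Subtype.ext h3
        rw [this]
        exact H.ept_vertex_one K _ _ _
    rw [key _ _ _ h1, key _ _ _ h2]

lemma perm_two {a c : Fin 3} (h : c ≠ a) : ∃ π : Equiv.Perm (Fin 3), π 0 = a ∧ π 2 = c := by
  revert a c; decide

/-- A point of a face on an edge of its facet. -/
lemma lab_face {F : Fin N.n} {x : pentagon} {i : Fin 20} {a b : Fin 3} {t : I} (hb : b ≠ a)
    (hk : fct i b = kF S F) (hz : (H.eF F x : E3) = ed i a t) :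
    N.pt F x = ept N c (dd (KF S F) i a) t := by
  obtain ⟨π, hπ0, hπ2⟩ := perm_two hb
  set q : S.Fl := Q (KF S F) (i, π) with hq
  have hfct : fct' q = OF S F := by
    rw [fct_eq_OO, hq, (Q_mem _ _).1, (Q_mem _ _).2]
    have : fc (i, π) = kF S F := by unfold fc; rw [hπ2]; exact hk
    rw [this, OO_KF]
  have hd : q.d 0 = dd (KF S F) i a := by rw [hq, Q_d, hπ0]
  have hpos : f (N.pt F x) = f (ept N c (dd (KF S F) i a) t) := by
    rw [H.f_ept, ← H.pl_eF, hz, pl_ed]
  have hinj : ∀ y : pentagon, f (N.pt F x) = f (N.pt F y) → N.pt F x = N.pt F y := by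
    intro y hy
    rw [(H.iso F).injective hy]
  rcases H.face_flags hfct with ⟨-, h1⟩ | ⟨h0, h1⟩
  · rw [← hd] at hpos ⊢
    unfold ept at hpos ⊢
    rw [h1] at hpos ⊢
    exact hinj _ hpos
  · have h2 : (S.al (q.d 0)).1 = F := by
      rw [h0, S.sg_apply, S.al_al, ← h1]
      apply H.nx_fst
      exact ⟨1, by rw [zpow_one, perm_apply_inv]⟩
    rw [← hd] at hpos ⊢
    rw [← H.ept_al] at hpos ⊢
    unfold ept at hpos ⊢
    rw [h2] at hpos ⊢
    exact hinj _ hpos

/-- One of the two facets of an edge is different from a given facet. -/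
lemma other_facet (i : Fin 20) (a : Fin 3) (k : Fin 12) : ∃ b, b ≠ a ∧ k ≠ fct i b := by
  obtain ⟨c, c', hc, hc', hcc, -⟩ := two_ports a
  by_cases h : k = fct i c
  · refine ⟨c', hc', ?_⟩
    intro h'
    exact hcc (fct_inj i c c' (h.symm.trans h'))
  · exact ⟨c, hc, h⟩

/-- A label of an edge point is the edge label. -/
lemma lab_edge {K : S.Cls} {z : dodecahedron} {m : N.Carrier} (h : H.Lab K z m) {i : Fin 20}
    {b : Fin 3} {t : I} (hz : (z : E3) = ed i b t) : m = ept N c (dd K i b) t := by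
  rcases h with ⟨j, b', t', h1, rfl⟩ | ⟨F, x, h1, h2, rfl⟩
  · exact H.lab_ee K (h1.symm.trans hz)
  · obtain ⟨b', hb', hne⟩ := other_facet i b (kF S F)
    have m1 : (H.eF F x : E3) ∈ facet (kF S F) := H.eF_mem F x
    have m2 : (H.eF F x : E3) ∈ facet (fct i b') := by
      rw [← h2, hz]; exact ed_mem_facet hb' t.2.1 t.2.2
    obtain ⟨i', a', b'', t', h0', h1', hb'', hk, hz'⟩ := two_facets hne m1 m2
    have h3 := H.lab_face (t := ⟨t', h0', h1'⟩) hb'' hk hz'
    rw [h3, ← h1]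
    apply H.lab_ee
    rw [← hz', ← h2, hz]

/-- A point on the edge of a facet: the coordinates along an edge of that facet. -/
lemma lab_on {K : S.Cls} {z : dodecahedron} {m : N.Carrier} (h : H.Lab K z m) {k : Fin 12}
    (hk : (z : E3) ∈ facet k) (hI : IntrF (OO K k)) :
    ∃ (i : Fin 20) (b b' : Fin 3) (t : I), b' ≠ b ∧ fct i b' = k ∧ (z : E3) = ed i b t ∧
      m = ept N c (dd K i b) t := by
  have h1 : ∃ k', k ≠ k' ∧ (z : E3) ∈ facet k' := by
    rcases h with ⟨j, b', t', h1, -⟩ | ⟨F, x, h1, h2, -⟩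
    · obtain ⟨b'', hb'', hne⟩ := other_facet j b' k
      exact ⟨_, hne, by rw [h1]; exact ed_mem_facet hb'' t'.2.1 t'.2.2⟩
    · refine ⟨kF S F, ?_, by rw [h2]; exact H.eF_mem F x⟩
      rintro rfl
      rw [← h1, OO_KF] at hI
      exact OF_not_intr F hI
  obtain ⟨k', hne, hk'⟩ := h1
  obtain ⟨i', a', b'', t', h0', h1', hb'', hkk, hz'⟩ := two_facets hne hk hk'
  exact ⟨i', a', b'', ⟨t', h0', h1'⟩, hb'', hkk, hz', H.lab_edge h hz'⟩

/-- Labels are unique. -/
lemma lab_unique {K : S.Cls} {z : dodecahedron} {m m' : N.Carrier} (h : H.Lab K z m)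
    (h' : H.Lab K z m') : m = m' := by
  have hedge : ∀ {i : Fin 20} {b : Fin 3} {t : I}, (z : E3) = ed i b t → m = m' :=
    fun hz => (H.lab_edge h hz).trans (H.lab_edge h' hz).symm
  rcases h with ⟨j, b', t', h1, -⟩ | ⟨F, x, h1, h2, rfl⟩
  · exact hedge h1
  rcases h' with ⟨j, b', t', h1', -⟩ | ⟨F', x', h1', h2', rfl⟩
  · exact hedge h1'
  by_cases hk : kF S F = kF S F'
  · have h3 : F = F' := by
      apply H.OF_inj
      rw [← OO_KF, ← OO_KF, h1, h1', hk]
    subst h3
    have h4 : x = x' := by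
      apply (H.eF_iso F).injective
      apply Subtype.ext
      rw [← h2, h2']
    rw [h4]
  · have m1 : (z : E3) ∈ facet (kF S F) := by rw [h2]; exact H.eF_mem F x
    have m2 : (z : E3) ∈ facet (kF S F') := by rw [h2']; exact H.eF_mem F' x'
    obtain ⟨i', a', b'', t', h0', h1', -, -, hz'⟩ := two_facets hk m1 m2
    exact hedge (t := ⟨t', h0', h1'⟩) hz'

/-- Labels are compatible with the gluing. -/
lemma lab_rel' {K K' : S.Cls} {z z' : dodecahedron} {k l : Fin 12} (hgl : gl (K, k) = (K', l))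
    (hne : (K, k) ≠ (K', l)) (ha : (z : E3) ∈ facet k) (hpl : pl K (z : E3) = pl K' (z' : E3))
    {m : N.Carrier} (h : H.Lab K z m) : H.Lab K' z' m := by
  have hI : IntrF (OO K k) := by
    apply OO_intr_of_ne
    rw [hgl]
    exact fun h => hne h.symm
  obtain ⟨i, e, e', t, he, hk, hz, hm⟩ := H.lab_on h ha hI
  obtain ⟨π, hπ0, hπ2⟩ := perm_two he
  set q : S.Fl := Q K (i, π) with hq
  have hcls : cls q = K := by rw [hq, (Q_mem K _).1]
  have hPhi : Phi q = (i, π) := by rw [hq, (Q_mem K _).2]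
  have hfc : fc (Phi q) = k := by
    rw [hPhi]; unfold fc; rw [hπ2]; exact hk
  have hOO : fct' q = OO K k := by rw [fct_eq_OO, hcls, hfc]
  have hqI : q.Intr := by rw [← intrF_iff, hOO]; exact hI
  have hg2 := gl_t3 (q := q)
  rw [hcls, hfc, hgl] at hg2
  have hb1 : K' = cls (t3 q) := congrArg Prod.fst hg2
  have hd : (t3 q).d 0 = dd K i e := by
    rw [t3_ne_two (by decide), hq, Q_d, hπ0]
  have hd' := d_eq_dd (t3 q) 0
  rw [hd, ← hb1] at hd'
  left
  refine ⟨(Phi (t3 q)).1, (Phi (t3 q)).2 0, t, ?_, ?_⟩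
  · apply (pl K').injective
    rw [← hpl, hz, pl_ed, pl_ed, hd']
  · rw [hm, hd']

lemma lab_rel {a b : (BB S).ι × dodecahedron} (hab : (BB S).Rel a b) {m : N.Carrier}
    (h : H.Lab a.1 a.2 m) : H.Lab b.1 b.2 m := by
  obtain ⟨k, l, hkl, hne, ha, -, hpl⟩ := hab
  exact H.lab_rel' hkl hne ha hpl h

lemma rel_symm {a b : (BB S).ι × dodecahedron} (hab : (BB S).Rel a b) : (BB S).Rel b a := by
  obtain ⟨k, l, hkl, hne, ha, hb, hpl⟩ := hab
  refine ⟨l, k, ?_, hne.symm, hb, ha, hpl.symm⟩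
  rw [← hkl, (BB S).glue_glue]

/-- Labels on the union. -/
def LabQ : (BB S).Carrier → N.Carrier → Prop :=
  Quot.lift (fun a => H.Lab a.1 a.2) (by
    intro a b hab
    funext m
    exact propext ⟨H.lab_rel hab, H.lab_rel (rel_symm hab)⟩)

lemma labQ_hh (m : N.Carrier) : H.LabQ (H.hh m) m := by
  induction m using Quot.ind with
  | mk a => exact Or.inr ⟨a.1, a.2, rfl, rfl, rfl⟩

lemma hh_injective : Function.Injective H.hh := by
  intro m m' h
  have h1 := H.labQ_hh m
  have h2 := H.labQ_hh m'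
  rw [h] at h1
  revert h1 h2
  generalize H.hh m' = z
  induction z using Quot.ind with
  | mk a => exact fun h1 h2 => H.lab_unique h1 h2

lemma gl_KF (F : Fin N.n) : gl (KF S F, kF S F) = (KF S F, kF S F) := by
  rw [gl_eq_iff, OO_KF]
  exact OF_not_intr F

lemma hh_range' {K : S.Cls} {k : Fin 12} (hg : gl (K, k) = (K, k)) {x : dodecahedron}
    (hx : (x : E3) ∈ facet k) : ∃ m, H.hh m = (BB S).pt K x := by
  have h1 : ¬ IntrF (OO K k) := (gl_eq_iff K k).1 hg
  obtain ⟨F, hF⟩ := H.exists_face h1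
  have hK : KF S F = K := by unfold KF; rw [hF, cl_OO]
  have hk : kF S F = k := by unfold kF; rw [hF, fi_OO]
  rw [← hk, ← H.eF_range F] at hx
  obtain ⟨y, hy⟩ := hx
  refine ⟨N.pt F y, ?_⟩
  rw [H.hh_pt]
  exact pt_congr hK hy

lemma hh_range : Set.range H.hh = (BB S).boundary := by
  apply Set.Subset.antisymm
  · rintro _ ⟨m, rfl⟩
    induction m using Quot.ind with
    | mk a => exact ⟨KF S a.1, kF S a.1, H.eF a.1 a.2, gl_KF a.1, H.eF_mem a.1 a.2, rfl⟩
  · rintro _ ⟨K, k, x, hg, hx, rfl⟩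
    exact H.hh_range' hg hx

include H in
/-- The surface is the boundary of the union of dodecahedra. -/
theorem isBoundaryOf : IsBoundaryOf N f (BB S) :=
  ⟨H.hh, H.hh_continuous, H.hh_injective, H.hh_range, H.map_hh,
    fun F => ⟨KF S F, kF S F, gl_KF F, H.eF F, H.eF_iso F, H.eF_range F, fun x => H.hh_pt F x⟩⟩

end Desc

end Pool.Agent.Lib.MP_59160a_co
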