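import Pool.Agent.Lib.MP_59160a_co.Orient
import Pool.Agent.Lib.MP_59160a_co.Bdry

/-!
From an immersed pentagonal sphere to the dart structure.
-/

set_option autoImplicit false
set_option linter.unusedSectionVars false

namespace Pool.Agent.Lib.MP_59160a_co

open unitInterval Topology Equiv.Perm

/-! ### Points of the surface -/

section Points

variable {N : PentComplex}

lemma Rel_symm {a b : Fin N.n × pentagon} (h : N.Rel a b) : N.Rel b a := by
  obtain ⟨F, x⟩ := a
  obtain ⟨F', x'⟩ := b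
  obtain ⟨i, t, rfl, rfl, rfl⟩ := rel_sP h
  refine ⟨(N.glue (F, i)).2, (if N.rev (F, i) then σ t else t : I),
    (if N.rev (F, i) then σ t else t : I).2.1, (if N.rev (F, i) then σ t else t : I).2.2, rfl, ?_, ?_⟩
  · change F = (N.glue (N.glue (F, i))).1
    rw [N.glue_glue]
  · change sidePoint i t = sidePoint (N.glue (N.glue (F, i))).2 (if N.rev (N.glue (F, i)) then _ else _)
    rw [N.glue_glue, N.rev_glue]
    cases N.rev (F, i) <;> simp

/-- Interior points of faces are not identified with other points. -/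
lemma pt_interior {F F' : Fin N.n} {x x' : pentagon} (hx : (x : E2) ∉ pbd)
    (h : N.pt F x = N.pt F' x') : F = F' ∧ x = x' := by
  let P : N.Carrier → Prop := Quot.lift (fun a : Fin N.n × pentagon => a = (F, x)) (by
    rintro ⟨G, y⟩ ⟨G', y'⟩ hab
    obtain ⟨i, t, rfl, rfl, rfl⟩ := rel_sP hab
    apply propext
    have key : ∀ (G : Fin N.n) (j : ZMod 5) (r : I), (G, sP j r) ≠ (F, x) := by
      intro G j r h
      apply hx
      have h2 : sP j r = x := congrArg (fun a : Fin N.n × pentagon => a.2) h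
      rw [← h2]
      exact sP_mem_pbd j r
    exact ⟨fun h => absurd h (key _ _ _), fun h => absurd h (key _ _ _)⟩)
  have h1 : P (N.pt F x) := rfl
  rw [h] at h1
  have h2 : (F', x') = (F, x) := h1
  exact ⟨(congrArg Prod.fst h2).symm, (congrArg Prod.snd h2).symm⟩

/-- Open side points are only identified with one other point. -/
lemma pt_side {d d' : Fin N.n × ZMod 5} {t t' : I} (h0 : 0 < (t : ℝ)) (h1 : (t : ℝ) < 1)
    (h : N.pt d.1 (sP d.2 t) = N.pt d'.1 (sP d'.2 t')) :
    (d = d' ∧ t = t') ∨ (N.glue d = d' ∧ t' = if N.rev d then σ t else t) := by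
  set r : I := if N.rev d then σ t else t with hr
  have hr0 : 0 < (r : ℝ) := by
    rw [hr]; split_ifs
    · rw [coe_symm_eq]; linarith
    · exact h0
  have hr1 : (r : ℝ) < 1 := by
    rw [hr]; split_ifs
    · rw [coe_symm_eq]; linarith
    · exact h1
  have hsP : ∀ {i j : ZMod 5} {a b : I}, 0 < (a : ℝ) → (a : ℝ) < 1 → sP i a = sP j b →
      i = j ∧ a = b := by
    intro i j a b ha0 ha1 hab
    obtain ⟨h2, h3⟩ := side_inter ha0 ha1 (congrArg Subtype.val hab)
    exact ⟨h2, Subtype.ext h3⟩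
  let P : Fin N.n × pentagon → Prop := fun a =>
    a = (d.1, sP d.2 t) ∨ a = ((N.glue d).1, sP (N.glue d).2 r)
  have hP : ∀ a b, N.Rel a b → P a → P b := by
    rintro ⟨G, y⟩ ⟨G', y'⟩ hab
    obtain ⟨i, q, rfl, rfl, rfl⟩ := rel_sP hab
    rintro (h | h)
    · have e1 : G = d.1 := congrArg Prod.fst h
      have e2 : sP d.2 t = sP i q := (congrArg Prod.snd h).symm
      obtain ⟨e3, e4⟩ := hsP h0 h1 e2
      have e5 : (G, i) = d := Prod.ext e1 e3.symm
      right
      rw [e5, ← e4]
    · have e1 : G = (N.glue d).1 := congrArg Prod.fst h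
      have e2 : sP (N.glue d).2 r = sP i q := (congrArg Prod.snd h).symm
      obtain ⟨e3, e4⟩ := hsP hr0 hr1 e2
      have e5 : (G, i) = N.glue d := Prod.ext e1 e3.symm
      left
      rw [e5, N.glue_glue, N.rev_glue, ← e4, hr]
      cases N.rev d <;> simp
  let Q : N.Carrier → Prop := Quot.lift P (fun a b hab =>
    propext ⟨hP a b hab, hP b a (Rel_symm hab)⟩)
  have h2 : Q (N.pt d.1 (sP d.2 t)) := Or.inl rfl
  rw [h] at h2
  have h3 : P (d'.1, sP d'.2 t') := h2
  rcases h3 with h3 | h3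
  · left
    have e1 : d'.1 = d.1 := congrArg (fun a : Fin N.n × pentagon => a.1) h3
    have e2 : sP d.2 t = sP d'.2 t' := (congrArg (fun a : Fin N.n × pentagon => a.2) h3).symm
    obtain ⟨e3, e4⟩ := hsP h0 h1 e2
    exact ⟨Prod.ext e1.symm e3, e4⟩
  · right
    have e1 : d'.1 = (N.glue d).1 := congrArg (fun a : Fin N.n × pentagon => a.1) h3
    have e2 : sP (N.glue d).2 r = sP d'.2 t' :=
      (congrArg (fun a : Fin N.n × pentagon => a.2) h3).symm
    obtain ⟨e3, e4⟩ := hsP hr0 hr1 e2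
    exact ⟨Prod.ext e1.symm e3, e4.symm⟩

end Points

lemma small_param {A : Set I} (hA : A ∈ 𝓝 (0 : I)) : ∃ t ∈ A, 0 < (t : ℝ) ∧ (t : ℝ) < 1 / 2 := by
  have h1 : Filter.Tendsto (fun n : ℕ => (1 : ℝ) / ((n + 2 : ℕ) + 1)) Filter.atTop (𝓝 0) :=
    (Filter.tendsto_add_atTop_iff_nat 2).2 tendsto_one_div_add_atTop_nhds_zero_nat
  have hmem : ∀ n : ℕ, (1 : ℝ) / ((n + 2 : ℕ) + 1) ∈ Set.Icc (0 : ℝ) 1 := by
    intro n
    constructor
    · positivity
    · rw [div_le_one (by positivity)]
      push_cast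
      linarith [(Nat.cast_nonneg n : (0 : ℝ) ≤ n)]
  let tn : ℕ → I := fun n => ⟨_, hmem n⟩
  have h2 : Filter.Tendsto tn Filter.atTop (𝓝 0) := by
    rw [tendsto_subtype_rng]
    exact h1
  obtain ⟨n, hn⟩ := (h2.eventually hA).exists
  refine ⟨tn n, hn, ?_, ?_⟩
  · change 0 < (1 : ℝ) / ((n + 2 : ℕ) + 1)
    positivity
  · change (1 : ℝ) / ((n + 2 : ℕ) + 1) < 1 / 2
    apply one_div_lt_one_div_of_lt (by norm_num)
    push_cast
    linarith [(Nat.cast_nonneg n : (0 : ℝ) ≤ n)]

/-! ### The geometry of a face -/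

section Face

variable {φ : pentagon → E3} (hφ : Isometry φ)

include hφ in
lemma isometry_inner (a b x : pentagon) : inner ℝ (φ a - φ x) (φ b - φ x) =
    inner ℝ ((a : E2) - x) ((b : E2) - x) := by
  have hd : ∀ a b : pentagon, ‖φ a - φ b‖ = ‖(a : E2) - b‖ := by
    intro a b
    rw [← dist_eq_norm, ← dist_eq_norm, hφ.dist_eq]
    rfl
  rw [real_inner_eq_norm_mul_self_add_norm_mul_self_sub_norm_sub_mul_self_div_two,
    real_inner_eq_norm_mul_self_add_norm_mul_self_sub_norm_sub_mul_self_div_two,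
    sub_sub_sub_cancel_right, sub_sub_sub_cancel_right, hd, hd, hd]

include hφ in
lemma q_unit (j : ZMod 5) :
    inner ℝ (φ (pv (j + 1)) - φ (pv j)) (φ (pv (j + 1)) - φ (pv j)) = (1 : ℝ) := by
  rw [isometry_inner hφ]
  change inner ℝ (pentVertex (j + 1) - pentVertex j) (pentVertex (j + 1) - pentVertex j) = (1 : ℝ)
  simp only [inner_sub_left, inner_sub_right, pent_inner']
  rw [sub_self, sub_self, add_sub_cancel_left, show j - (j + 1) = (4 : ZMod 5) by
    have : (4 : ZMod 5) = -1 := by decide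
    rw [this]; ring, cc0, cc1, cc4]
  linear_combination R2_eq

include hφ in
lemma q_ang (j : ZMod 5) :
    inner ℝ (φ (pv (j + 1)) - φ (pv j)) (φ (pv (j + 2)) - φ (pv (j + 1))) = g / 2 := by
  have h1 := isometry_inner hφ (pv j) (pv (j + 2)) (pv (j + 1))
  have h2 : inner ℝ (pentVertex j - pentVertex (j + 1)) (pentVertex (j + 2) - pentVertex (j + 1)) =
      -(g / 2) := by
    simp only [inner_sub_left, inner_sub_right, pent_inner']
    rw [sub_self, add_sub_cancel_left, add_sub_cancel_left, show j + 2 - (j + 1) = (1 : ZMod 5) by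
      ring, cc0, cc1, cc2]
    have h3 := R2_eq
    have h4 := g_sq
    linear_combination (-(g / 2)) * h3 - (R2 / 2) * h4
  have h3 : φ (pv (j + 1)) - φ (pv j) = -(φ (pv j) - φ (pv (j + 1))) := by abel
  rw [h3, inner_neg_left, h1]
  change -inner ℝ (pentVertex j - pentVertex (j + 1)) (pentVertex (j + 2) - pentVertex (j + 1)) = _
  rw [h2]
  ring

include hφ in
lemma q_flat (j : ZMod 5) : φ (pv (j + 3)) - φ (pv (j + 2)) =
    g • (φ (pv (j + 2)) - φ (pv (j + 1))) - (φ (pv (j + 1)) - φ (pv j)) := by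
  have h1 := isometry_comb hφ (Finset.univ : Finset (Fin 3)) ![1 + g, -(1 + g), 1]
    (by simp [Fin.sum_univ_three]) ![pv (j + 2), pv (j + 1), pv j] (pv (j + 3)) (by
      rw [Fin.sum_univ_three]
      change pentVertex (j + 3) = (1 + g) • pentVertex (j + 2) + (-(1 + g)) • pentVertex (j + 1) +
        (1 : ℝ) • pentVertex j
      have e1 : pentVertex (j + 3) = g • pentVertex (j + 2) - pentVertex (j + 1) := by
        have := pent_rec (j + 1)
        rwa [add_assoc, add_assoc, show (1 + 2 : ZMod 5) = 3 by decide,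
          show (1 + 1 : ZMod 5) = 2 by decide] at this
      have e2 := pent_rec j
      rw [e1]
      have e3 : pentVertex (j + 2) - (g • pentVertex (j + 1) - pentVertex j) = 0 := by
        rw [e2, sub_self]
      have e4 : (1 + g) • pentVertex (j + 2) + (-(1 + g)) • pentVertex (j + 1) +
          (1 : ℝ) • pentVertex j = g • pentVertex (j + 2) - pentVertex (j + 1) +
          (pentVertex (j + 2) - (g • pentVertex (j + 1) - pentVertex j)) := by module
      rw [e4, e3, add_zero])
  rw [Fin.sum_univ_three] at h1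
  change φ (pv (j + 3)) = (1 + g) • φ (pv (j + 2)) + (-(1 + g)) • φ (pv (j + 1)) +
    (1 : ℝ) • φ (pv j) at h1
  rw [h1]
  module

/-- A point near a corner. -/
noncomputable def cP (j : ZMod 5) (t : I) : pentagon :=
  ⟨cornerPt j ((t : ℝ) / 2), cornerPt_mem j (by linarith [t.2.1]) (by linarith [t.2.2])⟩

lemma cP_zero (j : ZMod 5) : cP j 0 = pv j := by
  apply Subtype.ext
  change cornerPt j (((0 : I) : ℝ) / 2) = pentVertex j
  unfold cornerPt
  simp

lemma cP_continuous (j : ZMod 5) : Continuous (cP j) := by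
  apply Continuous.subtype_mk
  unfold cornerPt
  fun_prop

lemma cP_not_mem (j : ZMod 5) {t : I} (h0 : 0 < (t : ℝ)) (h1 : (t : ℝ) < 1) :
    ((cP j t : pentagon) : E2) ∉ pbd := by
  intro h
  obtain ⟨i, r, hr⟩ := Set.mem_iUnion.1 h
  exact cornerPt_ne_side j (by linarith) (by linarith) i r hr.symm

lemma cP_inj {i j : ZMod 5} {t : I} (h : cP i t = cP j t) : i = j := by
  have hv : ∀ i : ZMod 5, pentVertex (i - 1) + pentVertex (i + 1) = g • pentVertex i := by
    intro i
    have := pent_rec (i - 1)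
    rw [sub_add_cancel, show i - 1 + 2 = i + 1 by ring] at this
    rw [this]
    abel
  have hc : ∀ i : ZMod 5, cornerPt i ((t : ℝ) / 2) = (1 - (t : ℝ) / 2 * (2 - g)) • pentVertex i := by
    intro i
    unfold cornerPt
    have e : pentVertex i + ((t : ℝ) / 2) • (pentVertex (i - 1) - pentVertex i) +
        ((t : ℝ) / 2) • (pentVertex (i + 1) - pentVertex i) =
        pentVertex i + ((t : ℝ) / 2) • ((pentVertex (i - 1) + pentVertex (i + 1)) -
        (2 : ℝ) • pentVertex i) := by module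
    rw [e, hv]
    module
  have h1 : cornerPt i ((t : ℝ) / 2) = cornerPt j ((t : ℝ) / 2) := congrArg Subtype.val h
  rw [hc, hc] at h1
  apply pentVertex_inj
  have h2 : (1 - (t : ℝ) / 2 * (2 - g)) ≠ 0 := by
    have := t.2.2
    have := t.2.1
    have := lt_g
    nlinarith
  exact smul_right_injective _ h2 h1

include hφ in
lemma f_cP (j : ZMod 5) (t : I) : φ (cP j t) = φ (pv j) +
    ((t : ℝ) / 2) • (φ (pv (j - 1)) - φ (pv j)) + ((t : ℝ) / 2) • (φ (pv (j + 1)) - φ (pv j)) := by
  have h1 := isometry_comb hφ (Finset.univ : Finset (Fin 3)) ![1 - (t : ℝ), (t : ℝ) / 2, (t : ℝ) / 2]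
    (by
      rw [Fin.sum_univ_three]
      change 1 - (t : ℝ) + (t : ℝ) / 2 + (t : ℝ) / 2 = 1
      ring) ![pv j, pv (j - 1), pv (j + 1)] (cP j t) (by
      rw [Fin.sum_univ_three]
      change cornerPt j ((t : ℝ) / 2) = (1 - (t : ℝ)) • pentVertex j +
        ((t : ℝ) / 2) • pentVertex (j - 1) + ((t : ℝ) / 2) • pentVertex (j + 1)
      unfold cornerPt
      module)
  rw [Fin.sum_univ_three] at h1
  change φ (cP j t) = (1 - (t : ℝ)) • φ (pv j) + ((t : ℝ) / 2) • φ (pv (j - 1)) +
    ((t : ℝ) / 2) • φ (pv (j + 1)) at h1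
  rw [h1]
  module

end Face

end Pool.Agent.Lib.MP_59160a_co
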