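import Pool.Agent.Lib.MP_59160a_co.Model

/-!
The facets and edges of the regular dodecahedron.
-/

set_option autoImplicit false
set_option linter.unusedSectionVars false

namespace Pool.Agent.Lib.MP_59160a_co

open Module

/-! ### Combinatorics -/

/-- The facet of a model flag. -/
def fc (f : F0) : Fin 12 := fct f.1 (f.2 2)

lemma fc_s0 : ∀ f : F0, fc (s0 f) = fc f := by decide +kernel

lemma fc_s1 : ∀ f : F0, fc (s1 f) = fc f := by decide +kernel

/-- A standard flag of a facet. -/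
def fl (k : Fin 12) : F0 :=
  (![0, 1, 2, 3, 0, 2, 4, 6, 0, 4, 1, 5] k,
    Equiv.swap (![2, 2, 2, 2, 0, 0, 0, 0, 1, 1, 1, 1] k) 2)

lemma fc_fl : ∀ k : Fin 12, fc (fl k) = k := by decide +kernel

lemma mem_ten_fl : ∀ f : F0, f ∈ ten (fl (fc f)) := by decide +kernel

/-- The vertex `i` is on the facet `k`. -/
def OnF (i : Fin 20) (k : Fin 12) : Prop := ∃ c, fct i c = k

instance (i : Fin 20) (k : Fin 12) : Decidable (OnF i k) := inferInstanceAs (Decidable (∃ _, _))

/-- The integer inner product of a normal and a vertex. -/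
def nip (k : Fin 12) (i : Fin 20) : ℤ × ℤ :=
  zm (ntab k 0) (vtab i 0) + zm (ntab k 1) (vtab i 1) + zm (ntab k 2) (vtab i 2)

lemma nip_cases : ∀ (k : Fin 12) (i : Fin 20), (nip k i = (3, 2) ∧ OnF i k) ∨
    (¬ OnF i k ∧ (nip k i = (1, 0) ∨ nip k i = (-1, 0) ∨ nip k i = (-3, -2))) := by
  decide +kernel

lemma onF_nb : ∀ (i : Fin 20) (a c : Fin 3), c ≠ a → OnF (nb i a) (fct i c) := by
  decide +kernel

lemma onF_two : ∀ (i : Fin 20) (c c' : Fin 3), c ≠ c' → ∀ j : Fin 20, OnF j (fct i c) →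
    OnF j (fct i c') → j = i ∨ ∃ a, a ≠ c ∧ a ≠ c' ∧ j = nb i a := by
  decide +kernel

lemma fct_inj : ∀ (i : Fin 20) (c c' : Fin 3), fct i c = fct i c' → c = c' := by
  decide +kernel

lemma nb_inj : ∀ (i : Fin 20) (c c' : Fin 3), nb i c = nb i c' → c = c' := by
  decide +kernel

lemma nb_ne : ∀ (i : Fin 20) (c : Fin 3), nb i c ≠ i := by
  decide +kernel

/-! ### Geometry -/

lemma dodNormal_apply (k : Fin 12) (j : Fin 3) : dodNormal k j = ev (ntab k j) := by
  fin_cases k <;> fin_cases j <;> simp [dodNormal, ntab, ev, gr_eq] <;> ring1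

lemma inner_normal (k : Fin 12) (i : Fin 20) :
    inner ℝ (dodNormal k) (dodVertex i) = ev (nip k i) / 2 := by
  rw [PiLp.inner_apply, Fin.sum_univ_three]
  simp only [dodNormal_apply, dodVertex_apply, RCLike.inner_apply, conj_trivial]
  unfold nip
  rw [ev_add, ev_add, ev_zm, ev_zm, ev_zm]
  ring

lemma gr_cube : gr ^ 3 / 2 = ev (3, 2) / 2 := by
  rw [gr_eq]
  unfold ev
  push_cast
  have := g_sq
  linear_combination ((g + 2) / 2) * this

lemma inner_onF {k : Fin 12} {i : Fin 20} (h : OnF i k) :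
    inner ℝ (dodNormal k) (dodVertex i) = gr ^ 3 / 2 := by
  rw [inner_normal, gr_cube]
  rcases nip_cases k i with h1 | h1
  · rw [h1.1]
  · exact absurd h h1.1

lemma inner_lt {k : Fin 12} {i : Fin 20} (h : ¬ OnF i k) :
    inner ℝ (dodNormal k) (dodVertex i) < gr ^ 3 / 2 := by
  rw [inner_normal, gr_cube]
  have hg := g_pos
  rcases nip_cases k i with h1 | h1
  · exact absurd h1.2 h
  · rcases h1.2 with h2 | h2 | h2 <;> rw [h2] <;> unfold ev <;> push_cast <;> linarith

lemma inner_le (k : Fin 12) (i : Fin 20) :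
    inner ℝ (dodNormal k) (dodVertex i) ≤ gr ^ 3 / 2 := by
  by_cases h : OnF i k
  · exact (inner_onF h).le
  · exact (inner_lt h).le

/-- Weights of a point of the dodecahedron. -/
lemma exists_weights {z : E3} (hz : z ∈ dodecahedron) : ∃ w : Fin 20 → ℝ,
    (∀ i, 0 ≤ w i) ∧ ∑ i, w i = 1 ∧ ∑ i, w i • dodVertex i = z := by
  unfold dodecahedron at hz
  rw [convexHull_range_eq_exists_affineCombination] at hz
  obtain ⟨s, w, hw0, hw1, hz⟩ := hz
  classical
  refine ⟨fun i => if i ∈ s then w i else 0, ?_, ?_, ?_⟩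
  · intro i
    dsimp only
    split_ifs with h
    · exact hw0 i h
    · exact le_refl 0
  · rw [← hw1, Finset.sum_ite_mem, Finset.univ_inter]
  · rw [← hz, Finset.affineCombination_eq_linear_combination s _ _ hw1]
    rw [← Finset.univ_inter s, ← Finset.sum_ite_mem]
    refine Finset.sum_congr rfl (fun i _ => ?_)
    by_cases h : i ∈ s <;> simp [h]

/-- The weights of a point of a facet vanish outside the facet. -/
lemma weights_facet {k : Fin 12} {w : Fin 20 → ℝ} (h0 : ∀ i, 0 ≤ w i) (h1 : ∑ i, w i = 1)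
    (hz : inner ℝ (dodNormal k) (∑ i, w i • dodVertex i) = gr ^ 3 / 2) {i : Fin 20}
    (hi : ¬ OnF i k) : w i = 0 := by
  by_contra hne
  have hpos : 0 < w i := lt_of_le_of_ne (h0 i) (Ne.symm hne)
  have h2 : inner ℝ (dodNormal k) (∑ i, w i • dodVertex i) < ∑ i, w i * (gr ^ 3 / 2) := by
    rw [inner_sum]
    refine Finset.sum_lt_sum (fun j _ => ?_) ⟨i, Finset.mem_univ i, ?_⟩
    · rw [inner_smul_right]
      exact mul_le_mul_of_nonneg_left (inner_le k j) (h0 j)
    · rw [inner_smul_right]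
      exact mul_lt_mul_of_pos_left (inner_lt hi) hpos
  rw [← Finset.sum_mul, h1, one_mul, hz] at h2
  exact lt_irrefl _ h2

lemma vertex_mem (i : Fin 20) : dodVertex i ∈ dodecahedron :=
  subset_convexHull _ _ ⟨i, rfl⟩

lemma vertex_mem_facet {i : Fin 20} {k : Fin 12} (h : OnF i k) : dodVertex i ∈ facet k :=
  ⟨vertex_mem i, inner_onF h⟩

lemma facet_convex (k : Fin 12) : Convex ℝ (facet k) := by
  have h1 : facet k = dodecahedron ∩ {x | inner ℝ (dodNormal k) x = gr ^ 3 / 2} := rfl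
  rw [h1]
  refine (convex_convexHull ℝ _).inter ?_
  exact convex_hyperplane (f := fun x : E3 => inner ℝ (dodNormal k) x)
    ⟨fun x y => inner_add_right _ _ _, fun c x => by rw [inner_smul_right]; rfl⟩ _

/-- A facet is the convex hull of its vertices. -/
lemma facet_eq (k : Fin 12) : facet k = convexHull ℝ (dodVertex '' {i | OnF i k}) := by
  apply Set.Subset.antisymm
  · rintro z ⟨hz, hz'⟩
    obtain ⟨w, h0, h1, h2⟩ := exists_weights hz
    rw [← h2] at hz'
    have h3 : ∑ i, w i • dodVertex i =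
        ∑ i ∈ Finset.univ.filter (fun i => OnF i k), w i • dodVertex i := by
      rw [Finset.sum_filter]
      refine Finset.sum_congr rfl (fun i _ => ?_)
      split_ifs with h
      · rfl
      · rw [weights_facet h0 h1 hz' h, zero_smul]
    have h4 : ∑ i ∈ Finset.univ.filter (fun i => OnF i k), w i = 1 := by
      rw [← h1, Finset.sum_filter]
      refine Finset.sum_congr rfl (fun i _ => ?_)
      split_ifs with h
      · rfl
      · rw [weights_facet h0 h1 hz' h]
    rw [← h2, h3]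
    refine (convex_convexHull ℝ _).sum_mem (fun i _ => h0 i) h4 (fun i hi => ?_)
    exact subset_convexHull _ _ ⟨i, (Finset.mem_filter.1 hi).2, rfl⟩
  · refine convexHull_min ?_ (facet_convex k)
    rintro _ ⟨i, hi, rfl⟩
    exact vertex_mem_facet hi

/-- The point with parameter `t` on an edge. -/
noncomputable def ed (i : Fin 20) (a : Fin 3) (t : ℝ) : E3 := dodVertex i + t • stdE i a

lemma ed_eq (i : Fin 20) (a : Fin 3) (t : ℝ) :
    ed i a t = (1 - t) • dodVertex i + t • dodVertex (nb i a) := by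
  unfold ed stdE
  module

lemma ed_zero (i : Fin 20) (a : Fin 3) : ed i a 0 = dodVertex i := by
  simp [ed]

lemma ed_one (i : Fin 20) (a : Fin 3) : ed i a 1 = dodVertex (nb i a) := by
  simp [ed, stdE]

lemma ed_rev (i : Fin 20) (a : Fin 3) (t : ℝ) : ed (nb i a) (pm i a a) (1 - t) = ed i a t := by
  rw [ed_eq, ed_eq, nb_nb]
  module

lemma ed_mem_facet {i : Fin 20} {a c : Fin 3} (h : c ≠ a) {t : ℝ} (h0 : 0 ≤ t) (h1 : t ≤ 1) :
    ed i a t ∈ facet (fct i c) := by
  rw [ed_eq]
  exact facet_convex _ (vertex_mem_facet ⟨c, rfl⟩) (vertex_mem_facet (onF_nb i a c h))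
    (by linarith) h0 (by ring)

/-- A point of two distinct facets is on an edge. -/
lemma two_facets {k k' : Fin 12} (h : k ≠ k') {z : E3} (hz : z ∈ facet k) (hz' : z ∈ facet k') :
    ∃ (i : Fin 20) (a c : Fin 3) (t : ℝ), 0 ≤ t ∧ t ≤ 1 ∧ c ≠ a ∧ fct i c = k ∧ z = ed i a t := by
  obtain ⟨hd, hk⟩ := hz
  obtain ⟨_, hk'⟩ := hz'
  obtain ⟨w, h0, h1, h2⟩ := exists_weights hd
  rw [← h2] at hk hk'
  have hne : ∃ i, w i ≠ 0 := by
    by_contra hcon
    push Not at hcon
    rw [Finset.sum_congr rfl (fun i _ => hcon i)] at h1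
    simp at h1
  obtain ⟨i, hi⟩ := hne
  have hon : ∀ j, w j ≠ 0 → OnF j k ∧ OnF j k' := fun j hj =>
    ⟨by by_contra hc; exact hj (weights_facet h0 h1 hk hc),
      by by_contra hc; exact hj (weights_facet h0 h1 hk' hc)⟩
  obtain ⟨⟨c, hc⟩, ⟨c', hc'⟩⟩ := hon i hi
  have hcc : c ≠ c' := by
    rintro rfl
    exact h (hc.symm.trans hc')
  have hthird : ∃ a : Fin 3, a ≠ c ∧ a ≠ c' ∧ ∀ b, b ≠ c → b ≠ c' → b = a := by
    revert hcc
    clear hc hc'
    revert c c'
    decide
  obtain ⟨a, hac, hac', ha⟩ := hthird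
  have hsupp : ∀ j, j ≠ i → j ≠ nb i a → w j = 0 := by
    intro j hj1 hj2
    by_contra hcon
    obtain ⟨o1, o2⟩ := hon j hcon
    rw [← hc] at o1
    rw [← hc'] at o2
    rcases onF_two i c c' hcc j o1 o2 with e | ⟨b, hb1, hb2, e⟩
    · exact hj1 e
    · rw [ha b hb1 hb2] at e
      exact hj2 e
  have hpair : ∀ F : Fin 20 → E3, ∑ j, w j • F j = w i • F i + w (nb i a) • F (nb i a) := by
    intro F
    rw [← Finset.sum_pair (f := fun j => w j • F j) (Ne.symm (nb_ne i a))]
    refine (Finset.sum_subset (Finset.subset_univ _) (fun j _ hj => ?_)).symm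
    rw [Finset.mem_insert, Finset.mem_singleton, not_or] at hj
    rw [hsupp j hj.1 hj.2, zero_smul]
  have hsum : w i + w (nb i a) = 1 := by
    rw [← h1, ← Finset.sum_pair (f := fun j => w j) (Ne.symm (nb_ne i a))]
    refine Finset.sum_subset (Finset.subset_univ _) (fun j _ hj => ?_)
    rw [Finset.mem_insert, Finset.mem_singleton, not_or] at hj
    exact hsupp j hj.1 hj.2
  refine ⟨i, a, c, w (nb i a), h0 _, ?_, Ne.symm hac, hc, ?_⟩
  · have := h0 i; linarith
  · rw [← h2, hpair, ed_eq]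
    congr 2
    linarith

/-- An edge point on a facet: the end points with nonzero weight are on the facet. -/
lemma ed_onF {j : Fin 20} {b : Fin 3} {t : ℝ} (h0 : 0 ≤ t) (h1 : t ≤ 1) {k : Fin 12}
    (h : ed j b t ∈ facet k) : (t ≠ 1 → OnF j k) ∧ (t ≠ 0 → OnF (nb j b) k) := by
  have h2 := h.2
  rw [ed_eq, inner_add_right, inner_smul_right, inner_smul_right] at h2
  have h3 := inner_le k j
  have h4 := inner_le k (nb j b)
  constructor
  · intro ht
    by_contra hc
    have h5 := inner_lt hc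
    have h6 : 0 < 1 - t := lt_of_le_of_ne (by linarith) (fun h => ht (by linarith))
    nlinarith
  · intro ht
    by_contra hc
    have h5 := inner_lt hc
    have h6 : 0 < t := lt_of_le_of_ne h0 (Ne.symm ht)
    nlinarith

lemma two_ports (a : Fin 3) : ∃ c c' : Fin 3, c ≠ a ∧ c' ≠ a ∧ c ≠ c' ∧
    ∀ b, b ≠ c → b ≠ c' → b = a := by
  revert a; decide

lemma vertex_ne {i j : Fin 20} (h : i ≠ j) : dodVertex i - dodVertex j ≠ 0 := by
  intro h1
  exact h (dodVertex_inj (sub_eq_zero.1 h1))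

/-- The coincidences of edge points. -/
lemma ed_cases {i j : Fin 20} {a b : Fin 3} {t t' : ℝ} (h0 : 0 ≤ t) (h1 : t ≤ 1)
    (h0' : 0 ≤ t') (h1' : t' ≤ 1) (h : ed i a t = ed j b t') :
    (j = i ∧ b = a ∧ t' = t) ∨ (j = nb i a ∧ b = pm i a a ∧ t' = 1 - t) ∨
    (∃ l, ((i = l ∧ t = 0) ∨ (nb i a = l ∧ t = 1)) ∧ ((j = l ∧ t' = 0) ∨ (nb j b = l ∧ t' = 1))) := by
  obtain ⟨c, c', hc, hc', hcc, huniq⟩ := two_ports a
  have m1 : ed j b t' ∈ facet (fct i c) := h ▸ ed_mem_facet hc h0 h1
  have m2 : ed j b t' ∈ facet (fct i c') := h ▸ ed_mem_facet hc' h0 h1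
  obtain ⟨p1, q1⟩ := ed_onF h0' h1' m1
  obtain ⟨p2, q2⟩ := ed_onF h0' h1' m2
  have hboth : ∀ l, OnF l (fct i c) → OnF l (fct i c') → l = i ∨ l = nb i a := by
    intro l o1 o2
    rcases onF_two i c c' hcc l o1 o2 with e | ⟨b, hb1, hb2, e⟩
    · exact Or.inl e
    · rw [huniq b hb1 hb2] at e
      exact Or.inr e
  -- a vertex on the edge
  have hvert : ∀ l, OnF l (fct i c) → OnF l (fct i c') → ed i a t = dodVertex l →
      (i = l ∧ t = 0) ∨ (nb i a = l ∧ t = 1) := by
    intro l o1 o2 hl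
    rw [ed_eq] at hl
    rcases hboth l o1 o2 with e | e
    · left
      refine ⟨e.symm, ?_⟩
      subst e
      have h3 : t • (dodVertex (nb l a) - dodVertex l) = 0 := by
        have : t • (dodVertex (nb l a) - dodVertex l) =
          ((1 - t) • dodVertex l + t • dodVertex (nb l a)) - dodVertex l := by module
        rw [this, hl, sub_self]
      rcases smul_eq_zero.1 h3 with h4 | h4
      · exact h4
      · exact absurd h4 (vertex_ne (nb_ne l a))
    · right
      refine ⟨e.symm, ?_⟩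
      subst e
      have h3 : (1 - t) • (dodVertex i - dodVertex (nb i a)) = 0 := by
        have : (1 - t) • (dodVertex i - dodVertex (nb i a)) =
          ((1 - t) • dodVertex i + t • dodVertex (nb i a)) - dodVertex (nb i a) := by module
        rw [this, hl, sub_self]
      rcases smul_eq_zero.1 h3 with h4 | h4
      · linarith
      · exact absurd h4 (vertex_ne (Ne.symm (nb_ne i a)))
  by_cases ht0 : t' = 0
  · right; right
    subst ht0
    rw [ed_zero] at h
    exact ⟨j, hvert j (p1 (by norm_num)) (p2 (by norm_num)) h, Or.inl ⟨rfl, rfl⟩⟩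
  by_cases ht1 : t' = 1
  · right; right
    subst ht1
    rw [ed_one] at h
    exact ⟨nb j b, hvert _ (q1 (by norm_num)) (q2 (by norm_num)) h, Or.inr ⟨rfl, rfl⟩⟩
  have e1 := hboth j (p1 ht1) (p2 ht1)
  have e2 := hboth (nb j b) (q1 ht0) (q2 ht0)
  have hcancel : ∀ (l : Fin 20) (x : Fin 3) (r r' : ℝ), ed l x r = ed l x r' → r = r' := by
    intro l x r r' hr
    have h3 : (r - r') • (dodVertex (nb l x) - dodVertex l) = 0 := by
      have : (r - r') • (dodVertex (nb l x) - dodVertex l) = ed l x r - ed l x r' := by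
        rw [ed_eq, ed_eq]; module
      rw [this, hr, sub_self]
    rcases smul_eq_zero.1 h3 with h4 | h4
    · linarith
    · exact absurd h4 (vertex_ne (nb_ne l x))
  rcases e1 with e1 | e1
  · left
    subst e1
    rcases e2 with e2 | e2
    · exact absurd e2 (nb_ne j b)
    · have := nb_inj j b a e2
      subst this
      exact ⟨rfl, rfl, (hcancel _ _ _ _ h).symm⟩
  · right; left
    rcases e2 with e2 | e2
    · have h3 : b = pm i a a := by
        apply nb_inj j
        rw [e2, e1, nb_nb]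
      refine ⟨e1, h3, ?_⟩
      rw [e1, h3, ← ed_rev i a t] at h
      exact (hcancel _ _ _ _ h).symm
    · rw [← e1] at e2
      exact absurd e2 (nb_ne j b)

end Pool.Agent.Lib.MP_59160a_co
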