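import Pool.Agent.Lib.MP_59160a_co.Count2
import Pool.Agent.Lib.MP_59160a_co.Dodec

/-!
Construction of the union of dodecahedra.
-/

set_option autoImplicit false
set_option linter.unusedSectionVars false

namespace Pool.Agent.Lib.MP_59160a_co

open Module Equiv.Perm Finset

namespace Pent

variable {D : Type} [Fintype D] [DecidableEq D] {M : Pent D E3}

open Fl

/-! ### The flag of a class over a model flag -/

lemma fib_one (K : M.Cls) (f : F0) : (fib K f).card = 1 := by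
  have h1 := fib_card K f
  have h2 := clF_card K
  have h3 := counting K
  omega

/-- The flag of the class `K` over the model flag `f`. -/
noncomputable def Q (K : M.Cls) (f : F0) : M.Fl := (Finset.card_eq_one.1 (fib_one K f)).choose

lemma fib_Q (K : M.Cls) (f : F0) : fib K f = {Q K f} :=
  (Finset.card_eq_one.1 (fib_one K f)).choose_spec

lemma Q_mem (K : M.Cls) (f : F0) : cls (Q K f) = K ∧ Phi (Q K f) = f := by
  rw [← mem_fib, fib_Q, Finset.mem_singleton]

lemma Q_unique {K : M.Cls} {f : F0} {q : M.Fl} (h1 : cls q = K) (h2 : Phi q = f) : q = Q K f := by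
  have : q ∈ fib K f := mem_fib.2 ⟨h1, h2⟩
  rw [fib_Q, Finset.mem_singleton] at this
  exact this

lemma Q_s0 (K : M.Cls) (f : F0) : Q K (s0 f) = t0 (Q K f) := by
  symm
  apply Q_unique
  · rw [cls_t0]; exact (Q_mem K f).1
  · rw [Phi_t0, (Q_mem K f).2]

lemma Q_s1 (K : M.Cls) (f : F0) : Q K (s1 f) = t1 (Q K f) := by
  symm
  apply Q_unique
  · rw [cls_t1]; exact (Q_mem K f).1
  · rw [Phi_t1, (Q_mem K f).2]

lemma Q_s2 (K : M.Cls) (f : F0) : Q K (s2 f) = t2 (Q K f) := by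
  symm
  apply Q_unique
  · rw [cls_t2]; exact (Q_mem K f).1
  · rw [Phi_t2, (Q_mem K f).2]

lemma Q_cls_Phi (q : M.Fl) : Q (cls q) (Phi q) = q := (Q_unique rfl rfl).symm

lemma cls_perm (q : M.Fl) (π : Equiv.Perm (Fin 3)) : cls (q.perm π) = cls q := by
  obtain ⟨l, -, rfl⟩ := perm_gen π
  induction l generalizing q with
  | nil => rfl
  | cons b l ih =>
    rw [List.map_cons, List.prod_cons, ← perm_perm, ih]
    cases b
    · exact cls_t2 q
    · exact cls_t1 q

lemma Phi_perm (q : M.Fl) (π : Equiv.Perm (Fin 3)) :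
    Phi (q.perm π) = ((Phi q).1, (Phi q).2 * π) :=
  Phi_eq (cls_perm q π) ((Phi_spec q).perm π)

/-- The dart of the edge `a` at the vertex `i` of the dodecahedron `K`. -/
noncomputable def dd (K : M.Cls) (i : Fin 20) (a : Fin 3) : D := (Q K (i, 1)).d a

lemma Q_d (K : M.Cls) (i : Fin 20) (π : Equiv.Perm (Fin 3)) (j : Fin 3) :
    (Q K (i, π)).d j = dd K i (π j) := by
  have h : (Q K (i, 1)).perm π = Q K (i, π) := by
    apply Q_unique
    · rw [cls_perm]; exact (Q_mem K _).1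
    · rw [Phi_perm, (Q_mem K _).2]; simp
  rw [← h]
  rfl

lemma d_eq_dd (q : M.Fl) (j : Fin 3) : q.d j = dd (cls q) (Phi q).1 ((Phi q).2 j) := by
  conv_lhs => rw [← Q_cls_Phi q]
  exact Q_d _ _ _ _

lemma dd_same (K : M.Cls) (i : Fin 20) (a b : Fin 3) : SameCycle M.sg (dd K i a) (dd K i b) :=
  (Q K (i, 1)).same a b

lemma dd_al (K : M.Cls) (i : Fin 20) (a : Fin 3) :
    dd K (nb i a) (pm i a a) = M.al (dd K i a) := by
  have h1 := Q_s0 K (i, Equiv.swap 0 a)
  have h2 := congrArg (fun q : M.Fl => q.d 0) h1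
  simp only [t0_zero, Q_d, Equiv.swap_apply_left] at h2
  rw [← h2]
  unfold s0
  simp only [Equiv.swap_apply_left]
  rw [Q_d]
  simp only [Equiv.Perm.mul_apply, Equiv.swap_apply_left]
  rfl

/-- The placement of a dodecahedron. -/
noncomputable def pl (K : M.Cls) : E3 ≃ᵃⁱ[ℝ] E3 :=
  (LL K).toAffineIsometryEquiv.trans (AffineIsometryEquiv.constVAdd ℝ E3 (PP K))

lemma pl_apply (K : M.Cls) (x : E3) : pl K x = PP K + LL K x := rfl

lemma p_dd (K : M.Cls) (i : Fin 20) (a : Fin 3) : M.p (dd K i a) = pl K (dodVertex i) := by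
  have h1 := (Phi_spec (Q K (i, 1))).pos
  rw [(Q_mem K _).1, (Q_mem K _).2] at h1
  rw [pl_apply, ← h1]
  exact M.p_same (dd_same K i a 0)

lemma u_dd (K : M.Cls) (i : Fin 20) (a : Fin 3) : M.u (dd K i a) = LL K (stdE i a) := by
  have h1 := (Phi_spec (Q K (i, 1))).vec a
  rw [(Q_mem K _).1, (Q_mem K _).2] at h1
  exact h1

lemma pl_ed (K : M.Cls) (i : Fin 20) (a : Fin 3) (t : ℝ) :
    pl K (ed i a t) = M.p (dd K i a) + t • M.u (dd K i a) := by
  rw [p_dd, u_dd, pl_apply, pl_apply, ed, map_add, map_smul, add_assoc]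

/-! ### Facets -/

/-- The index of a facet. -/
noncomputable def fi (O : M.Fct) : Fin 12 :=
  Quotient.lift (fun q => fc (Phi q)) (fun a b hab =>
    fct_inv (fun q : M.Fl => fc (Phi q)) (fun q => by rw [Phi_t0, fc_s0])
      (fun q => by rw [Phi_t1, fc_s1]) (Quotient.sound hab)) O

lemma fi_fct (q : M.Fl) : fi (fct' q) = fc (Phi q) := rfl

lemma fct_Q_ten (K : M.Cls) (f f' : F0) (h : f' ∈ ten f) : fct' (Q K f') = fct' (Q K f) := by
  simp only [ten, List.mem_cons, List.not_mem_nil, or_false] at h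
  rcases h with rfl | rfl | rfl | rfl | rfl | rfl | rfl | rfl | rfl | rfl <;>
    simp only [Q_s0, Q_s1, fct_t0, fct_t1]

/-- The facet with index `k` of the dodecahedron `K`. -/
noncomputable def OO (K : M.Cls) (k : Fin 12) : M.Fct := fct' (Q K (fl k))

lemma fct_eq_OO (q : M.Fl) : fct' q = OO (cls q) (fc (Phi q)) := by
  have h := fct_Q_ten (cls q) (fl (fc (Phi q))) (Phi q) (mem_ten_fl _)
  rw [Q_cls_Phi] at h
  exact h

lemma cl_OO (K : M.Cls) (k : Fin 12) : cl (OO K k) = K := by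
  unfold OO
  rw [cl_fct, (Q_mem K _).1]

lemma fi_OO (K : M.Cls) (k : Fin 12) : fi (OO K k) = k := by
  unfold OO
  rw [fi_fct, (Q_mem K _).2, fc_fl]

lemma OO_cl_fi (O : M.Fct) : OO (cl O) (fi O) = O := by
  obtain ⟨q, rfl⟩ := exists_rep O
  rw [cl_fct, fi_fct, fct_eq_OO q]

lemma T_not {O : M.Fct} (h : ¬ IntrF O) : T O = O := by
  obtain ⟨q, rfl⟩ := exists_rep O
  rw [intrF_iff] at h
  rw [T_fct]
  have : t3 q = q := by unfold t3; rw [dif_neg h]
  rw [this]

lemma T_invol (O : M.Fct) : T (T O) = O := by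
  by_cases h : IntrF O
  · exact T_T h
  · rw [T_not h, T_not h]

/-- The gluing of the facets. -/
noncomputable def gl (d : M.Cls × Fin 12) : M.Cls × Fin 12 :=
  (cl (T (OO d.1 d.2)), fi (T (OO d.1 d.2)))

lemma gl_gl (d : M.Cls × Fin 12) : gl (gl d) = d := by
  unfold gl
  simp only [OO_cl_fi, T_invol, cl_OO, fi_OO]

lemma OO_intr_of_ne {K : M.Cls} {k : Fin 12} (h : gl (K, k) ≠ (K, k)) : IntrF (OO K k) := by
  by_contra hcon
  apply h
  unfold gl
  simp only [T_not hcon, cl_OO, fi_OO]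

lemma gl_eq_iff (K : M.Cls) (k : Fin 12) : gl (K, k) = (K, k) ↔ ¬ IntrF (OO K k) := by
  constructor
  · intro h hI
    have h1 := cl_T_ne hI
    unfold gl at h
    have h2 := congrArg Prod.fst h
    simp only at h2
    rw [cl_OO] at h1
    exact h1 h2
  · intro h
    by_contra hcon
    exact h (OO_intr_of_ne hcon)

/-- The vertex positions of a facet. -/
def vpos (O : M.Fct) : Set E3 := {y | ∃ q : M.Fl, fct' q = O ∧ M.p (q.d 0) = y}

/-- A model flag at a vertex of a facet. -/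
lemma exists_flag_onF {i : Fin 20} {k : Fin 12} (h : OnF i k) : ∃ π : Equiv.Perm (Fin 3),
    fc (i, π) = k := by
  obtain ⟨c, hc⟩ := h
  exact ⟨Equiv.swap c 2, by simp [fc, hc]⟩

lemma pl_facet (K : M.Cls) (k : Fin 12) :
    pl K '' facet k = convexHull ℝ (vpos (OO K k)) := by
  rw [facet_eq]
  have h1 : (pl K '' convexHull ℝ (dodVertex '' {i | OnF i k})) =
      convexHull ℝ ((pl K) '' (dodVertex '' {i | OnF i k})) :=
    (pl K).toAffineEquiv.toAffineMap.image_convexHull _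
  rw [h1]
  congr 1
  ext y
  constructor
  · rintro ⟨_, ⟨i, hi, rfl⟩, rfl⟩
    obtain ⟨π, hπ⟩ := exists_flag_onF hi
    refine ⟨Q K (i, π), ?_, ?_⟩
    · rw [fct_eq_OO, (Q_mem K _).1, (Q_mem K _).2, hπ]
    · rw [Q_d, p_dd]
  · rintro ⟨q, hq, rfl⟩
    have h2 := congrArg cl hq
    have h3 := congrArg fi hq
    rw [cl_OO, cl_fct] at h2
    rw [fi_OO, fi_fct] at h3
    refine ⟨dodVertex (Phi q).1, ⟨(Phi q).1, ⟨(Phi q).2 2, h3⟩, rfl⟩, ?_⟩
    rw [d_eq_dd q 0, p_dd, h2]

lemma vpos_T {O : M.Fct} : vpos (T O) = vpos O := by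
  by_cases h : IntrF O
  · have hsub : ∀ {O : M.Fct}, IntrF O → vpos O ⊆ vpos (T O) := by
      rintro O hO _ ⟨q, rfl, rfl⟩
      rw [intrF_iff] at hO
      exact ⟨t3 q, rfl, by rw [t3_ne_two (by decide)]⟩
    apply Set.Subset.antisymm
    · have := hsub (T_intr h)
      rwa [T_T h] at this
    · exact hsub h
  · rw [T_not h]

/-- The union of dodecahedra. -/
noncomputable def BB (M : Pent D E3) : DodUnion where
  ι := M.Cls
  finite := inferInstance
  glue := gl
  glue_glue := gl_gl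
  place := pl
  place_glue := by
    rintro ⟨K, k⟩
    unfold gl
    rw [pl_facet, pl_facet]
    simp only [OO_cl_fi, vpos_T]

end Pent

end Pool.Agent.Lib.MP_59160a_co
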