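import Pool.Agent.Lib.MP_59160a_co.Arith

/-!
Corners of regular dodecahedra: triples of unit vectors with pairwise inner product `c0`.
-/

set_option autoImplicit false
set_option linter.unusedSectionVars false

namespace Pool.Agent.Lib.MP_59160a_co

variable {V : Type*} [NormedAddCommGroup V] [InnerProductSpace ℝ V]

/-- The reflection in the plane orthogonal to `n`. -/
noncomputable def rf (n : V) : V ≃ₗᵢ[ℝ] V := (ℝ ∙ n)ᗮ.reflection

lemma rf_apply (n x : V) : rf n x = x - (2 * inner ℝ n x / inner ℝ n n) • n := by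
  unfold rf
  rw [Submodule.reflection_orthogonal_apply, Submodule.reflection_singleton_apply]
  rw [real_inner_self_eq_norm_sq]
  simp only [RCLike.ofReal_real_eq_id, id_eq]
  rw [neg_sub, ← Nat.cast_smul_eq_nsmul ℝ, smul_smul]
  congr 2
  push_cast
  ring

lemma rf_rf (n x : V) : rf n (rf n x) = x := Submodule.reflection_reflection _ _

lemma rf_mul_self (n : V) : rf n * rf n = 1 := Submodule.reflection_mul_reflection _

lemma rf_self (n : V) : rf n n = -n := Submodule.reflection_orthogonalComplement_singleton_eq_neg n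

lemma rf_neg (n : V) : rf (-n) = rf n := by
  ext x
  rw [rf_apply, rf_apply]
  simp only [inner_neg_left, inner_neg_right, neg_neg, smul_neg]
  rw [sub_neg_eq_add, sub_eq_add_neg, ← neg_smul]
  congr 2
  ring

lemma rf_orth {n x : V} (h : inner ℝ n x = 0) : rf n x = x := by
  rw [rf_apply, h]; simp

lemma rf_conj (f : V ≃ₗᵢ[ℝ] V) (n x : V) : f (rf n x) = rf (f n) (f x) := by
  rw [rf_apply, rf_apply, map_sub, map_smul, f.inner_map_map, f.inner_map_map]

/-- The image of a triple under an isometry. -/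
def im (f : V ≃ₗᵢ[ℝ] V) (C : Fin 3 → V) : Fin 3 → V := fun i => f (C i)

@[simp] lemma im_apply (f : V ≃ₗᵢ[ℝ] V) (C : Fin 3 → V) (i : Fin 3) : im f C i = f (C i) := rfl

lemma im_one (C : Fin 3 → V) : im 1 C = C := rfl

lemma im_mul (f f' : V ≃ₗᵢ[ℝ] V) (C : Fin 3 → V) : im (f * f') C = im f (im f' C) := rfl

/-- A corner. -/
def IsCorner (C : Fin 3 → V) : Prop := ∀ i j, inner ℝ (C i) (C j) = if i = j then 1 else c0

/-- The sum of the three vectors. -/
def tot (C : Fin 3 → V) : V := C 0 + C 1 + C 2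

/-- The normal vector of the plane spanned by the two vectors different from `C j`. -/
noncomputable def nrm (C : Fin 3 → V) (j : Fin 3) : V := g • (tot C + (2 * g) • C j)

/-- The flip: replace `C j` by its mirror image in the plane of the other two. -/
noncomputable def flp (j : Fin 3) (C : Fin 3 → V) : Fin 3 → V := im (rf (nrm C j)) C

/-- The move along the edge `C j`. -/
noncomputable def mv (j : Fin 3) (C : Fin 3 → V) : Fin 3 → V := im (rf (C j)) C

lemma IsCorner.self {C : Fin 3 → V} (h : IsCorner C) (i : Fin 3) : inner ℝ (C i) (C i) = 1 := by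
  rw [h i i, if_pos rfl]

lemma IsCorner.ne {C : Fin 3 → V} (h : IsCorner C) {i j : Fin 3} (hij : i ≠ j) :
    inner ℝ (C i) (C j) = c0 := by
  rw [h i j, if_neg hij]

lemma IsCorner.im {C : Fin 3 → V} (h : IsCorner C) (f : V ≃ₗᵢ[ℝ] V) :
    IsCorner (im f C) := by
  intro i j
  simp only [im_apply]
  rw [f.inner_map_map]
  exact h i j

lemma IsCorner.perm {C : Fin 3 → V} (h : IsCorner C) (π : Equiv.Perm (Fin 3)) :
    IsCorner (C ∘ π) := by
  intro i j
  have := h (π i) (π j)
  simp only [Function.comp_apply, this, EmbeddingLike.apply_eq_iff_eq]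

lemma IsCorner.flp {C : Fin 3 → V} (h : IsCorner C) (j : Fin 3) : IsCorner (flp j C) := h.im _

lemma IsCorner.mv {C : Fin 3 → V} (h : IsCorner C) (j : Fin 3) : IsCorner (mv j C) := h.im _

lemma tot_im (f : V ≃ₗᵢ[ℝ] V) (C : Fin 3 → V) : tot (im f C) = f (tot C) := by
  simp [tot]

lemma nrm_im (f : V ≃ₗᵢ[ℝ] V) (C : Fin 3 → V) (j : Fin 3) : nrm (im f C) j = f (nrm C j) := by
  simp [nrm, tot_im]

lemma flp_im (f : V ≃ₗᵢ[ℝ] V) (j : Fin 3) (C : Fin 3 → V) : flp j (im f C) = im f (flp j C) := by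
  unfold flp
  funext i
  simp only [im_apply, nrm_im]
  rw [rf_conj]

lemma mv_im (f : V ≃ₗᵢ[ℝ] V) (j : Fin 3) (C : Fin 3 → V) : mv j (im f C) = im f (mv j C) := by
  unfold mv
  funext i
  simp only [im_apply]
  rw [rf_conj]

lemma tot_eq_sum (C : Fin 3 → V) : tot C = ∑ i, C i := by
  simp [tot, Fin.sum_univ_three]

lemma tot_perm (C : Fin 3 → V) (π : Equiv.Perm (Fin 3)) : tot (C ∘ π) = tot C := by
  rw [tot_eq_sum, tot_eq_sum]
  exact Equiv.sum_comp π C

lemma nrm_perm (C : Fin 3 → V) (π : Equiv.Perm (Fin 3)) (j : Fin 3) :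
    nrm (C ∘ π) j = nrm C (π j) := by
  simp [nrm, tot_perm]

lemma flp_perm (C : Fin 3 → V) (π : Equiv.Perm (Fin 3)) (j : Fin 3) :
    flp j (C ∘ π) = (flp (π j) C) ∘ π := by
  funext i
  simp [flp, nrm_perm]

lemma mv_perm (C : Fin 3 → V) (π : Equiv.Perm (Fin 3)) (j : Fin 3) :
    mv j (C ∘ π) = (mv (π j) C) ∘ π := by
  funext i
  simp [mv]

lemma flp_flp (j : Fin 3) (C : Fin 3 → V) : flp j (flp j C) = C := by
  have h : flp j (flp j C) = im (rf (nrm C j)) (flp j C) := by
    unfold flp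
    rw [nrm_im, rf_self, rf_neg]
  rw [h]
  unfold flp
  funext i
  simp only [im_apply, rf_rf]

lemma mv_mv (j : Fin 3) (C : Fin 3 → V) : mv j (mv j C) = C := by
  have h : mv j (mv j C) = im (rf (C j)) (mv j C) := by
    unfold mv
    simp only [im_apply, rf_self, rf_neg]
  rw [h]
  unfold mv
  funext i
  simp only [im_apply, rf_rf]

lemma inner_tot {C : Fin 3 → V} (h : IsCorner C) (j : Fin 3) :
    inner ℝ (tot C) (C j) = 1 - g := by
  unfold tot
  rw [inner_add_left, inner_add_left, h 0 j, h 1 j, h 2 j]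
  fin_cases j <;> simp [c0] <;> ring

lemma inner_nrm {C : Fin 3 → V} (h : IsCorner C) (j i : Fin 3) :
    inner ℝ (nrm C j) (C i) = if i = j then 1 else 0 := by
  unfold nrm
  rw [real_inner_smul_left, inner_add_left, real_inner_smul_left, inner_tot h, h j i]
  have hg := g_sq
  by_cases hij : i = j
  · subst hij
    simp only [if_true]
    linear_combination hg
  · rw [if_neg hij, if_neg (Ne.symm hij)]
    unfold c0
    linear_combination (-g) * hg - g * hg + g * hg

lemma inner_nrm_self {C : Fin 3 → V} (h : IsCorner C) (j : Fin 3) :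
    inner ℝ (nrm C j) (C j) = 1 := by rw [inner_nrm h, if_pos rfl]

lemma inner_nrm_ne {C : Fin 3 → V} (h : IsCorner C) {i j : Fin 3} (hij : i ≠ j) :
    inner ℝ (nrm C j) (C i) = 0 := by rw [inner_nrm h, if_neg hij]

/-- The inner product of any vector with a normal. -/
lemma inner_nrm_right (C : Fin 3 → V) (j : Fin 3) (x : V) :
    inner ℝ x (nrm C j) =
      g * (inner ℝ x (C 0) + inner ℝ x (C 1) + inner ℝ x (C 2) + 2 * g * inner ℝ x (C j)) := by
  unfold nrm tot
  rw [real_inner_smul_right, inner_add_right, inner_add_right, inner_add_right,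
    real_inner_smul_right]

lemma inner_nrm_nrm {C : Fin 3 → V} (h : IsCorner C) (j : Fin 3) :
    inner ℝ (nrm C j) (nrm C j) = 2 - g := by
  have hg := g_sq
  rw [inner_nrm_right, inner_nrm h, inner_nrm h, inner_nrm h, inner_nrm h]
  fin_cases j <;> simp <;> linear_combination 2 * hg

lemma flp_ne {C : Fin 3 → V} (h : IsCorner C) {i j : Fin 3} (hij : i ≠ j) : flp j C i = C i := by
  unfold flp
  rw [im_apply, rf_orth (inner_nrm_ne h hij)]

lemma mv_self (C : Fin 3 → V) (j : Fin 3) : mv j C j = -C j := by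
  unfold mv
  rw [im_apply, rf_self]

lemma mv_ne {C : Fin 3 → V} (h : IsCorner C) {i j : Fin 3} (hij : i ≠ j) :
    mv j C i = C i + g • C j := by
  unfold mv
  rw [im_apply, rf_apply, h.self, h.ne (Ne.symm hij), sub_eq_add_neg, ← neg_smul]
  congr 2
  unfold c0; ring

/-- Type A: `n` is, up to sign, the normal of the facet opposite to `C j`. -/
def TyA (C : Fin 3 → V) (n : V) (j : Fin 3) : Prop := n = nrm C j ∨ n = -nrm C j

/-- Type B: `n` is, up to sign, the normal of the facet opposite to `C j` at the other end of the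
edge `C j`. -/
def TyB (C : Fin 3 → V) (n : V) (j : Fin 3) : Prop := TyA (mv j C) n j

/-- The axes of the dodecahedron with corner `C`. -/
def Ax (C : Fin 3 → V) (n : V) : Prop := ∃ j, TyA C n j ∨ TyB C n j

lemma nrm_mv_ne {C : Fin 3 → V} (h : IsCorner C) {i j : Fin 3} (hij : i ≠ j) :
    nrm (mv i C) j = nrm C j := by
  rw [mv, nrm_im]
  apply rf_orth
  rw [real_inner_comm]
  exact inner_nrm_ne h hij

lemma TyA.mv_ne {C : Fin 3 → V} (h : IsCorner C) {n : V} {i j : Fin 3} (hij : i ≠ j)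
    (hn : TyA C n j) : TyA (mv i C) n j := by
  unfold TyA at hn ⊢
  rw [nrm_mv_ne h hij]; exact hn

lemma TyA.mv_self {C : Fin 3 → V} {n : V} {j : Fin 3}
    (hn : TyA C n j) : TyB (mv j C) n j := by
  unfold TyB
  rw [mv_mv]; exact hn

lemma TyB.mv_self {C : Fin 3 → V} {n : V} {j : Fin 3}
    (hn : TyB C n j) : TyA (mv j C) n j := hn

/-- The key relation between the facets of the dodecahedron. -/
lemma nrm_mv_mv {C : Fin 3 → V} (h : IsCorner C) {i j k : Fin 3} (hij : i ≠ j) (hik : i ≠ k)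
    (hjk : j ≠ k) : nrm (mv k (mv i C)) k = -nrm (mv j C) j := by
  have hi := h.mv i
  have e1 : nrm (mv k (mv i C)) k = rf (mv i C k) (nrm (mv i C) k) := by
    rw [mv, nrm_im]
  have e2 : nrm (mv j C) j = rf (C j) (nrm C j) := by
    rw [mv, nrm_im]
  rw [e1, e2, nrm_mv_ne h hik, MP_59160a_co.mv_ne h (Ne.symm hik)]
  rw [rf_apply, rf_apply]
  have hg := g_sq
  have h1 : inner ℝ (C k + g • C i) (C k + g • C i) = (1 : ℝ) := by
    have := hi.self k
    rwa [MP_59160a_co.mv_ne h (Ne.symm hik)] at this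
  have h2 : inner ℝ (C k + g • C i) (nrm C k) = (1 : ℝ) := by
    rw [inner_add_left, real_inner_smul_left, real_inner_comm, inner_nrm_self h,
      real_inner_comm, inner_nrm_ne h hik]; ring
  have h3 : inner ℝ (C j) (nrm C j) = (1 : ℝ) := by
    rw [real_inner_comm, inner_nrm_self h]
  rw [h1, h2, h3, h.self j]
  have ht : tot C = C i + C j + C k := by
    rw [tot_eq_sum, Fin.sum_univ_three]
    fin_cases i <;> fin_cases j <;> fin_cases k <;> simp_all <;> abel
  unfold nrm
  rw [ht]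
  match_scalars
  all_goals first | ring1 | linear_combination (2 : ℝ) * hg | linear_combination (-2 : ℝ) * hg

lemma TyB.mv_ne {C : Fin 3 → V} (h : IsCorner C) {n : V} {i j k : Fin 3} (hij : i ≠ j)
    (hik : i ≠ k) (hjk : j ≠ k) (hn : TyB C n j) : TyB (mv i C) n k := by
  unfold TyB TyA at hn ⊢
  rw [nrm_mv_mv h hij hik hjk]
  rcases hn with hn | hn
  · right; rw [hn]; simp
  · left; exact hn

lemma exists_third (i j : Fin 3) (hij : i ≠ j) : ∃ k, i ≠ k ∧ j ≠ k := by
  revert i j; decide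

lemma Ax.mv {C : Fin 3 → V} (h : IsCorner C) {n : V} (hn : Ax C n) (i : Fin 3) :
    Ax (mv i C) n := by
  obtain ⟨j, hn | hn⟩ := hn
  · by_cases hij : i = j
    · subst hij; exact ⟨i, Or.inr hn.mv_self⟩
    · exact ⟨j, Or.inl (hn.mv_ne h hij)⟩
  · by_cases hij : i = j
    · subst hij; exact ⟨i, Or.inl hn.mv_self⟩
    · obtain ⟨k, hik, hjk⟩ := exists_third i j hij
      exact ⟨k, Or.inr (hn.mv_ne h hij hik hjk)⟩

lemma TyA.perm {C : Fin 3 → V} {n : V} {j : Fin 3} (π : Equiv.Perm (Fin 3)) :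
    TyA (C ∘ π) n j ↔ TyA C n (π j) := by
  unfold TyA
  rw [nrm_perm]

lemma TyB.perm {C : Fin 3 → V} {n : V} {j : Fin 3} (π : Equiv.Perm (Fin 3)) :
    TyB (C ∘ π) n j ↔ TyB C n (π j) := by
  unfold TyB
  rw [mv_perm, TyA.perm]

lemma Ax.perm {C : Fin 3 → V} {n : V} (π : Equiv.Perm (Fin 3)) :
    Ax (C ∘ π) n ↔ Ax C n := by
  constructor
  · rintro ⟨j, h | h⟩
    · exact ⟨π j, Or.inl ((TyA.perm π).1 h)⟩
    · exact ⟨π j, Or.inr ((TyB.perm π).1 h)⟩
  · rintro ⟨j, h | h⟩
    · refine ⟨π.symm j, Or.inl ((TyA.perm π).2 ?_)⟩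
      simpa using h
    · refine ⟨π.symm j, Or.inr ((TyB.perm π).2 ?_)⟩
      simpa using h

lemma TyA.neg {C : Fin 3 → V} {n : V} {j : Fin 3} (h : TyA C n j) : TyA C (-n) j := by
  rcases h with h | h
  · right; rw [h]
  · left; rw [h, neg_neg]

lemma Ax.neg {C : Fin 3 → V} {n : V} (h : Ax C n) : Ax C (-n) := by
  obtain ⟨j, h | h⟩ := h
  · exact ⟨j, Or.inl h.neg⟩
  · exact ⟨j, Or.inr (TyA.neg h)⟩

lemma Ax_nrm (C : Fin 3 → V) (j : Fin 3) : Ax C (nrm C j) := ⟨j, Or.inl (Or.inl rfl)⟩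

lemma Ax.inner_self {C : Fin 3 → V} (h : IsCorner C) {n : V} (hn : Ax C n) :
    inner ℝ n n = 2 - g := by
  obtain ⟨j, (rfl | rfl) | (rfl | rfl)⟩ := hn
  · exact inner_nrm_nrm h j
  · rw [inner_neg_neg]; exact inner_nrm_nrm h j
  · exact inner_nrm_nrm (h.mv j) j
  · rw [inner_neg_neg]; exact inner_nrm_nrm (h.mv j) j

/-- Values of a type B functional. -/
lemma inner_nrm_mv_self {C : Fin 3 → V} (h : IsCorner C) (j : Fin 3) :
    inner ℝ (nrm (mv j C) j) (C j) = -1 := by
  have e : C j = - mv j C j := by rw [mv_self, neg_neg]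
  rw [e, inner_neg_right, inner_nrm_self (h.mv j)]

lemma inner_nrm_mv_ne {C : Fin 3 → V} (h : IsCorner C) {i j : Fin 3} (hij : i ≠ j) :
    inner ℝ (nrm (mv j C) j) (C i) = g := by
  have e : C i = mv j C i + g • mv j C j := by
    rw [← MP_59160a_co.mv_ne (h.mv j) hij, mv_mv]
  rw [e, inner_add_right, real_inner_smul_right, inner_nrm_self (h.mv j),
    inner_nrm_ne (h.mv j) hij]
  ring

end Pool.Agent.Lib.MP_59160a_co
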