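import Mathlib

/-!
Rank lemmas over the field with two elements, used for Euler characteristic counts.
-/

set_option autoImplicit false

namespace Pool.Agent.Lib.MP_59160a_co

open Module

/-- Two linear maps with orthogonal images have ranks summing to at most the dimension. -/
theorem orth_rank_le {E U W : Type*} [Fintype E] [AddCommGroup U] [Module (ZMod 2) U]
    [AddCommGroup W] [Module (ZMod 2) W]
    (A : U →ₗ[ZMod 2] (E → ZMod 2)) (B : W →ₗ[ZMod 2] (E → ZMod 2))
    (h : ∀ u w, ∑ e, A u e * B w e = 0) :
    finrank (ZMod 2) (LinearMap.range A) + finrank (ZMod 2) (LinearMap.range B)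
      ≤ Fintype.card E := by
  classical
  have hle : (LinearMap.range B).map (dotProductEquiv (ZMod 2) E).toLinearMap
      ≤ (LinearMap.range A).dualAnnihilator := by
    rintro φ ⟨g, ⟨w, rfl⟩, rfl⟩
    rw [Submodule.mem_dualAnnihilator]
    rintro x ⟨u, rfl⟩
    have := h u w
    simp only [dotProduct, LinearEquiv.coe_coe, dotProductEquiv_apply_apply]
    rw [← this]
    exact Finset.sum_congr rfl fun e _ => mul_comm _ _
  have h1 := Submodule.finrank_mono hle
  have h2 : finrank (ZMod 2) ((LinearMap.range B).map (dotProductEquiv (ZMod 2) E).toLinearMap)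
      = finrank (ZMod 2) (LinearMap.range B) :=
    LinearEquiv.finrank_map_eq (dotProductEquiv (ZMod 2) E) _
  have h3 := Subspace.finrank_add_finrank_dualAnnihilator_eq (LinearMap.range A)
  rw [finrank_fintype_fun_eq_card] at h3
  omega

/-- If in addition the ranks fill the whole dimension, the second image is the full orthogonal. -/
theorem orth_exact {E U W : Type*} [Fintype E] [AddCommGroup U] [Module (ZMod 2) U]
    [AddCommGroup W] [Module (ZMod 2) W]
    (A : U →ₗ[ZMod 2] (E → ZMod 2)) (B : W →ₗ[ZMod 2] (E → ZMod 2))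
    (h : ∀ u w, ∑ e, A u e * B w e = 0)
    (hr : Fintype.card E ≤ finrank (ZMod 2) (LinearMap.range A)
      + finrank (ZMod 2) (LinearMap.range B))
    (g : E → ZMod 2) (hg : ∀ u, ∑ e, A u e * g e = 0) : g ∈ LinearMap.range B := by
  classical
  have hle : (LinearMap.range B).map (dotProductEquiv (ZMod 2) E).toLinearMap
      ≤ (LinearMap.range A).dualAnnihilator := by
    rintro φ ⟨g, ⟨w, rfl⟩, rfl⟩
    rw [Submodule.mem_dualAnnihilator]
    rintro x ⟨u, rfl⟩
    have := h u w
    simp only [dotProduct, LinearEquiv.coe_coe, dotProductEquiv_apply_apply]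
    rw [← this]
    exact Finset.sum_congr rfl fun e _ => mul_comm _ _
  have h2 : finrank (ZMod 2) ((LinearMap.range B).map (dotProductEquiv (ZMod 2) E).toLinearMap)
      = finrank (ZMod 2) (LinearMap.range B) :=
    LinearEquiv.finrank_map_eq (dotProductEquiv (ZMod 2) E) _
  have h3 := Subspace.finrank_add_finrank_dualAnnihilator_eq (LinearMap.range A)
  rw [finrank_fintype_fun_eq_card] at h3
  have h4 : (LinearMap.range B).map (dotProductEquiv (ZMod 2) E).toLinearMap
      = (LinearMap.range A).dualAnnihilator :=
    Submodule.eq_of_le_of_finrank_le hle (by omega)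
  have h5 : (dotProductEquiv (ZMod 2) E) g ∈ (LinearMap.range A).dualAnnihilator := by
    rw [Submodule.mem_dualAnnihilator]
    rintro x ⟨u, rfl⟩
    have := hg u
    simp only [dotProduct, dotProductEquiv_apply_apply]
    rw [← this]
    exact Finset.sum_congr rfl fun e _ => mul_comm _ _
  rw [← h4] at h5
  obtain ⟨g', hg', he⟩ := h5
  have : g' = g := (dotProductEquiv (ZMod 2) E).injective he
  exact this ▸ hg'

/-- A linear map on functions whose kernel consists of constants has corank at most one. -/
theorem card_le_rank {V M : Type*} [Fintype V] [AddCommGroup M] [Module (ZMod 2) M]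
    (f : (V → ZMod 2) →ₗ[ZMod 2] M) (h : ∀ c, f c = 0 → ∀ x y, c x = c y) :
    Fintype.card V ≤ finrank (ZMod 2) (LinearMap.range f) + 1 := by
  classical
  have hle : LinearMap.ker f ≤ Submodule.span (ZMod 2) {fun _ => (1 : ZMod 2)} := by
    intro c hc
    rw [LinearMap.mem_ker] at hc
    rw [Submodule.mem_span_singleton]
    rcases isEmpty_or_nonempty V with hV | ⟨⟨v⟩⟩
    · exact ⟨0, funext fun x => isEmptyElim x⟩
    · exact ⟨c v, funext fun x => by simp [h c hc x v]⟩
  have h1 := Submodule.finrank_mono hle
  have h2 : finrank (ZMod 2) (Submodule.span (ZMod 2) {fun _ : V => (1 : ZMod 2)}) ≤ 1 := by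
    have := finrank_span_le_card (R := ZMod 2) ({fun _ : V => (1 : ZMod 2)} : Set (V → ZMod 2))
    simpa using this
  have h3 := f.finrank_range_add_finrank_ker
  rw [finrank_fintype_fun_eq_card] at h3
  omega

/-- If constants are in the kernel, the corank is at least one. -/
theorem rank_lt_card {V M : Type*} [Fintype V] [Nonempty V] [AddCommGroup M]
    [Module (ZMod 2) M] (f : (V → ZMod 2) →ₗ[ZMod 2] M) (h : f (fun _ => 1) = 0) :
    finrank (ZMod 2) (LinearMap.range f) + 1 ≤ Fintype.card V := by
  classical
  have hle : Submodule.span (ZMod 2) {fun _ => (1 : ZMod 2)} ≤ LinearMap.ker f := by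
    rw [Submodule.span_singleton_le_iff_mem]
    exact h
  have h1 := Submodule.finrank_mono hle
  have h2 : finrank (ZMod 2) (Submodule.span (ZMod 2) {fun _ : V => (1 : ZMod 2)}) = 1 := by
    apply finrank_span_singleton
    intro h0
    obtain ⟨v⟩ := ‹Nonempty V›
    have := congrFun h0 v
    simp at this
  have h3 := f.finrank_range_add_finrank_ker
  rw [finrank_fintype_fun_eq_card] at h3
  omega

/-- If the second image contains the full orthogonal of the first, ranks fill the dimension. -/
theorem card_le_of_orth_mem {E U W : Type*} [Fintype E] [AddCommGroup U] [Module (ZMod 2) U]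
    [AddCommGroup W] [Module (ZMod 2) W]
    (A : U →ₗ[ZMod 2] (E → ZMod 2)) (B : W →ₗ[ZMod 2] (E → ZMod 2))
    (h : ∀ g : E → ZMod 2, (∀ u, ∑ e, A u e * g e = 0) → g ∈ LinearMap.range B) :
    Fintype.card E ≤ finrank (ZMod 2) (LinearMap.range A)
      + finrank (ZMod 2) (LinearMap.range B) := by
  classical
  have hle : (LinearMap.range A).dualAnnihilator ≤
      (LinearMap.range B).map (dotProductEquiv (ZMod 2) E).toLinearMap := by
    intro φ hφ
    refine ⟨(dotProductEquiv (ZMod 2) E).symm φ, h _ ?_, ?_⟩
    · intro u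
      rw [Submodule.mem_dualAnnihilator] at hφ
      have h1 := hφ (A u) ⟨u, rfl⟩
      have h2 : φ = (dotProductEquiv (ZMod 2) E) ((dotProductEquiv (ZMod 2) E).symm φ) := by simp
      rw [h2] at h1
      rw [← h1]
      simp only [dotProduct, dotProductEquiv_apply_apply]
      exact Finset.sum_congr rfl fun e _ => mul_comm _ _
    · simp
  have h1 := Submodule.finrank_mono hle
  have h2 : finrank (ZMod 2) ((LinearMap.range B).map (dotProductEquiv (ZMod 2) E).toLinearMap)
      = finrank (ZMod 2) (LinearMap.range B) :=
    LinearEquiv.finrank_map_eq (dotProductEquiv (ZMod 2) E) _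
  have h3 := Subspace.finrank_add_finrank_dualAnnihilator_eq (LinearMap.range A)
  rw [finrank_fintype_fun_eq_card] at h3
  omega

end Pool.Agent.Lib.MP_59160a_co
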