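import Mathlib
import Pool.Agent.Lib.MP_59160a_co.F2Rank

/-!
Euler inequality for flag complexes and a forest count, by linear algebra over F2.
-/

set_option autoImplicit false

namespace Pool.Agent.Lib.MP_59160a_co

open Module

theorem eqvGen_congr {X α : Type*} {r : X → X → Prop} (g : X → α)
    (h : ∀ x y, r x y → g x = g y) {x y : X} (hxy : Relation.EqvGen r x y) : g x = g y := by
  induction hxy with
  | rel x y h' => exact h x y h'
  | refl x => rfl
  | symm x y _ ih => exact ih.symm
  | trans x y z _ _ ih1 ih2 => exact ih1.trans ih2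

/-- Lift of an invariant function to the quotient. -/
def qlift {X α : Type*} (r : X → X → Prop) (g : X → α) (h : ∀ x y, r x y → g x = g y) :
    Quotient (Relation.EqvGen.setoid r) → α :=
  Quotient.lift g fun _ _ hxy => eqvGen_congr g h hxy

/-- Quotient map. -/
def qmk {X : Type*} (r : X → X → Prop) (x : X) : Quotient (Relation.EqvGen.setoid r) :=
  Quotient.mk _ x

theorem qlift_qmk {X α : Type*} (r : X → X → Prop) (g : X → α) (h : ∀ x y, r x y → g x = g y)
    (x : X) : qlift r g h (qmk r x) = g x := rfl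

theorem qmk_eq {X : Type*} {r : X → X → Prop} {x y : X} (h : r x y) : qmk r x = qmk r y :=
  Quotient.sound (Relation.EqvGen.rel x y h)

theorem qmk_eq_iff {X : Type*} {r : X → X → Prop} {x y : X} :
    qmk r x = qmk r y ↔ Relation.EqvGen r x y :=
  Quotient.eq

theorem qmk_surj {X : Type*} (r : X → X → Prop)
    (e : Quotient (Relation.EqvGen.setoid r)) : ∃ x, qmk r x = e :=
  Quotient.exists_rep e

section four

variable {X : Type*} [Fintype X] (t0 t2 : X → X)

/-- Relation whose classes are the edges. -/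
def edgeRel (x y : X) : Prop := y = t0 x ∨ y = t2 x

theorem fiber_four [DecidableEq X] [DecidableEq (Quotient (Relation.EqvGen.setoid (edgeRel t0 t2)))]
    (h0 : ∀ x, t0 (t0 x) = x) (h2 : ∀ x, t2 (t2 x) = x)
    (h02 : ∀ x, t0 (t2 x) = t2 (t0 x)) (x : X) :
    Finset.univ.filter (fun y => qmk (edgeRel t0 t2) y = qmk (edgeRel t0 t2) x)
      = {x, t0 x, t2 x, t0 (t2 x)} := by
  ext y
  simp only [Finset.mem_filter, Finset.mem_univ, true_and, Finset.mem_insert,
    Finset.mem_singleton]
  constructor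
  · intro h
    have := eqvGen_congr (r := edgeRel t0 t2)
      (fun y => (y = x ∨ y = t0 x ∨ y = t2 x ∨ y = t0 (t2 x))) ?_ (qmk_eq_iff.1 h)
    · exact this.symm ▸ (Or.inl rfl : x = x ∨ x = t0 x ∨ x = t2 x ∨ x = t0 (t2 x))
    · intro a b hab
      have h0' : ∀ a b, t0 a = b ↔ a = t0 b := fun a b =>
        ⟨fun h => by rw [← h, h0], fun h => by rw [h, h0]⟩
      have h2' : ∀ a b, t2 a = b ↔ a = t2 b := fun a b =>
        ⟨fun h => by rw [← h, h2], fun h => by rw [h, h2]⟩
      apply propext
      rcases hab with rfl | rfl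
      · rw [h0', h0', h0', h0', h0, h0]
        tauto
      · rw [h2', h2', h2', h2', h2, ← h02, h02 x, h2]
        tauto
  · rintro (rfl | rfl | rfl | rfl)
    · rfl
    · exact (qmk_eq (r := edgeRel t0 t2) (x := x) (y := t0 x) (Or.inl rfl)).symm
    · exact (qmk_eq (r := edgeRel t0 t2) (x := x) (y := t2 x) (Or.inr rfl)).symm
    · exact ((qmk_eq (r := edgeRel t0 t2) (x := x) (Or.inr rfl)).trans
        (qmk_eq (Or.inl rfl))).symm

theorem card_four
    (h0 : ∀ x, t0 (t0 x) = x) (h2 : ∀ x, t2 (t2 x) = x)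
    (f0 : ∀ x, t0 x ≠ x) (f2 : ∀ x, t2 x ≠ x)
    (h02 : ∀ x, t0 (t2 x) = t2 (t0 x)) (f02 : ∀ x, t0 (t2 x) ≠ x)
    [Fintype (Quotient (Relation.EqvGen.setoid (edgeRel t0 t2)))] :
    4 * Fintype.card (Quotient (Relation.EqvGen.setoid (edgeRel t0 t2))) = Fintype.card X := by
  classical
  have h := Finset.card_eq_sum_card_fiberwise (s := (Finset.univ : Finset X))
    (t := (Finset.univ : Finset (Quotient (Relation.EqvGen.setoid (edgeRel t0 t2)))))
    (f := qmk (edgeRel t0 t2)) (fun _ _ => Finset.mem_coe.2 (Finset.mem_univ _))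
  rw [Finset.card_univ] at h
  rw [h, Finset.sum_congr rfl (g := fun _ => 4)]
  · rw [Finset.sum_const, Finset.card_univ, smul_eq_mul, mul_comm]
  · intro e _
    obtain ⟨x, rfl⟩ := qmk_surj _ e
    rw [fiber_four t0 t2 h0 h2 h02 x]
    have a1 : x ≠ t0 x := (f0 x).symm
    have a2 : x ≠ t2 x := (f2 x).symm
    have a3 : x ≠ t0 (t2 x) := (f02 x).symm
    have a4 : t0 x ≠ t2 x := by
      intro h
      exact f02 x (by rw [← h, h0])
    have a5 : t0 x ≠ t0 (t2 x) := by
      rw [h02]
      exact (f2 (t0 x)).symm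
    have a6 : t2 x ≠ t0 (t2 x) := (f0 _).symm
    rw [Finset.card_insert_of_notMem, Finset.card_insert_of_notMem,
      Finset.card_insert_of_notMem, Finset.card_singleton] <;> simp [a1, a2, a3, a4, a5, a6]

theorem sum_four {M : Type*} [AddCommMonoid M]
    (h0 : ∀ x, t0 (t0 x) = x) (h2 : ∀ x, t2 (t2 x) = x)
    (f0 : ∀ x, t0 x ≠ x) (f2 : ∀ x, t2 x ≠ x)
    (h02 : ∀ x, t0 (t2 x) = t2 (t0 x)) (f02 : ∀ x, t0 (t2 x) ≠ x)
    [Fintype (Quotient (Relation.EqvGen.setoid (edgeRel t0 t2)))] (G : X → M)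
    (H : Quotient (Relation.EqvGen.setoid (edgeRel t0 t2)) → M)
    (hH : ∀ x, H (qmk _ x) = G x + (G (t0 x) + (G (t2 x) + G (t0 (t2 x))))) :
    ∑ e, H e = ∑ x, G x := by
  classical
  rw [← Finset.sum_fiberwise (s := (Finset.univ : Finset X)) (g := qmk (edgeRel t0 t2))
    (f := G)]
  apply Finset.sum_congr rfl
  intro e _
  obtain ⟨x, rfl⟩ := qmk_surj _ e
  rw [fiber_four t0 t2 h0 h2 h02 x]
  have a1 : x ≠ t0 x := (f0 x).symm
  have a2 : x ≠ t2 x := (f2 x).symm
  have a3 : x ≠ t0 (t2 x) := (f02 x).symm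
  have a4 : t0 x ≠ t2 x := by
    intro h
    exact f02 x (by rw [← h, h0])
  have a5 : t0 x ≠ t0 (t2 x) := by
    rw [h02]
    exact (f2 (t0 x)).symm
  have a6 : t2 x ≠ t0 (t2 x) := (f0 _).symm
  rw [Finset.sum_insert, Finset.sum_insert,
      Finset.sum_insert, Finset.sum_singleton] <;> simp [a1, a2, a3, a4, a5, a6, hH]

end four

theorem zmod2_add_self (a : ZMod 2) : a + a = 0 := CharTwo.add_self_eq_zero a

theorem zmod2_eq_of_add {a b : ZMod 2} (h : a + b = 0) : a = b := by
  have := CharTwo.add_eq_zero.1 h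
  exact this

/-- The Euler inequality for connected flag complexes. -/
theorem euler_flags {X : Type*} [Fintype X] (t0 t1 t2 : X → X)
    (h0 : ∀ x, t0 (t0 x) = x) (h1 : ∀ x, t1 (t1 x) = x) (h2 : ∀ x, t2 (t2 x) = x)
    (f0 : ∀ x, t0 x ≠ x) (f1 : ∀ x, t1 x ≠ x) (f2 : ∀ x, t2 x ≠ x)
    (h02 : ∀ x, t0 (t2 x) = t2 (t0 x)) (f02 : ∀ x, t0 (t2 x) ≠ x)
    (hconn : ∀ w : X → Prop, (∀ x, w (t0 x) ↔ w x) → (∀ x, w (t1 x) ↔ w x) →
      (∀ x, w (t2 x) ↔ w x) → ∀ x y, w x → w y) :
    4 * (Nat.card (Quotient (Relation.EqvGen.setoid (fun x y => y = t1 x ∨ y = t2 x)))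
      + Nat.card (Quotient (Relation.EqvGen.setoid (fun x y => y = t0 x ∨ y = t1 x))))
      ≤ Fintype.card X + 8 := by
  classical
  set rV : X → X → Prop := fun x y => y = t1 x ∨ y = t2 x with hrV
  set rF : X → X → Prop := fun x y => y = t0 x ∨ y = t1 x with hrF
  set rE : X → X → Prop := edgeRel t0 t2 with hrE
  have qV1 : ∀ x, qmk rV (t1 x) = qmk rV x := fun x =>
    (qmk_eq (r := rV) (x := x) (y := t1 x) (Or.inl rfl)).symm
  have qV2 : ∀ x, qmk rV (t2 x) = qmk rV x := fun x =>
    (qmk_eq (r := rV) (x := x) (y := t2 x) (Or.inr rfl)).symm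
  have qF0 : ∀ x, qmk rF (t0 x) = qmk rF x := fun x =>
    (qmk_eq (r := rF) (x := x) (y := t0 x) (Or.inl rfl)).symm
  have qF1 : ∀ x, qmk rF (t1 x) = qmk rF x := fun x =>
    (qmk_eq (r := rF) (x := x) (y := t1 x) (Or.inr rfl)).symm
  have hA : ∀ f : Quotient (Relation.EqvGen.setoid rV) → ZMod 2, ∀ x y, rE x y →
      f (qmk rV x) + f (qmk rV (t0 x)) = f (qmk rV y) + f (qmk rV (t0 y)) := by
    rintro f x y (rfl | rfl)
    · rw [h0, add_comm]
    · rw [h02, qV2, qV2]
  have hB : ∀ f : Quotient (Relation.EqvGen.setoid rF) → ZMod 2, ∀ x y, rE x y →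
      f (qmk rF x) + f (qmk rF (t2 x)) = f (qmk rF y) + f (qmk rF (t2 y)) := by
    rintro f x y (rfl | rfl)
    · rw [← h02, qF0, qF0]
    · rw [h2, add_comm]
  let A : (Quotient (Relation.EqvGen.setoid rV) → ZMod 2) →ₗ[ZMod 2]
      (Quotient (Relation.EqvGen.setoid rE) → ZMod 2) :=
    { toFun := fun f => qlift rE (fun x => f (qmk rV x) + f (qmk rV (t0 x))) (hA f)
      map_add' := by
        intro f g
        funext e
        obtain ⟨x, rfl⟩ := qmk_surj _ e
        simp only [Pi.add_apply, qlift_qmk]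
        ring
      map_smul' := by
        intro c f
        funext e
        obtain ⟨x, rfl⟩ := qmk_surj _ e
        simp only [Pi.smul_apply, qlift_qmk, smul_eq_mul, RingHom.id_apply]
        ring }
  let B : (Quotient (Relation.EqvGen.setoid rF) → ZMod 2) →ₗ[ZMod 2]
      (Quotient (Relation.EqvGen.setoid rE) → ZMod 2) :=
    { toFun := fun f => qlift rE (fun x => f (qmk rF x) + f (qmk rF (t2 x))) (hB f)
      map_add' := by
        intro f g
        funext e
        obtain ⟨x, rfl⟩ := qmk_surj _ e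
        simp only [Pi.add_apply, qlift_qmk]
        ring
      map_smul' := by
        intro c f
        funext e
        obtain ⟨x, rfl⟩ := qmk_surj _ e
        simp only [Pi.smul_apply, qlift_qmk, smul_eq_mul, RingHom.id_apply]
        ring }
  have eA : ∀ f x, A f (qmk rE x) = f (qmk rV x) + f (qmk rV (t0 x)) := fun f x => rfl
  have eB : ∀ f x, B f (qmk rE x) = f (qmk rF x) + f (qmk rF (t2 x)) := fun f x => rfl
  have horth : ∀ u w, ∑ e, A u e * B w e = 0 := by
    intro u w
    rw [sum_four t0 t2 h0 h2 f0 f2 h02 f02 (fun x => u (qmk rV x) * w (qmk rF x))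
      (fun e => A u e * B w e)]
    · apply Finset.sum_involution (fun x _ => t1 x)
      · intro x _
        change u (qmk rV x) * w (qmk rF x) + u (qmk rV (t1 x)) * w (qmk rF (t1 x)) = 0
        rw [qV1, qF1]
        exact zmod2_add_self _
      · intro x _ _
        exact f1 x
      · intro x _
        exact Finset.mem_univ _
      · intro x _
        exact h1 x
    · intro x
      change A u (qmk rE x) * B w (qmk rE x) = u (qmk rV x) * w (qmk rF x)
        + (u (qmk rV (t0 x)) * w (qmk rF (t0 x)) + (u (qmk rV (t2 x)) * w (qmk rF (t2 x))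
        + u (qmk rV (t0 (t2 x))) * w (qmk rF (t0 (t2 x)))))
      rw [eA, eB, qF0, qF0, qV2, h02, qV2]
      ring
  have hkA : ∀ c, A c = 0 → ∀ x y, c x = c y := by
    intro c hc x y
    obtain ⟨x, rfl⟩ := qmk_surj _ x
    obtain ⟨y, rfl⟩ := qmk_surj _ y
    have h := hconn (fun z => c (qmk rV x) = c (qmk rV z)) ?_ ?_ ?_ x y rfl
    · exact h
    · intro z
      have := congrFun hc (qmk rE z)
      rw [eA] at this
      have := zmod2_eq_of_add this
      simp only [this]
    · intro z
      exact iff_of_eq (congrArg (fun q => c (qmk rV x) = c q) (qV1 z))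
    · intro z
      exact iff_of_eq (congrArg (fun q => c (qmk rV x) = c q) (qV2 z))
  have hkB : ∀ c, B c = 0 → ∀ x y, c x = c y := by
    intro c hc x y
    obtain ⟨x, rfl⟩ := qmk_surj _ x
    obtain ⟨y, rfl⟩ := qmk_surj _ y
    have h := hconn (fun z => c (qmk rF x) = c (qmk rF z)) ?_ ?_ ?_ x y rfl
    · exact h
    · intro z
      exact iff_of_eq (congrArg (fun q => c (qmk rF x) = c q) (qF0 z))
    · intro z
      exact iff_of_eq (congrArg (fun q => c (qmk rF x) = c q) (qF1 z))
    · intro z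
      have := congrFun hc (qmk rE z)
      rw [eB] at this
      have := zmod2_eq_of_add this
      simp only [this]
  have r1 := orth_rank_le A B horth
  have r2 := card_le_rank A hkA
  have r3 := card_le_rank B hkB
  have r4 : 4 * Fintype.card (Quotient (Relation.EqvGen.setoid rE)) = Fintype.card X :=
    card_four t0 t2 h0 h2 f0 f2 h02 f02
  rw [Nat.card_eq_fintype_card, Nat.card_eq_fintype_card]
  omega

section two

variable {X : Type*} (t : X → X)

/-- Relation whose classes are the orbits of an involution. -/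
def pairRel (x y : X) : Prop := y = t x

theorem qmk_pair (x : X) : qmk (pairRel t) (t x) = qmk (pairRel t) x :=
  (qmk_eq (r := pairRel t) (x := x) (y := t x) rfl).symm

theorem qmk_pair_iff (ht : ∀ x, t (t x) = x) (x y : X) :
    qmk (pairRel t) y = qmk (pairRel t) x ↔ y = x ∨ y = t x := by
  constructor
  · intro h
    have := eqvGen_congr (r := pairRel t)
      (fun y => (y = x ∨ y = t x)) ?_ (qmk_eq_iff.1 h)
    · exact this.symm ▸ (Or.inl rfl : x = x ∨ x = t x)
    · rintro a b rfl
      have h0' : ∀ a b, t a = b ↔ a = t b := fun a b =>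
        ⟨fun h => by rw [← h, ht], fun h => by rw [h, ht]⟩
      apply propext
      rw [h0', h0', ht]
      tauto
  · rintro (rfl | rfl)
    · rfl
    · exact qmk_pair t x

theorem card_image_pair [DecidableEq X]
    [DecidableEq (Quotient (Relation.EqvGen.setoid (pairRel t)))]
    (ht : ∀ x, t (t x) = x) (ht' : ∀ x, t x ≠ x) (Y : Finset X) (hY : ∀ y ∈ Y, t y ∈ Y) :
    2 * (Y.image (qmk (pairRel t))).card = Y.card := by
  have h := Finset.card_eq_sum_card_fiberwise (s := Y)
    (t := Y.image (qmk (pairRel t)))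
    (f := qmk (pairRel t)) (fun y hy => Finset.mem_coe.2 (Finset.mem_image_of_mem _ hy))
  rw [h, Finset.sum_congr rfl (g := fun _ => 2)]
  · rw [Finset.sum_const, smul_eq_mul, mul_comm]
  · intro e he
    obtain ⟨x, hx, rfl⟩ := Finset.mem_image.1 he
    have : (Y.filter fun y => qmk (pairRel t) y = qmk (pairRel t) x) = {x, t x} := by
      ext y
      rw [Finset.mem_filter, qmk_pair_iff t ht, Finset.mem_insert, Finset.mem_singleton]
      constructor
      · exact fun h => h.2
      · rintro (rfl | rfl)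
        · exact ⟨hx, Or.inl rfl⟩
        · exact ⟨hY _ hx, Or.inr rfl⟩
    rw [this, Finset.card_insert_of_notMem, Finset.card_singleton]
    rw [Finset.mem_singleton]
    exact (ht' x).symm

theorem card_pair [Fintype X] (ht : ∀ x, t (t x) = x) (ht' : ∀ x, t x ≠ x)
    [Fintype (Quotient (Relation.EqvGen.setoid (pairRel t)))] :
    2 * Fintype.card (Quotient (Relation.EqvGen.setoid (pairRel t))) = Fintype.card X := by
  classical
  have h := card_image_pair t ht ht' Finset.univ (fun _ _ => Finset.mem_univ _)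
  rw [Finset.card_univ] at h
  rw [← h]
  congr 1
  rw [← Finset.card_univ]
  congr 1
  ext e
  obtain ⟨x, rfl⟩ := qmk_surj _ e
  simp

theorem sum_pair {M : Type*} [AddCommMonoid M] [Fintype X]
    (ht : ∀ x, t (t x) = x) (ht' : ∀ x, t x ≠ x)
    [Fintype (Quotient (Relation.EqvGen.setoid (pairRel t)))] (G : X → M)
    (H : Quotient (Relation.EqvGen.setoid (pairRel t)) → M)
    (hH : ∀ x, H (qmk _ x) = G x + G (t x)) :
    ∑ e, H e = ∑ x, G x := by
  classical
  rw [← Finset.sum_fiberwise (s := (Finset.univ : Finset X)) (g := qmk (pairRel t))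
    (f := G)]
  apply Finset.sum_congr rfl
  intro e _
  obtain ⟨x, rfl⟩ := qmk_surj _ e
  have : (Finset.univ.filter fun y => qmk (pairRel t) y = qmk (pairRel t) x) = {x, t x} := by
    ext y
    rw [Finset.mem_filter, qmk_pair_iff t ht, Finset.mem_insert, Finset.mem_singleton]
    simp
  rw [this, Finset.sum_insert, Finset.sum_singleton, hH]
  rw [Finset.mem_singleton]
  exact (ht' x).symm

end two

/-- Edge count in connected graphs and forests. -/
theorem forest_count {X K : Type*} [Fintype X] [Fintype K] [DecidableEq X] [DecidableEq K]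
    (t : X → X) (ht : ∀ x, t (t x) = x) (ht' : ∀ x, t x ≠ x)
    (cl : X → K) (hK : Nonempty K)
    (hconn : ∀ w : K → Prop, (∀ x, w (cl (t x)) ↔ w (cl x)) → ∀ a b, w a → w b) :
    2 * Fintype.card K ≤ Fintype.card X + 2 ∧
    (Fintype.card X + 2 = 2 * Fintype.card K → ∀ Y : Finset X, Y.Nonempty →
      (∀ y ∈ Y, t y ∈ Y) → Y.card + 2 ≤ 2 * (Y.image cl).card) := by
  classical
  have hA : ∀ f : K → ZMod 2, ∀ x y, pairRel t x y →
      f (cl x) + f (cl (t x)) = f (cl y) + f (cl (t y)) := by
    rintro f x y rfl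
    rw [ht, add_comm]
  let A : (K → ZMod 2) →ₗ[ZMod 2]
      (Quotient (Relation.EqvGen.setoid (pairRel t)) → ZMod 2) :=
    { toFun := fun f => qlift (pairRel t) (fun x => f (cl x) + f (cl (t x))) (hA f)
      map_add' := by
        intro f g
        funext e
        obtain ⟨x, rfl⟩ := qmk_surj _ e
        simp only [Pi.add_apply, qlift_qmk]
        ring
      map_smul' := by
        intro c f
        funext e
        obtain ⟨x, rfl⟩ := qmk_surj _ e
        simp only [Pi.smul_apply, qlift_qmk, smul_eq_mul, RingHom.id_apply]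
        ring }
  have eA : ∀ f x, A f (qmk (pairRel t) x) = f (cl x) + f (cl (t x)) := fun f x => rfl
  have hkA : ∀ c, A c = 0 → ∀ x y, c x = c y := by
    intro c hc x y
    refine hconn (fun z => c x = c z) ?_ x y rfl
    intro z
    have := congrFun hc (qmk (pairRel t) z)
    rw [eA] at this
    have := zmod2_eq_of_add this
    simp only [this]
  have r2 := card_le_rank A hkA
  have r4 := card_pair t ht ht'
  have r5 : finrank (ZMod 2) (LinearMap.range A) ≤
      Fintype.card (Quotient (Relation.EqvGen.setoid (pairRel t))) := by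
    have := Submodule.finrank_le (LinearMap.range A)
    rwa [finrank_fintype_fun_eq_card] at this
  refine ⟨by omega, ?_⟩
  intro hE Y hYn hY
  have hsurj : LinearMap.range A = ⊤ := by
    apply Submodule.eq_top_of_finrank_eq
    rw [finrank_fintype_fun_eq_card]
    omega
  let S : Finset K := Y.image cl
  let T : Finset (Quotient (Relation.EqvGen.setoid (pairRel t))) := Y.image (qmk (pairRel t))
  let ext0 : ({k // k ∈ S} → ZMod 2) →ₗ[ZMod 2] (K → ZMod 2) :=
    { toFun := fun f k => if h : k ∈ S then f ⟨k, h⟩ else 0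
      map_add' := by
        intro f g
        funext k
        by_cases h : k ∈ S <;> simp [h]
      map_smul' := by
        intro c f
        funext k
        by_cases h : k ∈ S <;> simp [h] }
  let res : (Quotient (Relation.EqvGen.setoid (pairRel t)) → ZMod 2) →ₗ[ZMod 2]
      ({e // e ∈ T} → ZMod 2) := LinearMap.funLeft (ZMod 2) (ZMod 2) Subtype.val
  let B : ({k // k ∈ S} → ZMod 2) →ₗ[ZMod 2] ({e // e ∈ T} → ZMod 2) := res ∘ₗ A ∘ₗ ext0
  have hone : B (fun _ => 1) = 0 := by
    funext ⟨e, he⟩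
    obtain ⟨y, hy, rfl⟩ := Finset.mem_image.1 he
    change A (ext0 fun _ => 1) (qmk (pairRel t) y) = 0
    rw [eA]
    have h1 : cl y ∈ S := Finset.mem_image_of_mem _ hy
    have h2 : cl (t y) ∈ S := Finset.mem_image_of_mem _ (hY y hy)
    change (if h : cl y ∈ S then (1 : ZMod 2) else 0)
      + (if h : cl (t y) ∈ S then (1 : ZMod 2) else 0) = 0
    rw [dif_pos h1, dif_pos h2]
    exact zmod2_add_self _
  have hBs : LinearMap.range B = ⊤ := by
    rw [LinearMap.range_eq_top]
    intro g
    have hg : (fun e => if h : e ∈ T then g ⟨e, h⟩ else 0) ∈ LinearMap.range A := by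
      rw [hsurj]
      trivial
    obtain ⟨f, hf⟩ := hg
    refine ⟨fun k => f k.1, ?_⟩
    funext ⟨e, he⟩
    obtain ⟨y, hy, rfl⟩ := Finset.mem_image.1 he
    change A (ext0 fun k => f k.1) (qmk (pairRel t) y) = _
    have h1 : cl y ∈ S := Finset.mem_image_of_mem _ hy
    have h2 : cl (t y) ∈ S := Finset.mem_image_of_mem _ (hY y hy)
    rw [eA]
    have h3 := congrFun hf (qmk (pairRel t) y)
    rw [eA] at h3
    have h4 : (if h : qmk (pairRel t) y ∈ T then g ⟨qmk (pairRel t) y, h⟩ else 0)
      = g ⟨qmk (pairRel t) y, he⟩ := dif_pos he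
    rw [← h4, ← h3]
    change (if h : cl y ∈ S then f (cl y) else 0)
      + (if h : cl (t y) ∈ S then f (cl (t y)) else 0) = _
    rw [dif_pos h1, dif_pos h2]
  have hSn : Nonempty {k // k ∈ S} := by
    obtain ⟨y, hy⟩ := hYn
    exact ⟨⟨cl y, Finset.mem_image_of_mem _ hy⟩⟩
  have r6 := rank_lt_card B hone
  rw [hBs, finrank_top, finrank_fintype_fun_eq_card, Fintype.card_coe, Fintype.card_coe] at r6
  have r7 : 2 * T.card = Y.card := card_image_pair t ht ht' Y hY
  have r8 : S.card = (Y.image cl).card := rfl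
  omega

end Pool.Agent.Lib.MP_59160a_co
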