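import Pool.Agent.Lib.MP_59160a_co.Flags
import Pool.Agent.Lib.MP_59160a_co.EulerFlags

/-!
Counting flags, facets and dodecahedra: every class of flags is a genuine dodecahedron.
-/

set_option autoImplicit false
set_option linter.unusedSectionVars false

namespace Pool.Agent.Lib.MP_59160a_co

open Module Equiv.Perm Finset

namespace Pent

variable {D : Type*} {V : Type*} [Fintype D] [DecidableEq D] [NormedAddCommGroup V]
    [InnerProductSpace ℝ V] [Fact (finrank ℝ V = 3)] {M : Pent D V}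

open Fl

/-! ### Sizes of classes and facets -/

open Classical in
/-- The flags of a class. -/
noncomputable def clF (K : M.Cls) : Finset M.Fl := univ.filter (fun q => cls q = K)

open Classical in
/-- The flags of a facet. -/
noncomputable def fcF (O : M.Fct) : Finset M.Fl := univ.filter (fun q => fct' q = O)

lemma mem_clF {K : M.Cls} {q : M.Fl} : q ∈ clF K ↔ cls q = K := by simp [clF]

lemma mem_fcF {O : M.Fct} {q : M.Fl} : q ∈ fcF O ↔ fct' q = O := by simp [fcF]

open Classical in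
/-- The flags of a class over a model flag. -/
noncomputable def fib (K : M.Cls) (f : F0) : Finset M.Fl :=
  univ.filter (fun q => cls q = K ∧ Phi q = f)

lemma mem_fib {K : M.Cls} {f : F0} {q : M.Fl} : q ∈ fib K f ↔ cls q = K ∧ Phi q = f := by
  simp [fib]

lemma fib_card_eq (K : M.Cls) (t : M.Fl → M.Fl) (s : F0 → F0) (ht : ∀ q, t (t q) = q)
    (hs : ∀ f, s (s f) = f) (hc : ∀ q, cls (t q) = cls q) (hP : ∀ q, Phi (t q) = s (Phi q))
    (f : F0) : (fib K (s f)).card = (fib K f).card := by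
  refine Finset.card_nbij' t t ?_ ?_ ?_ ?_
  · intro q hq
    rw [Finset.mem_coe, mem_fib] at hq ⊢
    rw [hc, hP, hq.2, hs]
    exact ⟨hq.1, rfl⟩
  · intro q hq
    rw [Finset.mem_coe, mem_fib] at hq ⊢
    rw [hc, hP, hq.2]
    exact ⟨hq.1, rfl⟩
  · intro q _; exact ht q
  · intro q _; exact ht q

lemma fib_card (K : M.Cls) (f : F0) : (fib K f).card = (fib K (0, 1)).card := by
  refine F0_conn (fun f => (fib K f).card = (fib K (0, 1)).card) ?_ ?_ ?_ (0, 1) f rfl
  · intro f; rw [fib_card_eq K t0 s0 t0_t0 s0_s0 cls_t0 Phi_t0]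
  · intro f; rw [fib_card_eq K t1 s1 t1_t1 s1_s1 cls_t1 Phi_t1]
  · intro f; rw [fib_card_eq K t2 s2 t2_t2 s2_s2 cls_t2 Phi_t2]

lemma clF_card (K : M.Cls) : (clF K).card = 120 * (fib K (0, 1)).card := by
  have h1 := Finset.card_eq_sum_card_fiberwise (f := fun q : M.Fl => Phi q)
    (s := clF K) (t := univ) (fun x _ => by simp)
  rw [h1]
  have h2 : ∀ f ∈ (univ : Finset F0), #{q ∈ clF K | Phi q = f} = (fib K (0, 1)).card := by
    intro f _
    rw [← fib_card K f]
    congr 1
    ext q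
    rw [Finset.mem_filter, mem_clF, mem_fib]
  rw [Finset.sum_congr rfl h2, Finset.sum_const, smul_eq_mul, Finset.card_univ, card_F0]

lemma Phi_ten {q q' : M.Fl} (h : fct' q' = fct' q) : Phi q' ∈ ten (Phi q) := by
  have h1 := fct_inv (fun q' : M.Fl => Phi q' ∈ ten (Phi q)) (q := q') (q' := q) ?_ ?_ h
  · rw [h1]; simp [ten]
  · intro a
    apply propext
    rw [Phi_t0]
    constructor
    · intro ha
      have := mem_ten_s0 _ _ ha
      rwa [s0_s0] at this
    · exact mem_ten_s0 _ _
  · intro a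
    apply propext
    rw [Phi_t1]
    constructor
    · intro ha
      have := mem_ten_s1 _ _ ha
      rwa [s1_s1] at this
    · exact mem_ten_s1 _ _

lemma exists_rep (O : M.Fct) : ∃ q, fct' q = O := Quotient.exists_rep O

lemma exists_rep' (K : M.Cls) : ∃ q, cls q = K := Quotient.exists_rep K

/-- A facet has at most a twelfth of the flags of its class. -/
lemma fcF_card_le (O : M.Fct) : 12 * (fcF O).card ≤ (clF (cl O)).card := by
  classical
  obtain ⟨q, rfl⟩ := exists_rep O
  rw [cl_fct, clF_card]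
  have h1 : fcF (fct' q) ⊆ (ten (Phi q)).toFinset.biUnion (fun f => fib (cls q) f) := by
    intro q' hq'
    rw [mem_fcF] at hq'
    rw [Finset.mem_biUnion]
    exact ⟨Phi q', List.mem_toFinset.2 (Phi_ten hq'), mem_fib.2 ⟨cls_of_fct hq', rfl⟩⟩
  have h2 := (Finset.card_le_card h1).trans Finset.card_biUnion_le
  have h3 : ∑ f ∈ (ten (Phi q)).toFinset, (fib (cls q) f).card ≤ 10 * (fib (cls q) (0, 1)).card := by
    rw [Finset.sum_congr rfl (fun f _ => fib_card (cls q) f), Finset.sum_const, smul_eq_mul]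
    apply Nat.mul_le_mul_right
    exact (List.toFinset_card_le _).trans (by simp [ten])
  omega

/-- The ten flags obtained by walking around a facet. -/
noncomputable def tenq (q : M.Fl) : List M.Fl :=
  [q, t0 q, t1 (t0 q), t0 (t1 (t0 q)), t1 (t0 (t1 (t0 q))), t0 (t1 (t0 (t1 (t0 q)))),
    t1 (t0 (t1 (t0 (t1 (t0 q))))), t0 (t1 (t0 (t1 (t0 (t1 (t0 q)))))),
    t1 (t0 (t1 (t0 (t1 (t0 (t1 (t0 q))))))), t0 (t1 (t0 (t1 (t0 (t1 (t0 (t1 (t0 q))))))))]

lemma tenq_map (q : M.Fl) : (tenq q).map Phi = ten (Phi q) := by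
  simp only [tenq, ten, List.map_cons, List.map_nil, Phi_t0, Phi_t1]

/-- A facet has at least ten flags. -/
lemma ten_le_fcF (O : M.Fct) : 10 ≤ (fcF O).card := by
  classical
  obtain ⟨q, rfl⟩ := exists_rep O
  have h1 : (tenq q).toFinset ⊆ fcF (fct' q) := by
    intro q' hq'
    rw [List.mem_toFinset] at hq'
    rw [mem_fcF]
    simp only [tenq, List.mem_cons, List.not_mem_nil, or_false] at hq'
    rcases hq' with rfl | rfl | rfl | rfl | rfl | rfl | rfl | rfl | rfl | rfl <;>
      simp only [fct_t0, fct_t1]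
  have h2 : (tenq q).Nodup := by
    apply List.Nodup.of_map Phi
    rw [tenq_map]
    exact ten_nodup _
  have h3 := Finset.card_le_card h1
  rw [List.toFinset_card_of_nodup h2] at h3
  exact h3

/-- If walking around the facet closes up after five steps then there are only ten flags. -/
lemma fcF_card_le_ten (q : M.Fl)
    (hq : t1 (t0 (t1 (t0 (t1 (t0 (t1 (t0 (t1 (t0 q))))))))) = q) :
    (fcF (fct' q)).card ≤ 10 := by
  classical
  have hs0 : ∀ h ∈ tenq q, t0 h ∈ tenq q := by
    intro h hh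
    simp only [tenq, List.mem_cons, List.not_mem_nil, or_false] at hh ⊢
    rcases hh with rfl | rfl | rfl | rfl | rfl | rfl | rfl | rfl | rfl | rfl <;> simp [t0_t0]
  have hs1 : ∀ h ∈ tenq q, t1 h ∈ tenq q := by
    intro h hh
    have hc : t1 q = t0 (t1 (t0 (t1 (t0 (t1 (t0 (t1 (t0 q)))))))) := by
      conv_lhs => rw [← hq]
      rw [t1_t1]
    simp only [tenq, List.mem_cons, List.not_mem_nil, or_false] at hh ⊢
    rcases hh with rfl | rfl | rfl | rfl | rfl | rfl | rfl | rfl | rfl | rfl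
    · right; right; right; right; right; right; right; right; right; exact hc
    all_goals simp [t1_t1, hq]
  have h1 : fcF (fct' q) ⊆ (tenq q).toFinset := by
    intro q' hq'
    rw [mem_fcF] at hq'
    rw [List.mem_toFinset]
    have h2 := fct_inv (fun a : M.Fl => a ∈ tenq q) (q := q') (q' := q) ?_ ?_ hq'
    · rw [h2]; simp [tenq]
    · intro a
      apply propext
      constructor
      · intro ha
        have := hs0 _ ha
        rwa [t0_t0] at this
      · exact hs0 a
    · intro a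
      apply propext
      constructor
      · intro ha
        have := hs1 _ ha
        rwa [t1_t1] at this
      · exact hs1 a
  refine (Finset.card_le_card h1).trans ((List.toFinset_card_le _).trans ?_)
  simp [tenq]

/-! ### Facets on the surface -/

lemma face_step {q : M.Fl} (h : q.d 1 = M.sg (q.d 0)) :
    (t1 (t0 q)).d 0 = M.nx (q.d 0) ∧ (t1 (t0 q)).d 1 = M.sg ((t1 (t0 q)).d 0) := by
  have h1 : (t1 (t0 q)).d 0 = (t0 q).d 1 := rfl
  have h2 : (t1 (t0 q)).d 1 = (t0 q).d 0 := rfl
  have h3 : (t0 q).d 1 = M.nx (q.d 0) := by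
    apply M.u_inj
    · have h4 := (t0 q).same 1 0
      rw [t0_zero] at h4
      refine h4.trans ?_
      rw [M.nx_eq]
      exact M.same_sg_inv _
    · rw [t0_u, h, M.u_nx, rf_apply, M.u_unit, M.inner_sg, c0_eq]
      have : (2 * (-g / 2) / 1 : ℝ) = -g := by ring
      rw [this, neg_smul, sub_neg_eq_add]
  refine ⟨by rw [h1, h3], ?_⟩
  rw [h1, h2, h3, t0_zero, M.sg_nx]

/-- Flags on a face are determined by their first dart. -/
lemma face_ext {q q' : M.Fl} (h : q.d 1 = M.sg (q.d 0)) (h' : q'.d 1 = M.sg (q'.d 0))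
    (h0 : q.d 0 = q'.d 0) : q = q' := by
  apply Fl.ext
  funext i
  have h2 : q.d 2 = q'.d 2 := by
    obtain ⟨c, _, hc⟩ := M.poly_one (q.d 0)
    have e1 := hc (q.d 2) ⟨q.adj 0 2 (by decide), by rw [← h]; exact q.adj 1 2 (by decide)⟩
    have e2 := hc (q'.d 2) ⟨by rw [h0]; exact q'.adj 0 2 (by decide), by
      rw [h0, ← h']; exact q'.adj 1 2 (by decide)⟩
    rw [e1, e2]
  fin_cases i
  · exact h0
  · change q.d 1 = q'.d 1
    rw [h, h', h0]
  · exact h2

lemma face_closed {q : M.Fl} (h : q.d 1 = M.sg (q.d 0)) :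
    t1 (t0 (t1 (t0 (t1 (t0 (t1 (t0 (t1 (t0 q))))))))) = q := by
  obtain ⟨a1, b1⟩ := face_step h
  obtain ⟨a2, b2⟩ := face_step b1
  obtain ⟨a3, b3⟩ := face_step b2
  obtain ⟨a4, b4⟩ := face_step b3
  obtain ⟨a5, b5⟩ := face_step b4
  apply face_ext b5 h
  rw [a5, a4, a3, a2, a1]
  exact M.nx5 _

lemma fcF_card_face {q : M.Fl} (h : ¬ q.Intr) : (fcF (fct' q)).card = 10 := by
  apply le_antisymm
  · rcases not_intr h with h1 | h1
    · exact fcF_card_le_ten q (face_closed h1)
    · rw [← fct_t1 q]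
      exact fcF_card_le_ten _ (face_closed h1)
  · exact ten_le_fcF _

/-- There is a flag on every face corner. -/
lemma exists_face_flag (x : D) : ∃ q : M.Fl, q.d 0 = x ∧ q.d 1 = M.sg x := by
  obtain ⟨c, ⟨h1, h2⟩, _⟩ := M.poly_one x
  have h3 := M.adj_sg x
  refine ⟨⟨![x, M.sg x, c], ?_⟩, rfl, rfl⟩
  intro i j hij
  fin_cases i <;> fin_cases j
  · exact absurd rfl hij
  · exact h3
  · exact h1
  · exact M.adj_symm h3
  · exact absurd rfl hij
  · exact h2
  · exact M.adj_symm h1
  · exact M.adj_symm h2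
  · exact absurd rfl hij

/-- The facet of a face. -/
noncomputable def bfl (x : D) : M.Fl := (exists_face_flag x).choose

lemma bfl_zero (x : D) : (bfl x : M.Fl).d 0 = x := (exists_face_flag x).choose_spec.1

lemma bfl_one (x : D) : (bfl x : M.Fl).d 1 = M.sg ((bfl x : M.Fl).d 0) := by
  rw [bfl_zero]; exact (exists_face_flag x).choose_spec.2

lemma bfl_nx (x : D) : t1 (t0 (bfl x : M.Fl)) = bfl (M.nx x) := by
  obtain ⟨a1, b1⟩ := face_step (bfl_one (M := M) x)
  apply face_ext b1 (bfl_one _)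
  rw [a1, bfl_zero, bfl_zero]

lemma fct_bfl_nx (x : D) : fct' (bfl (M.nx x) : M.Fl) = fct' (bfl x : M.Fl) := by
  rw [← bfl_nx, fct_t1, fct_t0]

lemma fct_bfl_same {x y : D} (h : SameCycle M.nx x y) :
    fct' (bfl x : M.Fl) = fct' (bfl y : M.Fl) := by
  have h1 : ∀ (n : ℕ) z, fct' (bfl ((M.nx ^ n) z) : M.Fl) = fct' (bfl z : M.Fl) := by
    intro n
    induction n with
    | zero => intro z; rfl
    | succ n ih =>
      intro z
      rw [pow_succ', Equiv.Perm.mul_apply, fct_bfl_nx, ih]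
  obtain ⟨k, rfl⟩ := h
  obtain ⟨n, rfl | rfl⟩ := k.eq_nat_or_neg
  · rw [zpow_natCast, h1]
  · rw [zpow_neg, zpow_natCast]
    have := h1 n ((M.nx ^ n)⁻¹ x)
    rw [perm_apply_inv] at this
    exact this

lemma fct_bfl_inj {x y : D} (h : fct' (bfl x : M.Fl) = fct' (bfl y : M.Fl)) :
    SameCycle M.nx x y := by
  let W : M.Fl → Prop := fun q => (q.d 1 = M.sg (q.d 0) ∧ SameCycle M.nx x (q.d 0)) ∨
    (q.d 0 = M.sg (q.d 1) ∧ SameCycle M.nx x (q.d 1))
  have hstep : ∀ q : M.Fl, q.d 1 = M.sg (q.d 0) → SameCycle M.nx x (q.d 0) →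
      SameCycle M.nx x ((t1 (t0 q)).d 0) := by
    intro q h1 h2
    rw [(face_step h1).1]
    exact h2.trans ⟨1, by rw [zpow_one]⟩
  have hW1 : ∀ q : M.Fl, W q → W (t1 q) := by
    rintro q (⟨h1, h2⟩ | ⟨h1, h2⟩)
    · right; exact ⟨h1, h2⟩
    · left; exact ⟨h1, h2⟩
  -- the case of a flag `q` with `q.d 1 = sg (q.d 0)`
  have hW0 : ∀ q : M.Fl, W q → W (t0 q) := by
    rintro q (⟨h1, h2⟩ | ⟨h1, h2⟩)
    · have h3 := (face_step h1).2
      have h4 := hstep q h1 h2
      have : W (t1 (t0 q)) := Or.inl ⟨h3, h4⟩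
      have := hW1 _ this
      rwa [t1_t1] at this
    · -- `t1 q` is on the face and `t0 q` is one step back
      have hcl := face_closed (q := t1 q) h1
      have e : t0 q = t1 (t0 (t1 (t0 (t1 (t0 (t1 (t0 (t1 q)))))))) := by
        have : t1 (t1 (t0 (t1 (t0 (t1 (t0 (t1 (t0 (t1 (t0 (t1 q))))))))))) = t1 (t1 q) := by
          rw [hcl]
        rw [t1_t1, t1_t1] at this
        conv_lhs => rw [← this]
        rw [t0_t0]
      obtain ⟨a1, b1⟩ := face_step (q := t1 q) h1
      have c1 := hstep (t1 q) h1 h2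
      obtain ⟨a2, b2⟩ := face_step b1
      have c2 := hstep _ b1 c1
      obtain ⟨a3, b3⟩ := face_step b2
      have c3 := hstep _ b2 c2
      obtain ⟨a4, b4⟩ := face_step b3
      have c4 := hstep _ b3 c3
      rw [e]
      exact Or.inl ⟨b4, c4⟩
  have h1 := fct_inv W (q := (bfl x : M.Fl)) (q' := bfl y) ?_ ?_ h
  · have h2 : W (bfl x) := Or.inl ⟨bfl_one x, by rw [bfl_zero]⟩
    rw [h1] at h2
    rcases h2 with ⟨_, h3⟩ | ⟨h3, _⟩
    · rw [bfl_zero] at h3; exact h3
    · exfalso
      rw [bfl_one] at h3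
      exact M.sg_sg_ne _ h3.symm
  · intro a
    apply propext
    constructor
    · intro ha
      have := hW0 _ ha
      rwa [t0_t0] at this
    · exact hW0 a
  · intro a
    apply propext
    constructor
    · intro ha
      have := hW1 _ ha
      rwa [t1_t1] at this
    · exact hW1 a

/-- Interior facets. -/
def IntrF (O : M.Fct) : Prop := ∃ q, fct' q = O ∧ q.Intr

lemma intrF_iff (q : M.Fl) : IntrF (fct' q) ↔ q.Intr := by
  constructor
  · rintro ⟨q', h1, h2⟩
    have h3 := fct_inv (fun q : M.Fl => q.Intr) (fun q => propext t0_intr_iff)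
      (fun q => propext t1_intr_iff) h1
    exact h3 ▸ h2
  · intro h; exact ⟨q, rfl, h⟩

lemma bfl_not_intr (x : D) : ¬ IntrF (fct' (bfl x : M.Fl)) := by
  rw [intrF_iff]
  exact intr_of_face (bfl_one x)

open Classical in
/-- The number of faces is at most the number of facets that are not interior. -/
lemma faces_le : Nat.card (Quotient (SameCycle.setoid M.nx)) ≤
    (univ.filter (fun O : M.Fct => ¬ IntrF O)).card := by
  let φ : Quotient (SameCycle.setoid M.nx) → {O : M.Fct // ¬ IntrF O} :=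
    Quotient.lift (fun x => ⟨fct' (bfl x), bfl_not_intr x⟩)
      (fun x y h => Subtype.ext (fct_bfl_same h))
  have hφ : Function.Injective φ := by
    intro a b
    induction a using Quotient.ind
    induction b using Quotient.ind
    intro h
    exact Quotient.sound (fct_bfl_inj (congrArg Subtype.val h))
  have h1 := Nat.card_le_card_of_injective φ hφ
  rw [← Fintype.card_subtype, ← Nat.card_eq_fintype_card]
  exact h1

end Pent

end Pool.Agent.Lib.MP_59160a_co
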