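import Pool.Agent.Lib.MP_59160a_co.Count

/-!
The Euler characteristic counts: every class of flags has exactly 120 flags.
-/

set_option autoImplicit false
set_option linter.unusedSectionVars false

namespace Pool.Agent.Lib.MP_59160a_co

open Module Equiv.Perm Finset

namespace Pent

variable {D : Type*} {V : Type*} [Fintype D] [DecidableEq D] [NormedAddCommGroup V]
    [InnerProductSpace ℝ V] [Fact (finrank ℝ V = 3)] {M : Pent D V}

open Fl

open Classical in
/-- The facets of a class. -/
noncomputable def fcK (K : M.Cls) : Finset M.Fct := univ.filter (fun O => cl O = K)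

lemma mem_fcK {K : M.Cls} {O : M.Fct} : O ∈ fcK K ↔ cl O = K := by simp [fcK]

/-! ### Euler inequality for a class -/

lemma euler_class (K : M.Cls) : 12 * (fcK K).card ≤ (clF K).card + 24 := by
  classical
  let X := {q : M.Fl // cls q = K}
  let τ0 : X → X := fun q => ⟨t0 q.1, by rw [cls_t0]; exact q.2⟩
  let τ1 : X → X := fun q => ⟨t1 q.1, by rw [cls_t1]; exact q.2⟩
  let τ2 : X → X := fun q => ⟨t2 q.1, by rw [cls_t2]; exact q.2⟩
  have hcard : Fintype.card X = (clF K).card := by
    rw [Fintype.card_subtype]; rfl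
  have he := euler_flags τ0 τ1 τ2 (fun x => Subtype.ext (t0_t0 _)) (fun x => Subtype.ext (t1_t1 _))
    (fun x => Subtype.ext (t2_t2 _)) (fun x h => t0_ne _ (congrArg Subtype.val h))
    (fun x h => t1_ne _ (congrArg Subtype.val h)) (fun x h => t2_ne _ (congrArg Subtype.val h))
    (fun x => Subtype.ext (t0_t2 _)) (fun x h => t0_t2_ne _ (congrArg Subtype.val h)) (by
      intro w h0 h1 h2 x y hx
      have h3 := cls_inv (fun q : M.Fl => ∀ h : cls q = K, w ⟨q, h⟩) (q := x.1) (q' := y.1)
        ?_ ?_ ?_ (x.2.trans y.2.symm)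
      · have h4 : ∀ h : cls x.1 = K, w ⟨x.1, h⟩ := fun h => hx
        rw [h3] at h4
        exact h4 y.2
      · intro q
        apply propext
        constructor
        · intro hq h
          exact (h0 ⟨q, h⟩).1 (hq (by rw [cls_t0]; exact h))
        · intro hq h
          exact (h0 ⟨q, by rw [← cls_t0]; exact h⟩).2 (hq _)
      · intro q
        apply propext
        constructor
        · intro hq h
          exact (h1 ⟨q, h⟩).1 (hq (by rw [cls_t1]; exact h))
        · intro hq h
          exact (h1 ⟨q, by rw [← cls_t1]; exact h⟩).2 (hq _)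
      · intro q
        apply propext
        constructor
        · intro hq h
          exact (h2 ⟨q, h⟩).1 (hq (by rw [cls_t2]; exact h))
        · intro hq h
          exact (h2 ⟨q, by rw [← cls_t2]; exact h⟩).2 (hq _))
  -- vertices: at least a sixth of the flags
  have hV : Fintype.card X ≤
      6 * Nat.card (Quotient (Relation.EqvGen.setoid (fun x y => y = τ1 x ∨ y = τ2 x))) := by
    set r := Relation.EqvGen.setoid (fun x y : X => y = τ1 x ∨ y = τ2 x) with hr
    have hgen : ∀ y x : X, Relation.EqvGen (fun x y : X => y = τ1 x ∨ y = τ2 x) y x →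
        ∃ π : Equiv.Perm (Fin 3), y.1 = x.1.perm π := by
      intro y x h2
      induction h2 with
      | rel a b hab =>
        rcases hab with rfl | rfl
        · refine ⟨Equiv.swap 0 1, ?_⟩
          exact (t1_t1 a.1).symm
        · refine ⟨Equiv.swap 1 2, ?_⟩
          exact (t2_t2 a.1).symm
      | refl a => exact ⟨1, rfl⟩
      | symm a b h3 ih =>
        obtain ⟨π, hπ⟩ := ih
        refine ⟨π⁻¹, ?_⟩
        rw [hπ, perm_perm, mul_inv_cancel, perm_one]
      | trans a b c h3 h4 ih1 ih2 =>
        obtain ⟨π, hπ⟩ := ih1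
        obtain ⟨ρ, hρ⟩ := ih2
        exact ⟨ρ * π, by rw [hπ, hρ, perm_perm]⟩
    have : Fintype (Quotient r) := Fintype.ofFinite _
    rw [Nat.card_eq_fintype_card]
    have h1 := Finset.card_le_mul_card_image (f := fun x : X => (Quotient.mk r x))
      (s := univ) (n := 6) (fun a _ => by
        obtain ⟨x, rfl⟩ := Quotient.exists_rep a
        have hperm : ∀ y, Quotient.mk r y = Quotient.mk r x → ∃ π : Equiv.Perm (Fin 3),
            y.1 = x.1.perm π := fun y hy => hgen y x (Quotient.exact hy)
        have h3 : (univ.filter (fun y : X => Quotient.mk r y = Quotient.mk r x)).card ≤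
            ((univ : Finset (Equiv.Perm (Fin 3))).image (fun π => x.1.perm π)).card := by
          refine Finset.card_le_card_of_injOn Subtype.val ?_ Subtype.val_injective.injOn
          intro y hy
          rw [Finset.mem_coe, Finset.mem_filter] at hy
          obtain ⟨π, hπ⟩ := hperm y hy.2
          rw [Finset.mem_coe, Finset.mem_image]
          exact ⟨π, Finset.mem_univ _, hπ.symm⟩
        refine h3.trans (Finset.card_image_le.trans ?_)
        rw [Finset.card_univ, Fintype.card_perm]
        simp [Nat.factorial])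
    rw [Finset.card_univ] at h1
    refine h1.trans ?_
    apply Nat.mul_le_mul_left
    rw [← Finset.card_univ]
    exact Finset.card_le_card (Finset.subset_univ _)
  -- facets
  have hF : (fcK K).card ≤
      Nat.card (Quotient (Relation.EqvGen.setoid (fun x y => y = τ0 x ∨ y = τ1 x))) := by
    set r := Relation.EqvGen.setoid (fun x y : X => y = τ0 x ∨ y = τ1 x) with hr
    have : Fintype (Quotient r) := Fintype.ofFinite _
    have hlift : ∀ x y : X, r x y → fct' x.1 = fct' y.1 := by
      intro x y h
      have h2 : Relation.EqvGen (fun x y : X => y = τ0 x ∨ y = τ1 x) x y := h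
      clear h
      induction h2 with
      | rel a b hab =>
        rcases hab with rfl | rfl
        · exact (fct_t0 _).symm
        · exact (fct_t1 _).symm
      | refl a => rfl
      | symm a b _ ih => exact ih.symm
      | trans a b c _ _ ih1 ih2 => exact ih1.trans ih2
    let φ : Quotient r → {O : M.Fct // cl O = K} :=
      Quotient.lift (fun x : X => ⟨fct' x.1, by rw [cl_fct]; exact x.2⟩)
        (fun x y h => Subtype.ext (hlift x y h))
    have hφ : Function.Surjective φ := by
      rintro ⟨O, hO⟩
      obtain ⟨q, rfl⟩ := exists_rep O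
      exact ⟨Quotient.mk r ⟨q, hO⟩, rfl⟩
    have h1 := Nat.card_le_card_of_surjective φ hφ
    rw [Nat.card_eq_fintype_card (α := {O : M.Fct // cl O = K}), Fintype.card_subtype] at h1
    exact h1
  rw [hcard] at he hV
  omega

/-! ### Vertices -/

open Classical in
lemma vertex_count : Fintype.card M.Fl + 12 * Nat.card (Quotient (SameCycle.setoid M.sg)) =
    6 * Fintype.card D := by
  have : Fintype (Quotient (SameCycle.setoid M.sg)) := Fintype.ofFinite _
  rw [Nat.card_eq_fintype_card]
  have h1 := Finset.card_eq_sum_card_fiberwise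
    (f := fun q : M.Fl => (Quotient.mk (SameCycle.setoid M.sg) (q.d 0)))
    (s := univ) (t := univ) (fun x _ => by simp)
  have h2 := Finset.card_eq_sum_card_fiberwise
    (f := fun x : D => (Quotient.mk (SameCycle.setoid M.sg) x))
    (s := univ) (t := univ) (fun x _ => by simp)
  rw [Finset.card_univ] at h1 h2
  rw [h1, h2, Finset.mul_sum]
  have h3 : 12 * Fintype.card (Quotient (SameCycle.setoid M.sg)) =
      ∑ _v : Quotient (SameCycle.setoid M.sg), 12 := by
    rw [Finset.sum_const, smul_eq_mul, mul_comm, Finset.card_univ]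
  rw [h3, ← Finset.sum_add_distrib]
  refine Finset.sum_congr rfl (fun v _ => ?_)
  obtain ⟨x, rfl⟩ := Quotient.exists_rep v
  have h4 := (M.orb_poly x).2.2.1
  have h5 : {y ∈ (univ : Finset D) | Quotient.mk (SameCycle.setoid M.sg) y =
      Quotient.mk (SameCycle.setoid M.sg) x} = M.orb x := by
    ext y
    rw [Finset.mem_filter, M.mem_orb]
    constructor
    · rintro ⟨_, h⟩
      exact (Quotient.exact h : SameCycle M.sg y x).symm
    · intro h
      exact ⟨Finset.mem_univ _, Quotient.sound (show SameCycle M.sg y x from h.symm)⟩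
  rw [h5, ← h4]
  congr 1
  -- bijection between flags and triples
  rw [← Set.ncard_coe_finset]
  refine Set.ncard_congr (fun q _ => (q.d 0, q.d 1, q.d 2)) ?_ ?_ ?_
  · intro q hq
    simp only [Finset.coe_filter, Finset.mem_univ, true_and, Set.mem_setOf_eq] at hq ⊢
    have h6 : SameCycle M.sg x (q.d 0) := (Quotient.exact hq : SameCycle M.sg (q.d 0) x).symm
    exact ⟨M.mem_orb.2 h6, M.mem_orb.2 (h6.trans (q.same 0 1)),
      M.mem_orb.2 (h6.trans (q.same 0 2)), q.adj 0 1 (by decide), q.adj 1 2 (by decide),
      q.adj 0 2 (by decide)⟩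
  · intro q q' _ _ h
    simp only [Prod.mk.injEq] at h
    apply Fl.ext
    funext i
    fin_cases i
    · exact h.1
    · exact h.2.1
    · exact h.2.2
  · rintro ⟨a, b, c⟩ ⟨ha, hb, hc, hab, hbc, hac⟩
    refine ⟨⟨![a, b, c], ?_⟩, ?_, rfl⟩
    · intro i j hij
      fin_cases i <;> fin_cases j
      · exact absurd rfl hij
      · exact hab
      · exact hac
      · exact M.adj_symm hab
      · exact absurd rfl hij
      · exact hbc
      · exact M.adj_symm hac
      · exact M.adj_symm hbc
      · exact absurd rfl hij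
    · simp only [Finset.coe_filter, Finset.mem_univ, true_and, Set.mem_setOf_eq]
      exact Quotient.sound (show SameCycle M.sg a x from (M.mem_orb.1 ha).symm)

/-! ### Connectivity -/

/-- A property of flags invariant under all moves is constant. -/
lemma flags_conn (W : M.Fl → Prop) (h0 : ∀ q, W (t0 q) ↔ W q) (h1 : ∀ q, W (t1 q) ↔ W q)
    (h2 : ∀ q, W (t2 q) ↔ W q) (h3 : ∀ q, q.Intr → (W (t3 q) ↔ W q)) (q q' : M.Fl) :
    W q → W q' := by
  -- constant at a vertex
  have hv : ∀ q q' : M.Fl, SameCycle M.sg (q.d 0) (q'.d 0) → W q → W q' := by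
    intro q q' hs hq
    let w : D → D → D → Prop := fun a b c => ∀ q : M.Fl, q.d 0 = a → q.d 1 = b → q.d 2 = c → W q
    have hflag : ∀ a b c, Tri M.Adj (M.orb (q.d 0)) a b c →
        ∃ q : M.Fl, q.d 0 = a ∧ q.d 1 = b ∧ q.d 2 = c := by
      rintro a b c ⟨_, _, _, hab, hbc, hac⟩
      refine ⟨⟨![a, b, c], ?_⟩, rfl, rfl, rfl⟩
      intro i j hij
      fin_cases i <;> fin_cases j
      · exact absurd rfl hij
      · exact hab
      · exact hac
      · exact M.adj_symm hab
      · exact absurd rfl hij
      · exact hbc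
      · exact M.adj_symm hac
      · exact M.adj_symm hbc
      · exact absurd rfl hij
    have huniq : ∀ {p p' : M.Fl}, p.d 0 = p'.d 0 → p.d 1 = p'.d 1 → p.d 2 = p'.d 2 → p = p' := by
      intro p p' e0 e1 e2
      apply Fl.ext
      funext i
      fin_cases i
      · exact e0
      · exact e1
      · exact e2
    have hw : ∀ {a b c} (p : M.Fl), p.d 0 = a → p.d 1 = b → p.d 2 = c → (w a b c ↔ W p) := by
      intro a b c p e0 e1 e2
      constructor
      · intro h; exact h p e0 e1 e2
      · intro h p' e0' e1' e2'
        have : p' = p := huniq (e0'.trans e0.symm) (e1'.trans e1.symm) (e2'.trans e2.symm)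
        rw [this]; exact h
    have h4 := (M.orb_poly (q.d 0)).2.2.2 w ?_ ?_ ?_ (q.d 0) (q.d 1) (q.d 2) (q'.d 0) (q'.d 1)
      (q'.d 2) ?_ ?_
    · rw [hw q rfl rfl rfl, hw q' rfl rfl rfl] at h4
      exact h4 hq
    · intro a b c ht
      obtain ⟨p, e0, e1, e2⟩ := hflag a b c ht
      rw [hw p e0 e1 e2, hw (t1 p) e1 e0 e2, h1]
    · intro a b c ht
      obtain ⟨p, e0, e1, e2⟩ := hflag a b c ht
      rw [hw p e0 e1 e2, hw (t2 p) e0 e2 e1, h2]
    · intro a b c c' ht ht'
      obtain ⟨p, e0, e1, e2⟩ := hflag a b c ht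
      obtain ⟨p', e0', e1', e2'⟩ := hflag a b c' ht'
      rw [hw p e0 e1 e2, hw p' e0' e1' e2']
      by_cases hcc : c = c'
      · subst hcc
        rw [huniq (e0.trans e0'.symm) (e1.trans e1'.symm) (e2.trans e2'.symm)]
      · have hI : p.Intr := by
          refine ⟨c', ?_, ?_, ?_⟩
          · rw [e2]; exact Ne.symm hcc
          · rw [e0]; exact ht'.2.2.2.2.2
          · rw [e1]; exact ht'.2.2.2.2.1
        have h5 : t3 p = p' := by
          have e0'' : (t3 p).d 0 = p'.d 0 := by rw [t3_ne_two (by decide), e0, e0']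
          apply eq_of_vec
          · rw [e0'']
          · -- both are obtained by a flip
            have h6 := eq_of_two p.vec_corner p'.vec_corner 2 (by
              intro i hi
              have : i = 0 ∨ i = 1 := by
                revert hi; revert i; decide
              rcases this with rfl | rfl
              · change M.u (p'.d 0) = M.u (p.d 0)
                rw [e0, e0']
              · change M.u (p'.d 1) = M.u (p.d 1)
                rw [e1, e1'])
            rcases h6 with h6 | h6
            · exfalso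
              have : p' = p := eq_of_vec (by rw [e0, e0']) h6
              apply hcc
              rw [← e2, ← e2', this]
            · rw [t3_vec hI, h6]
        rw [← h5, h3 p hI]
    · exact ⟨M.mem_orb.2 (SameCycle.refl _ _), M.mem_orb.2 (q.same 0 1), M.mem_orb.2 (q.same 0 2),
        q.adj 0 1 (by decide), q.adj 1 2 (by decide), q.adj 0 2 (by decide)⟩
    · exact ⟨M.mem_orb.2 hs, M.mem_orb.2 (hs.trans (q'.same 0 1)),
        M.mem_orb.2 (hs.trans (q'.same 0 2)),
        q'.adj 0 1 (by decide), q'.adj 1 2 (by decide), q'.adj 0 2 (by decide)⟩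
  -- a property of darts
  intro hq
  let f : D → Prop := fun x => ∀ q : M.Fl, SameCycle M.sg x (q.d 0) → W q
  have hf : ∀ (x : D) (q : M.Fl), SameCycle M.sg x (q.d 0) → (f x ↔ W q) := by
    intro x q hx
    constructor
    · intro h; exact h q hx
    · intro h q' hx'
      exact hv q q' (hx.symm.trans hx') h
  have hal : ∀ x, f (M.al x) ↔ f x := by
    intro x
    obtain ⟨p, e0, -⟩ := exists_face_flag (M := M) x
    rw [hf x p (by rw [e0]), hf (M.al x) (t0 p) (by rw [t0_zero, e0]), h0]
  have hsg : ∀ x y, SameCycle M.sg x y → (f x ↔ f y) := by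
    intro x y hxy
    obtain ⟨p, e0, -⟩ := exists_face_flag (M := M) y
    rw [hf x p (by rw [e0]; exact hxy), hf y p (by rw [e0])]
  have hnx : ∀ x, f (M.nx x) ↔ f x := by
    intro x
    rw [M.nx_eq, ← hsg _ _ (M.same_sg_inv (M.al x)), hal]
  have h5 := M.conn f hnx hal (q.d 0) (q'.d 0)
  rw [hf _ q (SameCycle.refl _ _), hf _ q' (SameCycle.refl _ _)] at h5
  exact h5 hq

/-! ### Crossing facets -/

/-- Crossing a facet. -/
noncomputable def T (O : M.Fct) : M.Fct :=
  Quotient.lift (fun q => fct' (t3 q)) (by
    intro a b hab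
    have h : fct' a = fct' b := Quotient.sound hab
    refine fct_inv (fun q : M.Fl => fct' (t3 q)) ?_ ?_ h
    · intro q
      by_cases hq : q.Intr
      · rw [t3_t0 hq, fct_t0]
      · have h1 : t3 q = q := by unfold t3; rw [dif_neg hq]
        have h2 : t3 (t0 q) = t0 q := by
          unfold t3; rw [dif_neg (fun h => hq (t0_intr_iff.1 h))]
        rw [h1, h2, fct_t0]
    · intro q
      by_cases hq : q.Intr
      · rw [t3_t1 hq, fct_t1]
      · have h1 : t3 q = q := by unfold t3; rw [dif_neg hq]
        have h2 : t3 (t1 q) = t1 q := by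
          unfold t3; rw [dif_neg (fun h => hq (t1_intr_iff.1 h))]
        rw [h1, h2, fct_t1]) O

lemma T_fct (q : M.Fl) : T (fct' q) = fct' (t3 q) := rfl

lemma T_intr {O : M.Fct} (h : IntrF O) : IntrF (T O) := by
  obtain ⟨q, rfl⟩ := exists_rep O
  rw [intrF_iff] at h
  rw [T_fct, intrF_iff]
  exact t3_intr h

lemma T_T {O : M.Fct} (h : IntrF O) : T (T O) = O := by
  obtain ⟨q, rfl⟩ := exists_rep O
  rw [intrF_iff] at h
  rw [T_fct, T_fct, t3_t3 h]

lemma cl_T_ne {O : M.Fct} (h : IntrF O) : cl (T O) ≠ cl O := by
  obtain ⟨q, rfl⟩ := exists_rep O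
  rw [intrF_iff] at h
  rw [T_fct, cl_fct, cl_fct]
  exact cls_t3_ne h

lemma T_card {O : M.Fct} (h : IntrF O) : (fcF (T O)).card = (fcF O).card := by
  have hmem : ∀ {q}, q ∈ fcF O → q.Intr := by
    intro q hq
    rw [mem_fcF] at hq
    rw [← intrF_iff, hq]; exact h
  have hmem' : ∀ {q}, q ∈ fcF (T O) → q.Intr := by
    intro q hq
    rw [mem_fcF] at hq
    rw [← intrF_iff, hq]; exact T_intr h
  refine Finset.card_nbij' t3 t3 ?_ ?_ ?_ ?_
  · intro q hq
    rw [Finset.mem_coe] at hq ⊢
    have h1 := hmem' hq
    rw [mem_fcF] at hq ⊢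
    rw [← T_fct, hq, T_T h]
  · intro q hq
    rw [Finset.mem_coe] at hq ⊢
    rw [mem_fcF] at hq ⊢
    rw [← T_fct, hq]
  · intro q hq
    exact t3_t3 (hmem' (Finset.mem_coe.1 hq))
  · intro q hq
    exact t3_t3 (hmem (Finset.mem_coe.1 hq))

/-! ### The conclusion -/

lemma clF_eq_sum (K : M.Cls) : (clF K).card = ∑ O ∈ fcK K, (fcF O).card := by
  classical
  have h1 := Finset.card_eq_sum_card_fiberwise (f := fun q : M.Fl => fct' q)
    (s := clF K) (t := fcK K) (fun q hq => by
      rw [Finset.mem_coe, mem_clF] at hq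
      rw [Finset.mem_coe, mem_fcK, cl_fct]; exact hq)
  rw [h1]
  refine Finset.sum_congr rfl (fun O hO => ?_)
  congr 1
  ext q
  rw [Finset.mem_filter, mem_clF, mem_fcF]
  constructor
  · exact fun h => h.2
  · intro h
    rw [mem_fcK, ← h, cl_fct] at hO
    exact ⟨hO, h⟩

/-- All facets have ten flags and all classes satisfy Euler's formula. -/
theorem counting : (∀ K : M.Cls, (clF K).card = 120) := by
  classical
  have hflags : Nonempty M.Fl := by
    by_contra hne
    rw [not_nonempty_iff] at hne
    have h1 := vertex_count (M := M)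
    have h2 : IsEmpty D := ⟨fun x => hne.elim (bfl x)⟩
    have h3 := M.euler
    have h4 : Fintype.card D = 0 := Fintype.card_eq_zero
    have h5 : Nat.card (Quotient (SameCycle.setoid (M.al * M.nx⁻¹))) = 0 := by
      rw [Nat.card_eq_zero]; left
      exact ⟨fun a => by obtain ⟨x, _⟩ := Quotient.exists_rep a; exact h2.elim x⟩
    have h6 : Nat.card (Quotient (SameCycle.setoid M.nx)) = 0 := by
      rw [Nat.card_eq_zero]; left
      exact ⟨fun a => by obtain ⟨x, _⟩ := Quotient.exists_rep a; exact h2.elim x⟩
    omega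
  -- interior facets
  let X := {O : M.Fct // IntrF O}
  let τ : X → X := fun O => ⟨T O.1, T_intr O.2⟩
  have hforest := forest_count (X := X) (K := M.Cls) τ (fun O => Subtype.ext (T_T O.2))
    (fun O h => cl_T_ne O.2 (by rw [show T O.1 = O.1 from congrArg Subtype.val h]))
    (fun O => cl O.1) ⟨cls hflags.some⟩ (by
      intro w hw a b ha
      obtain ⟨q, rfl⟩ := exists_rep' a
      obtain ⟨q', rfl⟩ := exists_rep' b
      refine flags_conn (fun q => w (cls q)) ?_ ?_ ?_ ?_ q q' ha
      · intro q; rw [cls_t0]
      · intro q; rw [cls_t1]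
      · intro q; rw [cls_t2]
      · intro q hq
        exact hw ⟨fct' q, (intrF_iff q).2 hq⟩)
  obtain ⟨hf1, hf2⟩ := hforest
  have hX : Fintype.card X = (univ.filter (fun O : M.Fct => IntrF O)).card :=
    Fintype.card_subtype _
  have hsplit : (univ.filter (fun O : M.Fct => IntrF O)).card +
      (univ.filter (fun O : M.Fct => ¬ IntrF O)).card = Fintype.card M.Fct := by
    rw [Finset.card_filter_add_card_filter_not, Finset.card_univ]
  have hfaces := faces_le (M := M)
  have hvert := vertex_count (M := M)
  have heul := M.euler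
  have hsg : M.al * M.nx⁻¹ = M.sg := rfl
  rw [hsg] at heul
  -- sums over classes
  have hFsum : Fintype.card M.Fct = ∑ K : M.Cls, (fcK K).card := by
    have h1 := Finset.card_eq_sum_card_fiberwise (f := fun O : M.Fct => cl O)
      (s := univ) (t := univ) (fun x _ => by simp)
    rw [Finset.card_univ] at h1
    rw [h1]
    rfl
  have hQsum : Fintype.card M.Fl = ∑ K : M.Cls, (clF K).card := by
    have h1 := Finset.card_eq_sum_card_fiberwise (f := fun q : M.Fl => cls q)
      (s := univ) (t := univ) (fun x _ => by simp)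
    rw [Finset.card_univ] at h1
    rw [h1]
    rfl
  have hle : ∀ K ∈ (univ : Finset M.Cls), 12 * (fcK K).card ≤ (clF K).card + 24 :=
    fun K _ => euler_class K
  have hsumle := Finset.sum_le_sum hle
  rw [← Finset.mul_sum, ← hFsum, Finset.sum_add_distrib, ← hQsum, Finset.sum_const,
    Finset.card_univ, smul_eq_mul] at hsumle
  -- equality everywhere
  have hXeq : Fintype.card X + 2 = 2 * Fintype.card M.Cls := by
    rw [hX] at hf1 ⊢
    omega
  have hsumeq : ∑ K : M.Cls, 12 * (fcK K).card = ∑ K : M.Cls, ((clF K).card + 24) := by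
    rw [← Finset.mul_sum, ← hFsum, Finset.sum_add_distrib, ← hQsum, Finset.sum_const,
      Finset.card_univ, smul_eq_mul]
    rw [hX] at hXeq
    omega
  have heq : ∀ K : M.Cls, 12 * (fcK K).card = (clF K).card + 24 := by
    intro K
    exact (Finset.sum_eq_sum_iff_of_le hle).1 hsumeq K (Finset.mem_univ K)
  -- no bad facets
  have hbad : ∀ O : M.Fct, (fcF O).card = 10 := by
    let Y : Finset X := univ.filter (fun O => 10 < (fcF O.1).card)
    have hmemY : ∀ O, O ∈ Y ↔ 10 < (fcF O.1).card := by
      intro O; simp [Y]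
    have hYempty : ¬ Y.Nonempty := by
      intro hYne
      have h1 := hf2 hXeq Y hYne (by
        intro O hO
        rw [hmemY] at hO ⊢
        change 10 < (fcF (T O.1)).card
        rw [T_card O.2]; exact hO)
      have h2 : 2 * (Y.image (fun O => cl O.1)).card ≤ Y.card := by
        have h3 := Finset.card_eq_sum_card_fiberwise (f := fun O : X => cl O.1)
          (s := Y) (t := Y.image (fun O => cl O.1))
          (fun O hO => Finset.mem_coe.2 (Finset.mem_image_of_mem _ (Finset.mem_coe.1 hO)))
        rw [h3, mul_comm, ← smul_eq_mul, ← Finset.sum_const]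
        refine Finset.sum_le_sum (fun K hK => ?_)
        obtain ⟨O1, hO1, rfl⟩ := Finset.mem_image.1 hK
        by_contra hlt
        have hone : ∀ O ∈ Y, cl O.1 = cl O1.1 → O = O1 := by
          intro O hO hOc
          by_contra hne
          apply hlt
          have h4 : ({O1, O} : Finset X) ⊆ Y.filter (fun O => cl O.1 = cl O1.1) := by
            intro z hz
            rw [Finset.mem_insert, Finset.mem_singleton] at hz
            rw [Finset.mem_filter]
            rcases hz with rfl | rfl
            · exact ⟨hO1, rfl⟩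
            · exact ⟨hO, hOc⟩
          have h5 := Finset.card_le_card h4
          rw [Finset.card_pair (Ne.symm hne)] at h5
          exact h5
        -- the sum of the facet sizes
        have h6 := clF_eq_sum (cl O1.1)
        have hmem : O1.1 ∈ fcK (cl O1.1) := mem_fcK.2 rfl
        rw [← Finset.add_sum_erase _ _ hmem] at h6
        have h7 : ∑ O ∈ (fcK (cl O1.1)).erase O1.1, (fcF O).card =
            ∑ O ∈ (fcK (cl O1.1)).erase O1.1, 10 := by
          refine Finset.sum_congr rfl (fun O hO => ?_)
          rw [Finset.mem_erase, mem_fcK] at hO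
          by_cases hI : IntrF O
          · have h8 := ten_le_fcF O
            have h9 : ¬ 10 < (fcF O).card := by
              intro h
              have h10 := hone ⟨O, hI⟩ ((hmemY _).2 h) hO.2
              exact hO.1 (congrArg Subtype.val h10)
            omega
          · obtain ⟨q, rfl⟩ := exists_rep O
            rw [intrF_iff] at hI
            exact fcF_card_face hI
        rw [h7, Finset.sum_const, smul_eq_mul, Finset.card_erase_of_mem hmem] at h6
        have h11 := heq (cl O1.1)
        have h12 := fcF_card_le O1.1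
        have h13 := (hmemY _).1 hO1
        have h14 : 0 < (fcK (cl O1.1)).card := Finset.card_pos.2 ⟨_, hmem⟩
        omega
      omega
    intro O
    by_cases hO : IntrF O
    · have h1 := ten_le_fcF O
      have h2 : ¬ 10 < (fcF O).card := by
        intro h
        exact hYempty ⟨⟨O, hO⟩, (hmemY _).2 h⟩
      omega
    · obtain ⟨q, rfl⟩ := exists_rep O
      rw [intrF_iff] at hO
      exact fcF_card_face hO
  intro K
  have h1 := clF_eq_sum K
  rw [Finset.sum_congr rfl (fun O _ => hbad O), Finset.sum_const, smul_eq_mul] at h1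
  have h2 := heq K
  omega

end Pent

end Pool.Agent.Lib.MP_59160a_co
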