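import Mathlib

/-!
Closed polyhedral surfaces made of regular pentagons, their immersions in space, and unions of
solid regular dodecahedra glued at common facets.
-/

set_option autoImplicit false

namespace Pool.Agent.Lib.MP_59160a_co

open scoped Real

/-- The Euclidean plane. -/
abbrev E2 := EuclideanSpace ℝ (Fin 2)

/-- Euclidean space. -/
abbrev E3 := EuclideanSpace ℝ (Fin 3)

/-! ### The pentagon -/

/-- The vertices of the regular pentagon of side one, in cyclic order. -/
noncomputable def pentVertex (i : ZMod 5) : E2 :=
  (1 / (2 * Real.sin (π / 5))) • !₂[Real.cos (2 * π * i.val / 5), Real.sin (2 * π * i.val / 5)]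

/-- The regular pentagon of side one (a planar region). -/
def pentagon : Set E2 := convexHull ℝ (Set.range pentVertex)

/-- The point with parameter `t` on side `i` of the pentagon, the side from vertex `i` to vertex
`i + 1`. -/
noncomputable def sidePoint (i : ZMod 5) (t : ℝ) : E2 :=
  AffineMap.lineMap (pentVertex i) (pentVertex (i + 1)) t

/-! ### Closed surfaces made of pentagons -/

/-- A gluing scheme for a closed surface made of finitely many copies of the regular pentagon: the
sides are paired by a fixed-point-free involution `glue`, and `rev d` says whether the isometry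
between side `d` and side `glue d` reverses the parametrisations of the two sides. -/
structure PentComplex where
  /-- the number of pentagons -/
  n : ℕ
  glue : Fin n × ZMod 5 → Fin n × ZMod 5
  glue_glue : ∀ d, glue (glue d) = d
  glue_ne : ∀ d, glue d ≠ d
  rev : Fin n × ZMod 5 → Bool
  rev_glue : ∀ d, rev (glue d) = rev d

namespace PentComplex

variable (M : PentComplex)

/-- The identifications: a point of a side is identified with the corresponding point of the
side it is glued to. -/
def Rel (a b : Fin M.n × pentagon) : Prop :=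
  ∃ (i : ZMod 5) (t : ℝ), 0 ≤ t ∧ t ≤ 1 ∧ (a.2 : E2) = sidePoint i t ∧
    b.1 = (M.glue (a.1, i)).1 ∧
    (b.2 : E2) = sidePoint (M.glue (a.1, i)).2 (if M.rev (a.1, i) then 1 - t else t)

/-- The surface: the topological quotient of the disjoint union of the pentagons. -/
def Carrier : Type := Quot M.Rel

instance : TopologicalSpace M.Carrier := inferInstanceAs (TopologicalSpace (Quot M.Rel))

/-- The point of the surface given by a point of a pentagon. -/
def pt (F : Fin M.n) (x : pentagon) : M.Carrier := Quot.mk M.Rel (F, x)

/-- `f` is an immersion of the surface in space: it is continuous, isometric on each pentagon and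
locally injective. -/
def IsImmersion (f : M.Carrier → E3) : Prop :=
  Continuous f ∧ (∀ F, Isometry fun x : pentagon => f (M.pt F x)) ∧
    ∀ x, ∃ U ∈ nhds x, Set.InjOn f U

/-- The surface is homeomorphic to the sphere. -/
def IsSphere : Prop := Nonempty (M.Carrier ≃ₜ Metric.sphere (0 : E3) 1)

end PentComplex

/-! ### The dodecahedron -/

/-- The golden ratio. -/
noncomputable def gr : ℝ := (1 + Real.sqrt 5) / 2

/-- The vertices of a regular dodecahedron of edge length one centred at the origin. -/
noncomputable def dodVertex : Fin 20 → E3 :=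
  ![!₂[gr / 2, gr / 2, gr / 2], !₂[gr / 2, gr / 2, -gr / 2],
    !₂[gr / 2, -gr / 2, gr / 2], !₂[gr / 2, -gr / 2, -gr / 2],
    !₂[-gr / 2, gr / 2, gr / 2], !₂[-gr / 2, gr / 2, -gr / 2],
    !₂[-gr / 2, -gr / 2, gr / 2], !₂[-gr / 2, -gr / 2, -gr / 2],
    !₂[0, 1 / 2, gr ^ 2 / 2], !₂[0, 1 / 2, -gr ^ 2 / 2],
    !₂[0, -1 / 2, gr ^ 2 / 2], !₂[0, -1 / 2, -gr ^ 2 / 2],
    !₂[1 / 2, gr ^ 2 / 2, 0], !₂[1 / 2, -gr ^ 2 / 2, 0],
    !₂[-1 / 2, gr ^ 2 / 2, 0], !₂[-1 / 2, -gr ^ 2 / 2, 0],
    !₂[gr ^ 2 / 2, 0, 1 / 2], !₂[-gr ^ 2 / 2, 0, 1 / 2],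
    !₂[gr ^ 2 / 2, 0, -1 / 2], !₂[-gr ^ 2 / 2, 0, -1 / 2]]

/-- The solid regular dodecahedron of edge length one. -/
def dodecahedron : Set E3 := convexHull ℝ (Set.range dodVertex)

/-- Outer normal vectors of the twelve facets. -/
noncomputable def dodNormal : Fin 12 → E3 :=
  ![!₂[0, gr, 1], !₂[0, gr, -1], !₂[0, -gr, 1], !₂[0, -gr, -1],
    !₂[gr, 1, 0], !₂[gr, -1, 0], !₂[-gr, 1, 0], !₂[-gr, -1, 0],
    !₂[1, 0, gr], !₂[-1, 0, gr], !₂[1, 0, -gr], !₂[-1, 0, -gr]]

/-- The facets of the dodecahedron. -/
def facet (k : Fin 12) : Set E3 := {x ∈ dodecahedron | inner ℝ (dodNormal k) x = gr ^ 3 / 2}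

/-! ### Unions of dodecahedra glued at facets -/

/-- Finitely many solid regular dodecahedra of edge length one, some pairs of facets being glued,
with a map to space which is isometric on each dodecahedron. The facets fixed by `glue` are the
facets not used in any gluing; for a facet not fixed by `glue` the gluing isometry between the
facet and its partner is the one induced by the placements. -/
structure DodUnion where
  ι : Type
  finite : Finite ι
  glue : ι × Fin 12 → ι × Fin 12
  glue_glue : ∀ d, glue (glue d) = d
  place : ι → E3 ≃ᵃⁱ[ℝ] E3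
  place_glue : ∀ d, place d.1 '' facet d.2 = place (glue d).1 '' facet (glue d).2

namespace DodUnion

variable (B : DodUnion)

/-- The identifications: points of glued facets with the same position are identified. -/
def Rel (a b : B.ι × dodecahedron) : Prop :=
  ∃ k l : Fin 12, B.glue (a.1, k) = (b.1, l) ∧ (a.1, k) ≠ (b.1, l) ∧
    (a.2 : E3) ∈ facet k ∧ (b.2 : E3) ∈ facet l ∧ B.place a.1 a.2 = B.place b.1 b.2

/-- The three-dimensional complex obtained by the gluing. -/
def Carrier : Type := Quot B.Rel

instance : TopologicalSpace B.ι := ⊥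

instance : TopologicalSpace B.Carrier := inferInstanceAs (TopologicalSpace (Quot B.Rel))

/-- The point of the complex given by a point of a dodecahedron. -/
def pt (i : B.ι) (x : dodecahedron) : B.Carrier := Quot.mk B.Rel (i, x)

/-- The map to space. -/
noncomputable def map : B.Carrier → E3 :=
  Quot.lift (fun a : B.ι × dodecahedron => B.place a.1 a.2) (by
    rintro a b ⟨k, l, _, _, _, _, h⟩
    exact h)

/-- The boundary: the union of the facets not used in any gluing. -/
def boundary : Set B.Carrier :=
  {z | ∃ (i : B.ι) (k : Fin 12) (x : dodecahedron), B.glue (i, k) = (i, k) ∧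
    (x : E3) ∈ facet k ∧ z = B.pt i x}

end DodUnion

/-- The surface with its map `f` is the boundary of the union `B` of dodecahedra: there is a
continuous bijection `h` from the surface onto the boundary of `B`, mapping each pentagon
isometrically onto a facet not used in any gluing, such that the map of `B` composed with `h` is
`f`. -/
def IsBoundaryOf (M : PentComplex) (f : M.Carrier → E3) (B : DodUnion) : Prop :=
  ∃ h : M.Carrier → B.Carrier, Continuous h ∧ Function.Injective h ∧
    Set.range h = B.boundary ∧ (∀ x, B.map (h x) = f x) ∧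
    ∀ F : Fin M.n, ∃ (i : B.ι) (k : Fin 12), B.glue (i, k) = (i, k) ∧
      ∃ e : pentagon → dodecahedron, Isometry e ∧
        (Set.range fun x => (e x : E3)) = facet k ∧ ∀ x, h (M.pt F x) = B.pt i (e x)

end Pool.Agent.Lib.MP_59160a_co
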