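import Pool.Agent.Lib.MP_59160a_co.Key

/-!
Facts on corners that use that the space has dimension three.
-/

set_option autoImplicit false
set_option linter.unusedSectionVars false

namespace Pool.Agent.Lib.MP_59160a_co

open Module

variable {V : Type*} [NormedAddCommGroup V] [InnerProductSpace ℝ V] [Fact (finrank ℝ V = 3)]

lemma IsCorner.linearIndependent {C : Fin 3 → V} (h : IsCorner C) : LinearIndependent ℝ C := by
  rw [Fintype.linearIndependent_iff]
  intro a ha i
  have h1 : inner ℝ (nrm C i) (∑ j, a j • C j) = (0 : ℝ) := by rw [ha, inner_zero_right]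
  rw [inner_sum, Finset.sum_eq_single i] at h1
  · rw [real_inner_smul_right, inner_nrm_self h, mul_one] at h1
    exact h1
  · intro j _ hj
    rw [real_inner_smul_right, inner_nrm_ne h hj, mul_zero]
  · intro hi; exact absurd (Finset.mem_univ i) hi

/-- A vector orthogonal to the three vectors of a corner vanishes. -/
lemma IsCorner.eq_zero {C : Fin 3 → V} (h : IsCorner C) {y : V}
    (hy : ∀ i, inner ℝ y (C i) = (0 : ℝ)) : y = 0 := by
  have hfin : finrank ℝ V = 3 := Fact.out
  have hcard : Fintype.card (Fin 3) = finrank ℝ V := by rw [hfin]; rfl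
  let b := basisOfLinearIndependentOfCardEqFinrank h.linearIndependent hcard
  have hb : ∀ i, b i = C i := by
    intro i
    simp [b]
  have h1 : ∑ i, b.repr y i • b i = y := b.sum_repr y
  have h2 : inner ℝ y y = (0 : ℝ) := by
    conv_lhs => rw [← h1]
    rw [sum_inner]
    apply Finset.sum_eq_zero
    intro i _
    rw [real_inner_smul_left, h1, hb, real_inner_comm, hy, mul_zero]
  exact inner_self_eq_zero.1 h2

lemma IsCorner.ext {C : Fin 3 → V} (h : IsCorner C) {y z : V}
    (hy : ∀ i, inner ℝ y (C i) = inner ℝ z (C i)) : y = z := by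
  apply sub_eq_zero.1
  apply h.eq_zero
  intro i
  rw [inner_sub_left, hy, sub_self]

/-- Uniqueness of the completion of a pair to a corner, up to a flip. -/
lemma completion {C : Fin 3 → V} (h : IsCorner C) (j : Fin 3) {c : V}
    (hc : inner ℝ c c = (1 : ℝ)) (hcC : ∀ i, i ≠ j → inner ℝ c (C i) = c0) :
    c = C j ∨ c = flp j C j := by
  set t : ℝ := inner ℝ c (C j) - 1 with ht
  have e : c = C j + t • nrm C j := by
    apply h.ext
    intro i
    rw [inner_add_left, real_inner_smul_left]
    by_cases hij : i = j
    · subst hij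
      rw [h.self, inner_nrm_self h]; ring
    · rw [hcC i hij, h.ne (Ne.symm hij), inner_nrm_ne h hij]; ring
  have h1 : inner ℝ (C j) (nrm C j) = (1 : ℝ) := by
    rw [real_inner_comm]; exact inner_nrm_self h j
  have h2 : t * (2 + t * (2 - g)) = 0 := by
    have : inner ℝ c c = 1 + 2 * t + t * t * (2 - g) := by
      rw [e]
      rw [inner_add_left, inner_add_right, inner_add_right, real_inner_smul_left,
        real_inner_smul_left, real_inner_smul_right, real_inner_smul_right, h.self, h1,
        inner_nrm_self h, inner_nrm_nrm h]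
      ring
    rw [hc] at this
    linarith
  have hg : (2 - g) ≠ 0 := by have := g_lt; linarith
  rcases mul_eq_zero.1 h2 with h3 | h3
  · left
    rw [e, h3, zero_smul, add_zero]
  · right
    have h4 : t = -(2 / (2 - g)) := by
      field_simp
      linarith
    rw [e, h4]
    unfold flp
    rw [im_apply, rf_apply, inner_nrm_nrm h, inner_nrm_self h, mul_one, neg_smul,
      ← sub_eq_add_neg]

lemma eq_of_two {C D : Fin 3 → V} (hC : IsCorner C) (hD : IsCorner D) (j : Fin 3)
    (h : ∀ i, i ≠ j → D i = C i) : D = C ∨ D = flp j C := by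
  have h1 := completion hC j (hD.self j) (fun i hi => by
    rw [← h i hi]; exact hD.ne (Ne.symm hi))
  rcases h1 with h1 | h1
  · left
    funext i
    by_cases hij : i = j
    · rw [hij, h1]
    · exact h i hij
  · right
    funext i
    by_cases hij : i = j
    · rw [hij, h1]
    · rw [h i hij, flp_ne hC hij]

lemma exists_perm_two : ∀ a b a' b' : Fin 3, a ≠ b → a' ≠ b' →
    ∃ π : Equiv.Perm (Fin 3), π a = a' ∧ π b = b' := by decide

lemma eq_or_eq_of_three : ∀ a b c : Fin 3, a ≠ b → a ≠ c → b ≠ c → ∀ i, i ≠ c →
    i = a ∨ i = b := by decide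

/-- Corners with two common vectors are in the same star. -/
lemma star_of_two {C D : Fin 3 → V} (hC : IsCorner C) (hD : IsCorner D) {a b a' b' : Fin 3}
    (hab : a ≠ b) (h1 : C a = D a') (h2 : C b = D b') : Star C D := by
  have hab' : a' ≠ b' := by
    rintro rfl
    have h3 := hC.ne hab
    rw [h1, h2, hD.self] at h3
    exact c0_ne_one h3.symm
  obtain ⟨π, hπa, hπb⟩ := exists_perm_two a b a' b' hab hab'
  obtain ⟨c, hac, hbc⟩ := exists_third a b hab
  have hother := eq_or_eq_of_three a b c hab hac hbc
  have h3 := eq_of_two hC (hD.perm π) c (by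
    intro i hi
    rcases hother i hi with rfl | rfl
    · rw [Function.comp_apply, hπa, h1]
    · rw [Function.comp_apply, hπb, h2])
  have h4 : Star (D ∘ π) D := (Star.refl.perm π).symm
  rcases h3 with h3 | h3
  · rw [h3] at h4; exact h4
  · rw [h3] at h4
    exact (Star.refl.flp c).trans h4

/-- Existence of the completion of a pair to a corner. -/
lemma exists_corner {a b : V} (ha : inner ℝ a a = (1 : ℝ)) (hb : inner ℝ b b = (1 : ℝ))
    (hab : inner ℝ a b = c0) : ∃ C : Fin 3 → V, IsCorner C ∧ C 0 = a ∧ C 1 = b := by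
  classical
  have hfin : finrank ℝ V = 3 := Fact.out
  haveI : FiniteDimensional ℝ V := FiniteDimensional.of_finrank_pos (by rw [hfin]; norm_num)
  obtain ⟨n, hn0, hna, hnb⟩ : ∃ n : V, n ≠ 0 ∧ inner ℝ n a = (0 : ℝ) ∧ inner ℝ n b = (0 : ℝ) := by
    let K : Submodule ℝ V := Submodule.span ℝ (({a, b} : Finset V) : Set V)
    have hK : finrank ℝ K ≤ 2 := by
      refine (finrank_span_finset_le_card ({a, b} : Finset V)).trans ?_
      exact Finset.card_le_two
    have h1 := Submodule.finrank_add_finrank_orthogonal K
    rw [hfin] at h1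
    have h2 : 0 < finrank ℝ Kᗮ := by omega
    obtain ⟨⟨n, hn⟩, hn0⟩ := (finrank_pos_iff_exists_ne_zero (R := ℝ) (M := Kᗮ)).1 h2
    refine ⟨n, fun e => hn0 (Subtype.ext e), ?_, ?_⟩
    · rw [real_inner_comm]
      exact Submodule.inner_right_of_mem_orthogonal (K := K) (Submodule.subset_span (by simp)) hn
    · rw [real_inner_comm]
      exact Submodule.inner_right_of_mem_orthogonal (K := K) (Submodule.subset_span (by simp)) hn
  have hnn : 0 < inner ℝ n n := by
    rw [real_inner_self_eq_norm_sq]
    have := norm_pos_iff.2 hn0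
    positivity
  have hg1 := g_lt
  have hg0 := g_pos
  have hg := g_sq
  have h2g : (0 : ℝ) < 2 - g := by linarith
  -- scale
  set y : ℝ := Real.sqrt (1 / ((2 - g) * inner ℝ n n)) with hy
  have hy2 : y * y * ((2 - g) * inner ℝ n n) = 1 := by
    rw [hy, Real.mul_self_sqrt (by positivity)]
    field_simp
  set x : ℝ := -g / (2 - g) with hx
  have hx2 : x * (2 - g) = -g := by rw [hx]; field_simp
  set c : V := x • (a + b) + y • n with hc
  have hca : inner ℝ c a = c0 := by
    rw [hc, inner_add_left, real_inner_smul_left, real_inner_smul_left, hna, inner_add_left, ha,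
      real_inner_comm a b, hab, c0_eq]
    linear_combination (1 / 2 : ℝ) * hx2
  have hcb : inner ℝ c b = c0 := by
    rw [hc, inner_add_left, real_inner_smul_left, real_inner_smul_left, hnb, inner_add_left, hb,
      hab, c0_eq]
    linear_combination (1 / 2 : ℝ) * hx2
  have hcc : inner ℝ c c = (1 : ℝ) := by
    have e1 : inner ℝ c c = x * (inner ℝ c a + inner ℝ c b) + y * inner ℝ c n := by
      conv_lhs => rw [hc, inner_add_right, real_inner_smul_right, real_inner_smul_right,
        inner_add_right]
    have e2 : inner ℝ c n = y * inner ℝ n n := by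
      rw [hc, inner_add_left, real_inner_smul_left, real_inner_smul_left, inner_add_left,
        real_inner_comm n a, real_inner_comm n b, hna, hnb]
      ring
    rw [e1, hca, hcb, e2, c0_eq]
    have h3 : (2 - g) * (x * (-g / 2 + -g / 2) + y * (y * inner ℝ n n)) = (2 - g) * 1 := by
      linear_combination (-g) * hx2 + hy2 + hg
    exact mul_left_cancel₀ h2g.ne' h3
  refine ⟨![a, b, c], ?_, rfl, rfl⟩
  intro i j
  have hba : inner ℝ b a = c0 := by rw [real_inner_comm]; exact hab
  have hac : inner ℝ a c = c0 := by rw [real_inner_comm]; exact hca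
  have hbc : inner ℝ b c = c0 := by rw [real_inner_comm]; exact hcb
  fin_cases i <;> fin_cases j
  · exact ha
  · exact hab
  · exact hac
  · exact hba
  · exact hb
  · exact hbc
  · exact hca
  · exact hcb
  · exact hcc

end Pool.Agent.Lib.MP_59160a_co
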