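import Pool.Agent.Lib.MP_59160a_co.Dim3

/-!
Neighbours of a vector of maximal level in a star.
-/

set_option autoImplicit false
set_option linter.unusedSectionVars false

namespace Pool.Agent.Lib.MP_59160a_co

variable {V : Type*} [NormedAddCommGroup V] [InnerProductSpace ℝ V]

lemma common_prefix (w w' : List (Fin 3)) : ∃ q y y' : List (Fin 3), w = q ++ y ∧ w' = q ++ y' ∧
    ∀ a ∈ y.head?, ∀ b ∈ y'.head?, a ≠ b := by
  induction w generalizing w' with
  | nil => exact ⟨[], [], w', rfl, rfl, by simp⟩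
  | cons a w ih =>
    rcases w' with _ | ⟨b, w'⟩
    · exact ⟨[], a :: w, [], rfl, rfl, by simp⟩
    · by_cases hab : a = b
      · subst hab
        obtain ⟨q, y, y', h1, h2, h3⟩ := ih w'
        exact ⟨a :: q, y, y', by rw [h1]; rfl, by rw [h2]; rfl, h3⟩
      · refine ⟨[], a :: w, b :: w', rfl, rfl, ?_⟩
        intro c hc d hd
        simp at hc hd
        rw [← hc, ← hd]; exact hab

lemma strip_left (z : List (Fin 3)) (j : Fin 3) :
    (∀ i ∈ z, i ≠ j) ∨ ∃ w z' : List (Fin 3), z = w ++ j :: z' ∧ ∀ i ∈ w, i ≠ j := by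
  induction z with
  | nil => left; simp
  | cons a z ih =>
    by_cases ha : a = j
    · right
      exact ⟨[], z, by rw [ha]; rfl, by simp⟩
    · rcases ih with ih | ⟨w, z', rfl, hw⟩
      · left
        intro i hi
        rw [List.mem_cons] at hi
        rcases hi with rfl | hi
        · exact ha
        · exact ih i hi
      · right
        refine ⟨a :: w, z', rfl, ?_⟩
        intro i hi
        rw [List.mem_cons] at hi
        rcases hi with rfl | hi
        · exact ha
        · exact hw i hi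

lemma Wd_reverse_mul (C : Fin 3 → V) (z : List (Fin 3)) : Wd C z.reverse * Wd C z = 1 := by
  induction z with
  | nil => simp [Wd_nil]
  | cons a z ih =>
    rw [List.reverse_cons, Wd_append, Wd_singleton, Wd_cons]
    calc Wd C z.reverse * rf (nrm C a) * (rf (nrm C a) * Wd C z)
        = Wd C z.reverse * (rf (nrm C a) * rf (nrm C a)) * Wd C z := by group
      _ = 1 := by rw [rf_mul_self, mul_one, ih]

lemma inner_Wd_left (C : Fin 3 → V) (z : List (Fin 3)) (x y : V) :
    inner ℝ (Wd C z x) y = inner ℝ x (Wd C z.reverse y) := by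
  rw [← (Wd C z.reverse).inner_map_map (Wd C z x) y]
  congr 1
  have := Wd_reverse_mul C z
  have h2 : (Wd C z.reverse * Wd C z) x = x := by rw [this]; rfl
  exact h2

/-- A reduced word with nonorthogonal ends gives a nonintegral inner product. -/
lemma not_int5_word {C : Fin 3 → V} (hC : IsCorner C) (z : List (Fin 3))
    (hz : z.IsChain (fun i j => j ≠ i)) (i j : Fin 3) (hi : i ∈ z.head?) (hj : j ∈ z.getLast?) :
    ¬ Int5 (inner ℝ (C i) (Wd C z (C j))) := by
  rintro ⟨r, hr⟩
  obtain ⟨c, hc0, hc⟩ := words_res hC (z.map (nrm C)) (ax_map C z) (red_map hC hz)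
    (nrm C i) (by rw [List.head?_map]; exact Option.mem_map_of_mem _ hi)
    (nrm C j) (by rw [List.getLast?_map]; exact Option.mem_map_of_mem _ hj)
    (C i) (ax_int5_corner hC i)
  have h1 : Unit5 (inner ℝ (C i) (nrm C i)) := by
    rw [real_inner_comm, inner_nrm_self hC]; exact unit5_one
  have h2 := hc (C j) 1 (fun n hn => hn.val_int5 hC _) (by
    rw [hC]; split_ifs
    · exact Res.one.int5
    · exact res_c0.int5) (by rw [inner_nrm_self hC]; exact Res.one)
  rw [mul_one] at h2
  have h4 : Res (s ^ (z.map (nrm C)).length * inner ℝ (C i) (Wd C z (C j))) 0 := by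
    apply hr.s_pow
    rcases z with _ | ⟨a, z⟩
    · simp at hi
    · simp
  exact hc0 h1 (h2.unique h4)

lemma int5_c0 : Int5 c0 := res_c0.int5

lemma isChain_reverse_append {y y' : List (Fin 3)} (hy : y.IsChain (fun i j => j ≠ i))
    (hy' : y'.IsChain (fun i j => j ≠ i)) (h : ∀ a ∈ y.head?, ∀ b ∈ y'.head?, a ≠ b) :
    (y.reverse ++ y').IsChain (fun i j => j ≠ i) := by
  rw [List.isChain_append]
  refine ⟨?_, hy', ?_⟩
  · rw [List.isChain_reverse]
    exact hy.imp (fun i j hij => Ne.symm hij)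
  · intro a ha b hb
    rw [List.getLast?_reverse] at ha
    exact Ne.symm (h a ha b hb)

/-- Neighbours of low level of a vector of a star. -/
lemma low_neighbor {C : Fin 3 → V} (hC : IsCorner C) (w : List (Fin 3)) (j : Fin 3)
    (hw : w.IsChain (fun i j => j ≠ i)) (hwj : ∀ n ∈ w.getLast?, n = j)
    (w' : List (Fin 3)) (j' : Fin 3) (hw' : w'.IsChain (fun i j => j ≠ i))
    (hwj' : ∀ n ∈ w'.getLast?, n = j') (hlen : w'.length ≤ w.length)
    (hin : inner ℝ (Wd C w (C j)) (Wd C w' (C j')) = c0) :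
    ∃ i, i ≠ j ∧ Wd C w' (C j') = Wd C w (C i) := by
  obtain ⟨q, y, y', rfl, rfl, hne⟩ := common_prefix w w'
  have hy : y.IsChain (fun i j => j ≠ i) := (List.isChain_append.1 hw).2.1
  have hy' : y'.IsChain (fun i j => j ≠ i) := (List.isChain_append.1 hw').2.1
  have hin2 : inner ℝ (Wd C y (C j)) (Wd C y' (C j')) = c0 := by
    rw [← hin, Wd_append, Wd_append]
    exact ((Wd C q).inner_map_map _ _).symm
  have hyj : ∀ n ∈ y.getLast?, n = j := by
    intro n hn
    apply hwj
    rw [List.getLast?_append]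
    rw [Option.mem_def] at hn ⊢
    rw [hn]; rfl
  have hyj' : ∀ n ∈ y'.getLast?, n = j' := by
    intro n hn
    apply hwj'
    rw [List.getLast?_append]
    rw [Option.mem_def] at hn ⊢
    rw [hn]; rfl
  rcases y.eq_nil_or_concat with rfl | ⟨y0, b, hyb⟩
  · -- then `y'` is empty too
    have hy0' : y' = [] := by
      rw [List.length_append, List.length_append, List.length_nil] at hlen
      exact List.length_eq_zero_iff.1 (by omega)
    subst hy0'
    refine ⟨j', ?_, rfl⟩
    rintro rfl
    rw [Wd_nil] at hin2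
    have : inner ℝ (C j') (C j') = c0 := hin2
    rw [hC.self] at this
    exact c0_ne_one this.symm
  · have hbj : b = j := hyj b (by rw [hyb]; simp)
    have hjlast : j ∈ y.getLast? := by rw [hyb, hbj]; simp
    rcases y'.eq_nil_or_concat with rfl | ⟨y0', b', hyb'⟩
    · -- `w'` is a prefix of `w`
      rcases strip_left y j' with hall | ⟨w1, z1, hwz, hw1⟩
      · refine ⟨j', ?_, ?_⟩
        · rintro rfl
          exact hall j' (by rw [hyb, hbj]; simp) rfl
        · rw [List.append_nil, Wd_append]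
          change _ = Wd C q (Wd C y (C j'))
          rw [Wd_fix hC y j' hall]
      · exfalso
        have h1 : inner ℝ (C j') (Wd C (j' :: z1) (C j)) = c0 := by
          rw [← hin2, real_inner_comm, hwz, Wd_append, Wd_nil]
          change inner ℝ (Wd C (j' :: z1) (C j)) (C j') =
            inner ℝ (Wd C w1 (Wd C (j' :: z1) (C j))) (C j')
          rw [inner_Wd_left C w1, Wd_fix hC w1.reverse j' (by
            intro i hi; exact hw1 i (List.mem_reverse.1 hi))]
        refine not_int5_word hC (j' :: z1) ?_ j' j (by simp) ?_ (by rw [h1]; exact int5_c0)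
        · rw [hwz] at hy
          exact (List.isChain_append.1 hy).2.1
        · rw [hwz, List.getLast?_append] at hjlast
          have : (j' :: z1).getLast? ≠ none := by simp
          obtain ⟨d, hd⟩ := Option.ne_none_iff_exists'.1 this
          rw [Option.mem_def] at hjlast ⊢
          rw [hd] at hjlast ⊢
          exact hjlast
    · exfalso
      have hbj' : b' = j' := hyj' b' (by rw [hyb']; simp)
      have hjlast' : j' ∈ y'.getLast? := by rw [hyb', hbj']; simp
      have h1 : inner ℝ (C j) (Wd C (y.reverse ++ y') (C j')) = c0 := by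
        rw [Wd_append]
        change inner ℝ (C j) (Wd C y.reverse (Wd C y' (C j'))) = c0
        rw [← inner_Wd_left, hin2]
      refine not_int5_word hC _ (isChain_reverse_append hy hy' hne) j j' ?_ ?_
        (by rw [h1]; exact int5_c0)
      · rw [hyb, hbj]; simp
      · rw [hyb', hbj']; simp

/-- Every vector of the star has a stripped representation. -/
lemma star_repr {C D : Fin 3 → V} (hC : IsCorner C) (h : Star C D) (i : Fin 3) :
    ∃ (w : List (Fin 3)) (j : Fin 3), w.IsChain (fun i j => j ≠ i) ∧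
      (∀ n ∈ w.getLast?, n = j) ∧ D i = Wd C w (C j) := by
  obtain ⟨z, π, hz, hD⟩ := star_normal h
  obtain ⟨w, t, rfl, ht, hw⟩ := strip_right z (π i)
  refine ⟨w, π i, (List.isChain_append.1 hz).1, hw, ?_⟩
  rw [hD, Wd_append]
  change Wd C w (Wd C t (C (π i))) = _
  rw [Wd_fix hC t _ ht]

/-- The ear lemma. -/
lemma ear {X : Type*} {C : Fin 3 → V} (hC : IsCorner C) (Z : Finset X) (hZ : Z.Nonempty)
    (f : X → V) (hf : ∀ z ∈ Z, ∃ E i, Star C E ∧ E i = f z) :
    ∃ z ∈ Z, (∀ a ∈ Z, ∀ b ∈ Z, inner ℝ (f z) (f a) = c0 → inner ℝ (f z) (f b) = c0 →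
        f a ≠ f b → inner ℝ (f a) (f b) = c0) ∧
      (∀ a ∈ Z, ∀ b ∈ Z, ∀ c ∈ Z, inner ℝ (f z) (f a) = c0 → inner ℝ (f z) (f b) = c0 →
        inner ℝ (f z) (f c) = c0 → f a = f b ∨ f b = f c ∨ f a = f c) := by
  classical
  have hrep : ∀ z, ∃ (w : List (Fin 3)) (j : Fin 3), z ∈ Z → w.IsChain (fun i j => j ≠ i) ∧
      (∀ n ∈ w.getLast?, n = j) ∧ f z = Wd C w (C j) := by
    intro z
    by_cases hz : z ∈ Z
    · obtain ⟨E, i, hE, hi⟩ := hf z hz
      obtain ⟨w, j, h1, h2, h3⟩ := star_repr hC hE i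
      exact ⟨w, j, fun _ => ⟨h1, h2, by rw [← hi, h3]⟩⟩
    · exact ⟨[], 0, fun h => absurd h hz⟩
  choose w j hwj using hrep
  obtain ⟨z, hz, hmax⟩ := Finset.exists_max_image Z (fun x => (w x).length) hZ
  obtain ⟨hz1, hz2, hz3⟩ := hwj z hz
  have key : ∀ a ∈ Z, inner ℝ (f z) (f a) = c0 → ∃ i, i ≠ j z ∧ f a = Wd C (w z) (C i) := by
    intro a ha hin
    obtain ⟨ha1, ha2, ha3⟩ := hwj a ha
    rw [hz3, ha3] at hin
    obtain ⟨i, hi, hi2⟩ := low_neighbor hC (w z) (j z) hz1 hz2 (w a) (j a) ha1 ha2 (hmax a ha) hin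
    exact ⟨i, hi, by rw [ha3, hi2]⟩
  refine ⟨z, hz, ?_, ?_⟩
  · intro a ha b hb h1 h2 hab
    obtain ⟨i, hi, hi2⟩ := key a ha h1
    obtain ⟨k, hk, hk2⟩ := key b hb h2
    rw [hi2, hk2, (Wd C (w z)).inner_map_map]
    apply hC.ne
    rintro rfl
    exact hab (by rw [hi2, hk2])
  · intro a ha b hb c hc h1 h2 h3
    obtain ⟨i, hi, hi2⟩ := key a ha h1
    obtain ⟨k, hk, hk2⟩ := key b hb h2
    obtain ⟨l, hl, hl2⟩ := key c hc h3
    have : ∀ x i k l : Fin 3, i ≠ x → k ≠ x → l ≠ x → i = k ∨ k = l ∨ i = l := by decide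
    rcases this (j z) i k l hi hk hl with e | e | e
    · left; rw [hi2, hk2, e]
    · right; left; rw [hk2, hl2, e]
    · right; right; rw [hi2, hl2, e]

end Pool.Agent.Lib.MP_59160a_co
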