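import Pool.Agent.Lib.MP_59160a_co.EulerFlags

/-!
Euler's formula from the triviality of cocycles modulo two.
-/

set_option autoImplicit false

namespace Pool.Agent.Lib.MP_59160a_co

open Module

/-- Euler's formula for a connected surface in terms of darts, all of whose cocycles modulo two
are coboundaries. -/
theorem euler_of_cocycles {D : Type*} [Fintype D] [DecidableEq D] [Nonempty D]
    (nx al : Equiv.Perm D)
    (hal : ∀ x, al (al x) = x) (hal' : ∀ x, al x ≠ x)
    (hconn : ∀ f : D → Prop, (∀ x, f (nx x) ↔ f x) → (∀ x, f (al x) ↔ f x) →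
      ∀ x y, f x → f y)
    (hco : ∀ z : D → ZMod 2, (∀ x, z (al x) = z x) →
      (∀ u : D → ZMod 2, (∀ x, u (nx x) = u x) → ∑ x, u x * z x = 0) →
      ∃ φ : D → ZMod 2, (∀ x, φ (nx x) = φ (al x)) ∧ ∀ x, z x = φ x + φ (al x)) :
    2 * (Nat.card (Quotient (Equiv.Perm.SameCycle.setoid (al * nx⁻¹)))
      + Nat.card (Quotient (Equiv.Perm.SameCycle.setoid nx))) = Fintype.card D + 4 := by
  classical
  let VQ := Quotient (Equiv.Perm.SameCycle.setoid (al * nx⁻¹))
  let FQ := Quotient (Equiv.Perm.SameCycle.setoid nx)
  let rE : D → D → Prop := pairRel al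
  let EQ := Quotient (Relation.EqvGen.setoid rE)
  let vq : D → VQ := Quotient.mk (Equiv.Perm.SameCycle.setoid (al * nx⁻¹))
  let fq : D → FQ := Quotient.mk (Equiv.Perm.SameCycle.setoid nx)
  have hv : ∀ x, vq (nx x) = vq (al x) := by
    intro x
    apply Quotient.sound
    refine ⟨1, ?_⟩
    simp
  have hf : ∀ x, fq (nx x) = fq x := by
    intro x
    apply Quotient.sound
    refine ⟨-1, ?_⟩
    simp
  have fsurj : ∀ q : FQ, ∃ x, fq x = q := fun q => Quotient.exists_rep q
  have vsurj : ∀ q : VQ, ∃ x, vq x = q := fun q => Quotient.exists_rep q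
  have hAl : ∀ f : VQ → ZMod 2, ∀ x y, rE x y →
      f (vq x) + f (vq (al x)) = f (vq y) + f (vq (al y)) := by
    rintro f x y rfl
    rw [hal, add_comm]
  have hBl : ∀ f : FQ → ZMod 2, ∀ x y, rE x y →
      f (fq x) + f (fq (al x)) = f (fq y) + f (fq (al y)) := by
    rintro f x y rfl
    rw [hal, add_comm]
  let A : (VQ → ZMod 2) →ₗ[ZMod 2] (EQ → ZMod 2) :=
    { toFun := fun f => qlift rE (fun x => f (vq x) + f (vq (al x))) (hAl f)
      map_add' := by
        intro f g
        funext e
        obtain ⟨x, rfl⟩ := qmk_surj _ e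
        simp only [Pi.add_apply, qlift_qmk]
        ring
      map_smul' := by
        intro c f
        funext e
        obtain ⟨x, rfl⟩ := qmk_surj _ e
        simp only [Pi.smul_apply, qlift_qmk, smul_eq_mul, RingHom.id_apply]
        ring }
  let B : (FQ → ZMod 2) →ₗ[ZMod 2] (EQ → ZMod 2) :=
    { toFun := fun f => qlift rE (fun x => f (fq x) + f (fq (al x))) (hBl f)
      map_add' := by
        intro f g
        funext e
        obtain ⟨x, rfl⟩ := qmk_surj _ e
        simp only [Pi.add_apply, qlift_qmk]
        ring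
      map_smul' := by
        intro c f
        funext e
        obtain ⟨x, rfl⟩ := qmk_surj _ e
        simp only [Pi.smul_apply, qlift_qmk, smul_eq_mul, RingHom.id_apply]
        ring }
  have eA : ∀ f x, A f (qmk rE x) = f (vq x) + f (vq (al x)) := fun f x => rfl
  have eB : ∀ f x, B f (qmk rE x) = f (fq x) + f (fq (al x)) := fun f x => rfl
  have horth : ∀ u w, ∑ e, A u e * B w e = 0 := by
    intro u w
    rw [sum_pair al hal hal' (fun x => (u (vq x) + u (vq (al x))) * w (fq x))
      (fun e => A u e * B w e)]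
    · have h1 : ∑ x, (u (vq x) + u (vq (al x))) * w (fq x)
          = ∑ x, u (vq x) * w (fq x) + ∑ x, u (vq (nx x)) * w (fq (nx x)) := by
        rw [← Finset.sum_add_distrib]
        apply Finset.sum_congr rfl
        intro x _
        rw [hf, hv]
        ring
      rw [h1, Equiv.sum_comp nx (fun x => u (vq x) * w (fq x))]
      exact zmod2_add_self _
    · intro x
      change A u (qmk rE x) * B w (qmk rE x) = (u (vq x) + u (vq (al x))) * w (fq x)
        + (u (vq (al x)) + u (vq (al (al x)))) * w (fq (al x))
      rw [eA, eB, hal]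
      ring
  have hkA : ∀ c, A c = 0 → ∀ x y, c x = c y := by
    intro c hc x y
    obtain ⟨x, rfl⟩ := vsurj x
    obtain ⟨y, rfl⟩ := vsurj y
    have hal2 : ∀ z, c (vq z) = c (vq (al z)) := by
      intro z
      have := congrFun hc (qmk rE z)
      rw [eA] at this
      exact zmod2_eq_of_add this
    refine hconn (fun z => c (vq x) = c (vq z)) ?_ ?_ x y rfl
    · intro z
      simp only [hv, ← hal2 z]
    · intro z
      simp only [← hal2 z]
  have hkB : ∀ c, B c = 0 → ∀ x y, c x = c y := by
    intro c hc x y
    obtain ⟨x, rfl⟩ := fsurj x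
    obtain ⟨y, rfl⟩ := fsurj y
    have hal2 : ∀ z, c (fq z) = c (fq (al z)) := by
      intro z
      have := congrFun hc (qmk rE z)
      rw [eB] at this
      exact zmod2_eq_of_add this
    refine hconn (fun z => c (fq x) = c (fq z)) ?_ ?_ x y rfl
    · intro z
      simp only [hf]
    · intro z
      simp only [← hal2 z]
  have hmem : ∀ g : EQ → ZMod 2, (∀ u, ∑ e, B u e * g e = 0) → g ∈ LinearMap.range A := by
    intro g hg
    obtain ⟨φ, hφ, hz⟩ := hco (fun x => g (qmk rE x))
      (fun x => congrArg g (qmk_pair al x)) (by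
        intro u hu
        let u' : FQ → ZMod 2 := Quotient.lift u (by
          rintro x y ⟨m, rfl⟩
          have h1 : ∀ (n : ℕ) z, u ((nx ^ n) z) = u z := by
            intro n
            induction n with
            | zero => intro z; rfl
            | succ n ih => intro z; rw [pow_succ', Equiv.Perm.mul_apply, hu, ih]
          obtain ⟨n, rfl | rfl⟩ := m.eq_nat_or_neg
          · rw [zpow_natCast, h1]
          · rw [zpow_neg, zpow_natCast]
            have := h1 n ((nx ^ n)⁻¹ x)
            rw [show (nx ^ n) ((nx ^ n)⁻¹ x) = x from (nx ^ n).apply_symm_apply x] at this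
            exact this)
        have h2 := hg u'
        rw [sum_pair al hal hal' (fun x => u x * g (qmk rE x)) (fun e => B u' e * g e)] at h2
        · exact h2
        · intro x
          change B u' (qmk rE x) * g (qmk rE x) = u x * g (qmk rE x) +
            u (al x) * g (qmk rE (al x))
          rw [eB, show qmk rE (al x) = qmk rE x from qmk_pair al x]
          change (u x + u (al x)) * _ = _
          ring)
    have hinv : ∀ x, φ ((al * nx⁻¹) x) = φ x := by
      intro x
      rw [Equiv.Perm.mul_apply, ← hφ]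
      exact congrArg φ (nx.apply_symm_apply x)
    let φ' : VQ → ZMod 2 := Quotient.lift φ (by
      rintro x y ⟨m, rfl⟩
      have h1 : ∀ (n : ℕ) z, φ (((al * nx⁻¹) ^ n) z) = φ z := by
        intro n
        induction n with
        | zero => intro z; rfl
        | succ n ih => intro z; rw [pow_succ', Equiv.Perm.mul_apply, hinv, ih]
      obtain ⟨n, rfl | rfl⟩ := m.eq_nat_or_neg
      · rw [zpow_natCast, h1]
      · rw [zpow_neg, zpow_natCast]
        have := h1 n (((al * nx⁻¹) ^ n)⁻¹ x)
        rw [show ((al * nx⁻¹) ^ n) (((al * nx⁻¹) ^ n)⁻¹ x) = x from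
          ((al * nx⁻¹) ^ n).apply_symm_apply x] at this
        exact this)
    refine ⟨φ', ?_⟩
    funext e
    obtain ⟨x, rfl⟩ := qmk_surj _ e
    rw [eA]
    exact (hz x).symm
  have r1 := orth_rank_le A B horth
  have r2 := card_le_rank A hkA
  have r3 := card_le_rank B hkB
  have r4 : 2 * Fintype.card EQ = Fintype.card D := card_pair al hal hal'
  have s1 := card_le_of_orth_mem B A hmem
  obtain ⟨x0⟩ := ‹Nonempty D›
  have : Nonempty VQ := ⟨vq x0⟩
  have : Nonempty FQ := ⟨fq x0⟩
  have s2 := rank_lt_card A (by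
    funext e
    obtain ⟨x, rfl⟩ := qmk_surj _ e
    rw [eA]
    exact zmod2_add_self _)
  have s3 := rank_lt_card B (by
    funext e
    obtain ⟨x, rfl⟩ := qmk_surj _ e
    rw [eB]
    exact zmod2_add_self _)
  rw [Nat.card_eq_fintype_card, Nat.card_eq_fintype_card]
  change 2 * (Fintype.card VQ + Fintype.card FQ) = Fintype.card D + 4
  omega

end Pool.Agent.Lib.MP_59160a_co
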