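import Pool.Agent.Lib.MP_59160a_co.Link

/-!
Fans: finite intervals in the link of a vector.
-/

set_option autoImplicit false
set_option linter.unusedSectionVars false

namespace Pool.Agent.Lib.MP_59160a_co

open Module

variable {V : Type*} [NormedAddCommGroup V] [InnerProductSpace ℝ V]

lemma interval_set (S : Set ℤ) (hfin : S.Finite) (e f : ℤ) (he : e ∈ S) (hf : f ∈ S)
    (hne : e ≠ f) (hfull : ∀ n ∈ S, n ≠ e → n ≠ f → n - 1 ∈ S ∧ n + 1 ∈ S)
    (h1 : ¬ (e - 1 ∈ S ∧ e + 1 ∈ S)) (h1' : e - 1 ∈ S ∨ e + 1 ∈ S)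
    (h2 : ¬ (f - 1 ∈ S ∧ f + 1 ∈ S)) (h2' : f - 1 ∈ S ∨ f + 1 ∈ S) :
    S = {n | (e ≤ n ∧ n ≤ f) ∨ (f ≤ n ∧ n ≤ e)} := by
  obtain ⟨M, hM, hMmax⟩ := Set.exists_max_image S id hfin ⟨e, he⟩
  obtain ⟨m, hm, hmmin⟩ := Set.exists_min_image S id hfin ⟨e, he⟩
  simp only [id] at hMmax hmmin
  have hM1 : M + 1 ∉ S := fun h => by have := hMmax _ h; omega
  have hm1 : m - 1 ∉ S := fun h => by have := hmmin _ h; omega
  have hMef : M = e ∨ M = f := by
    by_contra hcon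
    push Not at hcon
    exact hM1 (hfull M hM hcon.1 hcon.2).2
  have hmef : m = e ∨ m = f := by
    by_contra hcon
    push Not at hcon
    exact hm1 (hfull m hm hcon.1 hcon.2).1
  have hle1 := hMmax e he
  have hle2 := hMmax f hf
  have hle3 := hmmin e he
  have hle4 := hmmin f hf
  have hcase : (m = e ∧ M = f) ∨ (m = f ∧ M = e) := by
    rcases hMef with h | h <;> rcases hmef with h' | h'
    · exfalso; apply hne; omega
    · right; exact ⟨h', h⟩
    · left; exact ⟨h', h⟩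
    · exfalso; apply hne; omega
  have hmM : m < M := by omega
  have hstep : ∀ d : ℕ, m + d ≤ M → m + d ∈ S := by
    intro d
    induction d with
    | zero => intro _; simpa using hm
    | succ d ih =>
      intro hd
      push_cast at hd ⊢
      have h3 := ih (by omega)
      rcases Nat.eq_zero_or_pos d with rfl | hdpos
      · have h4 : m + 1 ∈ S := by
          rcases hcase with ⟨h, -⟩ | ⟨h, -⟩
          · rw [h] at hm1 ⊢
            exact h1'.resolve_left hm1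
          · rw [h] at hm1 ⊢
            exact h2'.resolve_left hm1
        simpa using h4
      · have h5 := (hfull _ h3 (by omega) (by omega)).2
        rw [add_assoc] at h5
        exact h5
  ext n
  constructor
  · intro hn
    have a1 := hMmax n hn
    have a2 := hmmin n hn
    simp only [Set.mem_setOf_eq]
    omega
  · intro hn
    simp only [Set.mem_setOf_eq] at hn
    obtain ⟨d, hd⟩ := Int.eq_ofNat_of_zero_le (show 0 ≤ n - m by omega)
    have h6 := hstep d (by omega)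
    have : m + (d : ℤ) = n := by omega
    rwa [this] at h6

/-- `A` is a fan around `C 0` from `e` to `f`. -/
structure Fan (C : Fin 3 → V) (A : Set V) (e f : V) : Prop where
  fin : A.Finite
  mem : ∀ v ∈ A, ∃ (E : Fin 3 → V) (i k : Fin 3), Star C E ∧ i ≠ k ∧ E i = C 0 ∧ E k = v
  he : e ∈ A
  hf : f ∈ A
  ne : e ≠ f
  full : ∀ v ∈ A, v ≠ e → v ≠ f → ∀ c, inner ℝ c c = (1 : ℝ) → inner ℝ c (C 0) = c0 →
    inner ℝ c v = c0 → c ∈ A
  one_e : ∃! c, c ∈ A ∧ inner ℝ c e = c0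
  one_f : ∃! c, c ∈ A ∧ inner ℝ c f = c0

lemma Fan.symm {C : Fin 3 → V} {A : Set V} {e f : V} (h : Fan C A e f) : Fan C A f e :=
  ⟨h.fin, h.mem, h.hf, h.he, h.ne.symm, fun v hv h1 h2 => h.full v hv h2 h1, h.one_f, h.one_e⟩

lemma Fan.base {C C' : Fin 3 → V} {A : Set V} {e f : V} (h : Fan C A e f) (hs : Star C C')
    (h0 : C 0 = C' 0) : Fan C' A e f := by
  refine ⟨h.fin, ?_, h.he, h.hf, h.ne, ?_, h.one_e, h.one_f⟩
  · intro v hv
    obtain ⟨E, i, k, h1, h2, h3, h4⟩ := h.mem v hv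
    exact ⟨E, i, k, hs.symm.trans h1, h2, by rw [h3, h0], h4⟩
  · rw [← h0]; exact h.full

lemma Fan.im {C : Fin 3 → V} {A : Set V} {e f : V} (h : Fan C A e f) (φ : V ≃ₗᵢ[ℝ] V) :
    Fan (im φ C) (φ '' A) (φ e) (φ f) := by
  have huniq : ∀ e, (∃! c, c ∈ A ∧ inner ℝ c e = c0) →
      ∃! c, c ∈ φ '' A ∧ inner ℝ c (φ e) = c0 := by
    intro e he
    obtain ⟨c, ⟨hc1, hc2⟩, hc3⟩ := he
    refine ⟨φ c, ⟨⟨c, hc1, rfl⟩, ?_⟩, ?_⟩
    · beta_reduce
      rw [φ.inner_map_map]; exact hc2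
    · rintro _ ⟨⟨d, hd, rfl⟩, hd2⟩
      rw [φ.inner_map_map] at hd2
      rw [hc3 d ⟨hd, hd2⟩]
  refine ⟨h.fin.image _, ?_, ⟨e, h.he, rfl⟩, ⟨f, h.hf, rfl⟩, ?_, ?_, huniq e h.one_e,
    huniq f h.one_f⟩
  · rintro _ ⟨v, hv, rfl⟩
    obtain ⟨E, i, k, h1, h2, h3, h4⟩ := h.mem v hv
    exact ⟨MP_59160a_co.im φ E, i, k, h1.im φ, h2, by simp [h3], by simp [h4]⟩
  · intro hef
    exact h.ne (φ.injective hef)
  · rintro _ ⟨v, hv, rfl⟩ h1 h2 c hc1 hc2 hc3
    refine ⟨φ.symm c, ?_, by simp⟩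
    have hφ : ∀ w, inner ℝ (φ.symm c) w = inner ℝ c (φ w) := by
      intro w
      rw [← φ.inner_map_map, φ.apply_symm_apply]
    apply h.full v hv
    · intro e'; exact h1 (by rw [e'])
    · intro e'; exact h2 (by rw [e'])
    · rw [φ.symm.inner_map_map]; exact hc1
    · rw [hφ]; exact hc2
    · rw [hφ]; exact hc3

lemma Fan.index [Fact (finrank ℝ V = 3)] {C : Fin 3 → V} (hC : IsCorner C) {A : Set V}
    {e f : V} (h : Fan C A e f) : ∃ a b : ℤ, e = bq C a ∧ f = bq C b ∧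
      ∀ v, v ∈ A ↔ ∃ n, v = bq C n ∧ ((a ≤ n ∧ n ≤ b) ∨ (b ≤ n ∧ n ≤ a)) := by
  have hmem : ∀ v ∈ A, ∃ n, v = bq C n := by
    intro v hv
    obtain ⟨E, i, k, h1, h2, h3, h4⟩ := h.mem v hv
    obtain ⟨n, hn⟩ := link_complete hC h1 h3 h2
    exact ⟨n, by rw [← h4, hn]⟩
  have hunit : ∀ n, inner ℝ (bq C n) (bq C n) = (1 : ℝ) := by
    intro n
    have := (hC.im (rot C ^ n)).self 1
    rwa [(im_rot hC n).2.1] at this
  have hzero : ∀ n, inner ℝ (bq C n) (C 0) = c0 := by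
    intro n
    rw [real_inner_comm]; exact (bq_corner hC n).1
  have hsucc : ∀ n, inner ℝ (bq C (n + 1)) (bq C n) = c0 := by
    intro n
    rw [real_inner_comm]; exact (bq_corner hC n).2
  have hpred : ∀ n, inner ℝ (bq C (n - 1)) (bq C n) = c0 := by
    intro n
    have := (bq_corner hC (n - 1)).2
    rwa [sub_add_cancel] at this
  obtain ⟨a, ha⟩ := hmem e h.he
  obtain ⟨b, hb⟩ := hmem f h.hf
  refine ⟨a, b, ha, hb, ?_⟩
  have hinj := bq_injective hC
  have hone : ∀ (v : V) (a : ℤ), v = bq C a → (∃! c, c ∈ A ∧ inner ℝ c v = c0) →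
      ¬ (a - 1 ∈ {n | bq C n ∈ A} ∧ a + 1 ∈ {n | bq C n ∈ A}) ∧
      (a - 1 ∈ {n | bq C n ∈ A} ∨ a + 1 ∈ {n | bq C n ∈ A}) := by
    rintro v a rfl ⟨c, ⟨hc1, hc2⟩, hc3⟩
    constructor
    · rintro ⟨h1, h2⟩
      have e1 := hc3 _ ⟨h1, hpred a⟩
      have e2 := hc3 _ ⟨h2, hsucc a⟩
      have := hinj (e1.trans e2.symm)
      omega
    · obtain ⟨n, hn⟩ := hmem c hc1
      have h3 : inner ℝ c c = (1 : ℝ) := by rw [hn]; exact hunit n
      have h4 : inner ℝ c (C 0) = c0 := by rw [hn]; exact hzero n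
      rcases link_next hC a h3 h4 hc2 with h5 | h5
      · right; change bq C (a + 1) ∈ A; rw [← h5]; exact hc1
      · left; change bq C (a - 1) ∈ A; rw [← h5]; exact hc1
  have hS := interval_set {n | bq C n ∈ A} (h.fin.preimage hinj.injOn) a b
    (by change bq C a ∈ A; rw [← ha]; exact h.he) (by change bq C b ∈ A; rw [← hb]; exact h.hf)
    (by rintro rfl; exact h.ne (by rw [ha, hb]))
    (by
      intro n hn hna hnb
      have h1 : bq C n ≠ e := by rw [ha]; intro e'; exact hna (hinj e')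
      have h2 : bq C n ≠ f := by rw [hb]; intro e'; exact hnb (hinj e')
      exact ⟨h.full _ hn h1 h2 _ (hunit _) (hzero _) (hpred n),
        h.full _ hn h1 h2 _ (hunit _) (hzero _) (hsucc n)⟩)
    (hone e a ha h.one_e).1 (hone e a ha h.one_e).2
    (hone f b hb h.one_f).1 (hone f b hb h.one_f).2
  intro v
  constructor
  · intro hv
    obtain ⟨n, hn⟩ := hmem v hv
    refine ⟨n, hn, ?_⟩
    have : n ∈ {n | bq C n ∈ A} := by change bq C n ∈ A; rw [← hn]; exact hv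
    rw [hS] at this
    exact this
  · rintro ⟨n, rfl, hn⟩
    have : n ∈ {n | bq C n ∈ A} := by rw [hS]; exact hn
    exact this

/-- A fan is determined by its axis and its ends. -/
theorem Fan.unique [Fact (finrank ℝ V = 3)] {C : Fin 3 → V} (hC : IsCorner C) {A A' : Set V}
    {e f : V} (h : Fan C A e f) (h' : Fan C A' e f) : A = A' := by
  obtain ⟨a, b, ha, hb, hA⟩ := h.index hC
  obtain ⟨a', b', ha', hb', hA'⟩ := h'.index hC
  have e1 : a = a' := bq_injective hC (ha.symm.trans ha')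
  have e2 : b = b' := bq_injective hC (hb.symm.trans hb')
  subst e1
  subst e2
  ext v
  rw [hA, hA']

end Pool.Agent.Lib.MP_59160a_co
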