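import Pool.Agent.Lib.MP_59160a_co.Bridge

/-!
The immersed pentagonal sphere as a dart structure, and the main theorem.
-/

set_option autoImplicit false
set_option linter.unusedSectionVars false

namespace Pool.Agent.Lib.MP_59160a_co

open unitInterval Topology Equiv.Perm Desc

section Raw

variable {N : PentComplex} {f : N.Carrier → E3} (hf : N.IsImmersion f) {c : Fin N.n → Bool}
    (hrev : ∀ F i, N.rev (F, i) = (c F == c (N.glue (F, i)).1))

/-- The position of the first vertex of a dart. -/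
noncomputable def pR (f : N.Carrier → E3) (c : Fin N.n → Bool) (d : Fin N.n × ZMod 5) : E3 :=
  f (N.pt d.1 (pv (N.ini c d)))

lemma ept_zero (d : Fin N.n × ZMod 5) : ept N c d 0 = N.pt d.1 (pv (N.ini c d)) := by
  obtain ⟨F, i⟩ := d
  unfold ept PentComplex.ini
  cases h : c F
  · simp [sP_zero]
  · simp [sP_one]

lemma ept_one (d : Fin N.n × ZMod 5) : ept N c d 1 = ept N c (N.nxP c d) 0 := by
  obtain ⟨F, i⟩ := d
  rw [ept_zero, PentComplex.ini_nx]
  unfold ept PentComplex.ini
  rw [PentComplex.nxP_apply]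
  cases h : c F
  · simp [sP_one]
  · simp [sP_zero]

include hrev in
lemma ept_glue (d : Fin N.n × ZMod 5) (t : I) : ept N c (N.glue d) (σ t) = ept N c d t := by
  obtain ⟨F, i⟩ := d
  symm
  have hr := hrev F i
  unfold ept
  apply Quot.sound
  refine ⟨i, (if c F then σ t else t : I), (if c F then σ t else t : I).2.1,
    (if c F then σ t else t : I).2.2, rfl, rfl, ?_⟩
  rw [hr]
  change sidePoint _ _ = sidePoint _ _
  congr 1
  cases c F <;> cases c (N.glue (F, i)).1 <;> simp

lemma nxP_fst (d : Fin N.n × ZMod 5) : (N.nxP c d).1 = d.1 := rfl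

lemma pR_eq (d : Fin N.n × ZMod 5) : pR f c d = f (ept N c d 0) := by
  rw [ept_zero]; rfl

include hrev in
lemma pR_glue (d : Fin N.n × ZMod 5) : pR f c (N.glue d) = pR f c (N.nxP c d) := by
  rw [pR_eq, pR_eq, ← ept_one]
  have := ept_glue hrev d 1
  rw [symm_one] at this
  rw [this]

lemma pR_nx (d : Fin N.n × ZMod 5) : pR f c (N.nxP c d) =
    f (N.pt d.1 (pv (if c d.1 then N.ini c d - 1 else N.ini c d + 1))) := by
  unfold pR
  rw [PentComplex.ini_nx, nxP_fst]

lemma pR_nx2 (d : Fin N.n × ZMod 5) : pR f c (N.nxP c (N.nxP c d)) =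
    f (N.pt d.1 (pv (if c d.1 then N.ini c d - 2 else N.ini c d + 2))) := by
  rw [pR_nx, PentComplex.ini_nx, nxP_fst]
  cases c d.1
  · simp only [Bool.false_eq_true, if_false]
    rw [add_assoc, show (1 + 1 : ZMod 5) = 2 by decide]
  · simp only [if_true]
    rw [sub_sub, show (1 + 1 : ZMod 5) = 2 by decide]

lemma pR_nx3 (d : Fin N.n × ZMod 5) : pR f c (N.nxP c (N.nxP c (N.nxP c d))) =
    f (N.pt d.1 (pv (if c d.1 then N.ini c d - 3 else N.ini c d + 3))) := by
  rw [pR_nx2, PentComplex.ini_nx, nxP_fst]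
  cases c d.1
  · simp only [Bool.false_eq_true, if_false]
    rw [add_assoc, show (1 + 2 : ZMod 5) = 3 by decide]
  · simp only [if_true]
    rw [sub_sub, show (1 + 2 : ZMod 5) = 3 by decide]

include hf in
lemma pR_unit (d : Fin N.n × ZMod 5) : inner ℝ (pR f c (N.nxP c d) - pR f c d)
    (pR f c (N.nxP c d) - pR f c d) = (1 : ℝ) := by
  rw [pR_nx]
  unfold pR
  cases c d.1
  · exact q_unit (hf.2.1 d.1) _
  · simp only [if_true]
    have h := q_unit (hf.2.1 d.1) (N.ini c d - 1)
    rw [sub_add_cancel] at h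
    rw [← neg_sub, inner_neg_neg]
    exact h

include hf in
lemma pR_ang (d : Fin N.n × ZMod 5) : inner ℝ (pR f c (N.nxP c d) - pR f c d)
    (pR f c (N.nxP c (N.nxP c d)) - pR f c (N.nxP c d)) = -c0 := by
  rw [pR_nx2, pR_nx]
  unfold pR
  have hc : -c0 = g / 2 := by rw [c0_eq]; ring
  rw [hc]
  cases c d.1
  · exact q_ang (hf.2.1 d.1) _
  · simp only [if_true]
    have h := q_ang (hf.2.1 d.1) (N.ini c d - 2)
    rw [sub_add_cancel, show N.ini c d - 2 + 1 = N.ini c d - 1 by ring] at h
    rw [real_inner_comm, ← neg_sub, ← neg_sub (f (N.pt d.1 (pv (N.ini c d)))), inner_neg_neg]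
    exact h

include hf in
lemma pR_flat (d : Fin N.n × ZMod 5) :
    pR f c (N.nxP c (N.nxP c (N.nxP c d))) - pR f c (N.nxP c (N.nxP c d)) =
    g • (pR f c (N.nxP c (N.nxP c d)) - pR f c (N.nxP c d)) -
      (pR f c (N.nxP c d) - pR f c d) := by
  rw [pR_nx3, pR_nx2, pR_nx]
  unfold pR
  cases c d.1
  · exact q_flat (hf.2.1 d.1) _
  · simp only [if_true]
    have h := q_flat (hf.2.1 d.1) (N.ini c d - 3)
    rw [sub_add_cancel, show N.ini c d - 3 + 1 = N.ini c d - 2 by ring,
      show N.ini c d - 3 + 2 = N.ini c d - 1 by ring] at h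
    have e : f (N.pt d.1 (pv (N.ini c d - 2))) - f (N.pt d.1 (pv (N.ini c d - 3))) =
        g • (f (N.pt d.1 (pv (N.ini c d - 1))) - f (N.pt d.1 (pv (N.ini c d - 2)))) -
        (f (N.pt d.1 (pv (N.ini c d))) - f (N.pt d.1 (pv (N.ini c d - 1)))) := by
      rw [h]; abel
    rw [← neg_sub, e]
    module

include hf in
lemma f_eptR (d : Fin N.n × ZMod 5) (t : I) :
    f (ept N c d t) = pR f c d + (t : ℝ) • (pR f c (N.nxP c d) - pR f c d) := by
  obtain ⟨F, i⟩ := d
  rw [pR_nx]
  unfold pR ept PentComplex.ini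
  rw [isometry_sP (hf.2.1 F)]
  cases hc : c F
  · simp only [Bool.false_eq_true, if_false]
    module
  · simp only [if_true, coe_symm_eq, add_sub_cancel_right]
    module

include hrev in
lemma ept_sgR (d : Fin N.n × ZMod 5) :
    ept N c ((N.alP * (N.nxP c)⁻¹) d) 0 = ept N c d 0 := by
  rw [Equiv.Perm.mul_apply, PentComplex.alP_apply]
  have h1 := ept_glue hrev ((N.nxP c)⁻¹ d) 1
  rw [symm_one] at h1
  rw [h1, ept_one, perm_apply_inv]

lemma ept_continuous (d : Fin N.n × ZMod 5) : Continuous (ept N c d) := by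
  have h1 : Continuous (N.pt d.1) := continuous_quot_mk.comp (Continuous.prodMk_right _)
  have h2 : Continuous (sP d.2) := Continuous.subtype_mk (sidePoint_continuous d.2) _
  unfold ept
  cases c d.1
  · exact h1.comp h2
  · exact h1.comp (h2.comp continuous_symm)

include hf hrev in
lemma sepR (x y : Fin N.n × ZMod 5) (hxy : SameCycle (N.alP * (N.nxP c)⁻¹) x y)
    (hu : pR f c (N.nxP c x) - pR f c x = pR f c (N.nxP c y) - pR f c y) : x = y := by
  have hm : ept N c x 0 = ept N c y 0 :=
    cycle_inv (N.alP * (N.nxP c)⁻¹) (fun d => ept N c d 0) (fun d => ept_sgR hrev d) hxy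
  obtain ⟨U, hU, hinj⟩ := hf.2.2 (ept N c x 0)
  have h1 : {t : I | ept N c x t ∈ U} ∈ 𝓝 (0 : I) :=
    (ept_continuous x).continuousAt.preimage_mem_nhds hU
  have h2 : {t : I | ept N c y t ∈ U} ∈ 𝓝 (0 : I) :=
    (ept_continuous y).continuousAt.preimage_mem_nhds (hm ▸ hU)
  obtain ⟨t, ⟨ht1, ht2⟩, ht0, ht⟩ := small_param (Filter.inter_mem h1 h2)
  have hp : pR f c x = pR f c y := by rw [pR_eq, pR_eq, hm]
  have he : ept N c x t = ept N c y t := by
    apply hinj ht1 ht2
    rw [f_eptR hf, f_eptR hf, hu, hp]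
  have hb0 : 0 < ((if c x.1 then σ t else t : I) : ℝ) := by
    split_ifs
    · rw [coe_symm_eq]; linarith
    · exact ht0
  have hb1 : ((if c x.1 then σ t else t : I) : ℝ) < 1 := by
    split_ifs
    · rw [coe_symm_eq]; linarith
    · linarith
  rcases pt_side hb0 hb1 he with ⟨h3, -⟩ | ⟨h3, -⟩
  · exact h3
  · exfalso
    rw [← h3] at he
    have h4 := ept_glue hrev x (σ t)
    rw [symm_symm] at h4
    rw [h4] at he
    have h5 := congrArg f he
    rw [f_eptR hf, f_eptR hf, coe_symm_eq] at h5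
    have h6 : ((t : ℝ) - (1 - t)) • (pR f c (N.nxP c x) - pR f c x) = 0 := by
      rw [sub_smul, sub_eq_zero]
      exact add_left_cancel h5
    rcases smul_eq_zero.1 h6 with h7 | h7
    · linarith
    · have h8 := pR_unit hf (c := c) x
      rw [h7, inner_zero_left] at h8
      exact zero_ne_one h8

include hf hrev in
lemma degR (x : Fin N.n × ZMod 5) :
    (N.alP * (N.nxP c)⁻¹) ((N.alP * (N.nxP c)⁻¹) x) ≠ x := by
  intro hx
  set y := (N.alP * (N.nxP c)⁻¹) x with hy
  have hxy : SameCycle (N.alP * (N.nxP c)⁻¹) x y := ⟨1, by rw [zpow_one]⟩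
  have hm : ept N c x 0 = ept N c y 0 :=
    cycle_inv (N.alP * (N.nxP c)⁻¹) (fun d => ept N c d 0) (fun d => ept_sgR hrev d) hxy
  have hp : pR f c x = pR f c y := by rw [pR_eq, pR_eq, hm]
  -- positions of the previous vertices
  have hprev : ∀ z : Fin N.n × ZMod 5, pR f c ((N.nxP c)⁻¹ z) =
      pR f c (N.nxP c ((N.alP * (N.nxP c)⁻¹) z)) := by
    intro z
    rw [Equiv.Perm.mul_apply, PentComplex.alP_apply, ← pR_glue hrev, N.glue_glue]
  -- the corner points
  have hcp : ∀ (z : Fin N.n × ZMod 5) (t : I), f (N.pt z.1 (cP (N.ini c z) t)) = pR f c z +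
      ((t : ℝ) / 2) • (pR f c ((N.nxP c)⁻¹ z) - pR f c z) +
      ((t : ℝ) / 2) • (pR f c (N.nxP c z) - pR f c z) := by
    intro z t
    have h1 := f_cP (hf.2.1 z.1) (N.ini c z) t
    have h2 : (pR f c ((N.nxP c)⁻¹ z)) =
        f (N.pt z.1 (pv (if c z.1 then N.ini c z + 1 else N.ini c z - 1))) := by
      obtain ⟨F, i⟩ := z
      change f (N.pt F (pv (N.ini c (F, if c F then i + 1 else i - 1)))) = _
      unfold PentComplex.ini
      cases c F
      · simp
      · simp
    rw [h2, pR_nx]
    change f (N.pt z.1 (cP (N.ini c z) t)) = _ at h1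
    rw [h1]
    unfold pR
    cases c z.1
    · simp only [Bool.false_eq_true, if_false]
    · simp only [if_true]
      abel
  have hcpc : ∀ z : Fin N.n × ZMod 5, Continuous fun t : I => N.pt z.1 (cP (N.ini c z) t) := by
    intro z
    have h1 : Continuous (N.pt z.1) := continuous_quot_mk.comp (Continuous.prodMk_right _)
    exact h1.comp (cP_continuous _)
  have hcp0 : ∀ z : Fin N.n × ZMod 5, N.pt z.1 (cP (N.ini c z) 0) = ept N c z 0 := by
    intro z
    rw [cP_zero, ept_zero]
  obtain ⟨U, hU, hinj⟩ := hf.2.2 (ept N c x 0)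
  have h1 : {t : I | N.pt x.1 (cP (N.ini c x) t) ∈ U} ∈ 𝓝 (0 : I) :=
    (hcpc x).continuousAt.preimage_mem_nhds (by rw [hcp0]; exact hU)
  have h2 : {t : I | N.pt y.1 (cP (N.ini c y) t) ∈ U} ∈ 𝓝 (0 : I) :=
    (hcpc y).continuousAt.preimage_mem_nhds (by rw [hcp0, ← hm]; exact hU)
  obtain ⟨t, ⟨ht1, ht2⟩, ht0, ht⟩ := small_param (Filter.inter_mem h1 h2)
  have he : N.pt x.1 (cP (N.ini c x) t) = N.pt y.1 (cP (N.ini c y) t) := by
    apply hinj ht1 ht2
    rw [hcp, hcp, hprev x, hprev y, ← hy, hx, hp]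
    abel
  obtain ⟨h3, h4⟩ := pt_interior (cP_not_mem _ ht0 (by linarith)) he
  have h5 := cP_inj h4
  have hxy' : x = y := by
    obtain ⟨F, i⟩ := x
    obtain ⟨F', i'⟩ := y
    simp only at h3
    subst h3
    unfold PentComplex.ini at h5
    cases hc : c F
    · simp [hc] at h5
      rw [h5]
    · simp [hc] at h5
      rw [h5]
  -- now two vertices of a face coincide
  have h6 : pR f c ((N.nxP c)⁻¹ x) = pR f c (N.nxP c x) := by
    rw [hprev x, ← hy, ← hxy']
  rw [pR_nx] at h6
  have h7 : (pR f c ((N.nxP c)⁻¹ x)) =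
      f (N.pt x.1 (pv (if c x.1 then N.ini c x + 1 else N.ini c x - 1))) := by
    obtain ⟨F, i⟩ := x
    change f (N.pt F (pv (N.ini c (F, if c F then i + 1 else i - 1)))) = _
    unfold PentComplex.ini
    cases c F
    · simp
    · simp
  rw [h7] at h6
  have h8 := (hf.2.1 x.1).injective h6
  have h9 : ∀ a b : ZMod 5, pv a = pv b → a = b := fun a b hab =>
    pentVertex_inj (congrArg Subtype.val hab)
  have h10 := h9 _ _ h8
  have key : ∀ a : ZMod 5, a - 1 ≠ a + 1 := by decide
  cases hc : c x.1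
  · rw [hc] at h10
    simp only [Bool.false_eq_true, if_false] at h10
    exact key _ h10
  · rw [hc] at h10
    simp only [if_true] at h10
    exact key _ h10.symm

end Raw

/-- The dart structure of an immersed pentagonal sphere. -/
theorem exists_desc {N : PentComplex} (hN : N.IsSphere) {f : N.Carrier → E3}
    (hf : N.IsImmersion f) : ∃ (c : Fin N.n → Bool) (S : Pent (Fin N.n × ZMod 5) E3),
      Desc N f c S := by
  obtain ⟨c, hrev⟩ := PentComplex.exists_orientation hN
  have := PentComplex.darts_nonempty hN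
  let S : Pent (Fin N.n × ZMod 5) E3 :=
    { nx := N.nxP c
      al := N.alP
      p := pR f c
      al_al := N.glue_glue
      al_ne := N.glue_ne
      p_al := pR_glue hrev
      nx5 := by
        rintro ⟨F, i⟩
        simp only [PentComplex.nxP_apply]
        have h5 : (1 + 1 + 1 + 1 + 1 : ZMod 5) = 0 := by decide
        cases c F
        · simp only [Bool.false_eq_true, if_false]
          refine Prod.ext rfl ?_
          linear_combination h5
        · simp only [if_true]
          refine Prod.ext rfl ?_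
          linear_combination -h5
      unit := pR_unit hf
      ang := pR_ang hf
      flat := pR_flat hf
      sep := sepR hf hrev
      deg := degR hf hrev
      conn := PentComplex.darts_conn hN c
      euler := euler_of_cocycles (N.nxP c) N.alP N.glue_glue N.glue_ne
        (PentComplex.darts_conn hN c) (PentComplex.cocycle_trivial hN hrev) }
  refine ⟨c, S, hf.2.1, fun d => rfl, fun F i => rfl, fun F i => rfl, hrev⟩

/-- **Main theorem.** Every sphere made of regular pentagons of side one, glued along their sides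
and immersed in space, is the boundary of a union of solid regular dodecahedra glued at common
facets. -/
theorem main (N : PentComplex) (hN : N.IsSphere) (f : N.Carrier → E3) (hf : N.IsImmersion f) :
    ∃ B : DodUnion, IsBoundaryOf N f B := by
  obtain ⟨c, S, H⟩ := exists_desc hN hf
  exact ⟨_, H.isBoundaryOf⟩

end Pool.Agent.Lib.MP_59160a_co
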