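import Pool.Agent.Lib.MP_59160a_co.Defs
import Pool.Agent.Lib.MP_59160a_co.Dim3

/-!
The combinatorics and coordinates of the regular dodecahedron.
-/

set_option autoImplicit false
set_option linter.unusedSectionVars false

namespace Pool.Agent.Lib.MP_59160a_co

open Module

/-! ### Tables -/

/-- Integer coordinates of the vertices: `(a, b)` stands for `(a + b g) / 2`. -/
def vtab : Fin 20 → Fin 3 → ℤ × ℤ :=
  ![![(1, 1), (1, 1), (1, 1)],
    ![(1, 1), (1, 1), (-1, -1)],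
    ![(1, 1), (-1, -1), (1, 1)],
    ![(1, 1), (-1, -1), (-1, -1)],
    ![(-1, -1), (1, 1), (1, 1)],
    ![(-1, -1), (1, 1), (-1, -1)],
    ![(-1, -1), (-1, -1), (1, 1)],
    ![(-1, -1), (-1, -1), (-1, -1)],
    ![(0, 0), (1, 0), (2, 1)],
    ![(0, 0), (1, 0), (-2, -1)],
    ![(0, 0), (-1, 0), (2, 1)],
    ![(0, 0), (-1, 0), (-2, -1)],
    ![(1, 0), (2, 1), (0, 0)],
    ![(1, 0), (-2, -1), (0, 0)],
    ![(-1, 0), (2, 1), (0, 0)],
    ![(-1, 0), (-2, -1), (0, 0)],
    ![(2, 1), (0, 0), (1, 0)],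
    ![(-2, -1), (0, 0), (1, 0)],
    ![(2, 1), (0, 0), (-1, 0)],
    ![(-2, -1), (0, 0), (-1, 0)]]

/-- The three neighbours of a vertex. -/
def nb : Fin 20 → Fin 3 → Fin 20 :=
  ![![8, 12, 16],
    ![9, 12, 18],
    ![10, 13, 16],
    ![11, 13, 18],
    ![8, 14, 17],
    ![9, 14, 19],
    ![10, 15, 17],
    ![11, 15, 19],
    ![0, 4, 10],
    ![1, 5, 11],
    ![2, 6, 8],
    ![3, 7, 9],
    ![0, 1, 14],
    ![2, 3, 15],
    ![4, 5, 12],
    ![6, 7, 13],
    ![0, 2, 18],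
    ![4, 6, 19],
    ![1, 3, 16],
    ![5, 7, 17]]

/-- The correspondence of the edges when moving along an edge. -/
def pm : Fin 20 → Fin 3 → Fin 3 → Fin 3 :=
  ![![![0, 1, 2], ![2, 0, 1], ![1, 2, 0]],
    ![![0, 1, 2], ![2, 1, 0], ![1, 2, 0]],
    ![![0, 1, 2], ![2, 0, 1], ![0, 2, 1]],
    ![![0, 1, 2], ![2, 1, 0], ![0, 2, 1]],
    ![![1, 0, 2], ![2, 0, 1], ![1, 2, 0]],
    ![![1, 0, 2], ![2, 1, 0], ![1, 2, 0]],
    ![![1, 0, 2], ![2, 0, 1], ![0, 2, 1]],
    ![![1, 0, 2], ![2, 1, 0], ![0, 2, 1]],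
    ![![0, 1, 2], ![1, 0, 2], ![0, 1, 2]],
    ![![0, 1, 2], ![1, 0, 2], ![0, 1, 2]],
    ![![0, 1, 2], ![1, 0, 2], ![0, 1, 2]],
    ![![0, 1, 2], ![1, 0, 2], ![0, 1, 2]],
    ![![1, 2, 0], ![2, 1, 0], ![0, 1, 2]],
    ![![1, 2, 0], ![2, 1, 0], ![0, 1, 2]],
    ![![1, 2, 0], ![2, 1, 0], ![0, 1, 2]],
    ![![1, 2, 0], ![2, 1, 0], ![0, 1, 2]],
    ![![2, 0, 1], ![0, 2, 1], ![0, 1, 2]],
    ![![2, 0, 1], ![0, 2, 1], ![0, 1, 2]],
    ![![2, 0, 1], ![0, 2, 1], ![0, 1, 2]],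
    ![![2, 0, 1], ![0, 2, 1], ![0, 1, 2]]]

/-- The facet opposite to an edge at a vertex. -/
def fct : Fin 20 → Fin 3 → Fin 12 :=
  ![![4, 8, 0],
    ![4, 10, 1],
    ![5, 8, 2],
    ![5, 10, 3],
    ![6, 9, 0],
    ![6, 11, 1],
    ![7, 9, 2],
    ![7, 11, 3],
    ![9, 8, 0],
    ![11, 10, 1],
    ![9, 8, 2],
    ![11, 10, 3],
    ![1, 0, 4],
    ![3, 2, 5],
    ![1, 0, 6],
    ![3, 2, 7],
    ![5, 4, 8],
    ![7, 6, 9],
    ![5, 4, 10],
    ![7, 6, 11]]

/-- Integer coordinates of the normals: `(a, b)` stands for `a + b g`. -/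
def ntab : Fin 12 → Fin 3 → ℤ × ℤ :=
  ![![(0, 0), (1, 1), (1, 0)],
    ![(0, 0), (1, 1), (-1, 0)],
    ![(0, 0), (-1, -1), (1, 0)],
    ![(0, 0), (-1, -1), (-1, 0)],
    ![(1, 1), (1, 0), (0, 0)],
    ![(1, 1), (-1, 0), (0, 0)],
    ![(-1, -1), (1, 0), (0, 0)],
    ![(-1, -1), (-1, 0), (0, 0)],
    ![(1, 0), (0, 0), (1, 1)],
    ![(-1, 0), (0, 0), (1, 1)],
    ![(1, 0), (0, 0), (-1, -1)],
    ![(-1, 0), (0, 0), (-1, -1)]]

/-- A path from vertex zero. -/
def pth : Fin 20 → List (Fin 3) :=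
  ![[], [1, 1], [2, 1], [2, 2, 1], [0, 1], [1, 2, 1], [0, 2, 1], [0, 1, 2, 2, 1], [0], [1, 1, 0], [0, 2], [1, 1, 0, 2], [1], [2, 1, 1], [1, 2], [0, 2, 1, 1], [2], [0, 1, 2], [2, 2], [0, 1, 2, 2]]

/-! ### Arithmetic of pairs -/

/-- The product of pairs. -/
def zm (p q : ℤ × ℤ) : ℤ × ℤ := (p.1 * q.1 + p.2 * q.2, p.1 * q.2 + p.2 * q.1 - p.2 * q.2)

/-- The product with `g`. -/
def zg (p : ℤ × ℤ) : ℤ × ℤ := (p.2, p.1 - p.2)

/-- The real number of a pair. -/
noncomputable def ev (p : ℤ × ℤ) : ℝ := p.1 + p.2 * g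

lemma ev_add (p q : ℤ × ℤ) : ev (p + q) = ev p + ev q := by
  unfold ev; push_cast [Prod.fst_add, Prod.snd_add]; ring

lemma ev_sub (p q : ℤ × ℤ) : ev (p - q) = ev p - ev q := by
  unfold ev; push_cast [Prod.fst_sub, Prod.snd_sub]; ring

lemma ev_neg (p : ℤ × ℤ) : ev (-p) = -ev p := by
  unfold ev; push_cast [Prod.fst_neg, Prod.snd_neg]; ring

lemma ev_zm (p q : ℤ × ℤ) : ev (zm p q) = ev p * ev q := by
  unfold ev zm
  push_cast
  have := g_sq
  linear_combination (-(p.2 : ℝ) * q.2) * this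

lemma ev_zg (p : ℤ × ℤ) : ev (zg p) = g * ev p := by
  unfold ev zg
  push_cast
  have := g_sq
  linear_combination (-(p.2 : ℝ)) * this

/-- The integer coordinates of the edge vectors. -/
def etab (i : Fin 20) (a k : Fin 3) : ℤ × ℤ := vtab (nb i a) k - vtab i k

/-- The integer inner product of two edge vectors at a vertex. -/
def eip (i : Fin 20) (a b : Fin 3) : ℤ × ℤ :=
  zm (etab i a 0) (etab i b 0) + zm (etab i a 1) (etab i b 1) + zm (etab i a 2) (etab i b 2)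

lemma eip_eq : ∀ (i : Fin 20) (a b : Fin 3), eip i a b = if a = b then (4, 0) else (0, -2) := by
  decide +kernel

lemma nb_nb : ∀ (i : Fin 20) (a : Fin 3), nb (nb i a) (pm i a a) = i := by decide +kernel

lemma pm_pm : ∀ (i : Fin 20) (a k : Fin 3), pm (nb i a) (pm i a a) (pm i a k) = k := by
  decide +kernel

lemma etab_self : ∀ (i : Fin 20) (a k : Fin 3), etab (nb i a) (pm i a a) k = -etab i a k := by
  decide +kernel

lemma etab_ne : ∀ (i : Fin 20) (a b k : Fin 3), b ≠ a →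
    etab (nb i a) (pm i a b) k = etab i b k + zg (etab i a k) := by
  decide +kernel

lemma vtab_inj : ∀ i j : Fin 20, (∀ k, vtab i k = vtab j k) → i = j := by decide +kernel

/-! ### Model flags -/

/-- The permutation of the edges when moving along an edge. -/
def pmp (i : Fin 20) (a : Fin 3) : Equiv.Perm (Fin 3) where
  toFun := pm i a
  invFun := pm (nb i a) (pm i a a)
  left_inv := pm_pm i a
  right_inv := by
    have : ∀ (i : Fin 20) (a k : Fin 3), pm i a (pm (nb i a) (pm i a a) k) = k := by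
      decide +kernel
    exact this i a

/-- The flags of the dodecahedron. -/
abbrev F0 := Fin 20 × Equiv.Perm (Fin 3)

def s0 (f : F0) : F0 := (nb f.1 (f.2 0), pmp f.1 (f.2 0) * f.2)

def s1 (f : F0) : F0 := (f.1, f.2 * Equiv.swap 0 1)

def s2 (f : F0) : F0 := (f.1, f.2 * Equiv.swap 1 2)

/-- The ten flags of a facet. -/
def ten (f : F0) : List F0 :=
  [f, s0 f, s1 (s0 f), s0 (s1 (s0 f)), s1 (s0 (s1 (s0 f))), s0 (s1 (s0 (s1 (s0 f)))),
    s1 (s0 (s1 (s0 (s1 (s0 f))))), s0 (s1 (s0 (s1 (s0 (s1 (s0 f)))))),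
    s1 (s0 (s1 (s0 (s1 (s0 (s1 (s0 f))))))), s0 (s1 (s0 (s1 (s0 (s1 (s0 (s1 (s0 f))))))))]

lemma card_F0 : Fintype.card F0 = 120 := by
  simp [Fintype.card_perm]
  decide

lemma ten_nodup : ∀ f : F0, (ten f).Nodup := by decide +kernel

lemma ten_closed : ∀ f : F0, s1 (s0 (s1 (s0 (s1 (s0 (s1 (s0 (s1 (s0 f))))))))) = f := by
  decide +kernel

lemma s0_s0 : ∀ f : F0, s0 (s0 f) = f := by decide +kernel

lemma s1_s1 : ∀ f : F0, s1 (s1 f) = f := by decide +kernel

lemma s2_s2 : ∀ f : F0, s2 (s2 f) = f := by decide +kernel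

lemma mem_ten_s0 (f h : F0) (hh : h ∈ ten f) : s0 h ∈ ten f := by
  simp only [ten, List.mem_cons, List.not_mem_nil, or_false] at hh ⊢
  rcases hh with rfl | rfl | rfl | rfl | rfl | rfl | rfl | rfl | rfl | rfl <;> simp [s0_s0]

lemma mem_ten_s1 (f h : F0) (hh : h ∈ ten f) : s1 h ∈ ten f := by
  have hc : s1 f = s0 (s1 (s0 (s1 (s0 (s1 (s0 (s1 (s0 f)))))))) := by
    conv_lhs => rw [← ten_closed f]
    rw [s1_s1]
  simp only [ten, List.mem_cons, List.not_mem_nil, or_false] at hh ⊢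
  rcases hh with rfl | rfl | rfl | rfl | rfl | rfl | rfl | rfl | rfl | rfl
  · right; right; right; right; right; right; right; right; right; exact hc
  all_goals simp [s1_s1, ten_closed]

/-- Walking in the dodecahedron. -/
def walk (i : Fin 20) : List (Fin 3) → Fin 20
  | [] => i
  | a :: l => walk (nb i a) l

lemma walk_pth : ∀ i : Fin 20, walk 0 (pth i) = i := by decide +kernel

lemma perm_gen : ∀ π : Equiv.Perm (Fin 3), ∃ l : List Bool, l.length ≤ 3 ∧
    π = (l.map (fun b => if b then Equiv.swap (0 : Fin 3) 1 else Equiv.swap 1 2)).prod := by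
  intro π
  have h : ∀ π : Equiv.Perm (Fin 3), π = 1 ∨ π = Equiv.swap 0 1 ∨ π = Equiv.swap 1 2 ∨
    π = Equiv.swap 0 1 * Equiv.swap 1 2 ∨ π = Equiv.swap 1 2 * Equiv.swap 0 1 ∨
    π = Equiv.swap 0 1 * Equiv.swap 1 2 * Equiv.swap 0 1 := by decide
  rcases h π with h | h | h | h | h | h
  · exact ⟨[], by simp, by simp [h]⟩
  · exact ⟨[true], by simp, by simp [h]⟩
  · exact ⟨[false], by simp, by simp [h]⟩
  · exact ⟨[true, false], by simp, by simp [h]⟩
  · exact ⟨[false, true], by simp, by simp [h]⟩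
  · exact ⟨[true, false, true], by simp, by simp [h, mul_assoc]⟩

/-- The flags of the dodecahedron are connected. -/
lemma F0_conn (w : F0 → Prop) (h0 : ∀ f, w (s0 f) ↔ w f) (h1 : ∀ f, w (s1 f) ↔ w f)
    (h2 : ∀ f, w (s2 f) ↔ w f) (f f' : F0) : w f → w f' := by
  have hmul : ∀ (l : List Bool) (i : Fin 20) (π : Equiv.Perm (Fin 3)),
      w (i, π * (l.map (fun b => if b then Equiv.swap (0 : Fin 3) 1 else
        Equiv.swap 1 2)).prod) ↔ w (i, π) := by
    intro l
    induction l with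
    | nil => intro i π; simp
    | cons b l ih =>
      intro i π
      rw [List.map_cons, List.prod_cons, ← mul_assoc, ih]
      cases b
      · exact h2 (i, π)
      · exact h1 (i, π)
  have hperm : ∀ (i : Fin 20) (π : Equiv.Perm (Fin 3)), w (i, π) ↔ w (i, 1) := by
    intro i π
    obtain ⟨l, -, hl⟩ := perm_gen π
    have := hmul l i 1
    rw [one_mul, ← hl] at this
    exact this
  have hnb : ∀ (i : Fin 20) (a : Fin 3), w (nb i a, 1) ↔ w (i, 1) := by
    intro i a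
    have h3 := h0 (i, Equiv.swap 0 a)
    rw [hperm i] at h3
    rw [← h3]
    unfold s0
    simp only [Equiv.swap_apply_left]
    exact (hperm (nb i a) _).symm
  have hwalk : ∀ (l : List (Fin 3)) (i : Fin 20), w (walk i l, 1) ↔ w (i, 1) := by
    intro l
    induction l with
    | nil => intro i; rfl
    | cons a l ih => intro i; rw [walk, ih, hnb]
  have hall : ∀ f : F0, w f ↔ w (0, 1) := by
    rintro ⟨i, π⟩
    rw [hperm]
    have := hwalk (pth i) 0
    rw [walk_pth] at this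
    exact this
  rw [hall f, hall f']
  exact id

/-! ### Coordinates -/

instance factE3 : Fact (finrank ℝ E3 = 3) := ⟨by simp⟩

lemma gr_eq : gr = 1 + g := by
  unfold gr g s; ring

lemma gr_sq : gr ^ 2 = 2 + g := by
  rw [gr_eq]
  have := g_sq
  linear_combination this

lemma dodVertex_apply (i : Fin 20) (k : Fin 3) : dodVertex i k = ev (vtab i k) / 2 := by
  have := g_sq
  fin_cases i <;> fin_cases k <;> simp [dodVertex, vtab, ev, gr_sq] <;>
    first | ring1 | (rw [gr_eq]; first | done | ring1)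

/-- The edge vectors of the dodecahedron. -/
noncomputable def stdE (i : Fin 20) (a : Fin 3) : E3 := dodVertex (nb i a) - dodVertex i

lemma stdE_apply (i : Fin 20) (a k : Fin 3) : stdE i a k = ev (etab i a k) / 2 := by
  unfold stdE etab
  rw [PiLp.sub_apply, dodVertex_apply, dodVertex_apply, ev_sub]
  ring

lemma stdE_corner (i : Fin 20) : IsCorner (stdE i) := by
  intro a b
  have h : inner ℝ (stdE i a) (stdE i b) = ev (eip i a b) / 4 := by
    rw [PiLp.inner_apply, Fin.sum_univ_three]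
    simp only [stdE_apply, RCLike.inner_apply, conj_trivial]
    unfold eip
    rw [ev_add, ev_add, ev_zm, ev_zm, ev_zm]
    ring
  rw [h, eip_eq]
  split_ifs
  · unfold ev; norm_num
  · unfold ev c0; push_cast; ring

lemma stdE_mv_self (i : Fin 20) (a : Fin 3) : stdE (nb i a) (pm i a a) = -stdE i a := by
  ext k
  rw [stdE_apply, PiLp.neg_apply, stdE_apply, etab_self, ev_neg]
  ring

lemma stdE_mv_ne (i : Fin 20) (a b : Fin 3) (hab : b ≠ a) :
    stdE (nb i a) (pm i a b) = stdE i b + g • stdE i a := by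
  ext k
  rw [stdE_apply, PiLp.add_apply, PiLp.smul_apply, stdE_apply, stdE_apply, etab_ne i a b k hab,
    ev_add, ev_zg, smul_eq_mul]
  ring

lemma stdE_mv (i : Fin 20) (a : Fin 3) : mv a (stdE i) = stdE (nb i a) ∘ pmp i a := by
  funext b
  by_cases hab : b = a
  · subst hab
    rw [mv_self]
    exact (stdE_mv_self i b).symm
  · rw [mv_ne (stdE_corner i) hab]
    exact (stdE_mv_ne i a b hab).symm

lemma g_irr (a b : ℤ) (h : (a : ℝ) + b * g = 0) : a = 0 ∧ b = 0 := by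
  have h2 : ((2 * a - b : ℤ) : ℝ) + (b : ℝ) * s = 0 := by
    push_cast
    rw [s_eq]
    linear_combination 2 * h
  obtain ⟨h3, h4⟩ := irr_aux _ _ h2
  constructor
  · omega
  · exact h4

lemma ev_inj {p q : ℤ × ℤ} (h : ev p = ev q) : p = q := by
  have h1 : ((p.1 - q.1 : ℤ) : ℝ) + ((p.2 - q.2 : ℤ) : ℝ) * g = 0 := by
    unfold ev at h
    push_cast
    linear_combination h
  obtain ⟨h2, h3⟩ := g_irr _ _ h1
  exact Prod.ext (by omega) (by omega)

lemma dodVertex_inj : Function.Injective dodVertex := by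
  intro i j h
  apply vtab_inj
  intro k
  apply ev_inj
  have h1 := dodVertex_apply i k
  have h2 := dodVertex_apply j k
  rw [h, h2] at h1
  linarith

end Pool.Agent.Lib.MP_59160a_co
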