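import Pool.Agent.Lib.MP_59160a_co.Vertex
import Pool.Agent.Lib.MP_59160a_co.Model

/-!
Flags of the decomposition into dodecahedra.
-/

set_option autoImplicit false
set_option linter.unusedSectionVars false

namespace Pool.Agent.Lib.MP_59160a_co

open Module Equiv.Perm Finset

/-- An isometry carrying one corner to another. -/
lemma exists_isometry {W V : Type*} [NormedAddCommGroup W] [InnerProductSpace ℝ W]
    [Fact (finrank ℝ W = 3)] [NormedAddCommGroup V] [InnerProductSpace ℝ V]
    [Fact (finrank ℝ V = 3)] {C : Fin 3 → W} {E : Fin 3 → V} (hC : IsCorner C)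
    (hE : IsCorner E) : ∃ L : W ≃ₗᵢ[ℝ] V, ∀ j, L (C j) = E j := by
  have hfW : finrank ℝ W = 3 := Fact.out
  have hfV : finrank ℝ V = 3 := Fact.out
  have : FiniteDimensional ℝ W := FiniteDimensional.of_finrank_pos (by rw [hfW]; norm_num)
  have : FiniteDimensional ℝ V := FiniteDimensional.of_finrank_pos (by rw [hfV]; norm_num)
  have hcard : Fintype.card (Fin 3) = finrank ℝ W := by rw [hfW]; rfl
  let b := basisOfLinearIndependentOfCardEqFinrank hC.linearIndependent hcard
  have hb : ∀ i, b i = C i := by intro i; simp [b]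
  let f : W →ₗ[ℝ] V := b.constr ℝ E
  have hf : ∀ j, f (C j) = E j := by
    intro j
    rw [← hb, Basis.constr_basis]
  have hin : ∀ x y, inner ℝ (f x) (f y) = inner ℝ x y := by
    intro x y
    have hx := b.sum_repr x
    have hy := b.sum_repr y
    rw [← hx, ← hy]
    simp only [map_sum, map_smul, hb, hf, sum_inner, inner_sum, real_inner_smul_left,
      real_inner_smul_right]
    refine Finset.sum_congr rfl (fun i _ => Finset.sum_congr rfl (fun j _ => ?_))
    rw [hC j i, hE j i]
  let L0 : W →ₗᵢ[ℝ] V := f.isometryOfInner hin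
  let L : W ≃ₗᵢ[ℝ] V := L0.toLinearIsometryEquiv (by rw [hfW, hfV])
  exact ⟨L, fun j => hf j⟩

lemma rf_map {W V : Type*} [NormedAddCommGroup W] [InnerProductSpace ℝ W]
    [NormedAddCommGroup V] [InnerProductSpace ℝ V] (f : W ≃ₗᵢ[ℝ] V) (n x : W) :
    f (rf n x) = rf (f n) (f x) := by
  rw [rf_apply, rf_apply, map_sub, map_smul, f.inner_map_map, f.inner_map_map]

namespace Pent

variable {D : Type*} {V : Type*} [Fintype D] [DecidableEq D] [NormedAddCommGroup V]
    [InnerProductSpace ℝ V] [Fact (finrank ℝ V = 3)] (M : Pent D V)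

/-- A flag: three pairwise adjacent darts at a vertex, in some order. -/
@[ext]
structure Fl where
  d : Fin 3 → D
  adj : ∀ i j, i ≠ j → M.Adj (d i) (d j)

variable {M}

namespace Fl

lemma d_injective : Function.Injective (Fl.d : M.Fl → Fin 3 → D) := fun _ _ h => Fl.ext h

instance : Finite M.Fl := Finite.of_injective _ d_injective

noncomputable instance : Fintype M.Fl := Fintype.ofFinite _

noncomputable instance : DecidableEq M.Fl := Classical.decEq _

lemma same (q : M.Fl) (i j : Fin 3) : SameCycle M.sg (q.d i) (q.d j) := by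
  by_cases h : i = j
  · rw [h]
  · exact (q.adj i j h).1

/-- The three directions of a flag. -/
def vec (q : M.Fl) : Fin 3 → V := fun i => M.u (q.d i)

lemma vec_corner (q : M.Fl) : IsCorner q.vec := by
  intro i j
  split_ifs with h
  · rw [h]; exact M.u_unit _
  · exact (q.adj i j h).2

lemma eq_of_vec {q q' : M.Fl} (h : SameCycle M.sg (q.d 0) (q'.d 0)) (hv : q.vec = q'.vec) :
    q = q' := by
  apply Fl.ext
  funext i
  exact M.u_inj (((q.same i 0).trans h).trans (q'.same 0 i)) (congrFun hv i)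

/-- Reordering. -/
def perm (q : M.Fl) (π : Equiv.Perm (Fin 3)) : M.Fl :=
  ⟨q.d ∘ π, fun i j hij => q.adj _ _ (fun h => hij (π.injective h))⟩

lemma perm_perm (q : M.Fl) (π ρ : Equiv.Perm (Fin 3)) : (q.perm π).perm ρ = q.perm (π * ρ) := rfl

lemma perm_one (q : M.Fl) : q.perm 1 = q := rfl

/-- Moving along the first edge. -/
noncomputable def t0 (q : M.Fl) : M.Fl where
  d i := if h : i = 0 then M.al (q.d 0) else (M.exists_move (q.adj 0 i (Ne.symm h))).choose
  adj := by
    have h0 : ∀ i, SameCycle M.sg (M.al (q.d 0)) (if h : i = 0 then M.al (q.d 0) else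
        (M.exists_move (q.adj 0 i (Ne.symm h))).choose) := by
      intro i
      split_ifs with h
      · exact SameCycle.refl _ _
      · exact (M.exists_move (q.adj 0 i (Ne.symm h))).choose_spec.1.1
    have h1 : ∀ i, M.u (if h : i = 0 then M.al (q.d 0) else
        (M.exists_move (q.adj 0 i (Ne.symm h))).choose) = rf (M.u (q.d 0)) (M.u (q.d i)) := by
      intro i
      split_ifs with h
      · rw [h, M.u_al, rf_self]
      · exact (M.exists_move (q.adj 0 i (Ne.symm h))).choose_spec.2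
    intro i j hij
    refine ⟨(h0 i).symm.trans (h0 j), ?_⟩
    rw [h1, h1, (rf (M.u (q.d 0))).inner_map_map]
    exact (q.adj i j hij).2

lemma t0_zero (q : M.Fl) : q.t0.d 0 = M.al (q.d 0) := rfl

lemma t0_u (q : M.Fl) (i : Fin 3) : M.u (q.t0.d i) = rf (M.u (q.d 0)) (M.u (q.d i)) := by
  change M.u (if h : i = 0 then M.al (q.d 0) else
        (M.exists_move (q.adj 0 i (Ne.symm h))).choose) = _
  split_ifs with h
  · rw [h, M.u_al, rf_self]
  · exact (M.exists_move (q.adj 0 i (Ne.symm h))).choose_spec.2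

lemma t0_vec (q : M.Fl) : q.t0.vec = mv 0 q.vec := by
  funext i
  exact q.t0_u i

/-- Exchanging the first two edges. -/
def t1 (q : M.Fl) : M.Fl := q.perm (Equiv.swap 0 1)

/-- Exchanging the last two edges. -/
def t2 (q : M.Fl) : M.Fl := q.perm (Equiv.swap 1 2)

lemma perm_vec (q : M.Fl) (π : Equiv.Perm (Fin 3)) : (q.perm π).vec = q.vec ∘ π := rfl

lemma t1_t1 (q : M.Fl) : q.t1.t1 = q := by
  unfold t1
  rw [perm_perm, Equiv.swap_mul_self, perm_one]

lemma t2_t2 (q : M.Fl) : q.t2.t2 = q := by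
  unfold t2
  rw [perm_perm, Equiv.swap_mul_self, perm_one]

lemma t0_t0 (q : M.Fl) : q.t0.t0 = q := by
  apply eq_of_vec
  · rw [t0_zero, t0_zero, M.al_al]
  · rw [t0_vec, t0_vec, mv_mv]

lemma t0_t2 (q : M.Fl) : q.t2.t0 = q.t0.t2 := by
  apply eq_of_vec
  · exact SameCycle.refl _ _
  · rw [t0_vec]
    unfold t2
    rw [perm_vec, perm_vec, t0_vec, mv_perm]
    rfl

lemma d_ne (q : M.Fl) {i j : Fin 3} (h : i ≠ j) : q.d i ≠ q.d j := by
  intro e
  have := q.adj i j h
  rw [e] at this
  exact M.adj_irrefl _ this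

lemma t0_ne (q : M.Fl) : q.t0 ≠ q := by
  intro h
  have := congrArg (fun q : M.Fl => q.d 0) h
  exact M.al_ne _ this

lemma t1_ne (q : M.Fl) : q.t1 ≠ q := by
  intro h
  have := congrArg (fun q : M.Fl => q.d 0) h
  exact q.d_ne (i := 1) (j := 0) (by decide) this

lemma t2_ne (q : M.Fl) : q.t2 ≠ q := by
  intro h
  have := congrArg (fun q : M.Fl => q.d 1) h
  exact q.d_ne (i := 2) (j := 1) (by decide) this

lemma t0_t2_ne (q : M.Fl) : q.t2.t0 ≠ q := by
  intro h
  have := congrArg (fun q : M.Fl => q.d 0) h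
  exact M.al_ne _ this

/-- The flag is at an interior facet. -/
def Intr (q : M.Fl) : Prop := ∃ z, z ≠ q.d 2 ∧ M.Adj (q.d 0) z ∧ M.Adj (q.d 1) z

open Classical in
/-- Crossing the facet. -/
noncomputable def t3 (q : M.Fl) : M.Fl :=
  if h : q.Intr then
    { d := Function.update q.d 2 h.choose
      adj := by
        have hz := h.choose_spec
        intro i j hij
        by_cases hi : i = 2
        · subst hi
          rw [Function.update_self, Function.update_of_ne (Ne.symm hij)]
          have : j = 0 ∨ j = 1 := by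
            revert hij; revert j; decide
          rcases this with rfl | rfl
          · exact M.adj_symm hz.2.1
          · exact M.adj_symm hz.2.2
        · by_cases hj : j = 2
          · subst hj
            rw [Function.update_self, Function.update_of_ne hi]
            have : i = 0 ∨ i = 1 := by
              revert hi; revert i; decide
            rcases this with rfl | rfl
            · exact hz.2.1
            · exact hz.2.2
          · rw [Function.update_of_ne hi, Function.update_of_ne hj]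
            exact q.adj i j hij }
  else q

lemma t3_ne_two {q : M.Fl} {i : Fin 3} (hi : i ≠ 2) : q.t3.d i = q.d i := by
  unfold t3
  split_ifs with h
  · exact Function.update_of_ne hi _ _
  · rfl

lemma t3_two {q : M.Fl} (h : q.Intr) : q.t3.d 2 ≠ q.d 2 := by
  unfold t3
  rw [dif_pos h]
  simp only [Function.update_self]
  exact h.choose_spec.1

lemma t3_vec {q : M.Fl} (h : q.Intr) : q.t3.vec = flp 2 q.vec := by
  have h1 := eq_of_two q.vec_corner q.t3.vec_corner 2 (by
    intro i hi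
    unfold vec
    rw [t3_ne_two hi])
  rcases h1 with h1 | h1
  · exfalso
    apply t3_two h
    have := eq_of_vec (q := q.t3) (q' := q) (by rw [t3_ne_two (by decide)]) h1
    rw [this]
  · exact h1

lemma t3_intr {q : M.Fl} (h : q.Intr) : q.t3.Intr := by
  refine ⟨q.d 2, (t3_two h).symm, ?_, ?_⟩
  · rw [t3_ne_two (by decide)]; exact q.adj 0 2 (by decide)
  · rw [t3_ne_two (by decide)]; exact q.adj 1 2 (by decide)

lemma t3_t3 {q : M.Fl} (h : q.Intr) : q.t3.t3 = q := by
  apply eq_of_vec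
  · rw [t3_ne_two (by decide), t3_ne_two (by decide)]
  · rw [t3_vec (t3_intr h), t3_vec h, flp_flp]

lemma t0_intr {q : M.Fl} (h : q.Intr) : q.t0.Intr := by
  have e0 : q.t3.t0.d 0 = q.t0.d 0 := by
    rw [t0_zero, t0_zero, t3_ne_two (by decide)]
  have e1 : q.t3.t0.d 1 = q.t0.d 1 := by
    apply M.u_inj
    · exact (q.t3.t0.same 1 0).trans (e0 ▸ q.t0.same 0 1)
    · rw [t0_u, t0_u, t3_ne_two (by decide), t3_ne_two (by decide)]
  refine ⟨q.t3.t0.d 2, ?_, ?_, ?_⟩
  · intro h2
    apply t3_two h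
    have h3 : M.u (q.t3.t0.d 2) = M.u (q.t0.d 2) := by rw [h2]
    rw [t0_u, t0_u, t3_ne_two (by decide)] at h3
    have h4 := (rf (M.u (q.d 0))).injective h3
    refine M.u_inj ?_ h4
    have h5 := q.t3.same 2 0
    rw [t3_ne_two (show (0 : Fin 3) ≠ 2 by decide)] at h5
    exact h5.trans (q.same 0 2)
  · rw [← e0]; exact q.t3.t0.adj 0 2 (by decide)
  · rw [← e1]; exact q.t3.t0.adj 1 2 (by decide)

lemma t1_intr {q : M.Fl} (h : q.Intr) : q.t1.Intr := by
  obtain ⟨z, h1, h2, h3⟩ := h
  exact ⟨z, h1, h3, h2⟩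

lemma t0_intr_iff {q : M.Fl} : q.t0.Intr ↔ q.Intr := by
  constructor
  · intro h
    have := t0_intr h
    rwa [t0_t0] at this
  · exact t0_intr

lemma t1_intr_iff {q : M.Fl} : q.t1.Intr ↔ q.Intr := by
  constructor
  · intro h
    have := t1_intr h
    rwa [t1_t1] at this
  · exact t1_intr

lemma t3_t0 {q : M.Fl} (h : q.Intr) : q.t0.t3 = q.t3.t0 := by
  apply eq_of_vec
  · rw [t3_ne_two (by decide), t0_zero, t0_zero, t3_ne_two (by decide)]
  · rw [t3_vec (t0_intr h), t0_vec, t0_vec, t3_vec h]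
    unfold mv
    rw [flp_im, flp_ne q.vec_corner (by decide)]

lemma t3_t1 {q : M.Fl} (h : q.Intr) : q.t1.t3 = q.t3.t1 := by
  apply eq_of_vec
  · have h1 : q.t1.t3.d 0 = q.d 1 := by
      rw [t3_ne_two (by decide)]; rfl
    have h2 : q.t3.t1.d 0 = q.d 1 := by
      change q.t3.d (Equiv.swap 0 1 0) = q.d 1
      rw [Equiv.swap_apply_left, t3_ne_two (by decide)]
    rw [h1, h2]
  · rw [t3_vec (t1_intr h)]
    have h1 : q.t1.vec = q.vec ∘ Equiv.swap 0 1 := rfl
    have h2 : q.t3.t1.vec = q.t3.vec ∘ Equiv.swap 0 1 := rfl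
    rw [h1, h2, t3_vec h, flp_perm]
    rfl

/-- A flag that is not interior lies on a face. -/
lemma not_intr {q : M.Fl} (h : ¬ q.Intr) : q.d 1 = M.sg (q.d 0) ∨ q.d 0 = M.sg (q.d 1) := by
  by_contra hcon
  push Not at hcon
  apply h
  have h1 := M.poly_two (q.adj 0 1 (by decide)) hcon.1 hcon.2
  rw [Set.ncard_eq_two] at h1
  obtain ⟨a, b, hab, hset⟩ := h1
  have ha : a ∈ {c | M.Adj (q.d 0) c ∧ M.Adj (q.d 1) c} := by rw [hset]; simp
  have hb : b ∈ {c | M.Adj (q.d 0) c ∧ M.Adj (q.d 1) c} := by rw [hset]; simp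
  by_cases h2 : a = q.d 2
  · refine ⟨b, ?_, hb.1, hb.2⟩
    rw [← h2]; exact hab.symm
  · exact ⟨a, h2, ha.1, ha.2⟩

lemma intr_of_face {q : M.Fl} (h : q.d 1 = M.sg (q.d 0)) : ¬ q.Intr := by
  rintro ⟨z, h1, h2, h3⟩
  obtain ⟨c, _, hc⟩ := M.poly_one (q.d 0)
  rw [h] at h3
  have e1 := hc z ⟨h2, h3⟩
  have e2 := hc (q.d 2) ⟨q.adj 0 2 (by decide), by rw [← h]; exact q.adj 1 2 (by decide)⟩
  exact h1 (e1.trans e2.symm)

/-! ### Matching with the model -/

/-- The flag `q` corresponds to the flag `f` of the dodecahedron placed by `L` and `P`. -/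
structure Mat (L : E3 ≃ₗᵢ[ℝ] V) (P : V) (q : M.Fl) (f : F0) : Prop where
  pos : M.p (q.d 0) = P + L (dodVertex f.1)
  vec : ∀ j, M.u (q.d j) = L (stdE f.1 (f.2 j))

lemma Mat.t0 {L : E3 ≃ₗᵢ[ℝ] V} {P : V} {q : M.Fl} {f : F0} (h : Mat L P q f) :
    Mat L P q.t0 (s0 f) := by
  constructor
  · rw [t0_zero, M.p_al]
    have : M.p (M.nx (q.d 0)) = M.p (q.d 0) + M.u (q.d 0) := by unfold Pent.u; abel
    rw [this, h.pos, h.vec 0, add_assoc, ← map_add]
    unfold s0 stdE
    congr 2
    simp
  · intro j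
    rw [t0_u, h.vec, h.vec, ← rf_map]
    have h1 := congrFun (stdE_mv f.1 (f.2 0)) (f.2 j)
    unfold mv at h1
    rw [im_apply] at h1
    rw [h1]
    rfl

lemma Mat.perm {L : E3 ≃ₗᵢ[ℝ] V} {P : V} {q : M.Fl} {f : F0} (h : Mat L P q f)
    (π : Equiv.Perm (Fin 3)) : Mat L P (q.perm π) (f.1, f.2 * π) := by
  constructor
  · change M.p (q.d (π 0)) = _
    rw [M.p_same (q.same (π 0) 0), h.pos]
  · intro j
    exact h.vec (π j)

lemma Mat.t1 {L : E3 ≃ₗᵢ[ℝ] V} {P : V} {q : M.Fl} {f : F0} (h : Mat L P q f) :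
    Mat L P q.t1 (s1 f) := h.perm _

lemma Mat.t2 {L : E3 ≃ₗᵢ[ℝ] V} {P : V} {q : M.Fl} {f : F0} (h : Mat L P q f) :
    Mat L P q.t2 (s2 f) := h.perm _

lemma stdE_inj (i : Fin 20) : Function.Injective (stdE i) := (stdE_corner i).linearIndependent.injective

lemma Mat.unique {L : E3 ≃ₗᵢ[ℝ] V} {P : V} {q : M.Fl} {f f' : F0} (h : Mat L P q f)
    (h' : Mat L P q f') : f = f' := by
  have h1 : f.1 = f'.1 := by
    apply dodVertex_inj
    apply L.injective
    have := h.pos.symm.trans h'.pos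
    exact add_left_cancel this
  have h2 : f.2 = f'.2 := by
    ext j
    have h3 := (h.vec j).symm.trans (h'.vec j)
    rw [← h1] at h3
    have h4 := stdE_inj _ (L.injective h3)
    rw [h4]
  exact Prod.ext h1 h2

/-- Two flags at the same vertex that match the same model flag are equal. -/
lemma Mat.inj {L : E3 ≃ₗᵢ[ℝ] V} {P : V} {q q' : M.Fl} {f : F0} (h : Mat L P q f)
    (h' : Mat L P q' f) (hs : SameCycle M.sg (q.d 0) (q'.d 0)) : q = q' := by
  apply eq_of_vec hs
  funext j
  exact (h.vec j).trans (h'.vec j).symm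

/-- A flag and its image across a facet do not match the same dodecahedron. -/
lemma not_mat_t3 {L : E3 ≃ₗᵢ[ℝ] V} {P : V} {q : M.Fl} (hq : q.Intr) {f f' : F0}
    (h : Mat L P q f) (h' : Mat L P q.t3 f') : False := by
  have h1 : f.1 = f'.1 := by
    apply dodVertex_inj
    apply L.injective
    have h2 := h'.pos
    rw [t3_ne_two (by decide), h.pos] at h2
    exact add_left_cancel h2
  have h2 : ∀ j, j ≠ 2 → f.2 j = f'.2 j := by
    intro j hj
    have h3 := h'.vec j
    rw [t3_ne_two hj, h.vec j, ← h1] at h3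
    exact stdE_inj _ (L.injective h3)
  have h3 : f.2 2 = f'.2 2 := by
    have key : ∀ π ρ : Equiv.Perm (Fin 3), (∀ j, j ≠ 2 → π j = ρ j) → π 2 = ρ 2 := by decide
    exact key _ _ h2
  apply t3_two hq
  apply M.u_inj
  · have := q.t3.same 2 0
    rw [t3_ne_two (show (0 : Fin 3) ≠ 2 by decide)] at this
    exact this.trans (q.same 0 2)
  · rw [h'.vec, h.vec, ← h1, h3]

lemma exists_mat (q : M.Fl) : ∃ (L : E3 ≃ₗᵢ[ℝ] V) (P : V), Mat L P q (0, 1) := by
  obtain ⟨L, hL⟩ := exists_isometry (stdE_corner 0) q.vec_corner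
  refine ⟨L, M.p (q.d 0) - L (dodVertex 0), ⟨by simp, fun j => ?_⟩⟩
  exact (hL j).symm

end Fl

/-! ### Classes of flags -/

variable (M)

/-- Being connected inside a dodecahedron. -/
def clSetoid : Setoid M.Fl :=
  Relation.EqvGen.setoid (fun q q' => q' = q.t0 ∨ q' = q.t1 ∨ q' = q.t2)

lemma clSetoid_rel {q q' : M.Fl} (h : q' = q.t0 ∨ q' = q.t1 ∨ q' = q.t2) : M.clSetoid q q' :=
  Relation.EqvGen.rel q q' h

/-- Being connected inside a facet of a dodecahedron. -/
def fcSetoid : Setoid M.Fl :=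
  Relation.EqvGen.setoid (fun q q' => q' = q.t0 ∨ q' = q.t1)

lemma fcSetoid_rel {q q' : M.Fl} (h : q' = q.t0 ∨ q' = q.t1) : M.fcSetoid q q' :=
  Relation.EqvGen.rel q q' h

/-- The dodecahedra (possibly with several sheets). -/
def Cls : Type _ := Quotient M.clSetoid

/-- The facets. -/
def Fct : Type _ := Quotient M.fcSetoid

variable {M}

/-- The dodecahedron of a flag. -/
def cls (q : M.Fl) : M.Cls := Quotient.mk M.clSetoid q

/-- The facet of a flag. -/
def fct' (q : M.Fl) : M.Fct := Quotient.mk M.fcSetoid q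

instance : Finite M.Cls := inferInstanceAs (Finite (Quotient M.clSetoid))

instance : Finite M.Fct := inferInstanceAs (Finite (Quotient M.fcSetoid))

noncomputable instance : Fintype M.Cls := Fintype.ofFinite _

noncomputable instance : Fintype M.Fct := Fintype.ofFinite _

noncomputable instance : DecidableEq M.Cls := Classical.decEq _

noncomputable instance : DecidableEq M.Fct := Classical.decEq _

lemma cls_t0 (q : M.Fl) : cls q.t0 = cls q :=
  (Quotient.sound (M.clSetoid_rel (Or.inl rfl))).symm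

lemma cls_t1 (q : M.Fl) : cls q.t1 = cls q :=
  (Quotient.sound (M.clSetoid_rel (Or.inr (Or.inl rfl)))).symm

lemma cls_t2 (q : M.Fl) : cls q.t2 = cls q :=
  (Quotient.sound (M.clSetoid_rel (Or.inr (Or.inr rfl)))).symm

lemma fct_t0 (q : M.Fl) : fct' q.t0 = fct' q :=
  (Quotient.sound (M.fcSetoid_rel (Or.inl rfl))).symm

lemma fct_t1 (q : M.Fl) : fct' q.t1 = fct' q :=
  (Quotient.sound (M.fcSetoid_rel (Or.inr rfl))).symm

/-- Functions invariant under the moves are constant on classes. -/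
lemma cls_inv {α : Type*} (w : M.Fl → α) (h0 : ∀ q, w q.t0 = w q) (h1 : ∀ q, w q.t1 = w q)
    (h2 : ∀ q, w q.t2 = w q) {q q' : M.Fl} (h : cls q = cls q') : w q = w q' := by
  have h3 : Relation.EqvGen (fun q q' => q' = q.t0 ∨ q' = q.t1 ∨ q' = q.t2) q q' :=
    Quotient.exact h
  induction h3 with
  | rel a b hab =>
    rcases hab with rfl | rfl | rfl
    · exact (h0 a).symm
    · exact (h1 a).symm
    · exact (h2 a).symm
  | refl a => rfl
  | symm a b _ ih => exact (ih (Eq.symm h)).symm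
  | trans a b c h4 _ ih1 ih2 =>
    have : cls a = cls b := Quotient.sound h4
    exact (ih1 this).trans (ih2 (this.symm.trans h))

lemma fct_inv {α : Type*} (w : M.Fl → α) (h0 : ∀ q, w q.t0 = w q) (h1 : ∀ q, w q.t1 = w q)
    {q q' : M.Fl} (h : fct' q = fct' q') : w q = w q' := by
  have h3 : Relation.EqvGen (fun q q' => q' = q.t0 ∨ q' = q.t1) q q' :=
    Quotient.exact h
  induction h3 with
  | rel a b hab =>
    rcases hab with rfl | rfl
    · exact (h0 a).symm
    · exact (h1 a).symm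
  | refl a => rfl
  | symm a b _ ih => exact (ih (Eq.symm h)).symm
  | trans a b c h4 _ ih1 ih2 =>
    have : fct' a = fct' b := Quotient.sound h4
    exact (ih1 this).trans (ih2 (this.symm.trans h))

lemma cls_of_fct {q q' : M.Fl} (h : fct' q = fct' q') : cls q = cls q' :=
  fct_inv cls cls_t0 cls_t1 h

/-- The dodecahedron containing a facet. -/
def cl (O : M.Fct) : M.Cls := Quotient.lift cls (fun _ _ h => cls_of_fct (Quotient.sound h)) O

lemma cl_fct (q : M.Fl) : cl (fct' q) = cls q := rfl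

/-- The isometry of a class. -/
noncomputable def LL (K : M.Cls) : E3 ≃ₗᵢ[ℝ] V := (Fl.exists_mat (Quotient.out K)).choose

/-- The translation of a class. -/
noncomputable def PP (K : M.Cls) : V := (Fl.exists_mat (Quotient.out K)).choose_spec.choose

lemma exists_match (q : M.Fl) : ∃ f, Fl.Mat (LL (cls q)) (PP (cls q)) q f := by
  set K := cls q with hK
  have hout : cls (Quotient.out K : M.Fl) = K := Quotient.out_eq K
  have h1 := cls_inv (fun q' : M.Fl => ∃ f, Fl.Mat (LL K) (PP K) q' f)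
    (q := (Quotient.out K : M.Fl)) (q' := q) ?_ ?_ ?_ (hout.trans hK)
  · rw [← h1]
    exact ⟨(0, 1), (Fl.exists_mat (Quotient.out K)).choose_spec.choose_spec⟩
  · intro a
    apply propext
    constructor
    · rintro ⟨f, hf⟩
      have := hf.t0
      rw [Fl.t0_t0] at this
      exact ⟨_, this⟩
    · rintro ⟨f, hf⟩
      exact ⟨_, hf.t0⟩
  · intro a
    apply propext
    constructor
    · rintro ⟨f, hf⟩
      have := hf.t1
      rw [Fl.t1_t1] at this
      exact ⟨_, this⟩
    · rintro ⟨f, hf⟩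
      exact ⟨_, hf.t1⟩
  · intro a
    apply propext
    constructor
    · rintro ⟨f, hf⟩
      have := hf.t2
      rw [Fl.t2_t2] at this
      exact ⟨_, this⟩
    · rintro ⟨f, hf⟩
      exact ⟨_, hf.t2⟩

/-- The model flag of a flag. -/
noncomputable def Phi (q : M.Fl) : F0 := (exists_match q).choose

lemma Phi_spec (q : M.Fl) : Fl.Mat (LL (cls q)) (PP (cls q)) q (Phi q) :=
  (exists_match q).choose_spec

lemma Phi_eq {q : M.Fl} {K : M.Cls} (hK : cls q = K) {f : F0}
    (h : Fl.Mat (LL K) (PP K) q f) : Phi q = f := by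
  subst hK
  exact (Phi_spec q).unique h

lemma Phi_t0 (q : M.Fl) : Phi q.t0 = s0 (Phi q) := Phi_eq (cls_t0 q) (Phi_spec q).t0

lemma Phi_t1 (q : M.Fl) : Phi q.t1 = s1 (Phi q) := Phi_eq (cls_t1 q) (Phi_spec q).t1

lemma Phi_t2 (q : M.Fl) : Phi q.t2 = s2 (Phi q) := Phi_eq (cls_t2 q) (Phi_spec q).t2

lemma cls_t3_ne {q : M.Fl} (hq : q.Intr) : cls q.t3 ≠ cls q := by
  intro h
  have h1 := Phi_spec q.t3
  rw [h] at h1
  exact Fl.not_mat_t3 hq (Phi_spec q) h1

end Pent

end Pool.Agent.Lib.MP_59160a_co
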