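import Pool.Agent.Lib.MP_59160a_co.Star

/-!
The key lemma: a closed chain of stars has at least four corners with inner product `c0`.
-/

set_option autoImplicit false
set_option linter.unusedSectionVars false

namespace Pool.Agent.Lib.MP_59160a_co

open Finset

variable {V : Type*} [NormedAddCommGroup V] [InnerProductSpace ℝ V]

lemma InFrame.im {B h : Fin 3 → V} (hh : InFrame B h) (f : V ≃ₗᵢ[ℝ] V) :
    InFrame (im f B) (im f h) := by
  induction hh with
  | base => exact InFrame.base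
  | mv j _ ih => rw [← mv_im]; exact ih.mv j
  | perm π _ ih => exact ih.perm π

lemma InFrame.symm {B h : Fin 3 → V} (hh : InFrame B h) : InFrame h B := by
  induction hh with
  | base => exact InFrame.base
  | @mv j h _ ih =>
    have h1 : InFrame (MP_59160a_co.mv j h) (MP_59160a_co.mv j (MP_59160a_co.mv j h)) :=
      InFrame.base.mv j
    rw [mv_mv] at h1
    exact h1.trans ih
  | @perm π h _ ih =>
    have h1 : InFrame (h ∘ π) ((h ∘ π) ∘ π.symm) := InFrame.base.perm π.symm
    have e : (h ∘ π) ∘ π.symm = h := by funext i; simp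
    rw [e] at h1
    exact h1.trans ih

lemma Lv.neg {B : Fin 3 → V} {k : ℕ} {v : V} (h : Lv B k v) : Lv B k (-v) := by
  intro i
  rw [inner_neg_right, mul_neg]
  exact (h i).neg

/-- The data of a closed chain of stars. -/
structure Chain (m : ℕ) (C : ℕ → Fin 3 → V) : Prop where
  corner : ∀ i, IsCorner (C i)
  star : ∀ i, Star (mv 0 (C i)) (C (i + 1))
  ne : ∀ i, C (i + 1) 0 ≠ -C i 0
  per : ∀ i, C (i + m) = C i

/-- The corner between the edges `i` and `i + 1` is good. -/
def Good (C : ℕ → Fin 3 → V) (i : ℕ) : Prop := inner ℝ (C i 0) (C (i + 1) 0) = -c0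

variable {m : ℕ} {C : ℕ → Fin 3 → V}

lemma Chain.inG_ge (h : Chain m C) {B : Fin 3 → V} (hB : IsCorner B) {i : ℕ}
    (hi : InG B (C i)) (d : ℕ) : InG B (C (i + d)) := by
  induction d with
  | zero => exact hi
  | succ d ih => exact (ih.mv 0).star hB (h.star (i + d))

lemma Chain.per_mul (h : Chain m C) (i k : ℕ) : C (i + m * k) = C i := by
  induction k with
  | zero => rfl
  | succ k ih => rw [Nat.mul_succ, ← add_assoc, h.per, ih]

lemma Chain.mod (h : Chain m C) (i : ℕ) : C (i % m) = C i := by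
  conv_rhs => rw [← Nat.mod_add_div i m]
  rw [h.per_mul]

lemma Chain.inG_all (h : Chain m C) (hm : 0 < m) {B : Fin 3 → V} (hB : IsCorner B) {i : ℕ}
    (hi : InG B (C i)) (j : ℕ) : InG B (C j) := by
  have h1 : i ≤ j + m * i := by nlinarith
  obtain ⟨d, hd⟩ := Nat.exists_eq_add_of_le h1
  have := h.inG_ge hB hi d
  rw [← hd, h.per_mul] at this
  exact this

lemma good_of_mem {h : Fin 3 → V} (hh : IsCorner h) (f : V ≃ₗᵢ[ℝ] V) {i : ℕ} {a b : Fin 3}
    (h1 : -C i 0 = f (h a)) (h2 : C (i + 1) 0 = f (h b)) (hne : C (i + 1) 0 ≠ -C i 0) :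
    Good C i := by
  have hab : a ≠ b := by
    rintro rfl
    exact hne (by rw [h1, h2])
  unfold Good
  have h3 : inner ℝ (-C i 0) (C (i + 1) 0) = c0 := by
    rw [h1, h2, f.inner_map_map, hh.ne hab]
  rw [inner_neg_left] at h3
  linarith

/-- If all edges have level zero then all corners are good. -/
lemma Chain.all_good (h : Chain m C) {B : Fin 3 → V} (hB : IsCorner B)
    (hG : ∀ i, InG B (C i)) (h0 : ∀ i, Lv B 0 (C i 0)) (i : ℕ) : Good C i := by
  obtain ⟨l, k, hl, hred, hk, hs, hv, hlast⟩ := repr_exists hB ((hG i).mv 0) 0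
  rw [mv_self] at hv
  have hl0 : l = [] := by
    rcases l.eq_nil_or_concat with rfl | ⟨l', n, rfl⟩
    · rfl
    · exfalso
      have h1 := not_lv_word hB hk 0 (l'.concat n) hl hred n (by simp) (hlast n (by simp)) 0
        (by simp)
      rw [← hv] at h1
      exact h1 (h0 i).neg
  subst hl0
  have hs2 : Star (im (R []) k) (C (i + 1)) := hs.symm.trans (h.star i)
  obtain ⟨b, hb⟩ := star_low hB hk [] (by simp) (by simp [Red]) (by simp) hs2 0 (h0 (i + 1))
  exact good_of_mem (hk.corner hB) (R []) hv hb (h.ne i)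

lemma Chain.norm_one (h : Chain m C) (i : ℕ) : inner ℝ (C i 0) (C i 0) = (1 : ℝ) :=
  (h.corner i).self 0

lemma Chain.two_le (h : Chain m C) (hm : 0 < m) (hsum : ∑ i ∈ range m, C i 0 = 0) : 2 ≤ m := by
  by_contra hcon
  have : m = 1 := by omega
  subst this
  rw [Finset.sum_range_one] at hsum
  have h1 := h.norm_one 0
  rw [hsum, inner_zero_left] at h1
  exact zero_ne_one h1

/-- A closed chain all of whose corners are good has length at least four. -/
lemma Chain.four_le (h : Chain m C) (hm : 0 < m) (hsum : ∑ i ∈ range m, C i 0 = 0)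
    (hg : ∀ i, Good C i) : 4 ≤ m := by
  have h2 := h.two_le hm hsum
  by_contra hcon
  have hc := c0_neg
  have hcase : m = 2 ∨ m = 3 := by omega
  rcases hcase with rfl | rfl
  · rw [Finset.sum_range_succ, Finset.sum_range_one] at hsum
    have h1 : inner ℝ (C 0 0 + C 1 0) (C 0 0 + C 1 0) = (0 : ℝ) := by
      rw [hsum, inner_zero_left]
    rw [inner_add_left, inner_add_right, inner_add_right, h.norm_one, h.norm_one,
      real_inner_comm (C 0 0) (C 1 0)] at h1
    have h3 : inner ℝ (C 0 0) (C 1 0) = -c0 := hg 0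
    rw [h3] at h1
    linarith
  · rw [Finset.sum_range_succ, Finset.sum_range_succ, Finset.sum_range_one] at hsum
    have h1 : inner ℝ (C 0 0 + C 1 0 + C 2 0) (C 0 0 + C 1 0 + C 2 0) = (0 : ℝ) := by
      rw [hsum, inner_zero_left]
    have h3 : inner ℝ (C 0 0) (C 1 0) = -c0 := hg 0
    have h4 : inner ℝ (C 1 0) (C 2 0) = -c0 := hg 1
    have h5 : inner ℝ (C 2 0) (C 0 0) = -c0 := by
      have := hg 2
      unfold Good at this
      have e : C (2 + 1) = C 0 := by
        have := h.per 0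
        simpa using this
      rwa [e] at this
    have h6 : inner ℝ (C 0 0 + C 1 0 + C 2 0) (C 0 0 + C 1 0 + C 2 0) =
        inner ℝ (C 0 0) (C 0 0) + inner ℝ (C 1 0) (C 1 0) + inner ℝ (C 2 0) (C 2 0) +
        2 * inner ℝ (C 0 0) (C 1 0) + 2 * inner ℝ (C 1 0) (C 2 0) +
        2 * inner ℝ (C 2 0) (C 0 0) := by
      simp only [inner_add_left, inner_add_right]
      rw [real_inner_comm (C 0 0) (C 1 0), real_inner_comm (C 1 0) (C 2 0),
        real_inner_comm (C 2 0) (C 0 0)]
      ring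
    rw [h6, h.norm_one, h.norm_one, h.norm_one, h3, h4, h5] at h1
    linarith

/-- The conclusion of a decagon edge of maximal level. -/
def Trip (B : Fin 3 → V) (C : ℕ → Fin 3 → V) : Prop :=
  ∃ i, Good C i ∧ Good C (i + 1) ∧ ¬ Lv B 0 (C i 0) ∧ ¬ Lv B 0 (C (i + 1) 0) ∧
    ¬ Lv B 0 (C (i + 2) 0) ∧ ∃ D, IsCorner D ∧ Star (C (i + 1)) D ∧ Lv D 0 (C i 0) ∧
    Lv D 0 (C (i + 1) 0) ∧ Lv D 0 (C (i + 2) 0)

lemma not_lv_zero {B h : Fin 3 → V} (hB : IsCorner B) (hh : InFrame B h) (j : Fin 3)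
    {l : List V} (hl : ∀ n ∈ l, Ax B n) (hred : Red l) {n₂ : V} (hn₂ : n₂ ∈ l.getLast?)
    (hne : inner ℝ n₂ (h j) ≠ 0) : ¬ Lv B 0 (R l (h j)) := by
  refine not_lv_word hB hh j l hl hred n₂ hn₂ hne 0 ?_
  rcases l with _ | ⟨a, l⟩
  · simp at hn₂
  · simp

/-- Transport of a star relation along an edge. -/
lemma star_mv {D E : Fin 3 → V} {a b : Fin 3} (h : Star D E) (hab : D a = E b) :
    Star (mv a D) (mv b E) := by
  have h1 := h.im (rf (D a))
  unfold mv
  rw [← hab]
  exact h1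

lemma Chain.next_low (h : Chain m C) {B k : Fin 3 → V} (hB : IsCorner B) {l : List V}
    (hl : ∀ n ∈ l, Ax B n) (hred : Red l) (hk : InFrame B k) {n : V}
    (hn : n ∈ l.getLast?) (a : Fin 3) (hall : ∀ x, inner ℝ n (mv a k x) ≠ 0) {i : ℕ}
    (hs : Star (C i) (im (R l) k)) (hi : C i 0 = R l (k a)) (hmax : Lv B l.length (C (i + 1) 0)) :
    Good C i ∧ ∃ x, x ≠ a ∧ C (i + 1) 0 = R l (mv a k x) ∧
      Star (C (i + 1)) (im (R l) (mv a k)) := by
  have hs1 : Star (mv 0 (C i)) (mv a (im (R l) k)) := star_mv hs hi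
  rw [mv_im] at hs1
  have hs2 : Star (im (R l) (mv a k)) (C (i + 1)) := hs1.symm.trans (h.star i)
  have hk' := hk.mv a
  obtain ⟨x, hx⟩ := star_low hB hk' l hl hred (by
    intro n' hn' y
    have : n' = n := by
      rw [Option.mem_def] at hn hn'
      rw [hn] at hn'
      exact (Option.some.inj hn').symm
    rw [this]; exact hall y) hs2 0 hmax
  have hneg : -C i 0 = R l (mv a k a) := by
    rw [mv_self, map_neg, hi]
  refine ⟨good_of_mem (hk'.corner hB) (R l) hneg hx (h.ne i), x, ?_, hx, hs2.symm⟩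
  rintro rfl
  exact h.ne i (by rw [hx, hneg])

lemma Chain.prev_low (h : Chain m C) {B k : Fin 3 → V} (hB : IsCorner B) {l : List V}
    (hl : ∀ n ∈ l, Ax B n) (hred : Red l) (hk : InFrame B k) {n : V}
    (hn : n ∈ l.getLast?) (a : Fin 3) (hall : ∀ x, inner ℝ n (k x) ≠ 0) {i : ℕ}
    (hs : Star (C (i + 1)) (im (R l) k)) (hi : C (i + 1) 0 = R l (k a))
    (hmax : Lv B l.length (C i 0)) :
    Good C i ∧ ∃ y, y ≠ a ∧ C i 0 = R l (mv y k y) ∧ Star (C i) (im (R l) (mv y k)) := by
  have hs1 : Star (im (R l) k) (mv 0 (C i)) := hs.symm.trans (h.star i).symm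
  obtain ⟨y, hy⟩ := star_low hB hk l hl hred (by
    intro n' hn' y
    have : n' = n := by
      rw [Option.mem_def] at hn hn'
      rw [hn] at hn'
      exact (Option.some.inj hn').symm
    rw [this]; exact hall y) hs1 0 (by rw [mv_self]; exact hmax.neg)
  have hy' := hy
  rw [mv_self] at hy
  refine ⟨good_of_mem (hk.corner hB) (R l) hy hi (h.ne i), y, ?_, ?_, ?_⟩
  · rintro rfl
    exact h.ne i (by rw [hi, hy])
  · rw [mv_self, map_neg, ← hy, neg_neg]
  · have := star_mv hs1.symm hy'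
    rw [mv_mv, mv_im] at this
    exact this

/-- A decagon edge of maximal level gives two good corners. -/
lemma Chain.trip_of_edge (h : Chain m C) {B k : Fin 3 → V} (hB : IsCorner B) {l : List V}
    (hl : ∀ n ∈ l, Ax B n) (hred : Red l) (hk : InFrame B k) {n : V}
    (hn : n ∈ l.getLast?) (a b : Fin 3) (hab : a ≠ b) (hty : TyB k n b) {i : ℕ}
    (hs : Star (C (i + 1)) (im (R l) k)) (hi : C (i + 1) 0 = R l (k a))
    (hmax : ∀ j, Lv B l.length (C j 0)) : Trip B C := by
  have hkc := hk.corner hB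
  obtain ⟨c, hac, hbc⟩ := exists_third a b hab
  have hall0 : ∀ x, inner ℝ n (k x) ≠ 0 := fun x => (tyB_val hkc hty x).ne_zero
  have hty' : TyB (mv a k) n c := hty.mv_ne hkc hab hac hbc
  have hall1 : ∀ x, inner ℝ n (mv a k x) ≠ 0 := fun x => (tyB_val (hkc.mv a) hty' x).ne_zero
  obtain ⟨g1, x, hxa, hx, hsx⟩ := h.next_low hB hl hred hk hn a hall1 hs hi (hmax _)
  obtain ⟨g0, y, hya, hy, hsy⟩ := h.prev_low hB hl hred hk hn a hall0 hs hi (hmax _)
  refine ⟨i, g0, g1, ?_, ?_, ?_, im (R l) k, hkc.im _, hs, ?_, ?_, ?_⟩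
  · rw [hy]
    refine not_lv_zero hB (hk.mv y) y hl hred hn ?_
    rw [mv_self, inner_neg_right]
    exact neg_ne_zero.2 (hall0 y)
  · rw [hi]
    exact not_lv_zero hB hk a hl hred hn (hall0 a)
  · have e : i + 1 + 1 = i + 2 := rfl
    rw [← e, hx]
    exact not_lv_zero hB (hk.mv a) x hl hred hn (hall1 x)
  · rw [hy]
    exact lv_frame (hkc.im _) ((InFrame.base.mv y).im (R l)) y
  · rw [hi]
    exact lv_frame (hkc.im _) (InFrame.base.im (R l)) a
  · have e : i + 1 + 1 = i + 2 := rfl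
    rw [← e, hx]
    exact lv_frame (hkc.im _) ((InFrame.base.mv a).im (R l)) x

lemma Chain.exists_trip (h : Chain m C) (hm : 0 < m) {B : Fin 3 → V} (hB : IsCorner B)
    (hG : ∀ i, InG B (C i)) (hn0 : ∃ i, ¬ Lv B 0 (C i 0)) : Trip B C := by
  classical
  have hex : ∀ i, ∃ k, Lv B k (C i 0) := by
    intro i
    obtain ⟨l, k, hl, hred, hk, hs, hv, hlast⟩ := repr_exists hB (hG i) 0
    exact ⟨l.length, by rw [hv]; exact lv_word hB hk 0 l hl hred⟩
  let lev : ℕ → ℕ := fun i => Nat.find (hex i)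
  have hlev : ∀ i, lev (i % m) = lev i := by
    intro i
    have : C (i % m) = C i := h.mod i
    simp only [lev, this]
  obtain ⟨i0, hi0, hmax0⟩ := Finset.exists_max_image (range m) lev ⟨0, by simpa using hm⟩
  have hmax : ∀ j, lev j ≤ lev i0 := by
    intro j
    rw [← hlev j]
    exact hmax0 _ (by rw [Finset.mem_range]; exact Nat.mod_lt _ hm)
  have hpos : 0 < lev i0 := by
    obtain ⟨j, hj⟩ := hn0
    have h1 : 0 < lev j := by
      rw [Nat.pos_iff_ne_zero]
      intro h0
      exact hj ((Nat.find_eq_zero (hex j)).1 h0)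
    exact lt_of_lt_of_le h1 (hmax j)
  -- shift the index
  obtain ⟨q, hq⟩ : ∃ q, lev (q + 2) = lev i0 := by
    refine ⟨i0 + m * 2 - 2, ?_⟩
    have : i0 + m * 2 - 2 + 2 = i0 + m * 2 := by omega
    rw [this]
    have : C (i0 + m * 2) = C i0 := h.per_mul i0 2
    simp only [lev, this]
  obtain ⟨l, k, hl, hred, hk, hs, hv, hlast⟩ := repr_exists hB (hG (q + 2)) 0
  have hlen : l.length = lev i0 := by
    rw [← hq]
    apply le_antisymm
    · by_contra hlt
      push Not at hlt
      have h1 : Lv B (lev (q + 2)) (C (q + 2) 0) := Nat.find_spec (hex (q + 2))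
      rcases l.eq_nil_or_concat with rfl | ⟨l', n, rfl⟩
      · simp at hlt
      · refine not_lv_word hB hk 0 (l'.concat n) hl hred n (by simp) (hlast n (by simp)) _ hlt ?_
        rw [← hv]; exact h1
    · exact Nat.find_min' (hex (q + 2)) (by rw [hv]; exact lv_word hB hk 0 l hl hred)
  have hmaxLv : ∀ j, Lv B l.length (C j 0) := by
    intro j
    have h1 : Lv B (lev j) (C j 0) := Nat.find_spec (hex j)
    exact h1.mono (by rw [hlen]; exact hmax j)
  obtain ⟨n, hn⟩ : ∃ n, n ∈ l.getLast? := by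
    rcases l.eq_nil_or_concat with rfl | ⟨l', n, rfl⟩
    · simp at hlen; omega
    · exact ⟨n, by simp⟩
  have hmem : n ∈ l := List.mem_of_mem_getLast? hn
  have hkc := hk.corner hB
  have hne : inner ℝ n (k 0) ≠ 0 := hlast n hn
  obtain ⟨b, hty | hty⟩ := (hk.ax hB).1 (hl n hmem)
  · -- type A
    have hb : b = 0 := by
      by_contra hb
      exact hne ((tyA_val hkc hty).2 0 (Ne.symm hb))
    subst hb
    have hty' : TyB (mv 0 k) n 0 := hty.mv_self
    have hall : ∀ x, inner ℝ n (mv 0 k x) ≠ 0 := fun x => (tyB_val (hkc.mv 0) hty' x).ne_zero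
    obtain ⟨-, x, hx0, hx, hsx⟩ := h.next_low hB hl hred hk hn 0 hall hs hv (hmaxLv _)
    exact h.trip_of_edge hB hl hred (hk.mv 0) hn x 0 hx0 hty' hsx hx hmaxLv
  · by_cases hb : b = 0
    · subst hb
      have hall : ∀ x, inner ℝ n (k x) ≠ 0 := fun x => (tyB_val hkc hty x).ne_zero
      obtain ⟨-, y, hy0, hy, hsy⟩ := h.prev_low hB hl hred hk hn 0 hall hs hv (hmaxLv _)
      obtain ⟨c, hyc, h0c⟩ := exists_third y 0 hy0
      have hty' : TyB (mv y k) n c := hty.mv_ne hkc hy0 hyc h0c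
      exact h.trip_of_edge hB hl hred (hk.mv y) hn y c hyc hty' hsy hy hmaxLv
    · exact h.trip_of_edge hB hl hred hk hn 0 b (Ne.symm hb) hty hs hv hmaxLv

/-- The key lemma. -/
theorem Chain.key (h : Chain m C) (hm : 0 < m) (hsum : ∑ i ∈ range m, C i 0 = 0) :
    ∃ F : Finset ℕ, F ⊆ range m ∧ 4 ≤ F.card ∧ ∀ i ∈ F, Good C i := by
  classical
  have hdone : (∀ i, Good C i) →
      ∃ F : Finset ℕ, F ⊆ range m ∧ 4 ≤ F.card ∧ ∀ i ∈ F, Good C i := by
    intro hg
    exact ⟨range m, subset_rfl, by rw [card_range]; exact h.four_le hm hsum hg,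
      fun i _ => hg i⟩
  have hB : IsCorner (C 0) := h.corner 0
  have hG : ∀ i, InG (C 0) (C i) := h.inG_all hm hB (InG.base _)
  by_cases hall : ∀ i, Lv (C 0) 0 (C i 0)
  · exact hdone (h.all_good hB hG hall)
  push Not at hall
  obtain ⟨i, gi, gi1, -, -, -, D, hD, hsD, d0, d1, d2⟩ := h.exists_trip hm hB hG hall
  have hGD : ∀ j, InG D (C j) := h.inG_all hm hD ((InG.base D).star hD hsD.symm)
  by_cases hall2 : ∀ i, Lv D 0 (C i 0)
  · exact hdone (h.all_good hD hGD hall2)
  push Not at hall2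
  obtain ⟨j, gj, gj1, e0, e1, e2, -⟩ := h.exists_trip hm hD hGD hall2
  have h2 := h.two_le hm hsum
  have hmod : ∀ a b, a % m = b % m → C a = C b := by
    intro a b hab
    rw [← h.mod a, hab, h.mod b]
  have hgood : ∀ a, Good C a → Good C (a % m) := by
    intro a ha
    unfold Good at ha ⊢
    have h3 : C (a % m) = C a := h.mod a
    have h4 : C (a % m + 1) = C (a + 1) := hmod _ _ (by simp [Nat.add_mod])
    rw [h3, h4]; exact ha
  have hne1 : ∀ a, a % m ≠ (a + 1) % m := by
    intro a hab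
    have : (a + 1) % m = (a % m + 1) % m := by simp [Nat.add_mod]
    rw [this] at hab
    have h5 : a % m < m := Nat.mod_lt _ hm
    by_cases h6 : a % m + 1 < m
    · rw [Nat.mod_eq_of_lt h6] at hab; omega
    · have h7 : a % m + 1 = m := by omega
      rw [h7, Nat.mod_self] at hab; omega
  have n13 : i % m ≠ j % m := by
    intro hab
    apply e0
    rw [← hmod _ _ hab]; exact d0
  have n14 : i % m ≠ (j + 1) % m := by
    intro hab
    apply e1
    rw [← hmod _ _ hab]; exact d0
  have n23 : (i + 1) % m ≠ j % m := by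
    intro hab
    apply e0
    rw [← hmod _ _ hab]; exact d1
  have n24 : (i + 1) % m ≠ (j + 1) % m := by
    intro hab
    apply e1
    rw [← hmod _ _ hab]; exact d1
  refine ⟨{i % m, (i + 1) % m, j % m, (j + 1) % m}, ?_, ?_, ?_⟩
  · intro a ha
    simp only [Finset.mem_insert, Finset.mem_singleton] at ha
    rw [Finset.mem_range]
    rcases ha with rfl | rfl | rfl | rfl <;> exact Nat.mod_lt _ hm
  · rw [Finset.card_insert_of_notMem, Finset.card_insert_of_notMem,
      Finset.card_insert_of_notMem, Finset.card_singleton]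
    · simp only [Finset.mem_singleton]; exact hne1 j
    · simp only [Finset.mem_insert, Finset.mem_singleton, not_or]; exact ⟨n23, n24⟩
    · simp only [Finset.mem_insert, Finset.mem_singleton, not_or]; exact ⟨hne1 i, n13, n14⟩
  · intro a ha
    simp only [Finset.mem_insert, Finset.mem_singleton] at ha
    rcases ha with rfl | rfl | rfl | rfl
    · exact hgood _ gi
    · exact hgood _ gi1
    · exact hgood _ gj
    · exact hgood _ gj1

end Pool.Agent.Lib.MP_59160a_co
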