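import Pool.Agent.Lib.MP_59160a_co.Ear

/-!
The link of a vector in a star is a bi-infinite path.
-/

set_option autoImplicit false
set_option linter.unusedSectionVars false

namespace Pool.Agent.Lib.MP_59160a_co

open Module

variable {V : Type*} [NormedAddCommGroup V] [InnerProductSpace ℝ V]

/-- The isometry exchanging `C 1` and `C 2` and fixing `C 0`. -/
noncomputable def tau (C : Fin 3 → V) : V ≃ₗᵢ[ℝ] V := rf (C 1 - C 2)

lemma tau_mul_self (C : Fin 3 → V) : tau C * tau C = 1 := rf_mul_self _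

lemma tau_tau (C : Fin 3 → V) (x : V) : tau C (tau C x) = x := rf_rf _ _

lemma tau_zero {C : Fin 3 → V} (h : IsCorner C) : tau C (C 0) = C 0 := by
  apply rf_orth
  rw [inner_sub_left, h.ne (by decide), h.ne (by decide), sub_self]

lemma tau_one {C : Fin 3 → V} (h : IsCorner C) : tau C (C 1) = C 2 := by
  unfold tau rf
  apply Submodule.reflection_sub
  have h1 := h.self 1
  have h2 := h.self 2
  rw [real_inner_self_eq_norm_sq] at h1 h2
  have h3 := norm_nonneg (C 1)
  have h4 := norm_nonneg (C 2)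
  nlinarith

lemma tau_two {C : Fin 3 → V} (h : IsCorner C) : tau C (C 2) = C 1 := by
  rw [← tau_one h, tau_tau]

/-- The rotation around `C 0` mapping `C 1` to `C 2`. -/
noncomputable def rot (C : Fin 3 → V) : V ≃ₗᵢ[ℝ] V := rf (nrm C 1) * tau C

lemma rot_zero {C : Fin 3 → V} (h : IsCorner C) : rot C (C 0) = C 0 := by
  change rf (nrm C 1) (tau C (C 0)) = C 0
  rw [tau_zero h, rf_orth (inner_nrm_ne h (by decide))]

lemma rot_one {C : Fin 3 → V} (h : IsCorner C) : rot C (C 1) = C 2 := by
  change rf (nrm C 1) (tau C (C 1)) = C 2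
  rw [tau_one h, rf_orth (inner_nrm_ne h (by decide))]

lemma rot_tau (C : Fin 3 → V) : rot C * tau C = rf (nrm C 1) := by
  unfold rot
  rw [mul_assoc, tau_mul_self, mul_one]

lemma tau_rot_tau (C : Fin 3 → V) : tau C * rot C * tau C = (rot C)⁻¹ := by
  rw [mul_assoc, rot_tau]
  symm
  rw [inv_eq_iff_mul_eq_one]
  unfold rot
  calc rf (nrm C 1) * tau C * (tau C * rf (nrm C 1))
      = rf (nrm C 1) * (tau C * tau C) * rf (nrm C 1) := by group
    _ = 1 := by rw [tau_mul_self, mul_one, rf_mul_self]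

lemma tau_inv (C : Fin 3 → V) : (tau C)⁻¹ = tau C := by
  rw [inv_eq_iff_mul_eq_one]; exact tau_mul_self C

lemma tau_rot_zpow_tau (C : Fin 3 → V) (n : ℤ) :
    tau C * (rot C) ^ n * tau C = (rot C) ^ (-n) := by
  have h : tau C * rot C * (tau C)⁻¹ = (rot C)⁻¹ := by
    rw [tau_inv]; exact tau_rot_tau C
  have h2 : tau C * rot C ^ n * (tau C)⁻¹ = (tau C * rot C * (tau C)⁻¹) ^ n := by
    rw [conj_zpow]
  rw [tau_inv] at h2
  rw [h2, tau_rot_tau, inv_zpow']

/-- The sequence of vectors around `C 0`. -/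
noncomputable def bq (C : Fin 3 → V) (n : ℤ) : V := (rot C ^ n) (C 1)

lemma bq_zero (C : Fin 3 → V) : bq C 0 = C 1 := by
  unfold bq; rw [zpow_zero]; rfl

lemma bq_one {C : Fin 3 → V} (h : IsCorner C) : bq C 1 = C 2 := by
  unfold bq; rw [zpow_one, rot_one h]

lemma rot_zpow_bq (C : Fin 3 → V) (m n : ℤ) : (rot C ^ m) (bq C n) = bq C (m + n) := by
  unfold bq
  rw [zpow_add]; rfl

lemma rot_bq (C : Fin 3 → V) (n : ℤ) : rot C (bq C n) = bq C (n + 1) := by
  have := rot_zpow_bq C 1 n
  rw [zpow_one] at this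
  rw [this, add_comm]

lemma rot_zpow_two {C : Fin 3 → V} (h : IsCorner C) (n : ℤ) :
    (rot C ^ n) (C 2) = bq C (n + 1) := by
  rw [← bq_one h, rot_zpow_bq]

lemma tau_bq {C : Fin 3 → V} (h : IsCorner C) (n : ℤ) : tau C (bq C n) = bq C (1 - n) := by
  have h1 : tau C (bq C n) = (tau C * rot C ^ n * tau C) (tau C (C 1)) := by
    change _ = tau C ((rot C ^ n) (tau C (tau C (C 1))))
    rw [tau_tau]; rfl
  rw [h1, tau_rot_zpow_tau, tau_one h, rot_zpow_two h]
  congr 1
  ring

lemma rf_one_bq {C : Fin 3 → V} (h : IsCorner C) (n : ℤ) :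
    rf (nrm C 1) (bq C n) = bq C (2 - n) := by
  rw [← rot_tau]
  change rot C (tau C (bq C n)) = _
  rw [tau_bq h, rot_bq]
  congr 1
  ring

lemma im_tau {C : Fin 3 → V} (h : IsCorner C) : im (tau C) C = C ∘ Equiv.swap 1 2 := by
  funext i
  fin_cases i
  · change tau C (C 0) = C (Equiv.swap (1 : Fin 3) 2 0)
    rw [tau_zero h]; rfl
  · change tau C (C 1) = C (Equiv.swap (1 : Fin 3) 2 1)
    rw [tau_one h]; rfl
  · change tau C (C 2) = C (Equiv.swap (1 : Fin 3) 2 2)
    rw [tau_two h]; rfl

lemma nrm_swap {C : Fin 3 → V} (h : IsCorner C) (j : Fin 3) :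
    nrm C (Equiv.swap 1 2 j) = tau C (nrm C j) := by
  rw [← nrm_im, im_tau h, nrm_perm]

lemma rf_swap {C : Fin 3 → V} (h : IsCorner C) (j : Fin 3) :
    rf (nrm C (Equiv.swap 1 2 j)) = tau C * rf (nrm C j) * tau C := by
  ext x
  rw [nrm_swap h]
  change rf (tau C (nrm C j)) x = tau C (rf (nrm C j) (tau C x))
  rw [rf_conj (tau C), tau_tau]

lemma rf_two_bq {C : Fin 3 → V} (h : IsCorner C) (n : ℤ) :
    rf (nrm C 2) (bq C n) = bq C (-n) := by
  have h1 := rf_swap h 1
  rw [Equiv.swap_apply_left] at h1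
  rw [h1]
  change tau C (rf (nrm C 1) (tau C (bq C n))) = _
  rw [tau_bq h, rf_one_bq h, tau_bq h]
  congr 1
  ring

lemma Wd_swap {C : Fin 3 → V} (h : IsCorner C) (z : List (Fin 3)) :
    Wd C (z.map (Equiv.swap 1 2)) = tau C * Wd C z * tau C := by
  induction z with
  | nil => rw [List.map_nil, Wd_nil, mul_one, tau_mul_self]
  | cons a z ih =>
    rw [List.map_cons, Wd_cons, Wd_cons, ih, rf_swap h]
    calc tau C * rf (nrm C a) * tau C * (tau C * Wd C z * tau C)
        = tau C * rf (nrm C a) * (tau C * tau C) * Wd C z * tau C := by group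
      _ = tau C * (rf (nrm C a) * Wd C z) * tau C := by rw [tau_mul_self, mul_one]; group

lemma tau_C {C : Fin 3 → V} (h : IsCorner C) (j : Fin 3) :
    tau C (C j) = C (Equiv.swap 1 2 j) := by
  have := congrFun (im_tau h) j
  exact this

lemma bq_word {C : Fin 3 → V} (h : IsCorner C) (n : ℕ) :
    ∃ (z : List (Fin 3)) (j : Fin 3), z.IsChain (fun i j => j ≠ i) ∧ 1 ∈ z.head? ∧
      j ∈ z.getLast? ∧ bq C (n + 2) = Wd C z (C j) := by
  induction n with
  | zero =>
    refine ⟨[1], 1, by simp, by simp, by simp, ?_⟩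
    rw [Wd_singleton]
    have h1 := rf_one_bq h 0
    rw [bq_zero] at h1
    rw [h1]
    norm_num
  | succ n ih =>
    obtain ⟨z, j, h1, h2, h3, h4⟩ := ih
    refine ⟨1 :: z.map (Equiv.swap 1 2), Equiv.swap 1 2 j, ?_, by simp, ?_, ?_⟩
    · rw [List.isChain_cons]
      constructor
      · intro y hy
        rw [List.head?_map] at hy
        rw [Option.mem_def] at h2
        rw [h2] at hy
        simp at hy
        rw [← hy]; decide
      · rw [List.isChain_map]
        exact h1.imp (fun a b hab => by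
          intro e
          exact hab ((Equiv.swap (1 : Fin 3) 2).injective e))
    · rcases z with _ | ⟨a, z⟩
      · simp at h2
      · rw [List.map_cons, List.getLast?_cons_cons]
        rw [← List.map_cons, List.getLast?_map]
        exact Option.mem_map_of_mem _ h3
    · have e : ((n + 1 : ℕ) : ℤ) + 2 = (n + 2 : ℤ) + 1 := by push_cast; ring
      rw [e, ← rot_bq, h4, Wd_cons, Wd_swap h]
      change rf (nrm C 1) (tau C (Wd C z (C j))) =
        rf (nrm C 1) (tau C (Wd C z (tau C (C (Equiv.swap 1 2 j)))))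
      rw [← tau_C h, tau_tau]

lemma bq_pos_ne {C : Fin 3 → V} (h : IsCorner C) (n : ℕ) (hn : 0 < n) : bq C n ≠ C 1 := by
  intro e
  have hcase : n = 1 ∨ ∃ k, n = k + 2 := by
    rcases Nat.lt_or_ge n 2 with h1 | h1
    · left; omega
    · right; exact ⟨n - 2, by omega⟩
  rcases hcase with rfl | ⟨k, rfl⟩
  · have h1 : bq C ((1 : ℕ) : ℤ) = C 2 := by
      have := bq_one h
      exact_mod_cast this
    rw [h1] at e
    have h2 := h.ne (i := 2) (j := 1) (by decide)
    rw [e, h.self] at h2
    exact c0_ne_one h2.symm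
  · obtain ⟨z, j, h1, h2, h3, h4⟩ := bq_word h k
    have h5 : bq C ((k + 2 : ℕ) : ℤ) = Wd C z (C j) := by
      rw [← h4]; push_cast; rfl
    rw [h5] at e
    refine not_int5_word h z h1 1 j h2 h3 ?_
    rw [e, h.self]
    exact Res.one.int5

lemma bq_injective {C : Fin 3 → V} (h : IsCorner C) : Function.Injective (bq C) := by
  have key : ∀ m n : ℤ, m < n → bq C m ≠ bq C n := by
    intro m n hmn e
    have h1 : (rot C ^ (-m)) (bq C m) = (rot C ^ (-m)) (bq C n) := by rw [e]
    rw [rot_zpow_bq, rot_zpow_bq, neg_add_cancel, bq_zero] at h1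
    obtain ⟨k, hk⟩ := Int.eq_ofNat_of_zero_le (show 0 ≤ -m + n by omega)
    rw [hk] at h1
    exact bq_pos_ne h k (by omega) h1.symm
  intro m n hmn
  rcases lt_trichotomy m n with h1 | h1 | h1
  · exact absurd hmn (key m n h1)
  · exact h1
  · exact absurd hmn.symm (key n m h1)

lemma im_rot {C : Fin 3 → V} (h : IsCorner C) (n : ℤ) : im (rot C ^ n) C 0 = C 0 ∧
    im (rot C ^ n) C 1 = bq C n ∧ im (rot C ^ n) C 2 = bq C (n + 1) := by
  refine ⟨?_, rfl, rot_zpow_two h n⟩
  rw [im_apply]
  have hnat : ∀ k : ℕ, (rot C ^ k) (C 0) = C 0 := by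
    intro k
    induction k with
    | zero => rfl
    | succ k ih =>
      rw [pow_succ]
      change (rot C ^ k) (rot C (C 0)) = C 0
      rw [rot_zero h, ih]
  obtain ⟨k, rfl | rfl⟩ := n.eq_nat_or_neg
  · rw [zpow_natCast]; exact hnat k
  · rw [zpow_neg, zpow_natCast]
    conv_lhs => rw [← hnat k]
    exact (rot C ^ k).symm_apply_apply _

lemma bq_corner {C : Fin 3 → V} (h : IsCorner C) (n : ℤ) :
    inner ℝ (C 0) (bq C n) = c0 ∧ inner ℝ (bq C n) (bq C (n + 1)) = c0 := by
  obtain ⟨h1, h2, h3⟩ := im_rot h n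
  have hc := h.im (rot C ^ n)
  constructor
  · rw [← h2]
    conv_lhs => rw [← h1]
    exact hc.ne (by decide)
  · rw [← h2, ← h3]
    exact hc.ne (by decide)

/-- Every vector adjacent to `C 0` in the star is in the sequence. -/
lemma link_complete {C E : Fin 3 → V} (h : IsCorner C) (hE : Star C E) {i k : Fin 3}
    (hi : E i = C 0) (hik : i ≠ k) : ∃ n, E k = bq C n := by
  obtain ⟨z, π, hz, hD⟩ := star_normal hE
  have hi2 : Wd C z (C (π i)) = C 0 := by rw [← hi, hD]; rfl
  have hmain : π i = 0 ∧ ∀ a ∈ z, a ≠ 0 := by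
    obtain ⟨z', t, rfl, ht, hz'⟩ := strip_right z (π i)
    have e1 : Wd C z' (C (π i)) = C 0 := by
      rw [← hi2, Wd_append]
      change _ = Wd C z' (Wd C t (C (π i)))
      rw [Wd_fix h t _ ht]
    have hnil : z' = [] := by
      rcases z'.eq_nil_or_concat with rfl | ⟨z'', m, hm⟩
      · rfl
      · exfalso
        have hmi : m = π i := hz' m (by rw [hm]; simp)
        have hlast : π i ∈ z'.getLast? := by rw [hm, hmi]; simp
        have hin : inner ℝ (C 0) (Wd C z' (C (π i))) = (1 : ℝ) := by rw [e1, h.self]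
        rcases strip_left z' 0 with hall | ⟨w1, z1, hwz, hw1⟩
        · have h2 : inner ℝ (C 0) (Wd C z' (C (π i))) = inner ℝ (C 0) (C (π i)) := by
            rw [real_inner_comm, inner_Wd_left, Wd_fix h z'.reverse 0 (by
              intro i hi; exact hall i (List.mem_reverse.1 hi)), real_inner_comm]
          rw [h2] at hin
          have h3 : π i = 0 := by
            by_contra h3
            rw [h.ne (Ne.symm h3)] at hin
            exact c0_ne_one hin
          exact hall m (by rw [hm]; simp) (by rw [hmi, h3])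
        · have h2 : inner ℝ (C 0) (Wd C (0 :: z1) (C (π i))) = (1 : ℝ) := by
            rw [← hin, real_inner_comm, hwz, Wd_append]
            conv_rhs => rw [real_inner_comm]
            change _ = inner ℝ (Wd C w1 (Wd C (0 :: z1) (C (π i)))) (C 0)
            rw [inner_Wd_left C w1, Wd_fix h w1.reverse 0 (by
              intro i hi; exact hw1 i (List.mem_reverse.1 hi))]
          refine not_int5_word h (0 :: z1) ?_ 0 (π i) (by simp) ?_
            (by rw [h2]; exact Res.one.int5)
          · have h3 : z'.IsChain (fun i j => j ≠ i) := (List.isChain_append.1 hz).1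
            rw [hwz] at h3
            exact (List.isChain_append.1 h3).2.1
          · rw [hwz, List.getLast?_append] at hlast
            have : ((0 : Fin 3) :: z1).getLast? ≠ none := by simp
            obtain ⟨d, hd⟩ := Option.ne_none_iff_exists'.1 this
            rw [Option.mem_def] at hlast ⊢
            rw [hd] at hlast ⊢
            exact hlast
    subst hnil
    have h3 : π i = 0 := by
      by_contra h3
      have h4 := h.ne h3
      have h5 : C (π i) = C 0 := e1
      rw [h5, h.self] at h4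
      exact c0_ne_one h4.symm
    exact ⟨h3, fun a ha => by rw [← h3]; exact ht a (by simpa using ha)⟩
  obtain ⟨hπ, hall⟩ := hmain
  have hk : π k ≠ 0 := by
    intro e
    apply hik
    exact π.injective (hπ.trans e.symm)
  have hEk : E k = Wd C z (C (π k)) := by rw [hD]; rfl
  rw [hEk]
  have hbase : ∃ n, C (π k) = bq C n := by
    have : π k = 1 ∨ π k = 2 := by
      revert hk
      generalize π k = a
      revert a
      decide
    rcases this with e | e
    · rw [e]; exact ⟨0, (bq_zero C).symm⟩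
    · rw [e]; exact ⟨1, (bq_one h).symm⟩
  clear hz hD hi2 hEk
  induction z with
  | nil => exact hbase
  | cons a z ih =>
    obtain ⟨n, hn⟩ := ih (fun b hb => hall b (List.mem_cons_of_mem _ hb))
    have ha := hall a (by simp)
    have : a = 1 ∨ a = 2 := by
      revert ha
      generalize a = a
      revert a
      decide
    rw [Wd_cons]
    change ∃ n, rf (nrm C a) (Wd C z (C (π k))) = bq C n
    rw [hn]
    rcases this with rfl | rfl
    · exact ⟨_, rf_one_bq h n⟩
    · exact ⟨_, rf_two_bq h n⟩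

/-- The two completions in the link. -/
lemma link_next [Fact (finrank ℝ V = 3)] {C : Fin 3 → V} (h : IsCorner C) (n : ℤ) {c : V}
    (hc : inner ℝ c c = (1 : ℝ)) (h0 : inner ℝ c (C 0) = c0) (h1 : inner ℝ c (bq C n) = c0) :
    c = bq C (n + 1) ∨ c = bq C (n - 1) := by
  obtain ⟨e0, e1, e2⟩ := im_rot h n
  have hcor := h.im (rot C ^ n)
  rcases completion hcor 2 hc (by
    intro i hi
    have : i = 0 ∨ i = 1 := by
      revert hi; revert i; decide
    rcases this with rfl | rfl
    · rw [e0, h0]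
    · rw [e1, h1]) with h2 | h2
  · left; rw [h2, e2]
  · right
    rw [h2, flp_im]
    change (rot C ^ n) (rf (nrm C 2) (C 2)) = _
    rw [← bq_one h, rf_two_bq h, rot_zpow_bq]
    rfl

end Pool.Agent.Lib.MP_59160a_co
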