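import Mathlib

/-!
The union of two fixed-point-free involutions is bipartite.
-/

set_option autoImplicit false

namespace Pool.Agent.Lib.MP_59160a_co

open Equiv.Perm

/-- Two fixed-point-free involutions of a finite set admit a common two-colouring. -/
theorem two_color {X : Type*} [Fintype X] (a b : Equiv.Perm X) (ha : ∀ x, a (a x) = x)
    (hb : ∀ x, b (b x) = x) (fa : ∀ x, a x ≠ x) (fb : ∀ x, b x ≠ x) :
    ∃ h : X → ZMod 2, (∀ x, h (a x) = h x + 1) ∧ ∀ x, h (b x) = h x + 1 := by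
  classical
  set ρ : Equiv.Perm X := a * b with hρ
  have ha' : a * a = 1 := Equiv.ext ha
  have hb' : b * b = 1 := Equiv.ext hb
  have hainv : a⁻¹ = a := inv_eq_of_mul_eq_one_right ha'
  have hconj : a * ρ * a⁻¹ = ρ⁻¹ := by
    rw [hρ, hainv, mul_inv_rev, hainv, inv_eq_of_mul_eq_one_right hb']
    rw [← mul_assoc a a b, ha', one_mul]
  have hpow : ∀ (m : ℤ) (x : X), a ((ρ ^ m) x) = (ρ ^ (-m)) (a x) := by
    intro m x
    have h1 : a * ρ ^ m * a⁻¹ = ρ ^ (-m) := by
      rw [← conj_zpow, hconj, inv_zpow, zpow_neg]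
    rw [← h1, Equiv.Perm.mul_apply, Equiv.Perm.mul_apply]
    congr 2
    rw [hainv, ha]
  have hnot : ∀ x, ¬ SameCycle ρ x (a x) := by
    rintro x ⟨m, hm⟩
    obtain ⟨j, rfl | rfl⟩ := Int.even_or_odd' m
    · apply fa ((ρ ^ j) x)
      rw [hpow, ← hm, ← Equiv.Perm.mul_apply, ← zpow_add]
      congr 2
      ring
    · have h1 : a ((ρ ^ j) x) = ρ ((ρ ^ j) x) := by
        rw [hpow, ← hm, ← Equiv.Perm.mul_apply, ← zpow_add, ← Equiv.Perm.mul_apply, ← zpow_one_add]
        congr 2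
        ring
      rw [hρ, Equiv.Perm.mul_apply] at h1
      exact fb _ (a.injective h1).symm
  have hsame : ∀ x y, SameCycle ρ x y → SameCycle ρ (a x) (a y) := by
    rintro x y ⟨m, rfl⟩
    exact ⟨-m, (hpow m x).symm⟩
  let Q := Quotient (SameCycle.setoid ρ)
  have : Finite Q := Quotient.finite _
  obtain ⟨n, ⟨e⟩⟩ := Finite.exists_equiv_fin Q
  let q : X → Fin n := fun x => e (Quotient.mk (SameCycle.setoid ρ) x)
  have hq : ∀ x y, q x = q y ↔ SameCycle ρ x y := by
    intro x y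
    change e _ = e _ ↔ _
    rw [e.injective.eq_iff]
    exact Quotient.eq (r := SameCycle.setoid ρ)
  let h : X → ZMod 2 := fun x => if q x < q (a x) then 0 else 1
  have h1 : ∀ x, h (a x) = h x + 1 := by
    intro x
    change (if q (a x) < q (a (a x)) then (0 : ZMod 2) else 1) =
      (if q x < q (a x) then (0 : ZMod 2) else 1) + 1
    rw [ha]
    have hne : q x ≠ q (a x) := by
      rw [Ne, hq]; exact hnot x
    rcases lt_or_gt_of_ne hne with h2 | h2
    · rw [if_pos h2, if_neg (not_lt.2 h2.le)]; rfl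
    · rw [if_pos h2, if_neg (not_lt.2 h2.le)]; rfl
  have h2 : ∀ x y, SameCycle ρ x y → h x = h y := by
    intro x y hxy
    have e1 := (hq x y).2 hxy
    have e2 := (hq (a x) (a y)).2 (hsame x y hxy)
    change (if q x < q (a x) then (0 : ZMod 2) else 1) = (if q y < q (a y) then (0 : ZMod 2) else 1)
    rw [e1, e2]
  refine ⟨h, h1, fun x => ?_⟩
  have h3 : b x = a (ρ x) := by
    rw [hρ, Equiv.Perm.mul_apply, ha]
  rw [h3, h1, h2 (ρ x) x]
  exact ⟨-1, by rw [zpow_neg, zpow_one]; exact ρ.symm_apply_apply x⟩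

end Pool.Agent.Lib.MP_59160a_co
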