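import Pool.Agent.Lib.MP_59160a_co.SignLift
import Pool.Agent.Lib.MP_59160a_co.TwoColor
import Pool.Agent.Lib.MP_59160a_co.EulerD

/-!
Orientation, connectivity and Euler's formula for a pentagonal sphere.
-/

set_option autoImplicit false
set_option linter.unusedSectionVars false

namespace Pool.Agent.Lib.MP_59160a_co

open unitInterval Topology

namespace PentComplex

variable (N : PentComplex)

/-- The permutation of the darts given by the gluing. -/
def alP : Equiv.Perm (Fin N.n × ZMod 5) where
  toFun := N.glue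
  invFun := N.glue
  left_inv := N.glue_glue
  right_inv := N.glue_glue

lemma alP_apply (d : Fin N.n × ZMod 5) : N.alP d = N.glue d := rfl

/-- The next dart of a face, for an orientation of the faces. -/
def nxP (c : Fin N.n → Bool) : Equiv.Perm (Fin N.n × ZMod 5) where
  toFun d := (d.1, if c d.1 then d.2 - 1 else d.2 + 1)
  invFun d := (d.1, if c d.1 then d.2 + 1 else d.2 - 1)
  left_inv := by
    rintro ⟨F, i⟩
    cases h : c F <;> simp [h]
  right_inv := by
    rintro ⟨F, i⟩
    cases h : c F <;> simp [h]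

lemma nxP_apply (c : Fin N.n → Bool) (F : Fin N.n) (i : ZMod 5) :
    N.nxP c (F, i) = (F, if c F then i - 1 else i + 1) := rfl

/-- The first corner of a dart. -/
def ini (c : Fin N.n → Bool) (d : Fin N.n × ZMod 5) : ZMod 5 := if c d.1 then d.2 + 1 else d.2

lemma ini_nx (c : Fin N.n → Bool) (d : Fin N.n × ZMod 5) :
    N.ini c (N.nxP c d) = if c d.1 then N.ini c d - 1 else N.ini c d + 1 := by
  obtain ⟨F, i⟩ := d
  rw [nxP_apply]
  unfold ini
  cases h : c F <;> simp

/-- The orientation involution on flags: the two sides at a corner. -/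
def a1 : Equiv.Perm ((Fin N.n × ZMod 5) × Bool) where
  toFun x := if x.2 then ((x.1.1, x.1.2 + 1), false) else ((x.1.1, x.1.2 - 1), true)
  invFun x := if x.2 then ((x.1.1, x.1.2 + 1), false) else ((x.1.1, x.1.2 - 1), true)
  left_inv := by
    rintro ⟨⟨F, i⟩, b⟩
    cases b <;> simp
  right_inv := by
    rintro ⟨⟨F, i⟩, b⟩
    cases b <;> simp

/-- Crossing a side. -/
def a2 : Equiv.Perm ((Fin N.n × ZMod 5) × Bool) where
  toFun x := (N.glue x.1, if N.rev x.1 then !x.2 else x.2)
  invFun x := (N.glue x.1, if N.rev x.1 then !x.2 else x.2)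
  left_inv := by
    rintro ⟨d, b⟩
    simp only [N.glue_glue, N.rev_glue]
    cases N.rev d <;> simp
  right_inv := by
    rintro ⟨d, b⟩
    simp only [N.glue_glue, N.rev_glue]
    cases N.rev d <;> simp

lemma a1_true (F : Fin N.n) (i : ZMod 5) : N.a1 ((F, i), true) = ((F, i + 1), false) := rfl

lemma a2_apply (d : Fin N.n × ZMod 5) (b : Bool) :
    N.a2 (d, b) = (N.glue d, if N.rev d then !b else b) := rfl

variable {N}

/-- The surface is orientable. -/
theorem exists_orientation (hN : N.IsSphere) :
    ∃ c : Fin N.n → Bool, ∀ F i, N.rev (F, i) = (c F == c (N.glue (F, i)).1) := by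
  obtain ⟨h, h1, h2⟩ := two_color N.a1 N.a2
    (by rintro ⟨⟨F, i⟩, b⟩; exact N.a1.left_inv _)
    (by rintro ⟨d, b⟩; exact N.a2.left_inv _)
    (by
      rintro ⟨⟨F, i⟩, b⟩ hx
      have := congrArg Prod.snd hx
      cases b
      · change true = false at this
        exact absurd this (by decide)
      · change false = true at this
        exact absurd this (by decide))
    (by
      rintro ⟨d, b⟩ hx
      exact N.glue_ne d (congrArg Prod.fst hx))
  have two : (2 : ZMod 2) = 0 := by decide
  let H : Fin N.n × ZMod 5 → ZMod 2 := fun d => h (d, false)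
  have hnext : ∀ F i, H (F, i + 1) = h ((F, i), true) + 1 := by
    intro F i
    have := h1 ((F, i), true)
    rw [a1_true] at this
    exact this
  obtain ⟨k, hk⟩ := sign_lift (N := N) (fun d => if N.rev d then 0 else 1) H hN
    (by intro d; simp only [N.rev_glue]) (by
      intro d
      have e1 := h2 (d, false)
      rw [a2_apply] at e1
      unfold st
      cases hr : N.rev d
      · rw [hr] at e1
        simp only [Bool.false_eq_true, if_false] at e1 ⊢
        change h (N.glue d, false) = H d + 1 at e1
        change (1 : ZMod 2) = H d + h (N.glue d, false)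
        rw [e1]
        linear_combination (-(H d)) * two
      · rw [hr] at e1
        simp only [if_true, Bool.not_false] at e1 ⊢
        change h (N.glue d, true) = H d + 1 at e1
        rw [hnext]
        change (0 : ZMod 2) = H d + (h (N.glue d, true) + 1)
        rw [e1]
        linear_combination (-(H d) - 1) * two) (by
      intro F i
      have e1 := h2 ((F, i), true)
      rw [a2_apply] at e1
      unfold en
      rw [hnext]
      cases hr : N.rev (F, i)
      · rw [hr] at e1
        simp only [Bool.false_eq_true, if_false] at e1 ⊢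
        rw [hnext]
        change h (N.glue (F, i), true) = h ((F, i), true) + 1 at e1
        change (1 : ZMod 2) = h ((F, i), true) + 1 + (h (N.glue (F, i), true) + 1)
        rw [e1]
        linear_combination (-(h ((F, i), true)) - 1) * two
      · rw [hr] at e1
        simp only [if_true, Bool.not_true] at e1 ⊢
        change h (N.glue (F, i), false) = h ((F, i), true) + 1 at e1
        change (0 : ZMod 2) = h ((F, i), true) + 1 + h (N.glue (F, i), false)
        rw [e1]
        linear_combination (-(h ((F, i), true)) - 1) * two)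
  refine ⟨fun F => decide (k F = 1), ?_⟩
  intro F i
  have h3 := hk (F, i)
  have key0 : ∀ a b : ZMod 2, 1 = a + b → false = (decide (a = 1) == decide (b = 1)) := by decide
  have key1 : ∀ a b : ZMod 2, 0 = a + b → true = (decide (a = 1) == decide (b = 1)) := by decide
  simp only at h3
  cases hr : N.rev (F, i)
  · rw [hr] at h3
    simp only [Bool.false_eq_true, if_false] at h3
    exact key0 _ _ h3
  · rw [hr] at h3
    simp only [if_true] at h3
    exact key1 _ _ h3

lemma carrier_preconnected (hN : N.IsSphere) : PreconnectedSpace N.Carrier := by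
  obtain ⟨e⟩ := hN
  have h1 : PreconnectedSpace Sph := by
    apply Subtype.preconnectedSpace
    apply isPreconnected_sphere
    rw [← Module.finrank_eq_rank]
    simp
  refine ⟨?_⟩
  have h2 := isPreconnected_range e.symm.continuous
  rwa [e.symm.surjective.range_eq] at h2

lemma darts_nonempty (hN : N.IsSphere) : Nonempty (Fin N.n × ZMod 5) := by
  obtain ⟨e⟩ := hN
  have hy : (!₂[1, 0, 0] : EuclideanSpace ℝ (Fin 3)) ∈
      Metric.sphere (0 : EuclideanSpace ℝ (Fin 3)) 1 := by
    rw [mem_sph]; simp
  obtain ⟨a, -⟩ := Quot.exists_rep (e.symm ⟨_, hy⟩)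
  exact ⟨(a.1, 0)⟩

/-- The darts are connected. -/
theorem darts_conn (hN : N.IsSphere) (c : Fin N.n → Bool) (f : Fin N.n × ZMod 5 → Prop)
    (hnx : ∀ x, f (N.nxP c x) ↔ f x) (hal : ∀ x, f (N.alP x) ↔ f x) (x y : Fin N.n × ZMod 5) :
    f x → f y := by
  classical
  have := carrier_preconnected hN
  have h1 : ∀ F i, f (F, i + 1) ↔ f (F, i) := by
    intro F i
    cases hc : c F
    · have := hnx (F, i)
      rw [nxP_apply, hc] at this
      simpa using this
    · have := hnx (F, i + 1)
      rw [nxP_apply, hc] at this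
      simp only [if_true, add_sub_cancel_right] at this
      exact this.symm
  have h2 : ∀ F i, f (F, i) ↔ f (F, 0) := by
    have h3 : ∀ F (n : ℕ), f (F, (n : ZMod 5)) ↔ f (F, 0) := by
      intro F n
      induction n with
      | zero => simp
      | succ n ih => rw [Nat.cast_succ, h1, ih]
    intro F i
    have := h3 F i.val
    rwa [ZMod.natCast_zmod_val] at this
  let w : N.Carrier → Bool := Quot.lift (fun a : Fin N.n × pentagon => decide (f (a.1, 0))) (by
    rintro ⟨F, x⟩ ⟨F', x'⟩ hab
    obtain ⟨i, t, rfl, rfl, rfl⟩ := rel_sP hab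
    simp only
    congr 1
    apply propext
    rw [← h2 F i, ← hal (F, i), alP_apply, ← h2 (N.glue (F, i)).1 (N.glue (F, i)).2])
  have hw : Continuous w := by
    apply continuous_quot_lift
    rw [continuous_prod_of_discrete_left]
    intro F
    exact (continuous_const : Continuous fun _ : pentagon => decide (f (F, 0)))
  intro hx
  have hw2 := fun m m' : N.Carrier => PreconnectedSpace.constant this hw (x := m) (y := m')
  have h4 := hw2 (N.pt x.1 (pv 0)) (N.pt y.1 (pv 0))
  change decide (f (x.1, 0)) = decide (f (y.1, 0)) at h4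
  rw [decide_eq_decide] at h4
  have h5 : f (x.1, 0) := (h2 x.1 x.2).1 hx
  exact (h2 y.1 y.2).2 (h4.1 h5)

lemma potential (w : ZMod 5 → ZMod 2) (h : ∑ i, w i = 0) :
    ∃ H : ZMod 5 → ZMod 2, ∀ i, w i = H i + H (i + 1) := by
  have two : (2 : ZMod 2) = 0 := by decide
  have hs : w 0 + w 1 + w 2 + w 3 + w 4 = 0 := by
    rw [← h]
    exact (Fin.sum_univ_five w).symm
  let H : ZMod 5 → ZMod 2 := fun i => if i = 0 then 0 else if i = 1 then w 0 else
    if i = 2 then w 0 + w 1 else if i = 3 then w 0 + w 1 + w 2 else w 0 + w 1 + w 2 + w 3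
  have H0 : H 0 = 0 := rfl
  have H1 : H 1 = w 0 := rfl
  have H2 : H 2 = w 0 + w 1 := rfl
  have H3 : H 3 = w 0 + w 1 + w 2 := rfl
  have H4 : H 4 = w 0 + w 1 + w 2 + w 3 := rfl
  refine ⟨H, fun i => ?_⟩
  rcases cases5 i with rfl | rfl | rfl | rfl | rfl
  · rw [zero_add, H0, H1, zero_add]
  · rw [show (1 + 1 : ZMod 5) = 2 by decide, H1, H2]
    linear_combination (-(w 0)) * two
  · rw [show (2 + 1 : ZMod 5) = 3 by decide, H2, H3]
    linear_combination (-(w 0) - w 1) * two
  · rw [show (3 + 1 : ZMod 5) = 4 by decide, H3, H4]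
    linear_combination (-(w 0) - w 1 - w 2) * two
  · rw [show (4 + 1 : ZMod 5) = 0 by decide, H4, H0]
    linear_combination hs + (-(w 0) - w 1 - w 2 - w 3) * two

/-- Cocycles modulo two are coboundaries. -/
theorem cocycle_trivial (hN : N.IsSphere) {c : Fin N.n → Bool}
    (hrev : ∀ F i, N.rev (F, i) = (c F == c (N.glue (F, i)).1))
    (z : Fin N.n × ZMod 5 → ZMod 2) (hz : ∀ x, z (N.alP x) = z x)
    (hsum : ∀ u : Fin N.n × ZMod 5 → ZMod 2, (∀ x, u (N.nxP c x) = u x) → ∑ x, u x * z x = 0) :
    ∃ φ : Fin N.n × ZMod 5 → ZMod 2, (∀ x, φ (N.nxP c x) = φ (N.alP x)) ∧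
      ∀ x, z x = φ x + φ (N.alP x) := by
  classical
  have two : (2 : ZMod 2) = 0 := by decide
  have hface : ∀ F, ∑ i : ZMod 5, z (F, i) = 0 := by
    intro F
    have h1 := hsum (fun x => if x.1 = F then 1 else 0) (fun x => rfl)
    rw [Fintype.sum_prod_type] at h1
    simp only [ite_mul, one_mul, zero_mul, Finset.sum_ite_irrel, Finset.sum_const_zero,
      Finset.sum_ite_eq', Finset.mem_univ, if_true] at h1
    exact h1
  choose Hf hHf using fun F => potential (fun i => z (F, i)) (hface F)
  let H : Fin N.n × ZMod 5 → ZMod 2 := fun d => Hf d.1 d.2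
  have hH : ∀ F i, z (F, i) = H (F, i) + H (F, i + 1) := hHf
  have hz' : ∀ F i, z (N.glue (F, i)) = z (F, i) := fun F i => hz (F, i)
  have hgl : ∀ F i, H (F, i) + H (F, i + 1) = H ((N.glue (F, i)).1, (N.glue (F, i)).2) +
      H ((N.glue (F, i)).1, (N.glue (F, i)).2 + 1) := by
    intro F i
    rw [← hH, ← hH]
    exact (hz' F i).symm
  have k1 : ∀ a b p q : ZMod 2, a + b = p + q → p + b = a + q := by decide
  have k2 : ∀ a b p q : ZMod 2, a + b = p + q → a + p = b + q := by decide
  have k3 : ∀ a b p q : ZMod 2, a + b = p + q → a + q = b + p := by decide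
  obtain ⟨k, hk⟩ := sign_lift (N := N) (fun d => H d + H (N.st d)) H hN
    (by
      intro d
      obtain ⟨F, i⟩ := d
      have e1 := hgl F i
      unfold st
      simp only [N.glue_glue, N.rev_glue]
      cases hr : N.rev (F, i)
      · simp only [Bool.false_eq_true, if_false]
        exact add_comm _ _
      · simp only [if_true]
        exact k1 _ _ _ _ e1)
    (fun d => rfl) (by
      intro F i
      have e1 := hgl F i
      unfold st en
      cases hr : N.rev (F, i)
      · simp only [Bool.false_eq_true, if_false]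
        exact k2 _ _ _ _ e1
      · simp only [if_true]
        exact k3 _ _ _ _ e1)
  let ψ : Fin N.n × ZMod 5 → ZMod 2 := fun d => H d + k d.1
  let φ : Fin N.n × ZMod 5 → ZMod 2 := fun d => ψ (d.1, N.ini c d)
  have m1 : ∀ a b p q x y : ZMod 2, a + b = p + q → a + q = x + y → b + x = p + y := by decide
  have m2 : ∀ a b p q x y : ZMod 2, a + b = p + q → a + p = x + y → b + x = q + y := by decide
  have m3 : ∀ a p x y : ZMod 2, a + p = x + y → a + x = p + y := by decide
  have hφ : ∀ x, φ (N.nxP c x) = φ (N.alP x) := by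
    rintro ⟨F, i⟩
    have e1 := hgl F i
    have e2 := hk (F, i)
    simp only [st] at e2
    rw [hrev] at e2
    change ψ (F, N.ini c (N.nxP c (F, i))) = ψ ((N.glue (F, i)).1, N.ini c (N.glue (F, i)))
    rw [ini_nx]
    unfold ini
    simp only [ψ]
    cases hc : c F <;> cases hc' : c (N.glue (F, i)).1 <;> rw [hc, hc'] at e2
    · simp at e2 ⊢
      exact m1 _ _ _ _ _ _ e1 e2
    · simp at e2 ⊢
      exact m2 _ _ _ _ _ _ e1 e2
    · simp at e2 ⊢
      exact m3 _ _ _ _ e2
    · simp at e2 ⊢
      exact m3 _ _ _ _ e2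
  refine ⟨φ, hφ, ?_⟩
  intro x
  rw [← hφ]
  obtain ⟨F, i⟩ := x
  rw [hH]
  have n1 : ∀ a b x : ZMod 2, a + b = a + x + (b + x) := by decide
  have n2 : ∀ a b x : ZMod 2, a + b = b + x + (a + x) := by decide
  change _ = ψ (F, N.ini c (F, i)) + ψ (F, N.ini c (N.nxP c (F, i)))
  rw [ini_nx]
  unfold ini
  simp only [ψ]
  cases hc : c F
  · simp
    exact n1 _ _ _
  · simp
    exact n2 _ _ _

end PentComplex

end Pool.Agent.Lib.MP_59160a_co
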