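import Mathlib
import Pool.Agent.Lib.MP_59160a_co.EulerFlags

/-!
A lower bound for the number of complementary regions of a graph drawn on a sphere.
-/

set_option autoImplicit false

namespace Pool.Agent.Lib.MP_59160a_co

open Module

theorem regions_lower_bound {D : Type*} [Fintype D] [DecidableEq D] (nx al : Equiv.Perm D)
    (hal : ∀ x, al (al x) = x) (hal' : ∀ x, al x ≠ x)
    (hconn : ∀ f : D → Prop, (∀ x, f (nx x) ↔ f x) → (∀ x, f (al x) ↔ f x) →
      ∀ x y, f x → f y)
    (heul : 2 * (Nat.card (Quotient (Equiv.Perm.SameCycle.setoid (al * nx⁻¹)))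
      + Nat.card (Quotient (Equiv.Perm.SameCycle.setoid nx))) = Fintype.card D + 4)
    (N : Finset D) (hN : N.Nonempty) (hNal : ∀ x ∈ N, al x ∈ N)
    [DecidableEq (Quotient (Equiv.Perm.SameCycle.setoid (al * nx⁻¹)))]
    (r : Setoid D)
    (hr : r = Relation.EqvGen.setoid (fun x y => y = nx x ∨ (x ∉ N ∧ y = al x))) :
    N.card + 4 ≤ 2 * Nat.card (Quotient r)
      + 2 * (N.image (Quotient.mk (Equiv.Perm.SameCycle.setoid (al * nx⁻¹)))).card := by
  classical
  subst hr
  let VQ := Quotient (Equiv.Perm.SameCycle.setoid (al * nx⁻¹))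
  let FQ := Quotient (Equiv.Perm.SameCycle.setoid nx)
  let rE : D → D → Prop := pairRel al
  let EQ := Quotient (Relation.EqvGen.setoid rE)
  let rR : D → D → Prop := fun x y => y = nx x ∨ (x ∉ N ∧ y = al x)
  let RQ := Quotient (Relation.EqvGen.setoid rR)
  let vq : D → VQ := Quotient.mk (Equiv.Perm.SameCycle.setoid (al * nx⁻¹))
  let fq : D → FQ := Quotient.mk (Equiv.Perm.SameCycle.setoid nx)
  have hv : ∀ x, vq (nx x) = vq (al x) := by
    intro x
    apply Quotient.sound
    refine ⟨1, ?_⟩
    simp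
  have hf : ∀ x, fq (nx x) = fq x := by
    intro x
    apply Quotient.sound
    refine ⟨-1, ?_⟩
    simp
  have fsurj : ∀ q : FQ, ∃ x, fq x = q := fun q => Quotient.exists_rep q
  have vsurj : ∀ q : VQ, ∃ x, vq x = q := fun q => Quotient.exists_rep q
  have hAl : ∀ f : VQ → ZMod 2, ∀ x y, rE x y →
      f (vq x) + f (vq (al x)) = f (vq y) + f (vq (al y)) := by
    rintro f x y rfl
    rw [hal, add_comm]
  have hBl : ∀ f : FQ → ZMod 2, ∀ x y, rE x y →
      f (fq x) + f (fq (al x)) = f (fq y) + f (fq (al y)) := by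
    rintro f x y rfl
    rw [hal, add_comm]
  have hRl : ∀ f : RQ → ZMod 2, ∀ x y, rE x y →
      f (qmk rR x) + f (qmk rR (al x)) = f (qmk rR y) + f (qmk rR (al y)) := by
    rintro f x y rfl
    rw [hal, add_comm]
  let A : (VQ → ZMod 2) →ₗ[ZMod 2] (EQ → ZMod 2) :=
    { toFun := fun f => qlift rE (fun x => f (vq x) + f (vq (al x))) (hAl f)
      map_add' := by
        intro f g
        funext e
        obtain ⟨x, rfl⟩ := qmk_surj _ e
        simp only [Pi.add_apply, qlift_qmk]
        ring
      map_smul' := by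
        intro c f
        funext e
        obtain ⟨x, rfl⟩ := qmk_surj _ e
        simp only [Pi.smul_apply, qlift_qmk, smul_eq_mul, RingHom.id_apply]
        ring }
  let B : (FQ → ZMod 2) →ₗ[ZMod 2] (EQ → ZMod 2) :=
    { toFun := fun f => qlift rE (fun x => f (fq x) + f (fq (al x))) (hBl f)
      map_add' := by
        intro f g
        funext e
        obtain ⟨x, rfl⟩ := qmk_surj _ e
        simp only [Pi.add_apply, qlift_qmk]
        ring
      map_smul' := by
        intro c f
        funext e
        obtain ⟨x, rfl⟩ := qmk_surj _ e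
        simp only [Pi.smul_apply, qlift_qmk, smul_eq_mul, RingHom.id_apply]
        ring }
  let BR : (RQ → ZMod 2) →ₗ[ZMod 2] (EQ → ZMod 2) :=
    { toFun := fun f => qlift rE (fun x => f (qmk rR x) + f (qmk rR (al x))) (hRl f)
      map_add' := by
        intro f g
        funext e
        obtain ⟨x, rfl⟩ := qmk_surj _ e
        simp only [Pi.add_apply, qlift_qmk]
        ring
      map_smul' := by
        intro c f
        funext e
        obtain ⟨x, rfl⟩ := qmk_surj _ e
        simp only [Pi.smul_apply, qlift_qmk, smul_eq_mul, RingHom.id_apply]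
        ring }
  have eA : ∀ f x, A f (qmk rE x) = f (vq x) + f (vq (al x)) := fun f x => rfl
  have eB : ∀ f x, B f (qmk rE x) = f (fq x) + f (fq (al x)) := fun f x => rfl
  have eR : ∀ f x, BR f (qmk rE x) = f (qmk rR x) + f (qmk rR (al x)) := fun f x => rfl
  have horth : ∀ u w, ∑ e, A u e * B w e = 0 := by
    intro u w
    rw [sum_pair al hal hal' (fun x => (u (vq x) + u (vq (al x))) * w (fq x))
      (fun e => A u e * B w e)]
    · have h1 : ∑ x, (u (vq x) + u (vq (al x))) * w (fq x)
          = ∑ x, u (vq x) * w (fq x) + ∑ x, u (vq (nx x)) * w (fq (nx x)) := by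
        rw [← Finset.sum_add_distrib]
        apply Finset.sum_congr rfl
        intro x _
        rw [hf, hv]
        ring
      rw [h1, Equiv.sum_comp nx (fun x => u (vq x) * w (fq x))]
      exact zmod2_add_self _
    · intro x
      change A u (qmk rE x) * B w (qmk rE x) = (u (vq x) + u (vq (al x))) * w (fq x)
        + (u (vq (al x)) + u (vq (al (al x)))) * w (fq (al x))
      rw [eA, eB, hal]
      ring
  have hkA : ∀ c, A c = 0 → ∀ x y, c x = c y := by
    intro c hc x y
    obtain ⟨x, rfl⟩ := vsurj x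
    obtain ⟨y, rfl⟩ := vsurj y
    have hal2 : ∀ z, c (vq z) = c (vq (al z)) := by
      intro z
      have := congrFun hc (qmk rE z)
      rw [eA] at this
      exact zmod2_eq_of_add this
    refine hconn (fun z => c (vq x) = c (vq z)) ?_ ?_ x y rfl
    · intro z
      simp only [hv, ← hal2 z]
    · intro z
      simp only [← hal2 z]
  have hkB : ∀ c, B c = 0 → ∀ x y, c x = c y := by
    intro c hc x y
    obtain ⟨x, rfl⟩ := fsurj x
    obtain ⟨y, rfl⟩ := fsurj y
    have hal2 : ∀ z, c (fq z) = c (fq (al z)) := by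
      intro z
      have := congrFun hc (qmk rE z)
      rw [eB] at this
      exact zmod2_eq_of_add this
    refine hconn (fun z => c (fq x) = c (fq z)) ?_ ?_ x y rfl
    · intro z
      simp only [hf]
    · intro z
      simp only [← hal2 z]
  have r2 := card_le_rank A hkA
  have r3 := card_le_rank B hkB
  have r4 : 2 * Fintype.card EQ = Fintype.card D := card_pair al hal hal'
  have heul' : 2 * (Fintype.card VQ + Fintype.card FQ) = Fintype.card D + 4 := by
    rw [← Nat.card_eq_fintype_card, ← Nat.card_eq_fintype_card]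
    exact heul
  have hexact := orth_exact A B horth (by omega)
  let S : Finset VQ := N.image vq
  let T : Finset EQ := N.image (qmk rE)
  let ext0 : ({k // k ∈ S} → ZMod 2) →ₗ[ZMod 2] (VQ → ZMod 2) :=
    { toFun := fun f k => if h : k ∈ S then f ⟨k, h⟩ else 0
      map_add' := by
        intro f g
        funext k
        by_cases h : k ∈ S <;> simp [h]
      map_smul' := by
        intro c f
        funext k
        by_cases h : k ∈ S <;> simp [h] }
  let res : (EQ → ZMod 2) →ₗ[ZMod 2] ({e // e ∈ T} → ZMod 2) :=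
    LinearMap.funLeft (ZMod 2) (ZMod 2) Subtype.val
  let AN : ({k // k ∈ S} → ZMod 2) →ₗ[ZMod 2] ({e // e ∈ T} → ZMod 2) := res ∘ₗ A ∘ₗ ext0
  let BN : (RQ → ZMod 2) →ₗ[ZMod 2] ({e // e ∈ T} → ZMod 2) := res ∘ₗ BR
  have eAN : ∀ f : VQ → ZMod 2, ∀ e : {e // e ∈ T}, AN (fun k => f k.1) e = A f e.1 := by
    rintro f ⟨e, he⟩
    obtain ⟨y, hy, rfl⟩ := Finset.mem_image.1 he
    change A (ext0 fun k => f k.1) (qmk rE y) = A f (qmk rE y)
    have h1 : vq y ∈ S := Finset.mem_image_of_mem _ hy
    have h2 : vq (al y) ∈ S := Finset.mem_image_of_mem _ (hNal y hy)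
    rw [eA, eA]
    change (if h : vq y ∈ S then f (vq y) else 0)
      + (if h : vq (al y) ∈ S then f (vq (al y)) else 0) = _
    rw [dif_pos h1, dif_pos h2]
  have hSn : Nonempty {k // k ∈ S} := by
    obtain ⟨y, hy⟩ := hN
    exact ⟨⟨vq y, Finset.mem_image_of_mem _ hy⟩⟩
  have hRn : Nonempty RQ := by
    obtain ⟨y, hy⟩ := hN
    exact ⟨qmk rR y⟩
  have honeA : AN (fun _ => 1) = 0 := by
    funext e
    have := eAN (fun _ => 1) e
    rw [this]
    obtain ⟨⟨x, hx⟩⟩ : Nonempty {x // qmk rE x = e.1} := by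
      obtain ⟨x, hx⟩ := qmk_surj rE e.1
      exact ⟨⟨x, hx⟩⟩
    rw [← hx, eA]
    exact zmod2_add_self _
  have honeB : BN (fun _ => 1) = 0 := by
    funext e
    change BR (fun _ => 1) e.1 = 0
    obtain ⟨x, hx⟩ := qmk_surj rE e.1
    rw [← hx, eR]
    exact zmod2_add_self _
  have hmem : ∀ g : {e // e ∈ T} → ZMod 2, (∀ u, ∑ e, AN u e * g e = 0) →
      g ∈ LinearMap.range BN := by
    intro g hg
    obtain ⟨c, hc⟩ := hexact (fun e => if h : e ∈ T then g ⟨e, h⟩ else 0) (by
      intro u
      have h1 : ∑ e, A u e * (if h : e ∈ T then g ⟨e, h⟩ else 0)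
          = ∑ e ∈ T, A u e * (if h : e ∈ T then g ⟨e, h⟩ else 0) := by
        symm
        apply Finset.sum_subset (Finset.subset_univ _)
        intro e _ he
        rw [dif_neg he, mul_zero]
      rw [h1, ← Finset.sum_coe_sort, ← hg (fun k => u k.1)]
      apply Finset.sum_congr rfl
      intro e _
      rw [eAN, dif_pos e.2])
    have hconst : ∀ x y, rR x y → c (fq x) = c (fq y) := by
      rintro x y (rfl | ⟨hx, rfl⟩)
      · rw [hf]
      · have h1 := congrFun hc (qmk rE x)
        have h2 : qmk rE x ∉ T := by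
          intro h
          obtain ⟨y, hy, hyx⟩ := Finset.mem_image.1 h
          rcases (qmk_pair_iff al hal x y).1 hyx with rfl | rfl
          · exact hx hy
          · have := hNal _ hy
            rw [hal] at this
            exact hx this
        rw [eB] at h1
        have h3 : (if h : qmk rE x ∈ T then g ⟨qmk rE x, h⟩ else 0) = 0 := dif_neg h2
        exact zmod2_eq_of_add (h1.trans h3)
    refine ⟨qlift rR (fun x => c (fq x)) hconst, ?_⟩
    funext ⟨e, he⟩
    obtain ⟨y, hy, rfl⟩ := Finset.mem_image.1 he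
    have h1 := congrFun hc (qmk rE y)
    have h3 : (if h : qmk rE y ∈ T then g ⟨qmk rE y, h⟩ else 0) = g ⟨qmk rE y, he⟩ :=
      dif_pos he
    rw [← h3]
    exact h1
  have s1 := card_le_of_orth_mem AN BN hmem
  have s2 := rank_lt_card AN honeA
  have s3 := rank_lt_card BN honeB
  rw [Fintype.card_coe] at s1 s2
  have s4 : 2 * T.card = N.card := card_image_pair al hal hal' N hNal
  have s5 : S.card = (N.image (Quotient.mk (Equiv.Perm.SameCycle.setoid (al * nx⁻¹)))).card :=
    rfl
  have s6 : Nat.card (Quotient (Relation.EqvGen.setoid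
      (fun x y => y = nx x ∨ (x ∉ N ∧ y = al x)))) = Fintype.card RQ :=
    Nat.card_eq_fintype_card
  omega

end Pool.Agent.Lib.MP_59160a_co
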