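import Pool.Agent.Lib.MP_59160a_co.Surf
import Pool.Agent.Lib.MP_59160a_co.Regions

/-!
No dart of a sphere is bad.
-/

set_option autoImplicit false
set_option linter.unusedSectionVars false

namespace Pool.Agent.Lib.MP_59160a_co

open Module Equiv.Perm Finset

namespace Pent

variable {D : Type*} {V : Type*} [Fintype D] [DecidableEq D] [NormedAddCommGroup V]
    [InnerProductSpace ℝ V] [Fact (finrank ℝ V = 3)] (M : Pent D V)

open Classical in
/-- The set of bad darts. -/
noncomputable def badSet : Finset D := univ.filter M.Bad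

open Classical in
lemma mem_badSet {x : D} : x ∈ M.badSet ↔ M.Bad x := by simp [badSet]

/-- The relation of lying in the same region. -/
def region : Setoid D :=
  Relation.EqvGen.setoid (fun x y => y = M.nx x ∨ (x ∉ M.badSet ∧ y = M.al x))

lemma region_nx (x : D) : M.region x (M.nx x) := Relation.EqvGen.rel _ _ (Or.inl rfl)

lemma region_al {x : D} (hx : ¬ M.Bad x) : M.region x (M.al x) :=
  Relation.EqvGen.rel _ _ (Or.inr ⟨by rw [M.mem_badSet]; exact hx, rfl⟩)

lemma region_sg_inv {x : D} (hx : ¬ M.Bad x) : M.region x (M.sg⁻¹ x) := by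
  rw [M.sg_inv]
  exact M.region.trans (M.region_al hx) (M.region_nx _)

lemma region_chain (x : D) (k : ℕ) (h : ∀ j, j < k → ¬ M.Bad ((M.sg⁻¹ ^ (j + 1)) x)) :
    M.region (M.sg⁻¹ x) ((M.sg⁻¹ ^ (k + 1)) x) := by
  induction k with
  | zero => rw [zero_add, pow_one]
  | succ k ih =>
    have h1 := ih (fun j hj => h j (by omega))
    have h2 := h k (by omega)
    rw [pow_succ' _ (k + 1), Equiv.Perm.mul_apply]
    exact M.region.trans h1 (M.region_sg_inv h2)

lemma region_bd {x : D} (hx : M.Bad x) : M.region x (M.bd x) := by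
  have h1 := M.region_nx x
  rw [M.nx_eq] at h1
  refine M.region.trans h1 ?_
  exact M.region_chain (M.al x) _ (fun _ hj => M.ret_min _ ((M.bad_al x).2 hx) hj)

lemma region_iter {x : D} (hx : M.Bad x) (i : ℕ) : M.region x (M.bd^[i] x) := by
  induction i with
  | zero => exact M.region.refl _
  | succ i ih =>
    rw [Function.iterate_succ_apply']
    exact M.region.trans ih (M.region_bd (M.iter_bad hx i))

/-- Every region contains a bad dart, if there is a bad dart. -/
lemma exists_bad_in_region (h : ∃ x, M.Bad x) (y : D) : ∃ x, M.Bad x ∧ M.region y x := by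
  by_contra hcon
  push Not at hcon
  obtain ⟨x, hx⟩ := h
  have h1 : M.region y x := by
    refine M.conn (fun z => M.region y z) ?_ ?_ y x (M.region.refl y)
    · intro z
      constructor
      · intro hz; exact M.region.trans hz (M.region.symm (M.region_nx z))
      · intro hz; exact M.region.trans hz (M.region_nx z)
    · intro z
      constructor
      · intro hz
        have hb : ¬ M.Bad z := by
          intro hb
          exact hcon _ ((M.bad_al z).2 hb) hz
        exact M.region.trans hz (M.region.symm (M.region_al hb))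
      · intro hz
        have hb : ¬ M.Bad z := fun hb => hcon _ hb hz
        exact M.region.trans hz (M.region_al hb)
  exact hcon x hx h1

open Classical in
/-- The set of turns. -/
noncomputable def turnSet : Finset D := univ.filter M.Turn

open Classical in
lemma mem_turnSet {x : D} : x ∈ M.turnSet ↔ M.Turn x := by simp [turnSet]

open Classical in
lemma four_regions (h : ∃ x, M.Bad x) : 4 * Nat.card (Quotient M.region) ≤ M.turnSet.card := by
  have : Fintype (Quotient M.region) := Fintype.ofFinite _
  rw [Nat.card_eq_fintype_card]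
  have h1 := Finset.card_eq_sum_card_fiberwise (f := fun x => (Quotient.mk M.region x))
    (s := M.turnSet) (t := univ) (fun x _ => by simp)
  rw [h1]
  have h2 : ∀ q ∈ (univ : Finset (Quotient M.region)),
      4 ≤ #{x ∈ M.turnSet | Quotient.mk M.region x = q} := by
    intro q _
    obtain ⟨y, rfl⟩ := Quotient.exists_rep q
    obtain ⟨x, hx, hyx⟩ := M.exists_bad_in_region h y
    obtain ⟨F, hF4, hF⟩ := M.four_turns hx
    refine hF4.trans (Finset.card_le_card ?_)
    intro z hz
    obtain ⟨hz1, i, hzi⟩ := hF z hz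
    rw [Finset.mem_filter]
    refine ⟨M.mem_turnSet.2 hz1, ?_⟩
    apply Quotient.sound
    rw [hzi]
    exact M.region.symm (M.region.trans hyx (M.region_iter hx i))
  calc 4 * Fintype.card (Quotient M.region) = ∑ q ∈ (univ : Finset (Quotient M.region)), 4 := by
        rw [Finset.sum_const, smul_eq_mul, mul_comm]; rfl
    _ ≤ _ := Finset.sum_le_sum h2

/-- The turns as outgoing darts. -/
def Turn' (x : D) : Prop := M.Bad x ∧ inner ℝ (M.u x) (M.u (M.nxt x)) = c0

open Classical in
/-- The set of turns, as outgoing darts. -/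
noncomputable def turnSet' : Finset D := univ.filter M.Turn'

open Classical in
lemma mem_turnSet' {x : D} : x ∈ M.turnSet' ↔ M.Turn' x := by simp [turnSet']

lemma turn_al (x : D) : M.Turn x → M.Turn' (M.al x) := by
  rintro ⟨h1, h2⟩
  refine ⟨(M.bad_al x).2 h1, ?_⟩
  rw [M.u_al, inner_neg_left]
  change -inner ℝ (M.u x) (M.u (M.bd x)) = c0
  rw [h2, neg_neg]

lemma card_turnSet_le : M.turnSet.card ≤ M.turnSet'.card := by
  refine Finset.card_le_card_of_injOn M.al ?_ M.al.injective.injOn
  intro x hx
  have := M.turn_al x (M.mem_turnSet.1 hx)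
  exact M.mem_turnSet'.2 this

/-- A common corner of the directions of a turn, in the star of the first side. -/
lemma turn_corner {x : D} (h : M.Turn' x) : ∃ E, IsCorner E ∧ (∃ a, E a = M.u x) ∧
    (∃ b, E b = M.u (M.nxt x)) ∧ Star (M.cor (M.sg⁻¹ x)) E ∧ Star (M.cor (M.nxt x)) E := by
  have h1 := M.star_nxt x h.1
  have h2 : M.cor (M.sg⁻¹ x) 1 = M.u x := by rw [M.cor_one, perm_apply_inv]
  obtain ⟨E, hE, ⟨a, ha⟩, ⟨b, hb⟩⟩ := common_corner (M.cor_corner _) h1 1 0
    (by rw [h2, M.cor_zero]; exact h.2)
  exact ⟨E, hE.corner (M.cor_corner _), ⟨a, by rw [ha, h2]⟩, ⟨b, by rw [hb, M.cor_zero]⟩,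
    hE, h1.symm.trans hE⟩

/-- Two bad darts following each other cyclically do not form a turn. -/
lemma not_turn_two {x : D} (h : M.Turn' x) (h2 : M.nxt (M.nxt x) = x) : False := by
  obtain ⟨E, hE, ⟨a, ha⟩, ⟨b, hb⟩, hs1, hs2⟩ := M.turn_corner h
  have h3 : M.Turn' (M.nxt x) := by
    refine ⟨M.nxt_bad x h.1, ?_⟩
    rw [h2, real_inner_comm]; exact h.2
  obtain ⟨E', hE', ⟨a', ha'⟩, ⟨b', hb'⟩, hs1', hs2'⟩ := M.turn_corner h3
  rw [h2] at hb' hs2'
  have hab : a ≠ b := by
    rintro rfl
    have h4 := h.2
    rw [← ha, ← hb, hE.self] at h4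
    exact c0_ne_one h4.symm
  have h5 : Star E E' := star_of_two hE hE' hab (by rw [ha, hb']) (by rw [hb, ha'])
  exact h.1 ((hs1.trans (h5.trans hs2'.symm)).symm)

/-- Three bad darts following each other cyclically do not form three turns. -/
lemma not_turn_three {x : D} (h : M.Turn' x) (h' : M.Turn' (M.nxt x))
    (h'' : M.Turn' (M.nxt (M.nxt x))) (h3 : M.nxt (M.nxt (M.nxt x)) = x) : False := by
  have ha := h.2
  have hb := h'.2
  have hc := h''.2
  rw [h3] at hc
  have hT : IsCorner ![M.u x, M.u (M.nxt x), M.u (M.nxt (M.nxt x))] := by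
    have ha' : inner ℝ (M.u (M.nxt x)) (M.u x) = c0 := by rw [real_inner_comm]; exact ha
    have hb' : inner ℝ (M.u (M.nxt (M.nxt x))) (M.u (M.nxt x)) = c0 := by
      rw [real_inner_comm]; exact hb
    have hc' : inner ℝ (M.u x) (M.u (M.nxt (M.nxt x))) = c0 := by
      rw [real_inner_comm]; exact hc
    intro i j
    fin_cases i <;> fin_cases j
    · exact M.u_unit _
    · exact ha
    · exact hc'
    · exact ha'
    · exact M.u_unit _
    · exact hb
    · exact hc
    · exact hb'
    · exact M.u_unit _
  obtain ⟨E, hE, ⟨a, hea⟩, ⟨b, heb⟩, hs1, -⟩ := M.turn_corner h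
  obtain ⟨E', hE', ⟨a', hea'⟩, ⟨b', heb'⟩, -, hs2⟩ := M.turn_corner h''
  rw [h3] at heb' hs2
  have h5 : Star ![M.u x, M.u (M.nxt x), M.u (M.nxt (M.nxt x))] E :=
    star_of_two hT hE (a := 0) (b := 1) (by decide) (by rw [hea]; rfl) (by rw [heb]; rfl)
  have h6 : Star ![M.u x, M.u (M.nxt x), M.u (M.nxt (M.nxt x))] E' :=
    star_of_two hT hE' (a := 2) (b := 0) (by decide) (by rw [hea']; rfl) (by rw [heb']; rfl)
  exact h.1 ((hs1.trans (h5.symm.trans (h6.trans hs2.symm))).symm)

open Classical in
/-- The bound on the number of turns at a vertex. -/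
lemma turns_at_vertex (q : Quotient (SameCycle.setoid M.sg))
    (hq : q ∈ M.badSet.image (Quotient.mk (SameCycle.setoid M.sg))) :
    #{x ∈ M.turnSet' | Quotient.mk (SameCycle.setoid M.sg) x = q} + 4 ≤
      2 * #{x ∈ M.badSet | Quotient.mk (SameCycle.setoid M.sg) x = q} := by
  set B := {x ∈ M.badSet | Quotient.mk (SameCycle.setoid M.sg) x = q} with hB
  set T := {x ∈ M.turnSet' | Quotient.mk (SameCycle.setoid M.sg) x = q} with hT
  have hmemB : ∀ x, x ∈ B ↔ M.Bad x ∧ Quotient.mk (SameCycle.setoid M.sg) x = q := by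
    intro x; rw [hB, Finset.mem_filter, M.mem_badSet]
  have hmemT : ∀ x, x ∈ T ↔ M.Turn' x ∧ Quotient.mk (SameCycle.setoid M.sg) x = q := by
    intro x; rw [hT, Finset.mem_filter, M.mem_turnSet']
  have hTB : T ⊆ B := by
    intro x hx
    rw [hmemT] at hx
    rw [hmemB]
    exact ⟨hx.1.1, hx.2⟩
  have hnxt : ∀ x ∈ B, M.nxt x ∈ B := by
    intro x hx
    rw [hmemB] at hx ⊢
    refine ⟨M.nxt_bad x hx.1, ?_⟩
    rw [← hx.2]
    exact Quotient.sound (M.nxt_same x).symm
  have hinj : ∀ x ∈ B, ∀ y ∈ B, M.nxt x = M.nxt y → x = y := by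
    intro x hx y hy h
    exact M.nxt_inj ((hmemB x).1 hx).1 ((hmemB y).1 hy).1 h
  have hne : ∀ x ∈ B, M.nxt x ≠ x := fun x hx => M.nxt_ne x ((hmemB x).1 hx).1
  obtain ⟨x0, hx0⟩ : ∃ x, x ∈ B := by
    rw [Finset.mem_image] at hq
    obtain ⟨x, hx, hxq⟩ := hq
    exact ⟨x, (hmemB x).2 ⟨M.mem_badSet.1 hx, hxq⟩⟩
  have h2 : 2 ≤ B.card := by
    have : ({x0, M.nxt x0} : Finset D) ⊆ B := by
      intro z hz
      rw [Finset.mem_insert, Finset.mem_singleton] at hz
      rcases hz with rfl | rfl
      · exact hx0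
      · exact hnxt _ hx0
    have h3 := Finset.card_le_card this
    rwa [Finset.card_pair (hne x0 hx0).symm] at h3
  have hTle := Finset.card_le_card hTB
  have hcase : B.card = 2 ∨ B.card = 3 ∨ 4 ≤ B.card := by omega
  rcases hcase with hc | hc | hc
  · -- two bad darts
    have hT0 : T = ∅ := by
      by_contra hne0
      obtain ⟨x, hx⟩ := Finset.nonempty_iff_ne_empty.2 hne0
      have hxB := hTB hx
      have hBe : B = {x, M.nxt x} := by
        symm
        apply Finset.eq_of_subset_of_card_le
        · intro z hz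
          rw [Finset.mem_insert, Finset.mem_singleton] at hz
          rcases hz with rfl | rfl
          · exact hxB
          · exact hnxt _ hxB
        · rw [Finset.card_pair (hne x hxB).symm, hc]
      have h4 := hnxt _ (hnxt _ hxB)
      rw [hBe, Finset.mem_insert, Finset.mem_singleton] at h4
      rcases h4 with h4 | h4
      · exact M.not_turn_two ((hmemT x).1 hx).1 h4
      · exact hne _ (hnxt _ hxB) h4
    rw [hT0, hc]; simp
  · -- three bad darts
    have hTlt : T.card < B.card := by
      apply Finset.card_lt_card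
      refine ⟨hTB, ?_⟩
      intro hBT
      have t0 := ((hmemT _).1 (hBT hx0)).1
      have b1 := hnxt _ hx0
      have t1 := ((hmemT _).1 (hBT b1)).1
      have b2 := hnxt _ b1
      have t2 := ((hmemT _).1 (hBT b2)).1
      by_cases h20 : M.nxt (M.nxt x0) = x0
      · exact M.not_turn_two t0 h20
      have hBe : B = {x0, M.nxt x0, M.nxt (M.nxt x0)} := by
        symm
        apply Finset.eq_of_subset_of_card_le
        · intro z hz
          simp only [Finset.mem_insert, Finset.mem_singleton] at hz
          rcases hz with rfl | rfl | rfl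
          · exact hx0
          · exact b1
          · exact b2
        · rw [hc, Finset.card_insert_of_notMem, Finset.card_pair (hne _ b1).symm]
          simp only [Finset.mem_insert, Finset.mem_singleton, not_or]
          exact ⟨(hne x0 hx0).symm, fun h => h20 h.symm⟩
      have b3 := hnxt _ b2
      rw [hBe] at b3
      simp only [Finset.mem_insert, Finset.mem_singleton] at b3
      rcases b3 with h4 | h4 | h4
      · exact M.not_turn_three t0 t1 t2 h4
      · have := hinj _ b2 _ hx0 h4
        exact h20 this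
      · exact hne _ b2 h4
    omega
  · omega

open Classical in
lemma turns_le : M.turnSet'.card +
    4 * (M.badSet.image (Quotient.mk (SameCycle.setoid M.sg))).card ≤ 2 * M.badSet.card := by
  have h1 := Finset.card_eq_sum_card_fiberwise (f := fun x => (Quotient.mk (SameCycle.setoid M.sg) x))
    (s := M.turnSet') (t := M.badSet.image (Quotient.mk (SameCycle.setoid M.sg)))
    (fun x hx => by
      have : x ∈ M.badSet := M.mem_badSet.2 (M.mem_turnSet'.1 hx).1
      exact Finset.mem_coe.2 (Finset.mem_image_of_mem _ this))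
  have h2 := Finset.card_eq_sum_card_fiberwise (f := fun x => (Quotient.mk (SameCycle.setoid M.sg) x))
    (s := M.badSet) (t := M.badSet.image (Quotient.mk (SameCycle.setoid M.sg)))
    (fun x hx => Finset.mem_coe.2 (Finset.mem_image_of_mem _ hx))
  rw [h1, h2, Finset.mul_sum]
  have h3 : 4 * (M.badSet.image (Quotient.mk (SameCycle.setoid M.sg))).card =
      ∑ q ∈ M.badSet.image (Quotient.mk (SameCycle.setoid M.sg)), 4 := by
    rw [Finset.sum_const, smul_eq_mul, mul_comm]
  rw [h3, ← Finset.sum_add_distrib]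
  exact Finset.sum_le_sum (fun q hq => M.turns_at_vertex q hq)

/-- No dart is bad. -/
theorem not_bad (x : D) : ¬ M.Bad x := by
  classical
  intro hx
  have h1 := M.four_regions ⟨x, hx⟩
  have h2 := M.card_turnSet_le
  have h3 := M.turns_le
  have h4 := regions_lower_bound M.nx M.al M.al_al M.al_ne M.conn M.euler M.badSet
    ⟨x, M.mem_badSet.2 hx⟩ (fun y hy => M.mem_badSet.2 ((M.bad_al y).2 (M.mem_badSet.1 hy)))
    M.region rfl
  have h5 : (M.badSet.image (Quotient.mk (SameCycle.setoid M.sg))).card =
      (M.badSet.image (Quotient.mk (SameCycle.setoid (M.al * M.nx⁻¹)))).card := by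
    rfl
  have h6 : (M.badSet.image (Quotient.mk (SameCycle.setoid (M.al * M.nx⁻¹)))).card =
      _ := rfl
  rw [h5] at h3
  have h7 := h4
  convert_to M.badSet.card + 4 ≤ 2 * Nat.card (Quotient M.region) +
    2 * (M.badSet.image (Quotient.mk (SameCycle.setoid (M.al * M.nx⁻¹)))).card at h7
  omega

end Pent

end Pool.Agent.Lib.MP_59160a_co
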