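import Pool.Agent.Lib.MP_59160a_co.Iso
import Pool.Agent.Lib.MP_59160a_co.Arith

/-!
The geometry of the regular pentagon.
-/

set_option autoImplicit false
set_option linter.unusedSectionVars false

namespace Pool.Agent.Lib.MP_59160a_co

open unitInterval
open scoped Real

/-- A point on the circumscribed circle. -/
noncomputable def pw (x : ℝ) : E2 :=
  (1 / (2 * Real.sin (π / 5))) • !₂[Real.cos (2 * π * x / 5), Real.sin (2 * π * x / 5)]

/-- The square of the circumradius. -/
noncomputable def R2 : ℝ := (1 / (2 * Real.sin (π / 5))) ^ 2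

lemma pentVertex_cast (m : ℕ) : pentVertex (m : ZMod 5) = pw m := by
  unfold pentVertex pw
  rw [ZMod.val_natCast]
  have h : (m : ℝ) = ((m % 5 : ℕ) : ℝ) + 5 * ((m / 5 : ℕ) : ℝ) := by
    have := Nat.mod_add_div m 5
    exact_mod_cast this.symm
  have h2 : 2 * π * (m : ℝ) / 5 = 2 * π * ((m % 5 : ℕ) : ℝ) / 5 + ((m / 5 : ℕ) : ℝ) * (2 * π) := by
    rw [h]; ring
  rw [h2, Real.cos_add_nat_mul_two_pi, Real.sin_add_nat_mul_two_pi]

lemma cos_two : 2 * Real.cos (2 * π / 5) = g := by
  have h1 : (2 * π / 5 : ℝ) = 2 * (π / 5) := by ring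
  rw [h1, Real.cos_two_mul, Real.cos_pi_div_five]
  unfold g s
  have h5 : √5 ^ 2 = 5 := Real.sq_sqrt (by norm_num)
  linear_combination (1 / 4) * h5

lemma pw_rec (x : ℝ) : pw (x + 2) = g • pw (x + 1) - pw x := by
  unfold pw
  rw [smul_comm, ← smul_sub]
  congr 1
  have e1 : 2 * π * (x + 2) / 5 = 2 * π * (x + 1) / 5 + 2 * π / 5 := by ring
  have e2 : 2 * π * x / 5 = 2 * π * (x + 1) / 5 - 2 * π / 5 := by ring
  rw [e1, e2]
  set α := 2 * π * (x + 1) / 5
  have hg := cos_two
  ext i
  fin_cases i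
  · change Real.cos (α + 2 * π / 5) = g * Real.cos α - Real.cos (α - 2 * π / 5)
    rw [Real.cos_add, Real.cos_sub]
    linear_combination (Real.cos α) * hg
  · change Real.sin (α + 2 * π / 5) = g * Real.sin α - Real.sin (α - 2 * π / 5)
    rw [Real.sin_add, Real.sin_sub]
    linear_combination (Real.sin α) * hg

lemma pw_inner (x y : ℝ) : inner ℝ (pw x) (pw y) = R2 * Real.cos (2 * π * y / 5 - 2 * π * x / 5) := by
  unfold pw R2
  rw [real_inner_smul_left, real_inner_smul_right, PiLp.inner_apply, Fin.sum_univ_two]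
  simp only [RCLike.inner_apply, conj_trivial]
  change _ * (_ * (Real.cos (2 * π * y / 5) * Real.cos (2 * π * x / 5) +
    Real.sin (2 * π * y / 5) * Real.sin (2 * π * x / 5))) = _
  rw [Real.cos_sub]
  ring

lemma cast_val (i : ZMod 5) : ((i.val : ℕ) : ZMod 5) = i := ZMod.natCast_zmod_val i

lemma pent_rec (i : ZMod 5) : pentVertex (i + 2) = g • pentVertex (i + 1) - pentVertex i := by
  have h0 := pentVertex_cast i.val
  have h1 := pentVertex_cast (i.val + 1)
  have h2 := pentVertex_cast (i.val + 2)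
  push_cast at h0 h1 h2
  rw [cast_val] at h0 h1 h2
  rw [h0, h1, h2, pw_rec]

lemma pent_self (i : ZMod 5) : inner ℝ (pentVertex i) (pentVertex i) = R2 := by
  have h0 := pentVertex_cast i.val
  rw [cast_val] at h0
  rw [h0, pw_inner, sub_self, Real.cos_zero, mul_one]

lemma pent_next (i : ZMod 5) : inner ℝ (pentVertex i) (pentVertex (i + 1)) = R2 * (g / 2) := by
  have h0 := pentVertex_cast i.val
  have h1 := pentVertex_cast (i.val + 1)
  push_cast at h0 h1
  rw [cast_val] at h0 h1
  rw [h0, h1, pw_inner]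
  have e : 2 * π * ((i.val : ℝ) + 1) / 5 - 2 * π * (i.val : ℝ) / 5 = 2 * π / 5 := by ring
  rw [e, ← cos_two]
  ring

lemma R2_eq : R2 * (2 - g) = 1 := by
  unfold R2
  have h1 : (2 - g : ℝ) = (2 * Real.sin (π / 5)) ^ 2 := by
    rw [mul_pow, Real.sin_sq, Real.cos_pi_div_five]
    unfold g s
    have h5 : √5 ^ 2 = 5 := Real.sq_sqrt (by norm_num)
    linear_combination (1 / 4) * h5
  rw [h1, ← mul_pow]
  have h2 : Real.sin (π / 5) ≠ 0 := by
    apply (Real.sin_pos_of_pos_of_lt_pi (by positivity) (by linarith [Real.pi_pos])).ne'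
  rw [one_div, inv_mul_cancel₀ (mul_ne_zero two_ne_zero h2), one_pow]

lemma g_lt' : g < 0.619 := by
  unfold g s
  have : √5 < 2.238 := by
    rw [Real.sqrt_lt' (by norm_num)]; norm_num
  linarith

lemma lt_g : 0.618 < g := by
  unfold g s
  have : 2.236 < √5 := by
    rw [Real.lt_sqrt (by norm_num)]; norm_num
  linarith

lemma R2_pos : 0 < R2 := by
  have h1 := R2_eq
  have h2 := g_lt'
  by_contra h
  push Not at h
  nlinarith

/-- The cosines. -/
noncomputable def cc (k : ZMod 5) : ℝ :=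
  if k = 0 then 1 else if k = 1 ∨ k = 4 then g / 2 else -(1 + g) / 2

lemma cc0 : cc 0 = 1 := by unfold cc; rw [if_pos rfl]
lemma cc1 : cc 1 = g / 2 := by unfold cc; rw [if_neg (by decide), if_pos (by decide)]
lemma cc2 : cc 2 = -(1 + g) / 2 := by unfold cc; rw [if_neg (by decide), if_neg (by decide)]
lemma cc3 : cc 3 = -(1 + g) / 2 := by unfold cc; rw [if_neg (by decide), if_neg (by decide)]
lemma cc4 : cc 4 = g / 2 := by unfold cc; rw [if_neg (by decide), if_pos (by decide)]

lemma pent_inner (i k : ZMod 5) : inner ℝ (pentVertex i) (pentVertex (i + k)) = R2 * cc k := by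
  have two : ∀ i : ZMod 5, inner ℝ (pentVertex i) (pentVertex (i + 2)) = R2 * (-(1 + g) / 2) := by
    intro i
    rw [pent_rec, inner_sub_right, inner_smul_right, pent_next, pent_self]
    have := g_sq
    linear_combination (R2 / 2) * this
  have hk : k = 0 ∨ k = 1 ∨ k = 2 ∨ k = 3 ∨ k = 4 := by
    revert k; decide
  rcases hk with rfl | rfl | rfl | rfl | rfl
  · rw [add_zero, pent_self, cc0, mul_one]
  · rw [pent_next, cc1]
  · rw [two, cc2]
  · rw [real_inner_comm, cc3]
    have := two (i + 3)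
    rw [add_assoc, show (3 + 2 : ZMod 5) = 0 by decide, add_zero] at this
    exact this
  · rw [real_inner_comm, cc4]
    have := pent_next (i + 4)
    rw [add_assoc, show (4 + 1 : ZMod 5) = 0 by decide, add_zero] at this
    exact this

lemma pent_inner' (i j : ZMod 5) : inner ℝ (pentVertex i) (pentVertex j) = R2 * cc (j - i) := by
  have := pent_inner i (j - i)
  rwa [add_sub_cancel] at this

lemma cases5 (k : ZMod 5) : k = 0 ∨ k = 1 ∨ k = 2 ∨ k = 3 ∨ k = 4 := by
  revert k; decide

/-- The squared distance of a side point to a vertex. -/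
lemma side_dist (j k : ZMod 5) (t : ℝ) :
    inner ℝ (sidePoint j t - pentVertex (j + k)) (sidePoint j t - pentVertex (j + k)) =
      R2 * ((1 - t) ^ 2 + t ^ 2 + 1 + t * (1 - t) * g - 2 * (1 - t) * cc k - 2 * t * cc (k - 1)) := by
  rw [sidePoint_eq]
  simp only [inner_sub_left, inner_sub_right, inner_add_left, inner_add_right,
    real_inner_smul_left, real_inner_smul_right, pent_inner']
  have e1 : j - (j + 1) = (4 : ZMod 5) := by
    have : (4 : ZMod 5) = -1 := by decide
    rw [this]; ring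
  have e2 : j - (j + k) = -k := by ring
  have e3 : j + 1 - (j + k) = -(k - 1) := by ring
  have e4 : j + k - (j + 1) = k - 1 := by ring
  have e5 : ∀ x : ZMod 5, cc (-x) = cc x := by
    intro x
    rcases cases5 x with rfl | rfl | rfl | rfl | rfl
    · rw [neg_zero]
    · rw [show (-1 : ZMod 5) = 4 by decide, cc4, cc1]
    · rw [show (-2 : ZMod 5) = 3 by decide, cc3, cc2]
    · rw [show (-3 : ZMod 5) = 2 by decide, cc3, cc2]
    · rw [show (-4 : ZMod 5) = 1 by decide, cc4, cc1]
  rw [e1, e2, e3, e4, e5, e5, sub_self, sub_self, sub_self, add_sub_cancel_left,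
    add_sub_cancel_left, cc0, cc1, cc4]
  ring

lemma side_dist_zero (j : ZMod 5) (t : I) : dist (sP j t) (pv j) = t := by
  have h := side_dist j 0 t
  rw [add_zero, zero_sub, cc0, show (-1 : ZMod 5) = 4 by decide, cc4] at h
  have h1 : dist (sP j t) (pv j) = ‖sidePoint j t - pentVertex j‖ :=
    dist_eq_norm (sidePoint j (t : ℝ)) (pentVertex j)
  rw [h1, norm_eq_sqrt_real_inner, h]
  have h2 : R2 * ((1 - (t : ℝ)) ^ 2 + t ^ 2 + 1 + t * (1 - t) * g - 2 * (1 - t) * 1 -
      2 * t * (g / 2)) = (t : ℝ) ^ 2 := by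
    have := R2_eq
    linear_combination ((t : ℝ) ^ 2) * this
  rw [h2, Real.sqrt_sq t.2.1]

lemma side_dist_one (j : ZMod 5) (t : I) : dist (sP j t) (pv (j + 1)) = 1 - t := by
  have h := side_dist j 1 t
  rw [sub_self, cc0, cc1] at h
  have h1 : dist (sP j t) (pv (j + 1)) = ‖sidePoint j t - pentVertex (j + 1)‖ :=
    dist_eq_norm (sidePoint j (t : ℝ)) (pentVertex (j + 1))
  rw [h1, norm_eq_sqrt_real_inner, h]
  have h2 : R2 * ((1 - (t : ℝ)) ^ 2 + t ^ 2 + 1 + t * (1 - t) * g - 2 * (1 - t) * (g / 2) -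
      2 * t * 1) = (1 - (t : ℝ)) ^ 2 := by
    have := R2_eq
    linear_combination ((1 - (t : ℝ)) ^ 2) * this
  rw [h2, Real.sqrt_sq (by linarith [t.2.2])]

lemma side_dist_ge (j i : ZMod 5) (h0 : i ≠ j) (h1 : i ≠ j + 1) (t : I) :
    1 ≤ dist (sP j t) (pv i) := by
  obtain ⟨k, rfl⟩ : ∃ k, i = j + k := ⟨i - j, by ring⟩
  have h := side_dist j k t
  have h3 : dist (sP j t) (pv (j + k)) = ‖sidePoint j t - pentVertex (j + k)‖ :=
    dist_eq_norm (sidePoint j (t : ℝ)) (pentVertex (j + k))
  rw [h3, norm_eq_sqrt_real_inner, h, Real.le_sqrt' zero_lt_one, one_pow]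
  have hR := R2_eq
  have hRp := R2_pos
  have g1 := g_lt'
  have g2 := lt_g
  have t0 := t.2.1
  have t1 := t.2.2
  refine hR.symm.le.trans (mul_le_mul_of_nonneg_left ?_ hRp.le)
  have k1 : 0 ≤ (3 + g) - (2 - g) * (1 + (t : ℝ)) := by nlinarith
  have k2 : 0 ≤ (3 + g) - (2 - g) * (2 - (t : ℝ)) := by nlinarith
  have m1 := mul_nonneg (sub_nonneg.2 t1) k1
  have m2 := mul_nonneg t0 k2
  rcases cases5 k with rfl | rfl | rfl | rfl | rfl
  · exact absurd (add_zero j) h0
  · exact absurd rfl h1
  · rw [show (2 - 1 : ZMod 5) = 1 by decide, cc2, cc1]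
    nlinarith
  · rw [show (3 - 1 : ZMod 5) = 2 by decide, cc3, cc2]
    nlinarith [sq_nonneg ((t : ℝ) - 1 / 2), mul_nonneg t0 (sub_nonneg.2 t1)]
  · rw [show (4 - 1 : ZMod 5) = 3 by decide, cc4, cc3]
    nlinarith

/-- The hat function at a vertex. -/
noncomputable def hat (i : ZMod 5) (x : pentagon) : ℝ := max 0 (1 - dist x (pv i))

lemma hat_continuous (i : ZMod 5) : Continuous (hat i) := by
  unfold hat
  fun_prop

lemma hat_zero (j : ZMod 5) (t : I) : hat j (sP j t) = 1 - t := by
  unfold hat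
  rw [side_dist_zero, max_eq_right (by linarith [t.2.2])]

lemma hat_one (j : ZMod 5) (t : I) : hat (j + 1) (sP j t) = t := by
  unfold hat
  rw [side_dist_one, max_eq_right (by linarith [t.2.1])]
  ring

lemma hat_ne (j i : ZMod 5) (h0 : i ≠ j) (h1 : i ≠ j + 1) (t : I) : hat i (sP j t) = 0 := by
  unfold hat
  rw [max_eq_left (by linarith [side_dist_ge j i h0 h1 t])]

/-! ### Supporting functionals -/

/-- The outer normal of a side. -/
noncomputable def pn (j : ZMod 5) : E2 := pentVertex j + pentVertex (j + 1)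

lemma pn_inner (j k : ZMod 5) :
    inner ℝ (pn j) (pentVertex (j + k)) = R2 * (cc k + cc (k - 1)) := by
  unfold pn
  rw [inner_add_left, pent_inner, pent_inner']
  have : j + k - (j + 1) = k - 1 := by ring
  rw [this]; ring

lemma pn_eq (j i : ZMod 5) (h : i = j ∨ i = j + 1) :
    inner ℝ (pn j) (pentVertex i) = R2 * (1 + g / 2) := by
  rcases h with rfl | rfl
  · have := pn_inner i 0
    rw [add_zero, zero_sub, cc0, show (-1 : ZMod 5) = 4 by decide, cc4] at this
    exact this
  · have := pn_inner j 1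
    rw [sub_self, cc0, cc1] at this
    rw [this]; ring

lemma pn_lt (j i : ZMod 5) (h0 : i ≠ j) (h1 : i ≠ j + 1) :
    inner ℝ (pn j) (pentVertex i) < R2 * (1 + g / 2) := by
  obtain ⟨k, rfl⟩ : ∃ k, i = j + k := ⟨i - j, by ring⟩
  rw [pn_inner]
  have hRp := R2_pos
  have g1 := g_lt'
  have g2 := lt_g
  apply mul_lt_mul_of_pos_left _ hRp
  rcases cases5 k with rfl | rfl | rfl | rfl | rfl
  · exact absurd (add_zero j) h0
  · exact absurd rfl h1
  · rw [show (2 - 1 : ZMod 5) = 1 by decide, cc2, cc1]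
    linarith
  · rw [show (3 - 1 : ZMod 5) = 2 by decide, cc3, cc2]
    linarith
  · rw [show (4 - 1 : ZMod 5) = 3 by decide, cc4, cc3]
    linarith

lemma pn_le (j i : ZMod 5) : inner ℝ (pn j) (pentVertex i) ≤ R2 * (1 + g / 2) := by
  by_cases h : i = j ∨ i = j + 1
  · exact (pn_eq j i h).le
  · push Not at h
    exact (pn_lt j i h.1 h.2).le

lemma pn_side (j : ZMod 5) (t : ℝ) : inner ℝ (pn j) (sidePoint j t) = R2 * (1 + g / 2) := by
  rw [sidePoint_eq, inner_add_right, inner_smul_right, inner_smul_right, pn_eq j j (Or.inl rfl),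
    pn_eq j (j + 1) (Or.inr rfl)]
  ring

lemma pentVertex_inj : Function.Injective pentVertex := by
  intro i j h
  have h1 := pent_inner' i j
  rw [← h, pent_self] at h1
  have hRp := R2_pos
  have h2 : cc (j - i) = 1 := by
    have : R2 * 1 = R2 * cc (j - i) := by rw [mul_one]; exact h1
    exact (mul_left_cancel₀ hRp.ne' this).symm
  have g1 := g_lt'
  have g2 := lt_g
  rcases cases5 (j - i) with h3 | h3 | h3 | h3 | h3
  · exact (sub_eq_zero.1 h3).symm
  · rw [h3, cc1] at h2; linarith
  · rw [h3, cc2] at h2; linarith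
  · rw [h3, cc3] at h2; linarith
  · rw [h3, cc4] at h2; linarith

/-- Sides only meet at vertices. -/
lemma side_inter {i j : ZMod 5} {t r : ℝ} (h0 : 0 < t) (h1 : t < 1)
    (h : sidePoint i t = sidePoint j r) : i = j ∧ t = r := by
  have hne := pn_side j r
  rw [← h, sidePoint_eq, inner_add_right, inner_smul_right, inner_smul_right] at hne
  have l1 := pn_le j i
  have l2 := pn_le j (i + 1)
  have e1 : i = j ∨ i = j + 1 := by
    by_contra hc
    push Not at hc
    have := pn_lt j i hc.1 hc.2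
    nlinarith
  have e2 : i + 1 = j ∨ i + 1 = j + 1 := by
    by_contra hc
    push Not at hc
    have := pn_lt j (i + 1) hc.1 hc.2
    nlinarith
  have hij : i = j := by
    rcases e2 with e2 | e2
    · rcases e1 with e1 | e1
      · exact e1
      · exfalso
        rw [e1] at e2
        revert e2
        have : ∀ j : ZMod 5, j + 1 + 1 ≠ j := by decide
        exact this j
    · exact add_right_cancel e2
  subst hij
  refine ⟨rfl, ?_⟩
  rw [sidePoint_eq, sidePoint_eq] at h
  have h3 : (t - r) • (pentVertex (i + 1) - pentVertex i) = 0 := by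
    have : (t - r) • (pentVertex (i + 1) - pentVertex i) =
      ((1 - t) • pentVertex i + t • pentVertex (i + 1)) -
      ((1 - r) • pentVertex i + r • pentVertex (i + 1)) := by module
    rw [this, h, sub_self]
  rcases smul_eq_zero.1 h3 with h4 | h4
  · linarith
  · exfalso
    have := pentVertex_inj (sub_eq_zero.1 h4)
    revert this
    have : ∀ i : ZMod 5, i + 1 ≠ i := by decide
    exact this i

/-- A point near a vertex in the interior of the pentagon. -/
noncomputable def cornerPt (i : ZMod 5) (t : ℝ) : E2 :=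
  pentVertex i + t • (pentVertex (i - 1) - pentVertex i) + t • (pentVertex (i + 1) - pentVertex i)

lemma cornerPt_mem (i : ZMod 5) {t : ℝ} (h0 : 0 ≤ t) (h1 : t ≤ 1 / 2) :
    cornerPt i t ∈ pentagon := by
  have e : cornerPt i t = (1 / 2 : ℝ) • ((1 - 2 * t) • pentVertex i + (2 * t) • pentVertex (i - 1)) +
      (1 / 2 : ℝ) • ((1 - 2 * t) • pentVertex i + (2 * t) • pentVertex (i + 1)) := by
    unfold cornerPt
    module
  rw [e]
  apply pentagon_convex
  · exact pentagon_convex (pentVertex_mem i) (pentVertex_mem _) (by linarith) (by linarith) (by ring)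
  · exact pentagon_convex (pentVertex_mem i) (pentVertex_mem _) (by linarith) (by linarith) (by ring)
  · norm_num
  · norm_num
  · norm_num

lemma cornerPt_ne_side (i : ZMod 5) {t : ℝ} (h0 : 0 < t) (h1 : t < 1 / 2) (j : ZMod 5) (r : ℝ) :
    cornerPt i t ≠ sidePoint j r := by
  intro h
  have hne := pn_side j r
  have e : cornerPt i t = (1 - 2 * t) • pentVertex i + t • pentVertex (i - 1) +
      t • pentVertex (i + 1) := by
    unfold cornerPt
    module
  rw [← h, e, inner_add_right, inner_add_right, inner_smul_right, inner_smul_right,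
    inner_smul_right] at hne
  have l0 := pn_le j i
  have l1 := pn_le j (i - 1)
  have l2 := pn_le j (i + 1)
  have key : ∀ i j : ZMod 5, (i ≠ j ∧ i ≠ j + 1) ∨ (i - 1 ≠ j ∧ i - 1 ≠ j + 1) ∨
      (i + 1 ≠ j ∧ i + 1 ≠ j + 1) := by decide
  rcases key i j with ⟨a, b⟩ | ⟨a, b⟩ | ⟨a, b⟩
  · have := pn_lt j _ a b
    nlinarith
  · have := pn_lt j _ a b
    nlinarith
  · have := pn_lt j _ a b
    nlinarith

end Pool.Agent.Lib.MP_59160a_co
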