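import Mathlib

/-!
Triangulated polygons by ear removal.
-/

set_option autoImplicit false

namespace Pool.Agent.Lib.MP_59160a_co

/-- An ordered triangle. -/
def Tri {X : Type*} (Adj : X → X → Prop) (Y : Finset X) (a b c : X) : Prop :=
  a ∈ Y ∧ b ∈ Y ∧ c ∈ Y ∧ Adj a b ∧ Adj b c ∧ Adj a c

section

variable {X : Type*} [DecidableEq X]

/-- Removing a point from a cyclic permutation. -/
def cut (τ : Equiv.Perm X) (z : X) : Equiv.Perm X := Equiv.swap z (τ z) * τ

theorem cut_pred (τ : Equiv.Perm X) {z p : X} (h : τ p = z) : cut τ z p = τ z := by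
  simp [cut, h]

theorem cut_of_ne (τ : Equiv.Perm X) {z a : X} (h : a ≠ z) (h' : τ a ≠ z) :
    cut τ z a = τ a := by
  simp only [cut, Equiv.Perm.mul_apply]
  apply Equiv.swap_apply_of_ne_of_ne h'
  intro h2
  exact h (τ.injective h2)

theorem cut_sameCycle (τ : Equiv.Perm X) {z : X} (hz : τ z ≠ z) :
    ∀ n : ℕ, ∀ x y : X, x ≠ z → y ≠ z → (τ ^ n) x = y → (cut τ z).SameCycle x y := by
  intro n
  induction n using Nat.strong_induction_on with
  | _ n ih =>
    intro x y hx hy h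
    rcases n with _ | n
    · have : x = y := by simpa using h
      exact this ▸ Equiv.Perm.SameCycle.refl _ _
    · rw [pow_succ, Equiv.Perm.mul_apply] at h
      by_cases h1 : τ x = z
      · rcases n with _ | n
        · exfalso
          apply hy
          rw [← h, ← h1]
          simp
        · rw [h1, pow_succ, Equiv.Perm.mul_apply] at h
          have h2 := ih n (by omega) (τ z) y hz hy h
          rw [← cut_pred τ h1] at h2
          rwa [Equiv.Perm.sameCycle_apply_left] at h2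
      · have h2 := ih n (by omega) (τ x) y h1 hy h
        rw [← cut_of_ne τ hx h1] at h2
        rwa [Equiv.Perm.sameCycle_apply_left] at h2

theorem cut_isCycleOn (τ : Equiv.Perm X) (Y : Finset X) (hcyc : τ.IsCycleOn (Y : Set X))
    {z : X} (hzY : z ∈ Y) (hz : τ z ≠ z) : (cut τ z).IsCycleOn ((Y.erase z : Finset X) : Set X) := by
  have hmem : ∀ x ∈ Y, τ x ∈ Y := fun x hx => hcyc.1.mapsTo hx
  constructor
  · have hmaps : Set.MapsTo (cut τ z) ((Y.erase z : Finset X) : Set X)
        ((Y.erase z : Finset X) : Set X) := by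
      intro x hx
      rw [Finset.mem_coe, Finset.mem_erase] at hx
      rw [Finset.mem_coe, Finset.mem_erase]
      by_cases h1 : τ x = z
      · rw [cut_pred τ h1]
        exact ⟨hz, hmem z hzY⟩
      · rw [cut_of_ne τ hx.1 h1]
        exact ⟨h1, hmem x hx.2⟩
    refine ⟨hmaps, (cut τ z).injective.injOn, ?_⟩
    exact Finset.surjOn_of_injOn_of_card_le (cut τ z) hmaps (cut τ z).injective.injOn le_rfl
  · intro x hx y hy
    rw [Finset.mem_coe, Finset.mem_erase] at hx hy
    obtain ⟨n, _, hn⟩ := hcyc.exists_pow_eq hx.2 hy.2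
    exact cut_sameCycle τ hz n x y hx.1 hy.1 hn

variable (Adj : X → X → Prop)

/-- The conclusion of the polygon theorem. -/
def Concl (Y : Finset X) (τ : Equiv.Perm X) : Prop :=
  (∀ a ∈ Y, ∃! c, c ∈ Y ∧ Adj a c ∧ Adj (τ a) c) ∧
  (∀ a ∈ Y, ∀ b ∈ Y, Adj a b → b ≠ τ a → a ≠ τ b →
    {c | c ∈ Y ∧ Adj a c ∧ Adj b c}.ncard = 2) ∧
  {p : X × X × X | Tri Adj Y p.1 p.2.1 p.2.2}.ncard + 12 = 6 * Y.card ∧
  (∀ w : X → X → X → Prop, (∀ a b c, Tri Adj Y a b c → (w a b c ↔ w b a c)) →
    (∀ a b c, Tri Adj Y a b c → (w a b c ↔ w a c b)) →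
    (∀ a b c c', Tri Adj Y a b c → Tri Adj Y a b c' → (w a b c ↔ w a b c')) →
    ∀ a b c a' b' c', Tri Adj Y a b c → Tri Adj Y a' b' c' → w a b c → w a' b' c')

variable {Adj}
variable (hsymm : ∀ a b, Adj a b → Adj b a) (hirr : ∀ a, ¬ Adj a a)
  (Y : Finset X) (z p q : X) (hz : z ∈ Y) (hp : p ∈ Y) (hq : q ∈ Y)
  (hzp : Adj z p) (hzq : Adj z q) (hpq : Adj p q)
  (hnb : ∀ a ∈ Y, Adj z a → a = p ∨ a = q)

include hsymm hirr hz hp hq hzp hzq hpq hnb in
theorem tri_iff (a b c : X) : Tri Adj Y a b c ↔ Tri Adj (Y.erase z) a b c ∨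
    (a = z ∧ b = p ∧ c = q) ∨ (a = z ∧ b = q ∧ c = p) ∨ (a = p ∧ b = z ∧ c = q) ∨
    (a = p ∧ b = q ∧ c = z) ∨ (a = q ∧ b = z ∧ c = p) ∨ (a = q ∧ b = p ∧ c = z) := by
  constructor
  · rintro ⟨ha, hb, hc, hab, hbc, hac⟩
    by_cases h1 : a = z
    · subst h1
      rcases hnb b hb hab with rfl | rfl
      · rcases hnb c hc hac with rfl | rfl
        · exact absurd hbc (hirr _)
        · exact Or.inr (Or.inl ⟨rfl, rfl, rfl⟩)
      · rcases hnb c hc hac with rfl | rfl
        · exact Or.inr (Or.inr (Or.inl ⟨rfl, rfl, rfl⟩))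
        · exact absurd hbc (hirr _)
    · by_cases h2 : b = z
      · subst h2
        rcases hnb a ha (hsymm _ _ hab) with rfl | rfl
        · rcases hnb c hc hbc with rfl | rfl
          · exact absurd hac (hirr _)
          · exact Or.inr (Or.inr (Or.inr (Or.inl ⟨rfl, rfl, rfl⟩)))
        · rcases hnb c hc hbc with rfl | rfl
          · exact Or.inr (Or.inr (Or.inr (Or.inr (Or.inr (Or.inl ⟨rfl, rfl, rfl⟩)))))
          · exact absurd hac (hirr _)
      · by_cases h3 : c = z
        · subst h3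
          rcases hnb a ha (hsymm _ _ hac) with rfl | rfl
          · rcases hnb b hb (hsymm _ _ hbc) with rfl | rfl
            · exact absurd hab (hirr _)
            · exact Or.inr (Or.inr (Or.inr (Or.inr (Or.inl ⟨rfl, rfl, rfl⟩))))
          · rcases hnb b hb (hsymm _ _ hbc) with rfl | rfl
            · exact Or.inr (Or.inr (Or.inr (Or.inr (Or.inr (Or.inr ⟨rfl, rfl, rfl⟩)))))
            · exact absurd hab (hirr _)
        · left
          exact ⟨Finset.mem_erase.2 ⟨h1, ha⟩, Finset.mem_erase.2 ⟨h2, hb⟩,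
            Finset.mem_erase.2 ⟨h3, hc⟩, hab, hbc, hac⟩
  · rintro (⟨ha, hb, hc, hab, hbc, hac⟩ | ⟨rfl, rfl, rfl⟩ | ⟨rfl, rfl, rfl⟩ | ⟨rfl, rfl, rfl⟩ |
      ⟨rfl, rfl, rfl⟩ | ⟨rfl, rfl, rfl⟩ | ⟨rfl, rfl, rfl⟩)
    · exact ⟨Finset.mem_of_mem_erase ha, Finset.mem_of_mem_erase hb,
        Finset.mem_of_mem_erase hc, hab, hbc, hac⟩
    · exact ⟨hz, hp, hq, hzp, hpq, hzq⟩
    · exact ⟨hz, hq, hp, hzq, hsymm _ _ hpq, hzp⟩
    · exact ⟨hp, hz, hq, hsymm _ _ hzp, hzq, hpq⟩
    · exact ⟨hp, hq, hz, hpq, hsymm _ _ hzq, hsymm _ _ hzp⟩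
    · exact ⟨hq, hz, hp, hsymm _ _ hzq, hzp, hsymm _ _ hpq⟩
    · exact ⟨hq, hp, hz, hsymm _ _ hpq, hsymm _ _ hzp, hsymm _ _ hzq⟩

include hsymm hirr hz hp hq hzp hzq hpq hnb in
theorem tri_card : {t : X × X × X | Tri Adj Y t.1 t.2.1 t.2.2}.ncard
    = {t : X × X × X | Tri Adj (Y.erase z) t.1 t.2.1 t.2.2}.ncard + 6 := by
  have hzp' : z ≠ p := fun h => hirr p (h ▸ hzp)
  have hzq' : z ≠ q := fun h => hirr q (h ▸ hzq)
  have hpq' : p ≠ q := fun h => hirr q (h ▸ hpq)
  let S6 : Finset (X × X × X) :=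
    {(z, p, q), (z, q, p), (p, z, q), (p, q, z), (q, z, p), (q, p, z)}
  have h6 : S6.card = 6 := by
    simp only [S6]
    rw [Finset.card_insert_of_notMem, Finset.card_insert_of_notMem,
      Finset.card_insert_of_notMem, Finset.card_insert_of_notMem,
      Finset.card_insert_of_notMem, Finset.card_singleton] <;>
    simp [hzp', hzq', hpq', hzp'.symm, hzq'.symm, hpq'.symm]
  have hU : {t : X × X × X | Tri Adj Y t.1 t.2.1 t.2.2}
      = {t : X × X × X | Tri Adj (Y.erase z) t.1 t.2.1 t.2.2} ∪ (S6 : Set (X × X × X)) := by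
    ext ⟨a, b, c⟩
    simp only [Set.mem_ofPred_eq, Set.mem_union, S6, Finset.coe_insert, Finset.coe_singleton,
      Set.mem_insert_iff, Set.mem_singleton_iff, Prod.mk.injEq]
    exact tri_iff hsymm hirr Y z p q hz hp hq hzp hzq hpq hnb a b c
  have hfin : {t : X × X × X | Tri Adj (Y.erase z) t.1 t.2.1 t.2.2}.Finite := by
    apply Set.Finite.subset (Finset.finite_toSet (Y ×ˢ (Y ×ˢ Y)))
    rintro ⟨a, b, c⟩ ⟨ha, hb, hc, _⟩
    simp only [Finset.coe_product, Set.mem_prod, Finset.mem_coe]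
    exact ⟨Finset.mem_of_mem_erase ha, Finset.mem_of_mem_erase hb, Finset.mem_of_mem_erase hc⟩
  have hdisj : Disjoint {t : X × X × X | Tri Adj (Y.erase z) t.1 t.2.1 t.2.2}
      (S6 : Set (X × X × X)) := by
    rw [Set.disjoint_left]
    rintro ⟨a, b, c⟩ ⟨ha, hb, hc, _⟩ h
    have ha' := (Finset.mem_erase.1 ha).1
    have hb' := (Finset.mem_erase.1 hb).1
    have hc' := (Finset.mem_erase.1 hc).1
    simp only [S6, Finset.coe_insert, Finset.coe_singleton,
      Set.mem_insert_iff, Set.mem_singleton_iff, Prod.mk.injEq] at h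
    simp only at ha' hb' hc'
    tauto
  rw [hU, Set.ncard_union_eq hdisj hfin (Finset.finite_toSet _), Set.ncard_coe_finset, h6]

include hsymm hirr hz hp hq hzp hzq hpq hnb in
theorem concl_step (τ : Equiv.Perm X) (hτp : τ p = z) (hτz : τ z = q) (hqp : τ q ≠ p)
    (hτY : ∀ x ∈ Y, τ x ∈ Y) (hc : Concl Adj (Y.erase z) (cut τ z)) : Concl Adj Y τ := by
  have hzp' : z ≠ p := fun h => hirr p (h ▸ hzp)
  have hzq' : z ≠ q := fun h => hirr q (h ▸ hzq)
  have hpq' : p ≠ q := fun h => hirr q (h ▸ hpq)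
  obtain ⟨c1, c2, c3, c4⟩ := hc
  have hcp : cut τ z p = q := by rw [cut_pred τ hτp, hτz]
  have hco : ∀ a, a ≠ z → a ≠ p → cut τ z a = τ a := by
    intro a ha hap
    apply cut_of_ne τ ha
    intro h
    apply hap
    apply τ.injective
    rw [h, hτp]
  have hpe : p ∈ Y.erase z := Finset.mem_erase.2 ⟨hzp'.symm, hp⟩
  have hqe : q ∈ Y.erase z := Finset.mem_erase.2 ⟨hzq'.symm, hq⟩
  have hcard : Y.card = (Y.erase z).card + 1 := (Finset.card_erase_add_one hz).symm
  refine ⟨?_, ?_, ?_, ?_⟩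
  · intro a ha
    by_cases h1 : a = z
    · subst h1
      refine ⟨p, ⟨hp, hzp, ?_⟩, ?_⟩
      · rw [hτz]
        exact hsymm _ _ hpq
      · rintro c ⟨hc, hac, hqc⟩
        rw [hτz] at hqc
        rcases hnb c hc hac with rfl | rfl
        · rfl
        · exact absurd hqc (hirr _)
    · by_cases h2 : a = p
      · subst h2
        refine ⟨q, ⟨hq, hpq, ?_⟩, ?_⟩
        · rw [hτp]
          exact hzq
        · rintro c ⟨hc, hac, hqc⟩
          rw [hτp] at hqc
          rcases hnb c hc hqc with rfl | rfl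
          · exact absurd hac (hirr _)
          · rfl
      · obtain ⟨c, ⟨hcY, hac, htc⟩, hu⟩ := c1 a (Finset.mem_erase.2 ⟨h1, ha⟩)
        rw [hco a h1 h2] at htc
        refine ⟨c, ⟨Finset.mem_of_mem_erase hcY, hac, htc⟩, ?_⟩
        rintro c' ⟨hcY', hac', htc'⟩
        apply hu
        refine ⟨Finset.mem_erase.2 ⟨?_, hcY'⟩, hac', ?_⟩
        · rintro rfl
          rcases hnb a ha (hsymm _ _ hac') with h | h
          · exact h2 h
          · rcases hnb (τ a) (hτY a ha) (hsymm _ _ htc') with h' | h'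
            · rw [h] at h'
              exact hqp h'
            · apply h1
              apply τ.injective
              rw [h', hτz]
        · rw [hco a h1 h2]
          exact htc'
  · intro a ha b hb hab hne1 hne2
    by_cases h1 : a = z
    · subst h1
      rcases hnb b hb hab with rfl | rfl
      · exact absurd hτp.symm hne2
      · exact absurd hτz.symm hne1
    · by_cases h2 : b = z
      · subst h2
        rcases hnb a ha (hsymm _ _ hab) with rfl | rfl
        · exact absurd hτp.symm hne1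
        · exact absurd hτz.symm hne2
      · by_cases h3 : (a = p ∧ b = q) ∨ (a = q ∧ b = p)
        · obtain ⟨c, ⟨hcY, hac, htc⟩, hu⟩ := c1 p hpe
          rw [hcp] at htc
          have hcz : c ≠ z := (Finset.mem_erase.1 hcY).1
          have hset : {c | c ∈ Y ∧ Adj a c ∧ Adj b c} = {c, z} := by
            have hset' : {c | c ∈ Y ∧ Adj p c ∧ Adj q c} = {c, z} := by
              ext d
              simp only [Set.mem_ofPred_eq, Set.mem_insert_iff, Set.mem_singleton_iff]
              constructor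
              · rintro ⟨hd, hpd, hqd⟩
                by_cases hdz : d = z
                · exact Or.inr hdz
                · left
                  apply hu
                  refine ⟨Finset.mem_erase.2 ⟨hdz, hd⟩, hpd, ?_⟩
                  rw [hcp]
                  exact hqd
              · rintro (rfl | rfl)
                · exact ⟨Finset.mem_of_mem_erase hcY, hac, htc⟩
                · exact ⟨hz, hsymm _ _ hzp, hsymm _ _ hzq⟩
            rcases h3 with ⟨rfl, rfl⟩ | ⟨rfl, rfl⟩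
            · exact hset'
            · rw [← hset']
              ext d
              simp only [Set.mem_ofPred_eq]
              tauto
          rw [hset, Set.ncard_pair hcz]
        · have h4 := c2 a (Finset.mem_erase.2 ⟨h1, ha⟩) b (Finset.mem_erase.2 ⟨h2, hb⟩) hab
            (by
              by_cases hap : a = p
              · rw [hap, hcp]
                intro hbq
                exact h3 (Or.inl ⟨hap, hbq⟩)
              · rw [hco a h1 hap]
                exact hne1)
            (by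
              by_cases hbp : b = p
              · rw [hbp, hcp]
                intro haq
                exact h3 (Or.inr ⟨haq, hbp⟩)
              · rw [hco b h2 hbp]
                exact hne2)
          rw [← h4]
          congr 1
          ext d
          simp only [Set.mem_ofPred_eq, Finset.mem_erase]
          constructor
          · rintro ⟨hd, had, hbd⟩
            refine ⟨⟨?_, hd⟩, had, hbd⟩
            rintro rfl
            rcases hnb a ha (hsymm _ _ had) with h5 | h5 <;>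
            rcases hnb b hb (hsymm _ _ hbd) with h6 | h6
            · exact hirr p (by rw [h5, h6] at hab; exact hab)
            · exact h3 (Or.inl ⟨h5, h6⟩)
            · exact h3 (Or.inr ⟨h5, h6⟩)
            · exact hirr q (by rw [h5, h6] at hab; exact hab)
          · rintro ⟨⟨_, hd⟩, had, hbd⟩
            exact ⟨hd, had, hbd⟩
  · have := tri_card hsymm hirr Y z p q hz hp hq hzp hzq hpq hnb
    omega
  · intro w w1 w2 w3
    have hsub : ∀ a b c, Tri Adj (Y.erase z) a b c → Tri Adj Y a b c := by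
      intro a b c h
      exact (tri_iff hsymm hirr Y z p q hz hp hq hzp hzq hpq hnb a b c).2 (Or.inl h)
    have hold := c4 w (fun a b c h => w1 a b c (hsub a b c h))
      (fun a b c h => w2 a b c (hsub a b c h))
      (fun a b c c' h h' => w3 a b c c' (hsub a b c h) (hsub a b c' h'))
    obtain ⟨c0, ⟨hc0Y, hpc0, hqc0⟩, -⟩ := c1 p hpe
    rw [hcp] at hqc0
    have T0 : Tri Adj (Y.erase z) p q c0 := ⟨hpe, hqe, hc0Y, hpq, hqc0, hpc0⟩
    have t1 : Tri Adj Y z p q := ⟨hz, hp, hq, hzp, hpq, hzq⟩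
    have t2 : Tri Adj Y z q p := ⟨hz, hq, hp, hzq, hsymm _ _ hpq, hzp⟩
    have t3 : Tri Adj Y p z q := ⟨hp, hz, hq, hsymm _ _ hzp, hzq, hpq⟩
    have t4 : Tri Adj Y p q z := ⟨hp, hq, hz, hpq, hsymm _ _ hzq, hsymm _ _ hzp⟩
    have t5 : Tri Adj Y q z p := ⟨hq, hz, hp, hsymm _ _ hzq, hzp, hsymm _ _ hpq⟩
    have t6 : Tri Adj Y q p z := ⟨hq, hp, hz, hsymm _ _ hpq, hsymm _ _ hzp, hsymm _ _ hzq⟩
    have e0 : w p q z ↔ w p q c0 := w3 p q z c0 t4 (hsub _ _ _ T0)
    have e1 : w p q z ↔ w q p z := w1 p q z t4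
    have e2 : w p q z ↔ w p z q := w2 p q z t4
    have e3 : w q p z ↔ w q z p := w2 q p z t6
    have e4 : w p z q ↔ w z p q := w1 p z q t3
    have e5 : w q z p ↔ w z q p := w1 q z p t5
    have key : ∀ a b c, Tri Adj Y a b c → (w a b c ↔ w p q c0) := by
      intro a b c h
      rcases (tri_iff hsymm hirr Y z p q hz hp hq hzp hzq hpq hnb a b c).1 h with
        h | ⟨rfl, rfl, rfl⟩ | ⟨rfl, rfl, rfl⟩ | ⟨rfl, rfl, rfl⟩ |
        ⟨rfl, rfl, rfl⟩ | ⟨rfl, rfl, rfl⟩ | ⟨rfl, rfl, rfl⟩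
      · exact ⟨hold _ _ _ _ _ _ h T0, hold _ _ _ _ _ _ T0 h⟩
      · exact e4.symm.trans (e2.symm.trans e0)
      · exact e5.symm.trans (e3.symm.trans (e1.symm.trans e0))
      · exact e2.symm.trans e0
      · exact e0
      · exact e3.symm.trans (e1.symm.trans e0)
      · exact e1.symm.trans e0
    intro a b c a' b' c' h h' hw
    exact (key a' b' c' h').2 ((key a b c h).1 hw)

include hsymm hirr hz hp hq hzp hzq hpq hnb in
theorem concl_base (τ : Equiv.Perm X) (hτp : τ p = z) (hτz : τ z = q) (hqp : τ q = p)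
    (hY : Y.card = 3) : Concl Adj Y τ := by
  have hzp' : z ≠ p := fun h => hirr p (h ▸ hzp)
  have hzq' : z ≠ q := fun h => hirr q (h ▸ hzq)
  have hpq' : p ≠ q := fun h => hirr q (h ▸ hpq)
  have hYeq : Y = {z, p, q} := by
    symm
    apply Finset.eq_of_subset_of_card_le
    · intro x hx
      simp only [Finset.mem_insert, Finset.mem_singleton] at hx
      rcases hx with rfl | rfl | rfl <;> assumption
    · rw [hY, Finset.card_insert_of_notMem, Finset.card_insert_of_notMem,
        Finset.card_singleton] <;> simp [hzp', hzq', hpq']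
  have hYm : ∀ x ∈ Y, x = z ∨ x = p ∨ x = q := by
    intro x hx
    rw [hYeq] at hx
    simpa using hx
  have hno : ∀ a b c, ¬ Tri Adj (Y.erase z) a b c := by
    rintro a b c ⟨ha, hb, hc, hab, hbc, hac⟩
    rw [Finset.mem_erase] at ha hb hc
    rcases hYm a ha.2 with rfl | rfl | rfl
    · exact ha.1 rfl
    · rcases hYm b hb.2 with rfl | rfl | rfl
      · exact hb.1 rfl
      · exact hirr _ hab
      · rcases hYm c hc.2 with rfl | rfl | rfl
        · exact hc.1 rfl
        · exact hirr _ hac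
        · exact hirr _ hbc
    · rcases hYm b hb.2 with rfl | rfl | rfl
      · exact hb.1 rfl
      · rcases hYm c hc.2 with rfl | rfl | rfl
        · exact hc.1 rfl
        · exact hirr _ hbc
        · exact hirr _ hac
      · exact hirr _ hab
  refine ⟨?_, ?_, ?_, ?_⟩
  · intro a ha
    rcases hYm a ha with rfl | rfl | rfl
    · rw [hτz]
      refine ⟨p, ⟨hp, hzp, hsymm _ _ hpq⟩, ?_⟩
      rintro c ⟨hc, h1, h2⟩
      rcases hYm c hc with rfl | rfl | rfl
      · exact absurd h1 (hirr _)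
      · rfl
      · exact absurd h2 (hirr _)
    · rw [hτp]
      refine ⟨q, ⟨hq, hpq, hzq⟩, ?_⟩
      rintro c ⟨hc, h1, h2⟩
      rcases hYm c hc with rfl | rfl | rfl
      · exact absurd h2 (hirr _)
      · exact absurd h1 (hirr _)
      · rfl
    · rw [hqp]
      refine ⟨z, ⟨hz, hsymm _ _ hzq, hsymm _ _ hzp⟩, ?_⟩
      rintro c ⟨hc, h1, h2⟩
      rcases hYm c hc with rfl | rfl | rfl
      · rfl
      · exact absurd h2 (hirr _)
      · exact absurd h1 (hirr _)
  · intro a ha b hb hab h1 h2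
    exfalso
    rcases hYm a ha with rfl | rfl | rfl <;> rcases hYm b hb with rfl | rfl | rfl
    · exact hirr _ hab
    · exact h2 hτp.symm
    · exact h1 hτz.symm
    · exact h1 hτp.symm
    · exact hirr _ hab
    · exact h2 hqp.symm
    · exact h2 hτz.symm
    · exact h1 hqp.symm
    · exact hirr _ hab
  · have h1 := tri_card hsymm hirr Y z p q hz hp hq hzp hzq hpq hnb
    have h2 : {t : X × X × X | Tri Adj (Y.erase z) t.1 t.2.1 t.2.2} = ∅ := by
      ext ⟨a, b, c⟩
      simp only [Set.mem_ofPred_eq, Set.mem_empty_iff_false, iff_false]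
      exact hno a b c
    rw [h2, Set.ncard_empty] at h1
    omega
  · intro w w1 w2 w3
    have t1 : Tri Adj Y z p q := ⟨hz, hp, hq, hzp, hpq, hzq⟩
    have t2 : Tri Adj Y z q p := ⟨hz, hq, hp, hzq, hsymm _ _ hpq, hzp⟩
    have t3 : Tri Adj Y p z q := ⟨hp, hz, hq, hsymm _ _ hzp, hzq, hpq⟩
    have t4 : Tri Adj Y p q z := ⟨hp, hq, hz, hpq, hsymm _ _ hzq, hsymm _ _ hzp⟩
    have t5 : Tri Adj Y q z p := ⟨hq, hz, hp, hsymm _ _ hzq, hzp, hsymm _ _ hpq⟩
    have t6 : Tri Adj Y q p z := ⟨hq, hp, hz, hsymm _ _ hpq, hsymm _ _ hzp, hsymm _ _ hzq⟩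
    have e1 : w p q z ↔ w q p z := w1 p q z t4
    have e2 : w p q z ↔ w p z q := w2 p q z t4
    have e3 : w q p z ↔ w q z p := w2 q p z t6
    have e4 : w p z q ↔ w z p q := w1 p z q t3
    have e5 : w q z p ↔ w z q p := w1 q z p t5
    have key : ∀ a b c, Tri Adj Y a b c → (w a b c ↔ w p q z) := by
      intro a b c h
      rcases (tri_iff hsymm hirr Y z p q hz hp hq hzp hzq hpq hnb a b c).1 h with
        h | ⟨rfl, rfl, rfl⟩ | ⟨rfl, rfl, rfl⟩ | ⟨rfl, rfl, rfl⟩ |
        ⟨rfl, rfl, rfl⟩ | ⟨rfl, rfl, rfl⟩ | ⟨rfl, rfl, rfl⟩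
      · exact absurd h (hno _ _ _)
      · exact e4.symm.trans e2.symm
      · exact e5.symm.trans (e3.symm.trans e1.symm)
      · exact e2.symm
      · exact Iff.rfl
      · exact e3.symm.trans e1.symm
      · exact e1.symm
    intro a b c a' b' c' h h' hw
    exact (key a' b' c' h').2 ((key a b c h).1 hw)

end

/-- Triangulated polygons: a polygon whose chord graph has ears is triangulated. -/
theorem polygon {X : Type*} [DecidableEq X] (Adj : X → X → Prop)
    (hsymm : ∀ a b, Adj a b → Adj b a) (hirr : ∀ a, ¬ Adj a a)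
    (Y : Finset X) (τ : Equiv.Perm X) (hcyc : τ.IsCycleOn (Y : Set X)) (h3 : 3 ≤ Y.card)
    (hadj : ∀ x ∈ Y, Adj x (τ x))
    (hear : ∀ Z ⊆ Y, Z.Nonempty → ∃ z ∈ Z,
      (∀ a ∈ Z, ∀ b ∈ Z, Adj z a → Adj z b → a ≠ b → Adj a b) ∧
      (∀ a ∈ Z, ∀ b ∈ Z, ∀ c ∈ Z, Adj z a → Adj z b → Adj z c → a = b ∨ b = c ∨ a = c)) :
    (∀ a ∈ Y, ∃! c, c ∈ Y ∧ Adj a c ∧ Adj (τ a) c) ∧
    (∀ a ∈ Y, ∀ b ∈ Y, Adj a b → b ≠ τ a → a ≠ τ b →
      {c | c ∈ Y ∧ Adj a c ∧ Adj b c}.ncard = 2) ∧
    {p : X × X × X | Tri Adj Y p.1 p.2.1 p.2.2}.ncard + 12 = 6 * Y.card ∧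
    (∀ w : X → X → X → Prop, (∀ a b c, Tri Adj Y a b c → (w a b c ↔ w b a c)) →
      (∀ a b c, Tri Adj Y a b c → (w a b c ↔ w a c b)) →
      (∀ a b c c', Tri Adj Y a b c → Tri Adj Y a b c' → (w a b c ↔ w a b c')) →
      ∀ a b c a' b' c', Tri Adj Y a b c → Tri Adj Y a' b' c' → w a b c → w a' b' c') := by
  suffices H : ∀ n : ℕ, ∀ (Y : Finset X) (τ : Equiv.Perm X), Y.card = n + 3 →
      τ.IsCycleOn (Y : Set X) → (∀ x ∈ Y, Adj x (τ x)) →
      (∀ Z ⊆ Y, Z.Nonempty → ∃ z ∈ Z,
        (∀ a ∈ Z, ∀ b ∈ Z, Adj z a → Adj z b → a ≠ b → Adj a b) ∧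
        (∀ a ∈ Z, ∀ b ∈ Z, ∀ c ∈ Z, Adj z a → Adj z b → Adj z c → a = b ∨ b = c ∨ a = c)) →
      Concl Adj Y τ from H (Y.card - 3) Y τ (by omega) hcyc hadj hear
  intro n
  induction n with
  | zero =>
    intro Y τ hY hcyc hadj hear
    obtain ⟨z, hz, hz1, hz2⟩ := hear Y (Finset.Subset.refl _) (Finset.card_pos.1 (by omega))
    have hτY : ∀ x ∈ Y, τ x ∈ Y := fun x hx => hcyc.1.mapsTo hx
    obtain ⟨p, hpm, hτp⟩ := hcyc.1.surjOn (Finset.mem_coe.2 hz)
    have hp : p ∈ Y := Finset.mem_coe.1 hpm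
    have hq : τ z ∈ Y := hτY z hz
    have hpq' : p ≠ τ z := by
      intro h
      have h2 : (τ ^ 2) p = p := by
        rw [pow_two, Equiv.Perm.mul_apply, hτp, ← h]
      rw [hcyc.pow_apply_eq hp] at h2
      have := Nat.le_of_dvd (by norm_num) h2
      omega
    have h33 : τ (τ z) = p := by
      have h2 : (τ ^ 3) p = p := by
        rw [hcyc.pow_apply_eq hp]
        exact ⟨1, by omega⟩
      rw [pow_succ, pow_two, Equiv.Perm.mul_apply, Equiv.Perm.mul_apply, hτp] at h2
      exact h2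
    have hzp : Adj z p := hsymm _ _ (by have := hadj p hp; rwa [hτp] at this)
    have hzq : Adj z (τ z) := hadj z hz
    have hpq : Adj p (τ z) := hz1 p hp (τ z) hq hzp hzq hpq'
    refine concl_base hsymm hirr Y z p (τ z) hz hp hq hzp hzq hpq ?_ τ hτp rfl h33 (by omega)
    intro a ha hza
    rcases hz2 a ha p hp (τ z) hq hza hzp hzq with h | h | h
    · exact Or.inl h
    · exact absurd h hpq'
    · exact Or.inr h
  | succ n ih =>
    intro Y τ hY hcyc hadj hear
    obtain ⟨z, hz, hz1, hz2⟩ := hear Y (Finset.Subset.refl _) (Finset.card_pos.1 (by omega))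
    have hτY : ∀ x ∈ Y, τ x ∈ Y := fun x hx => hcyc.1.mapsTo hx
    obtain ⟨p, hpm, hτp⟩ := hcyc.1.surjOn (Finset.mem_coe.2 hz)
    have hp : p ∈ Y := Finset.mem_coe.1 hpm
    have hq : τ z ∈ Y := hτY z hz
    have hpq' : p ≠ τ z := by
      intro h
      have h2 : (τ ^ 2) p = p := by
        rw [pow_two, Equiv.Perm.mul_apply, hτp, ← h]
      rw [hcyc.pow_apply_eq hp] at h2
      have := Nat.le_of_dvd (by norm_num) h2
      omega
    have h33 : τ (τ z) ≠ p := by
      intro h
      have h2 : (τ ^ 3) p = p := by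
        rw [pow_succ, pow_two, Equiv.Perm.mul_apply, Equiv.Perm.mul_apply, hτp]
        exact h
      rw [hcyc.pow_apply_eq hp] at h2
      have := Nat.le_of_dvd (by norm_num) h2
      omega
    have hzp : Adj z p := hsymm _ _ (by have := hadj p hp; rwa [hτp] at this)
    have hzq : Adj z (τ z) := hadj z hz
    have hpq : Adj p (τ z) := hz1 p hp (τ z) hq hzp hzq hpq'
    have hzne : τ z ≠ z := fun h => hirr z (by rw [h] at hzq; exact hzq)
    refine concl_step hsymm hirr Y z p (τ z) hz hp hq hzp hzq hpq ?_ τ hτp rfl h33 hτY ?_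
    · intro a ha hza
      rcases hz2 a ha p hp (τ z) hq hza hzp hzq with h | h | h
      · exact Or.inl h
      · exact absurd h hpq'
      · exact Or.inr h
    · apply ih
      · rw [Finset.card_erase_of_mem hz]
        omega
      · exact cut_isCycleOn τ Y hcyc hz hzne
      · intro x hx
        rw [Finset.mem_erase] at hx
        by_cases hxz : τ x = z
        · rw [cut_pred τ hxz]
          have : x = p := τ.injective (by rw [hxz, hτp])
          rw [this]
          exact hpq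
        · rw [cut_of_ne τ hx.1 hxz]
          exact hadj x hx.2
      · intro Z hZ hZn
        exact hear Z (hZ.trans (Finset.erase_subset _ _)) hZn

end Pool.Agent.Lib.MP_59160a_co
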