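import Mathlib

/-!
Continuous maps from the sphere lift through covering maps.
-/

set_option autoImplicit false

namespace Pool.Agent.Lib.MP_59160a_co

open Topology unitInterval

/-- The unit circle. -/
abbrev Circ := Metric.sphere (0 : EuclideanSpace ℝ (Fin 2)) 1

/-- The unit sphere. -/
abbrev Sph := Metric.sphere (0 : EuclideanSpace ℝ (Fin 3)) 1

lemma mem_circ (x : EuclideanSpace ℝ (Fin 2)) :
    x ∈ Metric.sphere (0 : EuclideanSpace ℝ (Fin 2)) 1 ↔ x 0 ^ 2 + x 1 ^ 2 = 1 := by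
  rw [EuclideanSpace.sphere_zero_eq 1 zero_le_one]
  change ∑ i, x i ^ 2 = 1 ^ 2 ↔ _
  rw [Fin.sum_univ_two, one_pow]

lemma mem_sph (x : EuclideanSpace ℝ (Fin 3)) :
    x ∈ Metric.sphere (0 : EuclideanSpace ℝ (Fin 3)) 1 ↔ x 0 ^ 2 + x 1 ^ 2 + x 2 ^ 2 = 1 := by
  rw [EuclideanSpace.sphere_zero_eq 1 zero_le_one]
  change ∑ i, x i ^ 2 = 1 ^ 2 ↔ _
  rw [Fin.sum_univ_three, one_pow]

/-- The vector with polar coordinates. -/
noncomputable def polarV (a : I × Circ) : EuclideanSpace ℝ (Fin 3) :=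
  !₂[√(1 - (2 * (a.1 : ℝ) - 1) ^ 2) * (a.2 : EuclideanSpace ℝ (Fin 2)) 0,
    √(1 - (2 * (a.1 : ℝ) - 1) ^ 2) * (a.2 : EuclideanSpace ℝ (Fin 2)) 1, 2 * (a.1 : ℝ) - 1]

lemma polarV_mem (a : I × Circ) : polarV a ∈ Metric.sphere (0 : EuclideanSpace ℝ (Fin 3)) 1 := by
  rw [mem_sph]
  have h1 := (mem_circ _).1 a.2.2
  have h2 : 0 ≤ 1 - (2 * (a.1 : ℝ) - 1) ^ 2 := by nlinarith [a.1.2.1, a.1.2.2]
  have h3 := Real.sq_sqrt h2
  simp only [polarV]
  change (√(1 - (2 * (a.1 : ℝ) - 1) ^ 2) * (a.2 : EuclideanSpace ℝ (Fin 2)) 0) ^ 2 +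
    (√(1 - (2 * (a.1 : ℝ) - 1) ^ 2) * (a.2 : EuclideanSpace ℝ (Fin 2)) 1) ^ 2 +
    (2 * (a.1 : ℝ) - 1) ^ 2 = 1
  rw [mul_pow, mul_pow, h3]
  linear_combination (1 - (2 * (a.1 : ℝ) - 1) ^ 2) * h1

/-- Polar coordinates on the sphere. -/
noncomputable def polar (a : I × Circ) : Sph := ⟨polarV a, polarV_mem a⟩

lemma polar_continuous : Continuous polar := by
  apply Continuous.subtype_mk
  unfold polarV
  refine (PiLp.continuous_toLp 2 _).comp (continuous_pi fun i => ?_)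
  have c0 : Continuous fun a : I × Circ => (a.2 : EuclideanSpace ℝ (Fin 2)) 0 := by fun_prop
  have c1 : Continuous fun a : I × Circ => (a.2 : EuclideanSpace ℝ (Fin 2)) 1 := by fun_prop
  fin_cases i
  · change Continuous fun a : I × Circ =>
      √(1 - (2 * (a.1 : ℝ) - 1) ^ 2) * (a.2 : EuclideanSpace ℝ (Fin 2)) 0
    fun_prop
  · change Continuous fun a : I × Circ =>
      √(1 - (2 * (a.1 : ℝ) - 1) ^ 2) * (a.2 : EuclideanSpace ℝ (Fin 2)) 1
    fun_prop
  · change Continuous fun a : I × Circ => 2 * (a.1 : ℝ) - 1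
    fun_prop

lemma circ_nonempty : Nonempty Circ := ⟨⟨!₂[1, 0], by rw [mem_circ]; simp⟩⟩

lemma polar_surjective : Function.Surjective polar := by
  rintro ⟨y, hy⟩
  rw [mem_sph] at hy
  have hs : (y 2) ^ 2 ≤ 1 := by nlinarith [sq_nonneg (y 0), sq_nonneg (y 1)]
  have hs1 : y 2 ≤ 1 := by nlinarith
  have hs2 : -1 ≤ y 2 := by nlinarith
  let t : I := ⟨(1 + y 2) / 2, by constructor <;> linarith⟩
  have ht : 2 * (t : ℝ) - 1 = y 2 := by
    change 2 * ((1 + y 2) / 2) - 1 = y 2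
    ring
  by_cases hz : 1 - (y 2) ^ 2 = 0
  · obtain ⟨θ⟩ := circ_nonempty
    have h0 : y 0 = 0 := by
      have : (y 0) ^ 2 = 0 := by nlinarith [sq_nonneg (y 0), sq_nonneg (y 1)]
      exact pow_eq_zero_iff (two_ne_zero) |>.1 this
    have h1 : y 1 = 0 := by
      have : (y 1) ^ 2 = 0 := by nlinarith [sq_nonneg (y 0), sq_nonneg (y 1)]
      exact pow_eq_zero_iff (two_ne_zero) |>.1 this
    refine ⟨(t, θ), Subtype.ext ?_⟩
    change polarV (t, θ) = y
    unfold polarV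
    ext i
    fin_cases i
    · change √(1 - (2 * (t : ℝ) - 1) ^ 2) * _ = y 0
      rw [ht, hz, Real.sqrt_zero, zero_mul, h0]
    · change √(1 - (2 * (t : ℝ) - 1) ^ 2) * _ = y 1
      rw [ht, hz, Real.sqrt_zero, zero_mul, h1]
    · exact ht
  · have hpos : 0 < 1 - (y 2) ^ 2 := lt_of_le_of_ne (by linarith) (Ne.symm hz)
    set r := √(1 - (y 2) ^ 2) with hr
    have hrpos : 0 < r := Real.sqrt_pos.2 hpos
    have hr2 : r ^ 2 = 1 - (y 2) ^ 2 := Real.sq_sqrt hpos.le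
    let θ : Circ := ⟨!₂[y 0 / r, y 1 / r], by
      rw [mem_circ]
      change (y 0 / r) ^ 2 + (y 1 / r) ^ 2 = 1
      rw [div_pow, div_pow, ← add_div, hr2, div_eq_one_iff_eq hz]
      linarith⟩
    refine ⟨(t, θ), Subtype.ext ?_⟩
    change polarV (t, θ) = y
    unfold polarV
    ext i
    fin_cases i
    · change √(1 - (2 * (t : ℝ) - 1) ^ 2) * (y 0 / r) = y 0
      rw [ht, ← hr]
      field_simp
    · change √(1 - (2 * (t : ℝ) - 1) ^ 2) * (y 1 / r) = y 1
      rw [ht, ← hr]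
      field_simp
    · exact ht

lemma polar_eq {a b : I × Circ} (h : polar a = polar b) :
    a.1 = b.1 ∧ (a.1 = 0 ∨ a.1 = 1 ∨ a.2 = b.2) := by
  have hv : polarV a = polarV b := congrArg Subtype.val h
  have h2 : 2 * (a.1 : ℝ) - 1 = 2 * (b.1 : ℝ) - 1 := congrArg (fun x => x 2) hv
  have h1 : (a.1 : ℝ) = b.1 := by linarith
  refine ⟨Subtype.ext h1, ?_⟩
  by_cases ha0 : a.1 = 0
  · exact Or.inl ha0
  by_cases ha1 : a.1 = 1
  · exact Or.inr (Or.inl ha1)
  right; right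
  have hp0 : (0 : ℝ) < a.1 := lt_of_le_of_ne a.1.2.1 (fun h => ha0 (Subtype.ext h.symm))
  have hp1 : (a.1 : ℝ) < 1 := lt_of_le_of_ne a.1.2.2 (fun h => ha1 (Subtype.ext h))
  have hpos : 0 < 1 - (2 * (a.1 : ℝ) - 1) ^ 2 := by nlinarith
  have hr := Real.sqrt_pos.2 hpos
  have e0 : √(1 - (2 * (a.1 : ℝ) - 1) ^ 2) * (a.2 : EuclideanSpace ℝ (Fin 2)) 0 =
      √(1 - (2 * (b.1 : ℝ) - 1) ^ 2) * (b.2 : EuclideanSpace ℝ (Fin 2)) 0 :=
    congrArg (fun x => x 0) hv
  have e1 : √(1 - (2 * (a.1 : ℝ) - 1) ^ 2) * (a.2 : EuclideanSpace ℝ (Fin 2)) 1 =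
      √(1 - (2 * (b.1 : ℝ) - 1) ^ 2) * (b.2 : EuclideanSpace ℝ (Fin 2)) 1 :=
    congrArg (fun x => x 1) hv
  rw [← h1] at e0 e1
  apply Subtype.ext
  ext i
  fin_cases i
  · exact mul_left_cancel₀ hr.ne' e0
  · exact mul_left_cancel₀ hr.ne' e1

instance : PreconnectedSpace Circ := by
  apply Subtype.preconnectedSpace
  apply isPreconnected_sphere
  rw [← Module.finrank_eq_rank]
  simp

/-- Maps from the sphere lift through covering maps. -/
theorem sphere_lift {E B : Type*} [TopologicalSpace E] [TopologicalSpace B] {p : E → B}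
    (cov : IsCoveringMap p) (hp : Function.Surjective p) (φ : Sph → B) (hφ : Continuous φ) :
    ∃ L : Sph → E, Continuous L ∧ ∀ y, p (L y) = φ y := by
  obtain ⟨θ0⟩ := circ_nonempty
  let H : C(I × Circ, B) := ⟨φ ∘ polar, hφ.comp polar_continuous⟩
  obtain ⟨e0, he0⟩ := hp (φ (polar (0, θ0)))
  have hpole : ∀ (t : I) (θ θ' : Circ), t = 0 ∨ t = 1 → polar (t, θ) = polar (t, θ') := by
    rintro t θ θ' (rfl | rfl) <;>
    · apply Subtype.ext
      change polarV _ = polarV _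
      unfold polarV
      congr 1
      funext i
      fin_cases i <;> norm_num
  let f : C(Circ, E) := ContinuousMap.const _ e0
  have H_0 : ∀ a, H (0, a) = p (f a) := by
    intro a
    change φ (polar (0, a)) = p e0
    rw [he0, hpole 0 a θ0 (Or.inl rfl)]
  let G := cov.liftHomotopy H f H_0
  have hG : ∀ a, p (G a) = φ (polar a) := fun a => congrFun (cov.liftHomotopy_lifts H f H_0) a
  have hG0 : ∀ θ, G (0, θ) = e0 := fun θ => cov.liftHomotopy_zero H f H_0 θ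
  have hG1 : ∀ θ θ', G (1, θ) = G (1, θ') := by
    intro θ θ'
    refine cov.const_of_comp (g := fun θ => G (1, θ)) (by fun_prop) ?_ θ θ'
    intro a a'
    rw [hG, hG, hpole 1 a a' (Or.inr rfl)]
  have hfib : ∀ a b, polar a = polar b → G a = G b := by
    rintro ⟨t, θ⟩ ⟨t', θ'⟩ hab
    obtain ⟨h1, h2⟩ := polar_eq hab
    simp only at h1 h2
    subst h1
    rcases h2 with rfl | rfl | rfl
    · rw [hG0, hG0]
    · exact hG1 θ θ'
    · rfl
  let L : Sph → E := fun y => G (Function.surjInv polar_surjective y)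
  have hL : L ∘ polar = G := by
    funext a
    exact hfib _ _ (Function.surjInv_eq polar_surjective (polar a))
  have hquot : IsQuotientMap polar :=
    (polar_continuous.isClosedMap).isQuotientMap polar_continuous polar_surjective
  refine ⟨L, ?_, ?_⟩
  · rw [hquot.continuous_iff, hL]
    exact G.continuous
  · intro y
    change p (G _) = φ y
    rw [hG, Function.surjInv_eq polar_surjective y]

end Pool.Agent.Lib.MP_59160a_co
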