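import Pool.Agent.Lib.MP_59160a_co.PentGeo
import Pool.Agent.Lib.MP_59160a_co.SphereLift

/-!
Sign systems on a pentagonal sphere are trivial.
-/

set_option autoImplicit false
set_option linter.unusedSectionVars false

namespace Pool.Agent.Lib.MP_59160a_co

open unitInterval Topology

/-! ### Signs -/

/-- The sign of a class modulo two. -/
noncomputable def sgn2 (x : ZMod 2) : ℝ := if x = 0 then 1 else -1

lemma zmod2_cases (x : ZMod 2) : x = 0 ∨ x = 1 := by revert x; decide

lemma sgn2_zero : sgn2 0 = 1 := if_pos rfl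

lemma sgn2_one : sgn2 1 = -1 := if_neg (by decide)

lemma sgn2_add (x y : ZMod 2) : sgn2 (x + y) = sgn2 x * sgn2 y := by
  rcases zmod2_cases x with rfl | rfl <;> rcases zmod2_cases y with rfl | rfl
  · rw [add_zero, sgn2_zero, one_mul]
  · rw [zero_add, sgn2_zero, one_mul]
  · rw [add_zero, sgn2_zero, mul_one]
  · rw [show (1 + 1 : ZMod 2) = 0 by decide, sgn2_zero, sgn2_one]; norm_num

lemma sgn2_mul_self (x : ZMod 2) : sgn2 x * sgn2 x = 1 := by
  rcases zmod2_cases x with rfl | rfl
  · rw [sgn2_zero, one_mul]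
  · rw [sgn2_one]; norm_num

lemma sgn2_inj {x y : ZMod 2} (h : sgn2 x = sgn2 y) : x = y := by
  rcases zmod2_cases x with rfl | rfl <;> rcases zmod2_cases y with rfl | rfl
  · rfl
  · rw [sgn2_zero, sgn2_one] at h; norm_num at h
  · rw [sgn2_zero, sgn2_one] at h; norm_num at h
  · rfl

/-! ### The covering of nonzero vectors up to sign -/

/-- Nonzero vectors. -/
abbrev E0 := {w : EuclideanSpace ℝ (Fin 3) // w ≠ 0}

lemma unit_ne (u : ℤˣ) : (((u : ℤ) : ℝ)) ≠ 0 := by
  rcases Int.units_eq_one_or u with rfl | rfl <;> norm_num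

noncomputable instance actE0 : MulAction ℤˣ E0 where
  smul u w := ⟨((u : ℤ) : ℝ) • (w : EuclideanSpace ℝ (Fin 3)), smul_ne_zero (unit_ne u) w.2⟩
  one_smul w := Subtype.ext (by
    change (((1 : ℤˣ) : ℤ) : ℝ) • (w : EuclideanSpace ℝ (Fin 3)) = w
    simp)
  mul_smul u u' w := Subtype.ext (by
    change (((u * u' : ℤˣ) : ℤ) : ℝ) • (w : EuclideanSpace ℝ (Fin 3)) =
      ((u : ℤ) : ℝ) • ((u' : ℤ) : ℝ) • (w : EuclideanSpace ℝ (Fin 3))
    rw [smul_smul]
    push_cast
    rfl)

lemma smul_E0 (u : ℤˣ) (w : E0) :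
    ((u • w : E0) : EuclideanSpace ℝ (Fin 3)) = ((u : ℤ) : ℝ) • (w : EuclideanSpace ℝ (Fin 3)) :=
  rfl

/-- The projection to the quotient. -/
noncomputable def prE0 : E0 → Quotient (MulAction.orbitRel ℤˣ E0) := Quotient.mk (MulAction.orbitRel ℤˣ E0)

lemma prE0_eq {w w' : E0} : prE0 w = prE0 w' ↔ ∃ u : ℤˣ, u • w' = w := by
  unfold prE0
  rw [Quotient.eq]
  exact MulAction.orbitRel_apply

lemma prE0_covering : IsCoveringMap prE0 := by
  have h : IsQuotientCoveringMap prE0 ℤˣ :=
    { toIsQuotientMap := isQuotientMap_quotient_mk'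
      continuous_const_smul := by
        intro u
        exact Continuous.subtype_mk
          ((continuous_subtype_val (p := fun w : EuclideanSpace ℝ (Fin 3) => w ≠ 0)).const_smul
            ((u : ℤ) : ℝ)) _
      apply_eq_iff_mem_orbit := by
        intro e₁ e₂
        exact prE0_eq
      disjoint := by
        intro e
        refine ⟨{w | 0 < inner ℝ (w : EuclideanSpace ℝ (Fin 3)) (e : EuclideanSpace ℝ (Fin 3))},
          ?_, ?_⟩
        · apply IsOpen.mem_nhds
          · exact isOpen_lt continuous_const (by fun_prop)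
          · exact real_inner_self_pos.2 e.2
        · rintro u ⟨_, ⟨w, hw, rfl⟩, hw'⟩
          rcases Int.units_eq_one_or u with rfl | rfl
          · rfl
          · exfalso
            change 0 < inner ℝ ((((-1 : ℤˣ) : ℤ) : ℝ) • (w : EuclideanSpace ℝ (Fin 3)))
              (e : EuclideanSpace ℝ (Fin 3)) at hw'
            change 0 < inner ℝ (w : EuclideanSpace ℝ (Fin 3)) (e : EuclideanSpace ℝ (Fin 3)) at hw
            rw [real_inner_smul_left] at hw'
            push_cast at hw'
            linarith }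
  exact h.isCoveringMap

lemma prE0_surjective : Function.Surjective prE0 := Quotient.mk_surjective

/-! ### Corners -/

namespace PentComplex

variable (N : PentComplex)

/-- The corner glued to the corner at the start of a side. -/
def st (d : Fin N.n × ZMod 5) : Fin N.n × ZMod 5 :=
  ((N.glue d).1, if N.rev d then (N.glue d).2 + 1 else (N.glue d).2)

/-- The corner glued to the corner at the end of a side. -/
def en (d : Fin N.n × ZMod 5) : Fin N.n × ZMod 5 :=
  ((N.glue d).1, if N.rev d then (N.glue d).2 else (N.glue d).2 + 1)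

end PentComplex

/-- The boundary of the pentagon. -/
def pbd : Set E2 := ⋃ i : ZMod 5, Set.range fun t : I => sidePoint i t

lemma sP_mem_pbd (i : ZMod 5) (t : I) : ((sP i t : pentagon) : E2) ∈ pbd :=
  Set.mem_iUnion.2 ⟨i, t, rfl⟩

lemma sidePoint_continuous (i : ZMod 5) : Continuous fun t : I => sidePoint i t := by
  simp only [sidePoint_eq]
  fun_prop

lemma pbd_closed : IsClosed pbd := by
  unfold pbd
  apply isClosed_iUnion_of_finite
  intro i
  exact (isCompact_range (sidePoint_continuous i)).isClosed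

lemma pbd_nonempty : pbd.Nonempty := ⟨_, sP_mem_pbd 0 0⟩

instance pentagon_preconnected : PreconnectedSpace pentagon :=
  Subtype.preconnectedSpace pentagon_convex.isPreconnected

lemma ne1 : ∀ j : ZMod 5, j ≠ j + 1 := by decide

lemma ne2 : ∀ j : ZMod 5, j + 1 + 1 ≠ j ∧ j + 1 + 1 ≠ j + 1 := by decide

section Trivial

variable {N : PentComplex} (gg hh : Fin N.n × ZMod 5 → ZMod 2)

/-- The first component. -/
noncomputable def vA (F : Fin N.n) (x : pentagon) : ℝ := ∑ i : ZMod 5, sgn2 (hh (F, i)) * hat i x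

/-- Signs of the sides. -/
noncomputable def ss (d : Fin N.n × ZMod 5) : ℝ :=
  if Fintype.equivFin _ d < Fintype.equivFin _ (N.glue d) then 1 else sgn2 (gg d)

/-- The second component. -/
noncomputable def vB (F : Fin N.n) (x : pentagon) : ℝ :=
  ∑ i : ZMod 5, ss gg (F, i) * (hat i x * hat (i + 1) x)

lemma ss_glue (hg : ∀ d, gg (N.glue d) = gg d) (d : Fin N.n × ZMod 5) :
    ss gg d = sgn2 (gg d) * ss gg (N.glue d) := by
  unfold ss
  rw [N.glue_glue, hg]
  have hne : Fintype.equivFin _ d ≠ Fintype.equivFin _ (N.glue d) := by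
    intro h
    exact N.glue_ne d ((Fintype.equivFin _).injective h).symm
  rcases lt_or_gt_of_ne hne with h | h
  · rw [if_pos h, if_neg (not_lt.2 h.le), sgn2_mul_self]
  · rw [if_neg (not_lt.2 h.le), if_pos h, mul_one]

lemma ss_ne (d : Fin N.n × ZMod 5) : ss gg d ≠ 0 := by
  unfold ss
  split_ifs
  · exact one_ne_zero
  · rcases zmod2_cases (gg d) with h | h <;> rw [h]
    · rw [sgn2_zero]; norm_num
    · rw [sgn2_one]; norm_num

lemma vA_side (F : Fin N.n) (j : ZMod 5) (t : I) :
    vA hh F (sP j t) = sgn2 (hh (F, j)) * (1 - t) + sgn2 (hh (F, j + 1)) * t := by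
  unfold vA
  rw [Finset.sum_eq_add j (j + 1) (ne1 j)]
  · rw [hat_zero, hat_one]
  · intro i _ hi
    rw [hat_ne j i hi.1 hi.2, mul_zero]
  · intro h; exact absurd (Finset.mem_univ _) h
  · intro h; exact absurd (Finset.mem_univ _) h

lemma vB_side (F : Fin N.n) (j : ZMod 5) (t : I) :
    vB gg F (sP j t) = ss gg (F, j) * ((1 - t) * t) := by
  unfold vB
  rw [Finset.sum_eq_single j]
  · rw [hat_zero, hat_one]
  · intro i _ hi
    by_cases h1 : i = j + 1
    · subst h1
      rw [hat_ne j (j + 1 + 1) (ne2 j).1 (ne2 j).2, mul_zero, mul_zero]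
    · rw [hat_ne j i hi h1, zero_mul, mul_zero]
  · intro h; exact absurd (Finset.mem_univ _) h

/-- The vector. -/
noncomputable def vV (F : Fin N.n) (x : pentagon) : EuclideanSpace ℝ (Fin 3) :=
  !₂[vA hh F x, vB gg F x, Metric.infDist (x : E2) pbd]

lemma vV_ne (F : Fin N.n) (x : pentagon) : vV gg hh F x ≠ 0 := by
  intro h
  have h0 : vA hh F x = 0 := congrArg (fun v => v 0) h
  have h1 : vB gg F x = 0 := congrArg (fun v => v 1) h
  have h2 : Metric.infDist (x : E2) pbd = 0 := congrArg (fun v => v 2) h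
  rw [← pbd_closed.mem_iff_infDist_zero pbd_nonempty] at h2
  obtain ⟨j, t, ht⟩ := Set.mem_iUnion.1 h2
  have hx : x = sP j t := Subtype.ext ht.symm
  rw [hx, vB_side] at h1
  rw [hx, vA_side] at h0
  rcases mul_eq_zero.1 h1 with h3 | h3
  · exact ss_ne gg _ h3
  rcases mul_eq_zero.1 h3 with h4 | h4
  · have : (t : ℝ) = 1 := by linarith
    rw [this] at h0
    have h5 := sgn2_mul_self (hh (F, j + 1))
    simp at h0
    rw [h0] at h5
    norm_num at h5
  · rw [h4] at h0
    have h5 := sgn2_mul_self (hh (F, j))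
    simp at h0
    rw [h0] at h5
    norm_num at h5

lemma vV_continuous (F : Fin N.n) : Continuous (vV gg hh F) := by
  unfold vV
  refine (PiLp.continuous_toLp 2 _).comp (continuous_pi fun i => ?_)
  have hh1 := hat_continuous
  fin_cases i
  · change Continuous fun x => vA hh F x
    unfold vA
    fun_prop
  · change Continuous fun x => vB gg F x
    unfold vB
    fun_prop
  · change Continuous fun x : pentagon => Metric.infDist (x : E2) pbd
    exact (Metric.continuous_infDist_pt _).comp continuous_subtype_val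

/-- The vector as a nonzero vector. -/
noncomputable def vW (F : Fin N.n) (x : pentagon) : E0 := ⟨vV gg hh F x, vV_ne gg hh F x⟩

/-- The vectors agree up to sign on glued sides. -/
lemma vV_glue (hg : ∀ d, gg (N.glue d) = gg d) (h1 : ∀ d, gg d = hh d + hh (N.st d))
    (h2 : ∀ F i, gg (F, i) = hh (F, i + 1) + hh (N.en (F, i))) (F : Fin N.n) (i : ZMod 5) (t : I) :
    vV gg hh F (sP i t) = sgn2 (gg (F, i)) • vV gg hh (N.glue (F, i)).1
      (sP (N.glue (F, i)).2 (if N.rev (F, i) then σ t else t)) := by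
  have hst : sgn2 (hh (F, i)) = sgn2 (gg (F, i)) * sgn2 (hh (N.st (F, i))) := by
    rw [h1, sgn2_add, mul_assoc, sgn2_mul_self, mul_one]
  have hen : sgn2 (hh (F, i + 1)) = sgn2 (gg (F, i)) * sgn2 (hh (N.en (F, i))) := by
    rw [h2, sgn2_add, mul_assoc, sgn2_mul_self, mul_one]
  have hss := ss_glue gg hg (F, i)
  ext k
  fin_cases k
  · change vA hh F (sP i t) = sgn2 (gg (F, i)) * vA hh _ _
    rw [vA_side, vA_side, hst, hen]
    unfold PentComplex.st PentComplex.en
    cases N.rev (F, i)
    · simp only [Bool.false_eq_true, if_false]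
      ring
    · simp only [if_true, coe_symm_eq]
      ring
  · change vB gg F (sP i t) = sgn2 (gg (F, i)) * vB gg _ _
    rw [vB_side, vB_side, hss]
    cases N.rev (F, i)
    · simp only [Bool.false_eq_true, if_false]
      ring
    · simp only [if_true, coe_symm_eq]
      ring
  · change Metric.infDist ((sP i t : pentagon) : E2) pbd = sgn2 (gg (F, i)) *
      Metric.infDist ((sP _ _ : pentagon) : E2) pbd
    rw [Metric.infDist_zero_of_mem (sP_mem_pbd _ _), Metric.infDist_zero_of_mem (sP_mem_pbd _ _),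
      mul_zero]

lemma exists_unit (x : ZMod 2) : ∃ u : ℤˣ, ((u : ℤ) : ℝ) = sgn2 x := by
  rcases zmod2_cases x with rfl | rfl
  · exact ⟨1, by rw [sgn2_zero]; simp⟩
  · exact ⟨-1, by rw [sgn2_one]; simp⟩

lemma rel_sP {F F' : Fin N.n} {x x' : pentagon} (h : N.Rel (F, x) (F', x')) :
    ∃ (i : ZMod 5) (t : I), x = sP i t ∧ F' = (N.glue (F, i)).1 ∧
      x' = sP (N.glue (F, i)).2 (if N.rev (F, i) then σ t else t) := by
  obtain ⟨i, t, h0, h1, hx, hF, hx'⟩ := h
  refine ⟨i, ⟨t, h0, h1⟩, Subtype.ext hx, hF, Subtype.ext ?_⟩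
  rw [hx']
  change sidePoint _ _ = sidePoint _ _
  congr 1
  cases N.rev (F, i) <;> simp

/-- Sign systems on a pentagonal sphere are trivial. -/
theorem sign_lift (hN : N.IsSphere) (hg : ∀ d, gg (N.glue d) = gg d)
    (h1 : ∀ d, gg d = hh d + hh (N.st d))
    (h2 : ∀ F i, gg (F, i) = hh (F, i + 1) + hh (N.en (F, i))) :
    ∃ k : Fin N.n → ZMod 2, ∀ d, gg d = k d.1 + k (N.glue d).1 := by
  classical
  obtain ⟨e⟩ := hN
  let V : N.Carrier → Quotient (MulAction.orbitRel ℤˣ E0) :=
    Quot.lift (fun a : Fin N.n × pentagon => prE0 (vW gg hh a.1 a.2)) (by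
      rintro ⟨F, x⟩ ⟨F', x'⟩ hab
      obtain ⟨i, t, rfl, rfl, rfl⟩ := rel_sP hab
      simp only
      rw [prE0_eq]
      obtain ⟨u, hu⟩ := exists_unit (gg (F, i))
      refine ⟨u, Subtype.ext ?_⟩
      rw [smul_E0, hu]
      exact (vV_glue gg hh hg h1 h2 F i t).symm)
  have hV : Continuous V := by
    apply continuous_quot_lift
    rw [continuous_prod_of_discrete_left]
    intro F
    apply prE0_covering.continuous.comp
    exact Continuous.subtype_mk (vV_continuous gg hh F) _
  obtain ⟨L, hLc, hL⟩ := sphere_lift prE0_covering prE0_surjective (fun y => V (e.symm y))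
    (hV.comp e.symm.continuous)
  let w : N.Carrier → E0 := fun m => L (e m)
  have hw : Continuous w := hLc.comp e.continuous
  have hpw : ∀ m, prE0 (w m) = V m := by
    intro m
    change prE0 (L (e m)) = V m
    rw [hL]
    simp
  have hunit : ∀ F x, ∃ u : ℤˣ, (w (N.pt F x) : EuclideanSpace ℝ (Fin 3)) =
      ((u : ℤ) : ℝ) • vV gg hh F x := by
    intro F x
    have h3 : prE0 (w (N.pt F x)) = prE0 (vW gg hh F x) := hpw _
    rw [prE0_eq] at h3
    obtain ⟨u, hu⟩ := h3
    refine ⟨u, ?_⟩
    rw [← hu]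
    rfl
  let r : Fin N.n → pentagon → ℝ := fun F x =>
    inner ℝ (w (N.pt F x) : EuclideanSpace ℝ (Fin 3)) (vV gg hh F x)
  have hr : ∀ F, Continuous (r F) := by
    intro F
    have hpt : Continuous (N.pt F) := continuous_quot_mk.comp (Continuous.prodMk_right F)
    have c1 : Continuous fun x => (w (N.pt F x) : EuclideanSpace ℝ (Fin 3)) :=
      continuous_subtype_val.comp (hw.comp hpt)
    exact c1.inner (vV_continuous gg hh F)
  have hrne : ∀ F x, r F x ≠ 0 := by
    intro F x
    obtain ⟨u, hu⟩ := hunit F x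
    change inner ℝ (w (N.pt F x) : EuclideanSpace ℝ (Fin 3)) (vV gg hh F x) ≠ 0
    rw [hu, real_inner_smul_left]
    exact mul_ne_zero (unit_ne u) (real_inner_self_pos.2 (vV_ne gg hh F x)).ne'
  have hsign : ∀ F x y, 0 < r F x → 0 < r F y := by
    intro F x y hx
    by_contra hy
    push Not at hy
    obtain ⟨z, hz⟩ := mem_range_of_exists_le_of_exists_ge (hr F) ⟨y, hy⟩ ⟨x, hx.le⟩
    exact hrne F z hz
  let k : Fin N.n → ZMod 2 := fun F => if 0 < r F (pv 0) then 0 else 1
  have hk : ∀ F x, (w (N.pt F x) : EuclideanSpace ℝ (Fin 3)) = sgn2 (k F) • vV gg hh F x := by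
    intro F x
    obtain ⟨u, hu⟩ := hunit F x
    have hrx : r F x = ((u : ℤ) : ℝ) * inner ℝ (vV gg hh F x) (vV gg hh F x) := by
      change inner ℝ (w (N.pt F x) : EuclideanSpace ℝ (Fin 3)) (vV gg hh F x) = _
      rw [hu, real_inner_smul_left]
    have hpos := real_inner_self_pos.2 (vV_ne gg hh F x)
    rw [hu]
    congr 1
    change _ = sgn2 (if 0 < r F (pv 0) then 0 else 1)
    by_cases h0 : 0 < r F (pv 0)
    · rw [if_pos h0, sgn2_zero]
      have hx := hsign F _ x h0
      rcases Int.units_eq_one_or u with rfl | rfl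
      · simp
      · exfalso
        rw [hrx] at hx
        push_cast at hx
        linarith
    · rw [if_neg h0, sgn2_one]
      rcases Int.units_eq_one_or u with rfl | rfl
      · exfalso
        apply h0
        apply hsign F x
        rw [hrx]
        push_cast
        linarith
      · simp
  refine ⟨k, ?_⟩
  rintro ⟨F, i⟩
  have hpt : N.pt F (sP i 0) = N.pt (N.glue (F, i)).1
      (sP (N.glue (F, i)).2 (if N.rev (F, i) then σ 0 else 0)) := by
    apply Quot.sound
    refine ⟨i, 0, le_refl 0, zero_le_one, rfl, rfl, ?_⟩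
    change sidePoint _ _ = sidePoint _ _
    congr 1
    cases N.rev (F, i) <;> simp
  have e1 := hk F (sP i 0)
  rw [hpt, hk, vV_glue gg hh hg h1 h2 F i 0, smul_smul] at e1
  have e2 := smul_left_injective ℝ (vV_ne gg hh _ _) e1
  rw [← sgn2_add] at e2
  have e3 := sgn2_inj e2
  rw [e3]
  have : ∀ x y : ZMod 2, y = x + (x + y) := by decide
  exact this _ _

end Trivial

end Pool.Agent.Lib.MP_59160a_co
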