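import Pool.Agent.Lib.MP_59160a_co.Words

/-!
Star classes of corners (corners connected by flips).
-/

set_option autoImplicit false
set_option linter.unusedSectionVars false

namespace Pool.Agent.Lib.MP_59160a_co

variable {V : Type*} [NormedAddCommGroup V] [InnerProductSpace ℝ V]

/-- Two corners are in the same star if they are connected by flips (and reorderings). -/
inductive Star (C : Fin 3 → V) : (Fin 3 → V) → Prop
  | refl : Star C C
  | flp (j : Fin 3) {D : Fin 3 → V} : Star C D → Star C (flp j D)
  | perm (π : Equiv.Perm (Fin 3)) {D : Fin 3 → V} : Star C D → Star C (D ∘ π)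

lemma Star.trans {C D E : Fin 3 → V} (h1 : Star C D) (h2 : Star D E) : Star C E := by
  induction h2 with
  | refl => exact h1
  | flp j _ ih => exact ih.flp j
  | perm π _ ih => exact ih.perm π

lemma Star.symm {C D : Fin 3 → V} (h : Star C D) : Star D C := by
  induction h with
  | refl => exact Star.refl
  | @flp j D _ ih =>
    have h1 : Star (MP_59160a_co.flp j D) (MP_59160a_co.flp j (MP_59160a_co.flp j D)) :=
      Star.refl.flp j
    rw [flp_flp] at h1
    exact h1.trans ih
  | @perm π D _ ih =>
    have h1 : Star (D ∘ π) ((D ∘ π) ∘ π.symm) := Star.refl.perm π.symm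
    have e : (D ∘ π) ∘ π.symm = D := by funext i; simp
    rw [e] at h1
    exact h1.trans ih

lemma Star.im {C D : Fin 3 → V} (h : Star C D) (f : V ≃ₗᵢ[ℝ] V) : Star (im f C) (im f D) := by
  induction h with
  | refl => exact Star.refl
  | flp j _ ih => rw [← flp_im]; exact ih.flp j
  | perm π _ ih => exact ih.perm π

lemma im_symm_im (f : V ≃ₗᵢ[ℝ] V) (C : Fin 3 → V) : im f⁻¹ (im f C) = C := by
  funext i
  simp only [im_apply]
  exact f.symm_apply_apply _

lemma im_im_symm (f : V ≃ₗᵢ[ℝ] V) (C : Fin 3 → V) : im f (im f⁻¹ C) = C := by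
  funext i
  simp only [im_apply]
  exact f.apply_symm_apply _

lemma Star.corner {C D : Fin 3 → V} (hC : IsCorner C) (h : Star C D) : IsCorner D := by
  induction h with
  | refl => exact hC
  | flp j _ ih => exact ih.flp j
  | perm π _ ih => exact ih.perm π

lemma R_fix (w : List V) (x : V) (h : ∀ n ∈ w, inner ℝ n x = 0) : R w x = x := by
  induction w with
  | nil => rfl
  | cons n w ih =>
    rw [R_cons]
    change rf n (R w x) = x
    rw [ih (fun m hm => h m (List.mem_cons_of_mem _ hm)), rf_orth (h n (by simp))]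

/-- The isometry of a word in the three letters of a corner. -/
noncomputable def Wd (C : Fin 3 → V) (z : List (Fin 3)) : V ≃ₗᵢ[ℝ] V := R (z.map (nrm C))

lemma Wd_nil (C : Fin 3 → V) : Wd C [] = 1 := rfl

lemma Wd_append (C : Fin 3 → V) (z w : List (Fin 3)) : Wd C (z ++ w) = Wd C z * Wd C w := by
  unfold Wd; rw [List.map_append, R_append]

lemma Wd_cons (C : Fin 3 → V) (k : Fin 3) (z : List (Fin 3)) :
    Wd C (k :: z) = rf (nrm C k) * Wd C z := by
  unfold Wd; rw [List.map_cons, R_cons]

lemma Wd_singleton (C : Fin 3 → V) (j : Fin 3) : Wd C [j] = rf (nrm C j) := by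
  unfold Wd; rw [List.map_singleton, R_singleton]

lemma Wd_fix {C : Fin 3 → V} (h : IsCorner C) (w : List (Fin 3)) (j : Fin 3)
    (hw : ∀ i ∈ w, i ≠ j) : Wd C w (C j) = C j := by
  apply R_fix
  intro n hn
  rw [List.mem_map] at hn
  obtain ⟨i, hi, rfl⟩ := hn
  exact inner_nrm_ne h (Ne.symm (hw i hi))

lemma nrm_ne_nrm {C : Fin 3 → V} (h : IsCorner C) {i j : Fin 3} (hij : j ≠ i) :
    nrm C j ≠ nrm C i ∧ nrm C j ≠ -nrm C i := by
  constructor
  · intro e
    have h1 := inner_nrm_self h j
    rw [e, inner_nrm_ne h hij] at h1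
    exact zero_ne_one h1
  · intro e
    have h1 := inner_nrm_self h j
    rw [e, inner_neg_left, inner_nrm_ne h hij] at h1
    simp at h1

lemma red_map {C : Fin 3 → V} (h : IsCorner C) {z : List (Fin 3)}
    (hz : z.IsChain (fun i j => j ≠ i)) : Red (z.map (nrm C)) := by
  unfold Red
  rw [List.isChain_map]
  exact hz.imp (fun i j hij => nrm_ne_nrm h hij)

lemma ax_map (C : Fin 3 → V) (z : List (Fin 3)) : ∀ n ∈ z.map (nrm C), Ax C n := by
  intro n hn
  rw [List.mem_map] at hn
  obtain ⟨i, _, rfl⟩ := hn
  exact Ax_nrm C i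

/-- Normal form of the corners of a star. -/
lemma star_normal {C D : Fin 3 → V} (h : Star C D) :
    ∃ (z : List (Fin 3)) (π : Equiv.Perm (Fin 3)), z.IsChain (fun i j => j ≠ i) ∧
      D = im (Wd C z) (C ∘ π) := by
  induction h with
  | refl => exact ⟨[], 1, by simp, rfl⟩
  | @flp j D _ ih =>
    obtain ⟨z, π, hz, rfl⟩ := ih
    have e : flp j (im (Wd C z) (C ∘ π)) = im (Wd C (z ++ [π j])) (C ∘ π) := by
      rw [flp_im, flp_perm, Wd_append, Wd_singleton, im_mul]
      rfl
    rw [e]
    rcases z.eq_nil_or_concat with rfl | ⟨z', m, rfl⟩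
    · exact ⟨[] ++ [π j], π, by simp, rfl⟩
    · by_cases hm : m = π j
      · refine ⟨z', π, ?_, ?_⟩
        · rw [List.concat_eq_append] at hz
          exact (List.isChain_append.1 hz).1
        · rw [List.concat_eq_append, hm, Wd_append, Wd_append, Wd_singleton, mul_assoc,
            rf_mul_self, mul_one]
      · refine ⟨_, π, ?_, rfl⟩
        rw [List.concat_eq_append] at hz ⊢
        rw [List.isChain_append]
        refine ⟨hz, by simp, ?_⟩
        intro x hx y hy
        simp at hx hy
        subst hx
        subst hy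
        exact Ne.symm hm
  | @perm π' D _ ih =>
    obtain ⟨z, π, hz, rfl⟩ := ih
    exact ⟨z, π * π', hz, rfl⟩

lemma strip_right (z : List (Fin 3)) (j : Fin 3) :
    ∃ z' w : List (Fin 3), z = z' ++ w ∧ (∀ i ∈ w, i ≠ j) ∧ (∀ n ∈ z'.getLast?, n = j) := by
  induction z using List.reverseRecOn with
  | nil => exact ⟨[], [], rfl, by simp, by simp⟩
  | append_singleton z m ih =>
    by_cases hm : m = j
    · refine ⟨z ++ [m], [], by simp, by simp, ?_⟩
      intro n hn
      simp at hn
      rw [← hn]; exact hm
    · obtain ⟨z', w, rfl, hw, hz'⟩ := ih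
      refine ⟨z', w ++ [m], by simp, ?_, hz'⟩
      intro i hi
      rw [List.mem_append, List.mem_singleton] at hi
      rcases hi with hi | hi
      · exact hw i hi
      · rw [hi]; exact hm

/-- Vectors of low level in a star. -/
lemma star_low {B h : Fin 3 → V} (hB : IsCorner B) (hh : InFrame B h) (l : List V)
    (hl : ∀ n ∈ l, Ax B n) (hred : Red l) (hlast : ∀ n ∈ l.getLast?, ∀ k, inner ℝ n (h k) ≠ 0)
    {D : Fin 3 → V} (hD : Star (im (R l) h) D) (j : Fin 3) (hlv : Lv B l.length (D j)) :
    ∃ k, D j = R l (h k) := by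
  have hc := hh.corner hB
  have h1 : Star h (im (R l)⁻¹ D) := by
    have := hD.im (R l)⁻¹
    rwa [im_symm_im] at this
  obtain ⟨z, π, hz, hD'⟩ := star_normal h1
  have hDj : D j = R l (Wd h z (h (π j))) := by
    have : D = im (R l) (im (R l)⁻¹ D) := (im_im_symm _ _).symm
    rw [this, hD']
    rfl
  obtain ⟨z', w, rfl, hw, hz'⟩ := strip_right z (π j)
  have e1 : Wd h (z' ++ w) (h (π j)) = Wd h z' (h (π j)) := by
    rw [Wd_append]
    change Wd h z' (Wd h w (h (π j))) = _
    rw [Wd_fix hc w (π j) hw]
  rw [e1] at hDj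
  rcases z'.eq_nil_or_concat with rfl | ⟨z'', m, hm⟩
  · exact ⟨π j, by rw [hDj]; rfl⟩
  · exfalso
    have hne : z' ≠ [] := by rw [hm]; simp
    have hzc : z'.IsChain (fun i j => j ≠ i) := (List.isChain_append.1 hz).1
    have hred' : Red (l ++ z'.map (nrm h)) := by
      unfold Red
      rw [List.isChain_append]
      refine ⟨hred, red_map hc hzc, ?_⟩
      intro x hx y hy
      rw [List.head?_map, Option.mem_map] at hy
      obtain ⟨a, -, rfl⟩ := hy
      obtain ⟨k, hk⟩ : ∃ k : Fin 3, k ≠ a := by
        revert a; decide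
      have h2 := hlast x hx k
      have h3 := inner_nrm_ne hc hk
      constructor
      · intro e
        rw [← e] at h2
        exact h2 h3
      · intro e
        rw [e, inner_neg_left] at h3
        exact h2 (by linarith)
    have hax : ∀ n ∈ l ++ z'.map (nrm h), Ax B n := by
      intro n hn
      rw [List.mem_append] at hn
      rcases hn with hn | hn
      · exact hl n hn
      · exact (hh.ax hB).2 (ax_map h z' n hn)
    have hlast2 : nrm h (π j) ∈ (l ++ z'.map (nrm h)).getLast? := by
      have : m = π j := hz' m (by rw [hm]; simp)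
      rw [hm, List.concat_eq_append, List.map_append, ← List.append_assoc, List.map_singleton,
        List.getLast?_concat, this]
      rfl
    have h4 := not_lv_word hB hh (π j) (l ++ z'.map (nrm h)) hax hred' _ hlast2
      (by rw [inner_nrm_self hc]; exact one_ne_zero) l.length (by
        rw [List.length_append, List.length_map, hm]; simp)
    apply h4
    rw [R_append]
    change Lv B l.length (R l (Wd h z' (h (π j))))
    rw [← hDj]
    exact hlv

/-- The corners reachable from `B` by flips and moves. -/
def InG (B C : Fin 3 → V) : Prop :=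
  ∃ (l : List V) (h : Fin 3 → V), (∀ n ∈ l, Ax B n) ∧ Red l ∧ InFrame B h ∧ C = im (R l) h

lemma InG.base (B : Fin 3 → V) : InG B B :=
  ⟨[], B, by simp, by simp [Red], InFrame.base, rfl⟩

lemma InG.perm {B C : Fin 3 → V} (h : InG B C) (π : Equiv.Perm (Fin 3)) : InG B (C ∘ π) := by
  obtain ⟨l, k, hl, hred, hk, rfl⟩ := h
  exact ⟨l, k ∘ π, hl, hred, hk.perm π, rfl⟩

lemma InG.mv {B C : Fin 3 → V} (h : InG B C) (j : Fin 3) : InG B (mv j C) := by
  obtain ⟨l, k, hl, hred, hk, rfl⟩ := h
  exact ⟨l, MP_59160a_co.mv j k, hl, hred, hk.mv j, mv_im _ _ _⟩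

lemma InG.flp {B C : Fin 3 → V} (hB : IsCorner B) (h : InG B C) (j : Fin 3) :
    InG B (flp j C) := by
  obtain ⟨l, k, hl, hred, hk, rfl⟩ := h
  have e : MP_59160a_co.flp j (im (R l) k) = im (R (l ++ [nrm k j])) k := by
    rw [flp_im, R_append, R_singleton, im_mul]; rfl
  have hax : Ax B (nrm k j) := (hk.ax hB).2 (Ax_nrm k j)
  rcases l.eq_nil_or_concat with rfl | ⟨l', m, rfl⟩
  · refine ⟨[nrm k j], k, ?_, by simp [Red], hk, e⟩
    intro n hn
    rw [List.mem_singleton] at hn
    rw [hn]; exact hax
  · rw [List.concat_eq_append] at *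
    by_cases hm : nrm k j ≠ m ∧ nrm k j ≠ -m
    · refine ⟨_, k, ?_, ?_, hk, e⟩
      · intro n hn
        rw [List.mem_append, List.mem_singleton] at hn
        rcases hn with hn | hn
        · exact hl n hn
        · rw [hn]; exact hax
      · unfold Red at hred ⊢
        rw [List.isChain_append]
        refine ⟨hred, by simp, ?_⟩
        intro x hx y hy
        simp at hx hy
        subst hx
        subst hy
        exact hm
    · refine ⟨l', k, fun n hn => hl n (by simp [hn]), ?_, hk, ?_⟩
      · exact (List.isChain_append.1 hred).1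
      · rw [e, R_append, R_append, R_singleton, R_singleton]
        have : rf (nrm k j) = rf m := by
          by_cases h1 : nrm k j = m
          · rw [h1]
          · have h2 : nrm k j = -m := by
              by_contra h2
              exact hm ⟨h1, h2⟩
            rw [h2, rf_neg]
        rw [this, mul_assoc, rf_mul_self, mul_one]

lemma InG.star {B C D : Fin 3 → V} (hB : IsCorner B) (h : InG B C) (hs : Star C D) :
    InG B D := by
  induction hs with
  | refl => exact h
  | flp j _ ih => exact ih.flp hB j
  | perm π _ ih => exact ih.perm π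

/-- A representation of a vector of a corner by a word as short as possible. -/
lemma repr_exists {B C : Fin 3 → V} (hB : IsCorner B) (h : InG B C) (j : Fin 3) :
    ∃ (l : List V) (k : Fin 3 → V), (∀ n ∈ l, Ax B n) ∧ Red l ∧ InFrame B k ∧
      Star C (im (R l) k) ∧ C j = R l (k j) ∧ ∀ n ∈ l.getLast?, inner ℝ n (k j) ≠ 0 := by
  obtain ⟨l, k, hl, hred, hk, rfl⟩ := h
  have hc := hk.corner hB
  induction l using List.reverseRecOn with
  | nil => exact ⟨[], k, hl, hred, hk, Star.refl, rfl, by simp⟩
  | append_singleton l n ih =>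
    by_cases hn : inner ℝ n (k j) = 0
    · have hnAx : Ax k n := (hk.ax hB).1 (hl n (by simp))
      obtain ⟨i, hi⟩ : ∃ i, TyA k n i := by
        obtain ⟨i, hi | hi⟩ := hnAx
        · exact ⟨i, hi⟩
        · exact absurd hn (tyB_val hc hi j).ne_zero
      have hrf : rf n = rf (nrm k i) := by
        rcases hi with rfl | rfl
        · rfl
        · rw [rf_neg]
      have hl' : ∀ m ∈ l, Ax B m := fun m hm => hl m (by simp [hm])
      have hred' : Red l := (List.isChain_append.1 hred).1
      obtain ⟨l', k', a1, a2, a3, a4, a5, a6⟩ := ih hl' hred'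
      refine ⟨l', k', a1, a2, a3, ?_, ?_, a6⟩
      · have e : im (R (l ++ [n])) k = flp i (im (R l) k) := by
          rw [flp_im, R_append, R_singleton, im_mul, hrf]; rfl
        rw [e]
        have h1 : Star (flp i (im (R l) k)) (im (R l) k) := by
          have : Star (flp i (im (R l) k)) (flp i (flp i (im (R l) k))) := Star.refl.flp i
          rwa [flp_flp] at this
        exact h1.trans a4
      · have e : im (R (l ++ [n])) k j = R l (k j) := by
          rw [R_append, R_singleton]
          change R l (rf n (k j)) = _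
          rw [rf_orth hn]
        rw [e]
        exact a5
    · refine ⟨l ++ [n], k, hl, hred, hk, Star.refl, rfl, ?_⟩
      intro m hm
      simp at hm
      rw [← hm]; exact hn

/-- Two vectors of a star with inner product `c0` lie in a common corner. -/
lemma common_corner {C D : Fin 3 → V} (hC : IsCorner C) (h : Star C D) (i j : Fin 3)
    (hij : inner ℝ (C i) (D j) = c0) :
    ∃ E, Star C E ∧ (∃ a, E a = C i) ∧ (∃ b, E b = D j) := by
  obtain ⟨z, π, hz, hD⟩ := star_normal h
  clear h
  induction z generalizing C with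
  | nil =>
    refine ⟨C, Star.refl, ⟨i, rfl⟩, ⟨π j, ?_⟩⟩
    rw [hD]; rfl
  | cons k z ih =>
    by_cases hk : k = i
    · subst hk
      obtain ⟨z', w, hzw, hw, hz'⟩ := strip_right (k :: z) (π j)
      have e1 : D j = Wd C z' (C (π j)) := by
        rw [hD, hzw, Wd_append]
        change Wd C z' (Wd C w (C (π j))) = _
        rw [Wd_fix hC w (π j) hw]
      rcases z'.eq_nil_or_concat with rfl | ⟨z'', m, hm⟩
      · exact ⟨C, Star.refl, ⟨k, rfl⟩, ⟨π j, by rw [e1]; rfl⟩⟩
      · exfalso
        have hzc : z'.IsChain (fun i j => j ≠ i) := by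
          rw [hzw] at hz
          exact (List.isChain_append.1 hz).1
        have hhead : k ∈ z'.head? := by
          rcases z' with _ | ⟨a, t⟩
          · simp at hm
          · simp at hzw ⊢
            exact hzw.1.symm
        have hlast : π j ∈ z'.getLast? := by
          have hmem : m ∈ z'.getLast? := by rw [hm]; simp
          have := hz' m hmem
          rwa [this] at hmem
        obtain ⟨c, hc0, hc⟩ := words_res hC (z'.map (nrm C)) (ax_map C z') (red_map hC hzc)
          (nrm C k) (by rw [List.head?_map]; exact Option.mem_map_of_mem _ hhead)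
          (nrm C (π j)) (by rw [List.getLast?_map]; exact Option.mem_map_of_mem _ hlast)
          (C k) (ax_int5_corner hC k)
        have h1 : Unit5 (inner ℝ (C k) (nrm C k)) := by
          rw [real_inner_comm, inner_nrm_self hC]; exact unit5_one
        have h2 := hc (C (π j)) 1 (fun n hn => hn.val_int5 hC _) (by
          rw [hC]; split_ifs
          · exact Res.one.int5
          · exact res_c0.int5) (by rw [inner_nrm_self hC]; exact Res.one)
        have h3 : inner ℝ (C k) (R (z'.map (nrm C)) (C (π j))) = c0 := by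
          rw [← hij, e1]; rfl
        rw [h3, mul_one] at h2
        have h4 : Res (s ^ (z'.map (nrm C)).length * c0) 0 := by
          apply res_c0.s_pow
          rw [hm]; simp
        exact hc0 h1 (h2.unique h4)
    · have hC1 : IsCorner (flp k C) := hC.flp k
      have hconj : Wd (flp k C) z = rf (nrm C k) * Wd C z * rf (nrm C k) := by
        clear ih hz hD
        induction z with
        | nil => rw [Wd_nil, Wd_nil, mul_one, rf_mul_self]
        | cons a z ih =>
          rw [Wd_cons, Wd_cons, ih]
          have e2 : rf (nrm (flp k C) a) = rf (nrm C k) * rf (nrm C a) * rf (nrm C k) := by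
            ext x
            have : nrm (flp k C) a = rf (nrm C k) (nrm C a) := nrm_im _ _ _
            rw [this]
            change rf (rf (nrm C k) (nrm C a)) x = rf (nrm C k) (rf (nrm C a) (rf (nrm C k) x))
            rw [rf_conj (rf (nrm C k)), rf_rf]
          rw [e2]
          have h3 := rf_mul_self (nrm C k)
          calc rf (nrm C k) * rf (nrm C a) * rf (nrm C k) *
              (rf (nrm C k) * Wd C z * rf (nrm C k))
              = rf (nrm C k) * rf (nrm C a) * (rf (nrm C k) * rf (nrm C k)) * Wd C z *
                rf (nrm C k) := by group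
            _ = _ := by rw [h3, mul_one]; group
      have hCi : flp k C i = C i := flp_ne hC (Ne.symm hk)
      have hD1 : D = im (Wd (flp k C) z) (flp k C ∘ π) := by
        rw [hD, hconj, Wd_cons]
        funext a
        change rf (nrm C k) (Wd C z (C (π a))) =
          rf (nrm C k) (Wd C z (rf (nrm C k) (rf (nrm C k) (C (π a)))))
        rw [rf_rf]
      have hz1 : z.IsChain (fun i j => j ≠ i) := (List.isChain_cons.1 hz).2
      obtain ⟨E, hE, ⟨a, ha⟩, ⟨b, hb⟩⟩ := ih hC1 (by rw [hCi]; exact hij) hz1 hD1
      exact ⟨E, (Star.refl.flp k).trans hE, ⟨a, by rw [ha, hCi]⟩, ⟨b, hb⟩⟩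

end Pool.Agent.Lib.MP_59160a_co
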