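import Pool.Agent.Lib.MP_59160a_co.Dim3

/-!
Spheres tiled by regular pentagons in terms of darts, and the darts with a bad dihedral angle.
-/

set_option autoImplicit false
set_option linter.unusedSectionVars false

namespace Pool.Agent.Lib.MP_59160a_co

open Module Equiv.Perm

lemma perm_inv_apply {D : Type*} (f : Equiv.Perm D) (x : D) : f⁻¹ (f x) = x :=
  f.symm_apply_apply x

lemma perm_apply_inv {D : Type*} (f : Equiv.Perm D) (x : D) : f (f⁻¹ x) = x :=
  f.apply_symm_apply x

/-- A closed surface tiled by regular pentagons of side one, mapped to `V`, in terms of darts.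
`nx` is the next dart of the same pentagon, `al` the opposite dart and `p` the position of the
initial vertex. -/
structure Pent (D : Type*) (V : Type*) [Fintype D] [DecidableEq D] [NormedAddCommGroup V]
    [InnerProductSpace ℝ V] where
  nx : Equiv.Perm D
  al : Equiv.Perm D
  p : D → V
  al_al : ∀ x, al (al x) = x
  al_ne : ∀ x, al x ≠ x
  p_al : ∀ x, p (al x) = p (nx x)
  nx5 : ∀ x, nx (nx (nx (nx (nx x)))) = x
  unit : ∀ x, inner ℝ (p (nx x) - p x) (p (nx x) - p x) = (1 : ℝ)
  ang : ∀ x, inner ℝ (p (nx x) - p x) (p (nx (nx x)) - p (nx x)) = -c0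
  flat : ∀ x, p (nx (nx (nx x))) - p (nx (nx x)) =
    g • (p (nx (nx x)) - p (nx x)) - (p (nx x) - p x)
  sep : ∀ x y, SameCycle (al * nx⁻¹) x y → p (nx x) - p x = p (nx y) - p y → x = y
  deg : ∀ x, (al * nx⁻¹) ((al * nx⁻¹) x) ≠ x
  conn : ∀ f : D → Prop, (∀ x, f (nx x) ↔ f x) → (∀ x, f (al x) ↔ f x) → ∀ x y, f x → f y
  euler : 2 * (Nat.card (Quotient (SameCycle.setoid (al * nx⁻¹)))
      + Nat.card (Quotient (SameCycle.setoid nx))) = Fintype.card D + 4

namespace Pent

variable {D : Type*} {V : Type*} [Fintype D] [DecidableEq D] [NormedAddCommGroup V]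
    [InnerProductSpace ℝ V] [Fact (finrank ℝ V = 3)] (M : Pent D V)

/-- The rotation around the initial vertex of a dart. -/
def sg : Equiv.Perm D := M.al * M.nx⁻¹

/-- The unit vector of a dart. -/
def u (x : D) : V := M.p (M.nx x) - M.p x

lemma sg_apply (x : D) : M.sg x = M.al (M.nx⁻¹ x) := rfl

lemma al_inv (x : D) : M.al⁻¹ x = M.al x := by
  rw [Equiv.Perm.inv_eq_iff_eq, M.al_al]

lemma sg_inv (x : D) : M.sg⁻¹ x = M.nx (M.al x) := by
  unfold sg
  rw [mul_inv_rev, inv_inv, Equiv.Perm.mul_apply, M.al_inv]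

lemma sg_nx (x : D) : M.sg (M.nx x) = M.al x := by
  rw [sg_apply, perm_inv_apply]

lemma nx_eq (x : D) : M.nx x = M.sg⁻¹ (M.al x) := by
  rw [sg_inv, M.al_al]

lemma p_sg (x : D) : M.p (M.sg x) = M.p x := by
  rw [sg_apply, M.p_al, perm_apply_inv]

lemma p_sg_inv (x : D) : M.p (M.sg⁻¹ x) = M.p x := by
  rw [← M.p_sg (M.sg⁻¹ x), perm_apply_inv]

lemma p_nx_al (x : D) : M.p (M.nx (M.al x)) = M.p x := by
  rw [← M.p_al, M.al_al]

lemma u_al (x : D) : M.u (M.al x) = -M.u x := by
  unfold u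
  rw [M.p_nx_al, M.p_al, neg_sub]

lemma u_unit (x : D) : inner ℝ (M.u x) (M.u x) = (1 : ℝ) := M.unit x

lemma u_sg (x : D) : M.u (M.sg x) = -M.u (M.nx⁻¹ x) := by
  rw [sg_apply, M.u_al]

lemma inner_sg (x : D) : inner ℝ (M.u x) (M.u (M.sg x)) = c0 := by
  rw [M.u_sg, inner_neg_right, real_inner_comm]
  have := M.ang (M.nx⁻¹ x)
  rw [perm_apply_inv] at this
  unfold u
  rw [perm_apply_inv, this, neg_neg]

lemma u_nx (x : D) : M.u (M.nx x) = M.u (M.sg x) + g • M.u x := by
  have := M.flat (M.nx⁻¹ x)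
  rw [perm_apply_inv] at this
  rw [M.u_sg]
  unfold u
  rw [this, perm_apply_inv]
  abel

lemma u_ne_zero (x : D) : M.u x ≠ 0 := by
  intro h
  have := M.u_unit x
  rw [h, inner_zero_left] at this
  exact zero_ne_one this

/-- A corner containing the directions of `x` and `sg x`. -/
noncomputable def cor (x : D) : Fin 3 → V :=
  (exists_corner (M.u_unit x) (M.u_unit (M.sg x)) (M.inner_sg x)).choose

lemma cor_corner (x : D) : IsCorner (M.cor x) :=
  (exists_corner (M.u_unit x) (M.u_unit (M.sg x)) (M.inner_sg x)).choose_spec.1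

lemma cor_zero (x : D) : M.cor x 0 = M.u x :=
  (exists_corner (M.u_unit x) (M.u_unit (M.sg x)) (M.inner_sg x)).choose_spec.2.1

lemma cor_one (x : D) : M.cor x 1 = M.u (M.sg x) :=
  (exists_corner (M.u_unit x) (M.u_unit (M.sg x)) (M.inner_sg x)).choose_spec.2.2

lemma mv_cor_zero (x : D) : mv 0 (M.cor x) 0 = M.u (M.al x) := by
  rw [mv_self, M.cor_zero, M.u_al]

lemma mv_cor_one (x : D) : mv 0 (M.cor x) 1 = M.u (M.nx x) := by
  rw [mv_ne (M.cor_corner x) (by decide), M.cor_zero, M.cor_one, M.u_nx]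

/-- The star is transported along the edges of a face. -/
lemma star_nx (x : D) : Star (mv 0 (M.cor x)) (M.cor (M.nx x)) := by
  refine star_of_two ((M.cor_corner x).mv 0) (M.cor_corner _) (a := 0) (b := 1) (a' := 1)
    (b' := 0) (by decide) ?_ ?_
  · rw [M.mv_cor_zero, M.cor_one, M.sg_nx]
  · rw [M.mv_cor_one, M.cor_zero]

/-- The dihedral angle at the dart is not a multiple of the dihedral angle of the
dodecahedron. -/
def Bad (x : D) : Prop := ¬ Star (M.cor x) (M.cor (M.sg⁻¹ x))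

lemma bad_al_aux (x : D) (h : ¬ M.Bad x) : ¬ M.Bad (M.al x) := by
  unfold Bad at h ⊢
  rw [not_not] at h ⊢
  -- star at the other end
  have h1 : Star (mv 0 (M.cor x)) (M.cor (M.sg⁻¹ (M.al x))) := by
    rw [← M.nx_eq]; exact M.star_nx x
  -- the other side
  have h2 : M.cor (M.sg⁻¹ x) 1 = M.u x := by
    rw [M.cor_one, perm_apply_inv]
  have h3 : Star (mv 0 (M.cor x)) (mv 1 (M.cor (M.sg⁻¹ x))) :=
    star_mv h (by rw [M.cor_zero, h2])
  have h4 : Star (mv 1 (M.cor (M.sg⁻¹ x))) (M.cor (M.al x)) := by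
    have hc := M.cor_corner (M.sg⁻¹ x)
    refine star_of_two (hc.mv 1) (M.cor_corner _) (a := 1) (b := 0) (a' := 0) (b' := 1)
      (by decide) ?_ ?_
    · rw [mv_self, h2, M.cor_zero, M.u_al]
    · rw [mv_ne hc (by decide), h2, M.cor_zero, M.cor_one]
      have h5 := M.u_nx (M.al x)
      rw [← M.sg_inv, M.u_al] at h5
      rw [h5]
      simp
  exact (h3.trans h4).symm.trans h1

lemma bad_al (x : D) : M.Bad (M.al x) ↔ M.Bad x := by
  constructor
  · intro h
    by_contra hx
    exact M.bad_al_aux x hx h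
  · intro h
    by_contra hx
    have := M.bad_al_aux _ hx
    rw [M.al_al] at this
    exact this h

/-- There is a first bad dart after a bad dart in the backward rotation. -/
lemma exists_return (x : D) (hx : M.Bad x) : ∃ k, M.Bad ((M.sg⁻¹ ^ (k + 1)) x) := by
  obtain ⟨n, hn, hn1⟩ : ∃ n, 0 < n ∧ M.sg⁻¹ ^ n = 1 :=
    ⟨orderOf M.sg⁻¹, orderOf_pos _, pow_orderOf_eq_one _⟩
  refine ⟨n - 1, ?_⟩
  rw [Nat.sub_add_cancel hn, hn1]
  exact hx

open Classical in
/-- The number of steps to the next bad dart. -/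
noncomputable def ret (x : D) : ℕ :=
  if h : ∃ k, M.Bad ((M.sg⁻¹ ^ (k + 1)) x) then Nat.find h else 0

open Classical in
lemma ret_spec (x : D) (hx : M.Bad x) : M.Bad ((M.sg⁻¹ ^ (M.ret x + 1)) x) := by
  have h := M.exists_return x hx
  unfold ret
  rw [dif_pos h]
  exact Nat.find_spec h

open Classical in
lemma ret_min (x : D) (hx : M.Bad x) {k : ℕ} (hk : k < M.ret x) :
    ¬ M.Bad ((M.sg⁻¹ ^ (k + 1)) x) := by
  have h := M.exists_return x hx
  unfold ret at hk
  rw [dif_pos h] at hk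
  exact Nat.find_min h hk

/-- The next bad dart around the same vertex. -/
noncomputable def nxt (x : D) : D := (M.sg⁻¹ ^ (M.ret x + 1)) x

lemma nxt_bad (x : D) (hx : M.Bad x) : M.Bad (M.nxt x) := M.ret_spec x hx

lemma star_chain (x : D) (k : ℕ) (h : ∀ j, j < k → ¬ M.Bad ((M.sg⁻¹ ^ (j + 1)) x)) :
    Star (M.cor (M.sg⁻¹ x)) (M.cor ((M.sg⁻¹ ^ (k + 1)) x)) := by
  induction k with
  | zero => rw [zero_add, pow_one]; exact Star.refl
  | succ k ih =>
    have h1 := ih (fun j hj => h j (by omega))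
    have h2 := h k (by omega)
    unfold Bad at h2
    rw [not_not] at h2
    rw [pow_succ' _ (k + 1), Equiv.Perm.mul_apply]
    exact h1.trans h2

lemma star_nxt (x : D) (hx : M.Bad x) : Star (M.cor (M.sg⁻¹ x)) (M.cor (M.nxt x)) :=
  M.star_chain x _ (fun _ hj => M.ret_min x hx hj)

lemma nxt_ne (x : D) (hx : M.Bad x) : M.nxt x ≠ x := by
  intro h
  have h1 := M.star_nxt x hx
  rw [h] at h1
  exact hx h1.symm

lemma nxt_same (x : D) : SameCycle M.sg x (M.nxt x) := by
  refine ⟨-(M.ret x + 1 : ℕ), ?_⟩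
  unfold nxt
  rw [zpow_neg, zpow_natCast, inv_pow]

lemma p_same {x y : D} (h : SameCycle M.sg x y) : M.p x = M.p y := by
  obtain ⟨k, rfl⟩ := h
  have : ∀ n : ℕ, ∀ z, M.p ((M.sg ^ n) z) = M.p z := by
    intro n
    induction n with
    | zero => intro z; rfl
    | succ n ih =>
      intro z
      rw [pow_succ', Equiv.Perm.mul_apply, M.p_sg, ih]
  obtain ⟨n, rfl | rfl⟩ := k.eq_nat_or_neg
  · rw [zpow_natCast, this]
  · rw [zpow_neg, zpow_natCast]
    conv_rhs => rw [← this n]
    rw [perm_apply_inv]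

lemma u_inj {x y : D} (h : SameCycle M.sg x y) (hu : M.u x = M.u y) : x = y :=
  M.sep x y h hu

lemma nxt_inj {x y : D} (hx : M.Bad x) (hy : M.Bad y) (h : M.nxt x = M.nxt y) : x = y := by
  wlog hle : M.ret x ≤ M.ret y generalizing x y with H
  · exact (H hy hx h.symm (by omega)).symm
  obtain ⟨d, hd⟩ := Nat.exists_eq_add_of_le hle
  unfold nxt at h
  have h1 : x = (M.sg⁻¹ ^ d) y := by
    have e : M.ret y + 1 = (M.ret x + 1) + d := by omega
    have h' : (M.sg⁻¹ ^ (M.ret x + 1)) x = (M.sg⁻¹ ^ (M.ret x + 1)) ((M.sg⁻¹ ^ d) y) := by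
      rw [h, e, pow_add _ (M.ret x + 1) d]; rfl
    exact (M.sg⁻¹ ^ (M.ret x + 1)).injective h'
  rcases Nat.eq_zero_or_pos d with rfl | hd0
  · rw [h1]; rfl
  · exfalso
    obtain ⟨k, rfl⟩ : ∃ k, d = k + 1 := ⟨d - 1, by omega⟩
    exact M.ret_min y hy (k := k) (by omega) (by rw [← h1]; exact hx)

/-- The next bad dart along the boundary of a region. -/
noncomputable def bd (x : D) : D := M.nxt (M.al x)

lemma bd_bad {x : D} (hx : M.Bad x) : M.Bad (M.bd x) := M.nxt_bad _ ((M.bad_al x).2 hx)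

lemma bd_inj {x y : D} (hx : M.Bad x) (hy : M.Bad y) (h : M.bd x = M.bd y) : x = y :=
  M.al.injective (M.nxt_inj ((M.bad_al x).2 hx) ((M.bad_al y).2 hy) h)

lemma star_bd {x : D} (hx : M.Bad x) : Star (mv 0 (M.cor x)) (M.cor (M.bd x)) := by
  have h1 := M.star_nx x
  rw [M.nx_eq] at h1
  exact h1.trans (M.star_nxt _ ((M.bad_al x).2 hx))

lemma p_bd (x : D) : M.p (M.bd x) = M.p x + M.u x := by
  unfold bd
  rw [← M.p_same (M.nxt_same (M.al x)), M.p_al]
  unfold u
  abel

lemma iter_bad {x : D} (hx : M.Bad x) (i : ℕ) : M.Bad (M.bd^[i] x) := by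
  induction i with
  | zero => exact hx
  | succ i ih => rw [Function.iterate_succ_apply']; exact M.bd_bad ih

/-- The boundary darts where the boundary turns inside a single face direction. -/
def Turn (x : D) : Prop := M.Bad x ∧ inner ℝ (M.u x) (M.u (M.bd x)) = -c0

/-- Every boundary cycle has at least four turns. -/
lemma four_turns {x : D} (hx : M.Bad x) :
    ∃ F : Finset D, 4 ≤ F.card ∧ ∀ y ∈ F, M.Turn y ∧ ∃ i, y = M.bd^[i] x := by
  classical
  -- periodicity
  have hper : ∃ n, 0 < n ∧ M.bd^[n] x = x := by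
    let f : {y // M.Bad y} → {y // M.Bad y} := fun y => ⟨M.bd y.1, M.bd_bad y.2⟩
    have hf : Function.Injective f := by
      rintro ⟨a, ha⟩ ⟨b, hb⟩ hab
      have := congrArg Subtype.val hab
      exact Subtype.ext (M.bd_inj ha hb this)
    have hfi : ∀ n y, (f^[n] y).1 = M.bd^[n] y.1 := by
      intro n
      induction n with
      | zero => intro y; rfl
      | succ n ih => intro y; rw [Function.iterate_succ_apply, Function.iterate_succ_apply, ih]
    obtain ⟨n, hn, hp⟩ := hf.mem_periodicPts ⟨x, hx⟩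
    refine ⟨n, hn, ?_⟩
    have := congrArg Subtype.val hp
    rwa [hfi] at this
  have hx2 : x ∈ Function.periodicPts M.bd := by
    obtain ⟨n, hn, hp⟩ := hper
    exact ⟨n, hn, hp⟩
  set m := Function.minimalPeriod M.bd x with hm
  have hmpos : 0 < m := Function.minimalPeriod_pos_of_mem_periodicPts hx2
  have hmper : M.bd^[m] x = x := Function.iterate_minimalPeriod
  have hchain : Chain m (fun i => M.cor (M.bd^[i] x)) := by
    refine ⟨fun i => M.cor_corner _, ?_, ?_, ?_⟩
    · intro i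
      simp only [Function.iterate_succ_apply']
      exact M.star_bd (M.iter_bad hx i)
    · intro i
      simp only [M.cor_zero, Function.iterate_succ_apply']
      rw [← M.u_al]
      intro h
      have h1 := M.u_inj ((M.nxt_same (M.al (M.bd^[i] x))).symm) h
      exact M.nxt_ne _ ((M.bad_al _).2 (M.iter_bad hx i)) h1
    · intro i
      simp only [Function.iterate_add_apply, hmper]
  have hsum : ∑ i ∈ Finset.range m, (fun i => M.cor (M.bd^[i] x)) i 0 = 0 := by
    have h1 : ∀ i, (fun i => M.cor (M.bd^[i] x)) i 0 =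
        M.p (M.bd^[i + 1] x) - M.p (M.bd^[i] x) := by
      intro i
      simp only [M.cor_zero, Function.iterate_succ_apply', M.p_bd]
      abel
    rw [Finset.sum_congr rfl (fun i _ => h1 i)]
    rw [Finset.sum_range_sub (fun i => M.p (M.bd^[i] x)), hmper]
    simp
  obtain ⟨F, hFm, hF4, hF⟩ := hchain.key hmpos hsum
  refine ⟨F.image (fun i => M.bd^[i] x), ?_, ?_⟩
  · rw [Finset.card_image_of_injOn]
    · exact hF4
    · intro a ha b hb hab
      have ha' : a < m := Finset.mem_range.1 (hFm ha)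
      have hb' : b < m := Finset.mem_range.1 (hFm hb)
      exact Function.iterate_injOn_Iio_minimalPeriod ha' hb' hab
  · intro y hy
    rw [Finset.mem_image] at hy
    obtain ⟨i, hi, rfl⟩ := hy
    refine ⟨⟨M.iter_bad hx i, ?_⟩, i, rfl⟩
    have := hF i hi
    unfold Good at this
    simp only [M.cor_zero, Function.iterate_succ_apply'] at this
    exact this

end Pent

end Pool.Agent.Lib.MP_59160a_co
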