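import Pool.Agent.Lib.MP_59160a_co.Fan
import Pool.Agent.Lib.MP_59160a_co.PartB
import Pool.Agent.Lib.MP_59160a_co.Polygon

/-!
The triangulated polygon at every vertex, and moving along edges.
-/

set_option autoImplicit false
set_option linter.unusedSectionVars false

namespace Pool.Agent.Lib.MP_59160a_co

open Module Equiv.Perm Finset

namespace Pent

variable {D : Type*} {V : Type*} [Fintype D] [DecidableEq D] [NormedAddCommGroup V]
    [InnerProductSpace ℝ V] [Fact (finrank ℝ V = 3)] (M : Pent D V)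

/-- Two darts at the same vertex with inner product `c0`. -/
def Adj (x y : D) : Prop := SameCycle M.sg x y ∧ inner ℝ (M.u x) (M.u y) = c0

lemma adj_symm {x y : D} (h : M.Adj x y) : M.Adj y x :=
  ⟨h.1.symm, by rw [real_inner_comm]; exact h.2⟩

lemma adj_irrefl (x : D) : ¬ M.Adj x x := by
  rintro ⟨-, h⟩
  rw [M.u_unit] at h
  exact c0_ne_one h.symm

lemma same_sg (x : D) : SameCycle M.sg x (M.sg x) := ⟨1, by rw [zpow_one]⟩

lemma same_sg_inv (x : D) : SameCycle M.sg x (M.sg⁻¹ x) := ⟨-1, by rw [zpow_neg, zpow_one]⟩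

lemma adj_sg (x : D) : M.Adj x (M.sg x) := ⟨M.same_sg x, M.inner_sg x⟩

lemma adj_sg_inv (x : D) : M.Adj x (M.sg⁻¹ x) := by
  have := M.adj_sg (M.sg⁻¹ x)
  rw [perm_apply_inv] at this
  exact M.adj_symm this

lemma star_orbit {x y : D} (h : SameCycle M.sg x y) : Star (M.cor x) (M.cor y) := by
  have h1 : ∀ z, Star (M.cor z) (M.cor (M.sg⁻¹ z)) := by
    intro z
    have := M.not_bad z
    unfold Bad at this
    rwa [not_not] at this
  have h2 : ∀ (n : ℕ) z, Star (M.cor z) (M.cor ((M.sg⁻¹ ^ n) z)) := by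
    intro n
    induction n with
    | zero => intro z; exact Star.refl
    | succ n ih =>
      intro z
      rw [pow_succ', Equiv.Perm.mul_apply]
      exact (ih z).trans (h1 _)
  obtain ⟨k, rfl⟩ := h
  obtain ⟨n, rfl | rfl⟩ := k.eq_nat_or_neg
  · rw [zpow_natCast]
    have h3 := h2 n ((M.sg ^ n) x)
    rw [inv_pow, perm_inv_apply] at h3
    exact h3.symm
  · rw [zpow_neg, zpow_natCast, ← inv_pow]
    exact h2 n x

open Classical in
/-- The darts at the initial vertex of `x`. -/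
noncomputable def orb (x : D) : Finset D := univ.filter (fun y => SameCycle M.sg x y)

open Classical in
lemma mem_orb {x y : D} : y ∈ M.orb x ↔ SameCycle M.sg x y := by simp [orb]

lemma sg_ne (x : D) : M.sg x ≠ x := by
  intro h
  have := M.inner_sg x
  rw [h, M.u_unit] at this
  exact c0_ne_one this.symm

lemma sg_sg_ne (x : D) : M.sg (M.sg x) ≠ x := M.deg x

lemma orb_cycle (x : D) : M.sg.IsCycleOn (M.orb x : Set D) := by
  refine ⟨⟨?_, M.sg.injective.injOn, ?_⟩, ?_⟩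
  · intro y hy
    rw [Finset.mem_coe, M.mem_orb] at hy ⊢
    exact hy.trans (M.same_sg y)
  · intro y hy
    rw [Finset.mem_coe, M.mem_orb] at hy
    refine ⟨M.sg⁻¹ y, ?_, perm_apply_inv _ _⟩
    rw [Finset.mem_coe, M.mem_orb]
    exact hy.trans (M.same_sg_inv y)
  · intro y hy z hz
    rw [Finset.mem_coe, M.mem_orb] at hy hz
    exact hy.symm.trans hz

lemma orb_card (x : D) : 3 ≤ (M.orb x).card := by
  have h : ({x, M.sg x, M.sg (M.sg x)} : Finset D) ⊆ M.orb x := by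
    intro y hy
    simp only [Finset.mem_insert, Finset.mem_singleton] at hy
    rw [M.mem_orb]
    rcases hy with rfl | rfl | rfl
    · exact SameCycle.refl _ _
    · exact M.same_sg x
    · exact (M.same_sg x).trans (M.same_sg _)
  have h2 : ({x, M.sg x, M.sg (M.sg x)} : Finset D).card = 3 := by
    rw [Finset.card_insert_of_notMem, Finset.card_insert_of_notMem, Finset.card_singleton]
    · rw [Finset.mem_singleton]
      exact (M.sg_ne _).symm
    · simp only [Finset.mem_insert, Finset.mem_singleton, not_or]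
      exact ⟨(M.sg_ne x).symm, (M.sg_sg_ne x).symm⟩
  rw [← h2]
  exact Finset.card_le_card h

/-- Any two darts of the same vertex: the direction lies in the star. -/
lemma mem_star {x y : D} (h : SameCycle M.sg x y) :
    ∃ E i, Star (M.cor x) E ∧ E i = M.u y :=
  ⟨M.cor y, 0, M.star_orbit h, M.cor_zero y⟩

lemma orb_poly (x : D) :
    (∀ a ∈ M.orb x, ∃! c, c ∈ M.orb x ∧ M.Adj a c ∧ M.Adj (M.sg a) c) ∧
    (∀ a ∈ M.orb x, ∀ b ∈ M.orb x, M.Adj a b → b ≠ M.sg a → a ≠ M.sg b →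
      {c | c ∈ M.orb x ∧ M.Adj a c ∧ M.Adj b c}.ncard = 2) ∧
    {p : D × D × D | Tri M.Adj (M.orb x) p.1 p.2.1 p.2.2}.ncard + 12 = 6 * (M.orb x).card ∧
    (∀ w : D → D → D → Prop, (∀ a b c, Tri M.Adj (M.orb x) a b c → (w a b c ↔ w b a c)) →
      (∀ a b c, Tri M.Adj (M.orb x) a b c → (w a b c ↔ w a c b)) →
      (∀ a b c c', Tri M.Adj (M.orb x) a b c → Tri M.Adj (M.orb x) a b c' →
        (w a b c ↔ w a b c')) →
      ∀ a b c a' b' c', Tri M.Adj (M.orb x) a b c → Tri M.Adj (M.orb x) a' b' c' →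
        w a b c → w a' b' c') := by
  refine polygon M.Adj (fun a b h => M.adj_symm h) M.adj_irrefl (M.orb x) M.sg (M.orb_cycle x)
    (M.orb_card x) (fun y _ => M.adj_sg y) ?_
  intro Z hZ hne
  have hsame : ∀ a ∈ Z, ∀ b ∈ Z, SameCycle M.sg a b := by
    intro a ha b hb
    exact (M.mem_orb.1 (hZ ha)).symm.trans (M.mem_orb.1 (hZ hb))
  obtain ⟨z, hz, h1, h2⟩ := ear (M.cor_corner x) Z hne M.u (by
    intro z hz
    obtain ⟨E, i, hE, hi⟩ := M.mem_star (M.mem_orb.1 (hZ hz))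
    exact ⟨E, i, hE, hi⟩)
  refine ⟨z, hz, ?_, ?_⟩
  · intro a ha b hb hza hzb hab
    refine ⟨hsame a ha b hb, h1 a ha b hb hza.2 hzb.2 ?_⟩
    intro hu
    exact hab (M.u_inj (hsame a ha b hb) hu)
  · intro a ha b hb c hc hza hzb hzc
    rcases h2 a ha b hb c hc hza.2 hzb.2 hzc.2 with h | h | h
    · left; exact M.u_inj (hsame a ha b hb) h
    · right; left; exact M.u_inj (hsame b hb c hc) h
    · right; right; exact M.u_inj (hsame a ha c hc) h

lemma poly_one (x : D) : ∃! c, M.Adj x c ∧ M.Adj (M.sg x) c := by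
  obtain ⟨c, ⟨_, h1, h2⟩, h3⟩ := (M.orb_poly x).1 x (M.mem_orb.2 (SameCycle.refl _ _))
  refine ⟨c, ⟨h1, h2⟩, ?_⟩
  rintro d ⟨hd1, hd2⟩
  exact h3 d ⟨M.mem_orb.2 hd1.1, hd1, hd2⟩

lemma poly_two {x y : D} (h : M.Adj x y) (h1 : y ≠ M.sg x) (h2 : x ≠ M.sg y) :
    {c | M.Adj x c ∧ M.Adj y c}.ncard = 2 := by
  rw [← (M.orb_poly x).2.1 x (M.mem_orb.2 (SameCycle.refl _ _)) y (M.mem_orb.2 h.1) h h1 h2]
  congr 1
  ext c
  simp only [Set.mem_setOf_eq]
  constructor
  · rintro ⟨a, b⟩; exact ⟨M.mem_orb.2 a.1, a, b⟩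
  · rintro ⟨_, a, b⟩; exact ⟨a, b⟩

/-- The vectors adjacent to a dart form a fan. -/
lemma fan (x : D) : Fan (M.cor x) {v | ∃ y, M.Adj x y ∧ v = M.u y} (M.u (M.sg x))
    (M.u (M.sg⁻¹ x)) := by
  have hmem : ∀ y, M.Adj x y → ∃ (E : Fin 3 → V) (i k : Fin 3), Star (M.cor x) E ∧ i ≠ k ∧
      E i = M.cor x 0 ∧ E k = M.u y := by
    intro y hy
    obtain ⟨E, hE, ⟨a, ha⟩, ⟨b, hb⟩⟩ := common_corner (M.cor_corner x) (M.star_orbit hy.1) 0 0
      (by rw [M.cor_zero, M.cor_zero]; exact hy.2)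
    refine ⟨E, a, b, hE, ?_, ha, by rw [hb, M.cor_zero]⟩
    rintro rfl
    have h1 := hy.2
    rw [← M.cor_zero x, ← ha, ← M.cor_zero y, ← hb, (hE.corner (M.cor_corner x)).self] at h1
    exact c0_ne_one h1.symm
  refine ⟨?_, ?_, ⟨M.sg x, M.adj_sg x, rfl⟩, ⟨M.sg⁻¹ x, M.adj_sg_inv x, rfl⟩, ?_, ?_, ?_, ?_⟩
  · have : {v | ∃ y, M.Adj x y ∧ v = M.u y} ⊆ Set.range M.u := by
      rintro v ⟨y, _, rfl⟩; exact ⟨y, rfl⟩
    exact (Set.finite_range M.u).subset this
  · rintro v ⟨y, hy, rfl⟩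
    exact hmem y hy
  · intro h
    have h1 := M.u_inj ((M.same_sg x).symm.trans (M.same_sg_inv x)) h
    have h2 : M.sg (M.sg x) = x := by rw [h1, perm_apply_inv]
    exact M.sg_sg_ne x h2
  · -- interior vectors
    rintro v ⟨y, hy, rfl⟩ h1 h2 c hc hc0 hcy
    have hy1 : y ≠ M.sg x := by rintro rfl; exact h1 rfl
    have hy2 : x ≠ M.sg y := by
      intro h
      apply h2
      rw [h, perm_inv_apply]
    have h3 := M.poly_two hy hy1 hy2
    rw [Set.ncard_eq_two] at h3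
    obtain ⟨z1, z2, hz, hset⟩ := h3
    have hz1 : z1 ∈ {c | M.Adj x c ∧ M.Adj y c} := by rw [hset]; simp
    have hz2 : z2 ∈ {c | M.Adj x c ∧ M.Adj y c} := by rw [hset]; simp
    simp only [Set.mem_setOf_eq] at hz1 hz2
    -- the vector of `y` in the link
    obtain ⟨E, i, k, hE, hik, hEi, hEk⟩ := hmem y hy
    obtain ⟨n, hn⟩ := link_complete (M.cor_corner x) hE hEi hik
    rw [hEk] at hn
    have key : ∀ z, M.Adj x z → M.Adj y z → M.u z = bq (M.cor x) (n + 1) ∨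
        M.u z = bq (M.cor x) (n - 1) := by
      intro z h4 h5
      apply link_next (M.cor_corner x) n (M.u_unit z)
      · rw [M.cor_zero]; exact (M.adj_symm h4).2
      · rw [← hn]; exact (M.adj_symm h5).2
    have keyc : c = bq (M.cor x) (n + 1) ∨ c = bq (M.cor x) (n - 1) := by
      apply link_next (M.cor_corner x) n hc hc0
      rw [← hn]; exact hcy
    have hne : M.u z1 ≠ M.u z2 := by
      intro h
      exact hz (M.u_inj (hz1.1.1.symm.trans hz2.1.1) h)
    rcases key z1 hz1.1 hz1.2 with a1 | a1 <;> rcases key z2 hz2.1 hz2.2 with a2 | a2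
    · exact absurd (a1.trans a2.symm) hne
    · rcases keyc with e | e
      · exact ⟨z1, hz1.1, by rw [e, a1]⟩
      · exact ⟨z2, hz2.1, by rw [e, a2]⟩
    · rcases keyc with e | e
      · exact ⟨z2, hz2.1, by rw [e, a2]⟩
      · exact ⟨z1, hz1.1, by rw [e, a1]⟩
    · exact absurd (a1.trans a2.symm) hne
  · obtain ⟨c, ⟨h1, h2⟩, h3⟩ := M.poly_one x
    refine ⟨M.u c, ⟨⟨c, h1, rfl⟩, (M.adj_symm h2).2⟩, ?_⟩
    rintro _ ⟨⟨d, hd, rfl⟩, hd2⟩
    rw [h3 d ⟨hd, M.adj_symm ⟨hd.1.symm.trans (M.same_sg x), hd2⟩⟩]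
  · obtain ⟨c, ⟨h1, h2⟩, h3⟩ := M.poly_one (M.sg⁻¹ x)
    rw [perm_apply_inv] at h2
    refine ⟨M.u c, ⟨⟨c, h2, rfl⟩, (M.adj_symm h1).2⟩, ?_⟩
    rintro _ ⟨⟨d, hd, rfl⟩, hd2⟩
    rw [h3 d ⟨M.adj_symm ⟨hd.1.symm.trans (M.same_sg_inv x), hd2⟩, by
      rw [perm_apply_inv]; exact hd⟩]

/-- The adjacent darts at the two ends of an edge correspond by reflection. -/
lemma fan_al (x : D) : {v | ∃ y, M.Adj x y ∧ v = M.u y} =
    rf (M.u x) '' {v | ∃ y, M.Adj (M.al x) y ∧ v = M.u y} := by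
  have h1 := (M.fan (M.al x)).im (rf (M.u x))
  -- the ends
  have e1 : rf (M.u x) (M.u (M.sg (M.al x))) = M.u (M.sg⁻¹ x) := by
    have h5 := M.u_nx (M.al x)
    rw [← M.sg_inv, M.u_al] at h5
    -- sg (al x) has direction u (sg⁻¹ x) + g u x
    have h6 : M.u (M.sg (M.al x)) = M.u (M.sg⁻¹ x) + g • M.u x := by
      rw [h5]; simp
    have h7 := M.adj_sg_inv x
    rw [h6, rf_apply, inner_add_right, real_inner_smul_right, M.u_unit, h7.2]
    rw [c0_eq]
    have : (2 * (-g / 2 + g * 1) / 1 : ℝ) = g := by ring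
    rw [this]
    abel
  have e2 : rf (M.u x) (M.u (M.sg⁻¹ (M.al x))) = M.u (M.sg x) := by
    rw [← M.nx_eq, M.u_nx, rf_apply, inner_add_right, real_inner_smul_right, M.u_unit,
      M.inner_sg, c0_eq]
    have : (2 * (-g / 2 + g * 1) / 1 : ℝ) = g := by ring
    rw [this]
    abel
  rw [e1, e2] at h1
  -- change of base
  have hs : Star (im (rf (M.u x)) (M.cor (M.al x))) (M.cor x) := by
    have h2 : Star (mv 0 (M.cor x)) (M.cor (M.al x)) := by
      refine (M.star_nx x).trans (M.star_orbit ?_)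
      rw [← M.sg_nx]
      exact M.same_sg _
    have h3 := h2.im (rf (M.u x))
    have h4 : im (rf (M.u x)) (mv 0 (M.cor x)) = M.cor x := by
      funext i
      unfold mv
      simp only [im_apply]
      rw [M.cor_zero, rf_rf]
    rw [h4] at h3
    exact h3.symm
  have h0 : im (rf (M.u x)) (M.cor (M.al x)) 0 = M.cor x 0 := by
    rw [im_apply, M.cor_zero, M.cor_zero, M.u_al, map_neg, rf_self, neg_neg]
  have h8 := (h1.base hs h0).symm
  exact (M.fan x).unique (M.cor_corner x) h8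

/-- Moving along an edge. -/
lemma exists_move {x y : D} (h : M.Adj x y) :
    ∃ z, M.Adj (M.al x) z ∧ M.u z = rf (M.u x) (M.u y) := by
  have h1 : M.u y ∈ {v | ∃ y, M.Adj x y ∧ v = M.u y} := ⟨y, h, rfl⟩
  rw [M.fan_al x] at h1
  obtain ⟨_, ⟨z, hz, rfl⟩, hz2⟩ := h1
  exact ⟨z, hz, by rw [← hz2, rf_rf]⟩

end Pent

end Pool.Agent.Lib.MP_59160a_co
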