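import Mathlib
import Pool.Agent.Lib.MP_59160a_co.Defs

/-!
Maps from the sphere to the space of nonzero vectors up to sign lift to nonzero vectors.
-/

set_option autoImplicit false

namespace Pool.Agent.Lib.MP_59160a_co

open Topology Set

/-- Nonzero vectors. -/
abbrev NZ (ι : Type) [Fintype ι] := {w : ι → ℝ // w ≠ 0}

section sign

variable (ι : Type) [Fintype ι]

instance nzAction : MulAction ℤˣ (NZ ι) where
  smul u w := ⟨u • w.1, by
    intro h
    apply w.2
    have h2 : u⁻¹ • (u • w.1) = u⁻¹ • (0 : ι → ℝ) := by rw [h]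
    rwa [inv_smul_smul, smul_zero] at h2⟩
  one_smul w := Subtype.ext (one_smul ℤˣ w.1)
  mul_smul a b w := Subtype.ext (mul_smul a b w.1)

theorem nz_smul_val (u : ℤˣ) (w : NZ ι) : (u • w).1 = u • w.1 := rfl

/-- Nonzero vectors up to sign. -/
abbrev PNZ := Quotient (MulAction.orbitRel ℤˣ (NZ ι))

/-- The projection. -/
def pnz (w : NZ ι) : PNZ ι := Quotient.mk (MulAction.orbitRel ℤˣ (NZ ι)) w

theorem pnz_cover : IsQuotientCoveringMap (pnz ι) ℤˣ where
  toIsQuotientMap := isQuotientMap_quotient_mk'
  continuous_const_smul u := by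
    refine Continuous.subtype_mk ?_ _
    rcases Int.units_eq_one_or u with rfl | rfl
    · simpa using continuous_subtype_val
    · have : (fun w : NZ ι => (-1 : ℤˣ) • w.1) = fun w => - w.1 := by
        funext w
        simp [Units.smul_def]
      rw [this]
      exact continuous_subtype_val.neg
  apply_eq_iff_mem_orbit := Quotient.eq''
  disjoint e := by
    refine ⟨Metric.ball e ‖e.1‖, Metric.ball_mem_nhds _ (norm_pos_iff.2 e.2), ?_⟩
    rintro g ⟨x, ⟨y, hy, rfl⟩, hx⟩
    rcases Int.units_eq_one_or g with rfl | rfl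
    · rfl
    · exfalso
      rw [Metric.mem_ball, Subtype.dist_eq, dist_eq_norm] at hy hx
      have h1 : ((-1 : ℤˣ) • y).1 = - y.1 := by
        rw [nz_smul_val]
        simp [Units.smul_def]
      simp only at hx
      rw [h1] at hx
      have h2 : ‖(y.1 - e.1) + (-y.1 - e.1)‖ < ‖e.1‖ + ‖e.1‖ :=
        lt_of_le_of_lt (norm_add_le _ _) (add_lt_add hy hx)
      have h3 : (y.1 - e.1) + (-y.1 - e.1) = -((2 : ℝ) • e.1) := by
        rw [two_smul]; abel
      rw [h3, norm_neg, norm_smul] at h2
      norm_num at h2
      linarith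

theorem pnz_cov : IsCoveringMap (pnz ι) := (pnz_cover ι).isCoveringMap

theorem pnz_eq_iff (a b : NZ ι) : pnz ι a = pnz ι b ↔ a.1 = b.1 ∨ a.1 = - b.1 := by
  rw [(pnz_cover ι).apply_eq_iff_mem_orbit]
  constructor
  · rintro ⟨u, rfl⟩
    rcases Int.units_eq_one_or u with rfl | rfl
    · left; simp
    · right
      simp [nz_smul_val, Units.smul_def]
  · rintro (h | h)
    · exact ⟨1, Subtype.ext (by simp [h])⟩
    · refine ⟨-1, Subtype.ext ?_⟩
      simp [nz_smul_val, Units.smul_def, h]

end sign

/-- The unit sphere in space. -/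
abbrev S2 := Metric.sphere (0 : E3) 1

instance fact3 : Fact (Module.finrank ℝ E3 = 2 + 1) := ⟨by simp⟩

theorem lift_sphere (ι : Type) [Fintype ι] (φ : C(S2, PNZ ι)) :
    ∃ Φ : C(S2, NZ ι), ∀ x, pnz ι (Φ x) = φ x := by
  classical
  -- poles
  have hv : ‖(EuclideanSpace.single 0 1 : E3)‖ = 1 := by simp
  set v : E3 := EuclideanSpace.single 0 1 with hvdef
  have hv' : ‖-v‖ = 1 := by rw [norm_neg]; exact hv
  let N : S2 := ⟨v, by simp [hv]⟩
  let Z : S2 := ⟨-v, by simp [hv]⟩
  let W : S2 := ⟨EuclideanSpace.single 1 1, by simp⟩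
  have hNZ : N ≠ Z := by
    intro h
    have h1 := congrArg (fun x : S2 => (x : E3) 0) h
    simp [N, Z, hvdef] at h1
    norm_num at h1
  have hWN : W ≠ N := by
    intro h
    have h1 := congrArg (fun x : S2 => (x : E3) 0) h
    simp [N, W, hvdef] at h1
  have hWZ : W ≠ Z := by
    intro h
    have h1 := congrArg (fun x : S2 => (x : E3) 0) h
    simp [Z, W, hvdef] at h1
  have key : ∀ (u : E3) (hu : ‖u‖ = 1) (x₀ : S2) (e₀ : NZ ι), pnz ι e₀ = φ x₀ →
      (x₀ : E3) ≠ u → ∃ Φ : S2 → NZ ι, ContinuousOn Φ {x | (x : E3) ≠ u} ∧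
        (∀ x : S2, (x : E3) ≠ u → pnz ι (Φ x) = φ x) ∧ Φ x₀ = e₀ := by
    intro u hu x₀ e₀ he hx
    let g := stereographic hu
    have hsrc : ∀ x : S2, (x : E3) ≠ u → x ∈ g.source := by
      intro x hx
      rw [stereographic_source]
      intro h
      exact hx (congrArg Subtype.val h)
    have hcont : Continuous (g.symm : _ → S2) := by
      have := g.continuousOn_symm
      rw [stereographic_target] at this
      exact continuousOn_univ.1 this
    obtain ⟨Ψ, ⟨hΨ0, hΨ⟩, -⟩ := (pnz_cov ι).existsUnique_continuousMap_lifts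
      (φ.comp ⟨g.symm, hcont⟩) (g x₀) e₀ (by
        rw [he]
        simp only [ContinuousMap.comp_apply, ContinuousMap.coe_mk]
        rw [g.left_inv (hsrc x₀ hx)])
    refine ⟨fun x => Ψ (g x), ?_, ?_, hΨ0⟩
    · apply Ψ.continuous.comp_continuousOn
      exact g.continuousOn.mono fun x hx => hsrc x hx
    · intro x hx
      have := congrFun hΨ (g x)
      simp only [Function.comp_apply, ContinuousMap.comp_apply, ContinuousMap.coe_mk] at this
      rw [this, g.left_inv (hsrc x hx)]
  obtain ⟨e, he⟩ : ∃ e, pnz ι e = φ W := (pnz_cover ι).surjective _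
  obtain ⟨Φ1, c1, l1, b1⟩ := key v hv W e he (fun h => hWN (Subtype.ext h))
  obtain ⟨Φ2, c2, l2, b2⟩ := key (-v) hv' W e he (fun h => hWZ (Subtype.ext h))
  have hpre : IsPreconnected {x : S2 | (x : E3) ≠ v ∧ (x : E3) ≠ -v} := by
    let g := stereographic hv
    have hcont : Continuous (g.symm : _ → S2) := by
      have := g.continuousOn_symm
      rw [stereographic_target] at this
      exact continuousOn_univ.1 this
    have himg : {x : S2 | (x : E3) ≠ v ∧ (x : E3) ≠ -v}
        = g.symm '' {g Z}ᶜ := by
      have hZs : Z ∈ g.source := by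
        rw [stereographic_source]
        intro h
        exact hNZ h.symm
      ext x
      constructor
      · rintro ⟨hx1, hx2⟩
        have hxs : x ∈ g.source := by
          rw [stereographic_source]
          intro h
          exact hx1 (congrArg Subtype.val h)
        refine ⟨g x, ?_, g.left_inv hxs⟩
        intro h
        have := g.injOn hxs hZs h
        exact hx2 (congrArg Subtype.val this)
      · rintro ⟨y, hy, rfl⟩
        have hyt : y ∈ g.target := by rw [stereographic_target]; trivial
        have hys := g.map_target hyt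
        constructor
        · intro h
          rw [stereographic_source] at hys
          exact hys (Subtype.ext h)
        · intro h
          apply hy
          have : g.symm y = Z := Subtype.ext h
          rw [← this]
          exact (g.right_inv hyt).symm
    rw [himg]
    apply IsPreconnected.image _ _ hcont.continuousOn
    apply (isConnected_compl_singleton_of_one_lt_rank _ _).isPreconnected
    have hf : Module.finrank ℝ (ℝ ∙ v)ᗮ = 2 :=
      Submodule.finrank_orthogonal_span_singleton (by
        intro h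
        rw [h] at hv
        simp at hv)
    rw [← Module.finrank_eq_rank, hf]
    norm_num
  have heq : EqOn Φ1 Φ2 {x : S2 | (x : E3) ≠ v ∧ (x : E3) ≠ -v} := by
    refine (pnz_cov ι).eqOn_of_comp_eqOn hpre (c1.mono fun x hx => hx.1)
      (c2.mono fun x hx => hx.2) ?_ (a := W) ?_ ?_
    · intro x hx
      simp only [Function.comp_apply]
      rw [l1 x hx.1, l2 x hx.2]
    · exact ⟨fun h => hWN (Subtype.ext h), fun h => hWZ (Subtype.ext h)⟩
    · rw [b1, b2]
  let Φ : S2 → NZ ι := fun x => if (x : E3) = v then Φ2 x else Φ1 x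
  have hopen1 : IsOpen {x : S2 | (x : E3) ≠ v} :=
    (isClosed_eq continuous_subtype_val continuous_const).isOpen_compl
  have hopen2 : IsOpen {x : S2 | (x : E3) ≠ -v} :=
    (isClosed_eq continuous_subtype_val continuous_const).isOpen_compl
  have hcont : Continuous Φ := by
    rw [continuous_iff_continuousAt]
    intro x
    by_cases hx : (x : E3) = v
    · have hx2 : (x : E3) ≠ -v := by
        intro h
        apply hNZ
        apply Subtype.ext
        change v = -v
        rw [← h, ← hx] 
      have hc : ContinuousAt Φ2 x := c2.continuousAt (hopen2.mem_nhds hx2)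
      apply hc.congr
      filter_upwards [hopen2.mem_nhds hx2] with y hy
      by_cases hyv : (y : E3) = v
      · simp [Φ, hyv]
      · simp only [Φ, if_neg hyv]
        exact (heq ⟨hyv, hy⟩).symm
    · have hc : ContinuousAt Φ1 x := c1.continuousAt (hopen1.mem_nhds hx)
      apply hc.congr
      filter_upwards [hopen1.mem_nhds hx] with y hy
      simp only [Φ]
      rw [if_neg hy]
  refine ⟨⟨Φ, hcont⟩, ?_⟩
  intro x
  change pnz ι (if (x : E3) = v then Φ2 x else Φ1 x) = φ x
  by_cases hx : (x : E3) = v
  · rw [if_pos hx]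
    apply l2
    intro h
    apply hNZ
    apply Subtype.ext
    change v = -v
    rw [← h, ← hx]
  · rw [if_neg hx]
    exact l1 x hx

end Pool.Agent.Lib.MP_59160a_co
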