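import Mathlib
import Pool.Agent.Lib.MP_59160a_co.Defs
import Pool.Agent.Lib.MP_59160a_co.Arith

/-!
Geometry of the regular pentagon.
-/

set_option autoImplicit false

namespace Pool.Agent.Lib.MP_59160a_co

open Real

/-- Table of cosines. -/
noncomputable def ip (k : ZMod 5) : ℝ :=
  if k = 0 then 1 else if k = 1 ∨ k = 4 then g / 2 else -(1 + g) / 2

lemma ip_zero : ip 0 = 1 := by simp [ip]
lemma ip_one : ip 1 = g / 2 := by
  unfold ip; rw [if_neg (by decide), if_pos (by decide)]
lemma ip_two : ip 2 = -(1 + g) / 2 := by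
  unfold ip; rw [if_neg (by decide), if_neg (by decide)]
lemma ip_three : ip 3 = -(1 + g) / 2 := by
  unfold ip; rw [if_neg (by decide), if_neg (by decide)]
lemma ip_four : ip 4 = g / 2 := by
  unfold ip; rw [if_neg (by decide), if_pos (by decide)]

/-- The square of the circumradius. -/
noncomputable def R2 : ℝ := 1 / (2 - g)

lemma R2_pos : 0 < R2 := by
  have := g_lt
  unfold R2
  apply one_div_pos.2
  linarith

lemma R2_mul : R2 * (2 - g) = 1 := by
  have := g_lt
  unfold R2
  field_simp
  rw [div_self]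
  linarith

lemma R2_lt : R2 < 1 := by
  have h1 := R2_mul
  have h2 := g_lt
  have h3 := R2_pos
  nlinarith

lemma cos36 : cos (π / 5) = (1 + g) / 2 := by
  rw [cos_pi_div_five]
  unfold g s
  ring

lemma cos72 : cos (2 * π / 5) = g / 2 := by
  have h : 2 * π / 5 = 2 * (π / 5) := by ring
  rw [h, cos_two_mul, cos36]
  have := g_sq
  nlinarith

lemma cos_table (k : ℤ) : cos (2 * π * k / 5) = ip (k : ZMod 5) := by
  have h1 : (2 * π * k / 5 : ℝ) = 2 * π * ((k % 5 : ℤ) : ℝ) / 5 + ((k / 5 : ℤ) : ℝ) * (2 * π) := by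
    have h2 : (k : ℝ) = 5 * ((k / 5 : ℤ) : ℝ) + ((k % 5 : ℤ) : ℝ) := by
      exact_mod_cast (Int.mul_ediv_add_emod k 5).symm
    calc (2 * π * k / 5 : ℝ) = 2 * π * (5 * ((k / 5 : ℤ) : ℝ) + ((k % 5 : ℤ) : ℝ)) / 5 := by
          rw [← h2]
      _ = _ := by ring
  rw [h1, cos_add_int_mul_two_pi]
  have h3 : (k : ZMod 5) = ((k % 5 : ℤ) : ZMod 5) := by
    have := Int.mul_ediv_add_emod k 5
    conv_lhs => rw [← this]
    push_cast
    rw [show (5 : ZMod 5) = 0 by decide]
    simp
  rw [h3]
  have h4 : 0 ≤ k % 5 := Int.emod_nonneg _ (by norm_num)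
  have h5 : k % 5 < 5 := Int.emod_lt_of_pos _ (by norm_num)
  generalize k % 5 = r at h4 h5
  interval_cases r
  · simp [ip_zero]
  · rw [show ((1 : ℤ) : ZMod 5) = 1 by decide, ip_one, ← cos72]
    congr 1
    push_cast
    ring
  · rw [show ((2 : ℤ) : ZMod 5) = 2 by decide, ip_two]
    rw [show 2 * π * ((2 : ℤ) : ℝ) / 5 = π - π / 5 by push_cast; ring, cos_pi_sub, cos36]
    ring
  · rw [show ((3 : ℤ) : ZMod 5) = 3 by decide, ip_three]
    rw [show 2 * π * ((3 : ℤ) : ℝ) / 5 = π / 5 + π by push_cast; ring, cos_add_pi, cos36]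
    ring
  · rw [show ((4 : ℤ) : ZMod 5) = 4 by decide, ip_four]
    rw [show 2 * π * ((4 : ℤ) : ℝ) / 5 = 2 * π - 2 * π / 5 by push_cast; ring, cos_two_pi_sub,
      cos72]

lemma rad_sq : (1 / (2 * sin (π / 5))) ^ 2 = R2 := by
  have h1 : sin (π / 5) ^ 2 = (2 - g) / 4 := by
    have := sin_sq_add_cos_sq (π / 5)
    rw [cos36] at this
    have := g_sq
    nlinarith
  have h2 : (0 : ℝ) < 2 - g := by have := g_lt; linarith
  rw [div_pow, mul_pow, h1]
  unfold R2
  field_simp
  norm_num

lemma inner_P (i j : ZMod 5) :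
    inner ℝ (pentVertex i) (pentVertex j) = R2 * ip (i - j) := by
  have h := cos_table ((i.val : ℤ) - (j.val : ℤ))
  have h1 : (((i.val : ℤ) - (j.val : ℤ) : ℤ) : ZMod 5) = i - j := by
    push_cast
    rw [ZMod.natCast_zmod_val, ZMod.natCast_zmod_val]
  rw [h1] at h
  rw [← h, ← rad_sq]
  unfold pentVertex
  rw [inner_smul_left, inner_smul_right]
  have h2 : (2 * π * (((i.val : ℤ) - (j.val : ℤ) : ℤ) : ℝ) / 5)
      = 2 * π * i.val / 5 - 2 * π * j.val / 5 := by
    push_cast
    ring
  rw [h2, cos_sub]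
  simp [PiLp.inner_apply, Fin.sum_univ_two]
  ring

lemma inner_PP (i k : ZMod 5) :
    inner ℝ (pentVertex (i + k)) (pentVertex i) = R2 * ip k := by
  rw [inner_P, add_sub_cancel_left]

lemma norm_P_sq (i : ZMod 5) : ‖pentVertex i‖ ^ 2 = R2 := by
  rw [← real_inner_self_eq_norm_sq, inner_P, sub_self, ip_zero, mul_one]

lemma dist_P_sq (i j : ZMod 5) :
    dist (pentVertex i) (pentVertex j) ^ 2 = 2 * R2 * (1 - ip (i - j)) := by
  rw [dist_eq_norm, ← real_inner_self_eq_norm_sq, inner_sub_left, inner_sub_right,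
    inner_sub_right, inner_P, inner_P, inner_P, inner_P, sub_self, sub_self, ip_zero]
  have : ip (j - i) = ip (i - j) := by
    have h1 := inner_P i j
    have h2 := inner_P j i
    rw [real_inner_comm] at h2
    have h3 := R2_pos
    have h4 : R2 * ip (j - i) = R2 * ip (i - j) := by rw [← h1, ← h2]
    exact mul_left_cancel₀ h3.ne' h4
  rw [this]
  ring

lemma dist_P_one (i : ZMod 5) : dist (pentVertex i) (pentVertex (i + 1)) = 1 := by
  have h := dist_P_sq i (i + 1)
  rw [show i - (i + 1) = 4 by rw [sub_add_cancel_left]; decide, ip_four] at h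
  have h2 : 2 * R2 * (1 - g / 2) = 1 := by have := R2_mul; linarith
  rw [h2] at h
  have h3 : (0 : ℝ) ≤ dist (pentVertex i) (pentVertex (i + 1)) := dist_nonneg
  nlinarith

lemma dist_P_two (i : ZMod 5) : dist (pentVertex i) (pentVertex (i + 2)) = 1 + g := by
  have h := dist_P_sq i (i + 2)
  rw [show i - (i + 2) = 3 by rw [sub_add_cancel_left]; decide, ip_three] at h
  have h2 : 2 * R2 * (1 - -(1 + g) / 2) = (1 + g) ^ 2 := by
    have h3 := R2_mul
    have h4 := g_sq
    have h5 : (1 + g) ^ 2 = (2 + g) * (R2 * (2 - g)) := by rw [h3]; nlinarith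
    rw [h5]
    have h6 : (2 + g) * (2 - g) = 3 + g := by nlinarith
    calc 2 * R2 * (1 - -(1 + g) / 2) = R2 * (3 + g) := by ring
      _ = R2 * ((2 + g) * (2 - g)) := by rw [h6]
      _ = _ := by ring
  rw [h2] at h
  have h3 : (0 : ℝ) ≤ dist (pentVertex i) (pentVertex (i + 2)) := dist_nonneg
  have h4 := g_pos
  nlinarith

lemma P_mem (i : ZMod 5) : pentVertex i ∈ pentagon :=
  subset_convexHull ℝ _ ⟨i, rfl⟩

lemma pentagon_convex : Convex ℝ pentagon := convex_convexHull ℝ _

lemma sidePoint_mem (i : ZMod 5) {t : ℝ} (h0 : 0 ≤ t) (h1 : t ≤ 1) :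
    sidePoint i t ∈ pentagon :=
  pentagon_convex.lineMap_mem (P_mem i) (P_mem (i + 1)) ⟨h0, h1⟩

lemma sidePoint_eq (i : ZMod 5) (t : ℝ) :
    sidePoint i t = (1 - t) • pentVertex i + t • pentVertex (i + 1) := by
  unfold sidePoint
  rw [AffineMap.lineMap_apply_module]

lemma sidePoint_zero (i : ZMod 5) : sidePoint i 0 = pentVertex i := by
  unfold sidePoint; simp

lemma sidePoint_one (i : ZMod 5) : sidePoint i 1 = pentVertex (i + 1) := by
  unfold sidePoint; simp

lemma dist_side_left (i : ZMod 5) {t : ℝ} (h0 : 0 ≤ t) :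
    dist (sidePoint i t) (pentVertex i) = t := by
  unfold sidePoint
  rw [dist_lineMap_left, dist_P_one, mul_one, Real.norm_eq_abs, abs_of_nonneg h0]

lemma dist_side_right (i : ZMod 5) {t : ℝ} (h1 : t ≤ 1) :
    dist (sidePoint i t) (pentVertex (i + 1)) = 1 - t := by
  unfold sidePoint
  rw [dist_lineMap_right, dist_P_one, mul_one, Real.norm_eq_abs,
    abs_of_nonneg (by linarith)]

lemma dist_side_sq (i k : ZMod 5) (t : ℝ) :
    dist (sidePoint i t) (pentVertex (i + k)) ^ 2
      = R2 * ((1 - t) ^ 2 + t ^ 2 + t * (1 - t) * g + 1)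
        - 2 * R2 * ((1 - t) * ip (-k) + t * ip (1 - k)) := by
  rw [dist_eq_norm, ← real_inner_self_eq_norm_sq, sidePoint_eq]
  simp only [inner_sub_left, inner_sub_right, inner_add_left, inner_add_right,
    inner_smul_left, inner_smul_right, inner_P]
  have e1 : i - i = 0 := sub_self i
  have e2 : i - (i + 1) = 4 := by rw [sub_add_cancel_left]; decide
  have e3 : i + 1 - i = 1 := by ring
  have e4 : i + 1 - (i + 1) = 0 := by ring
  have e5 : i - (i + k) = -k := by ring
  have e6 : i + 1 - (i + k) = 1 - k := by ring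
  have e7 : i + k - i = k := by ring
  have e8 : i + k - (i + 1) = k - 1 := by ring
  have e9 : i + k - (i + k) = 0 := by ring
  have hsym : ∀ a : ZMod 5, ip a = ip (-a) := by
    intro a
    fin_cases a
    · rfl
    · change ip 1 = ip 4
      rw [ip_one, ip_four]
    · change ip 2 = ip 3
      rw [ip_two, ip_three]
    · change ip 3 = ip 2
      rw [ip_two, ip_three]
    · change ip 4 = ip 1
      rw [ip_one, ip_four]
  rw [e1, e2, e3, e4, e5, e6, e7, e8, e9, ip_zero, ip_one, ip_four, hsym k, hsym (k - 1),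
    neg_sub]
  simp only [conj_trivial]
  ring

lemma dist_side_far (i j : ZMod 5) {t : ℝ} (h0 : 0 ≤ t) (h1 : t ≤ 1) (hj : j ≠ i)
    (hj' : j ≠ i + 1) : 1 ≤ dist (sidePoint i t) (pentVertex j) := by
  obtain ⟨k, rfl⟩ : ∃ k, j = i + k := ⟨j - i, by ring⟩
  have h := dist_side_sq i k t
  have hR := R2_mul
  have hg := g_sq
  have hg0 := g_pos
  have hg1 := g_lt
  have hRp := R2_pos
  have hd : (0 : ℝ) ≤ dist (sidePoint i t) (pentVertex (i + k)) := dist_nonneg
  have key : 1 ≤ dist (sidePoint i t) (pentVertex (i + k)) ^ 2 := by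
    rw [h]
    fin_cases k
    · exact absurd (add_zero i) hj
    · exact absurd rfl hj'
    · change 1 ≤ R2 * ((1 - t) ^ 2 + t ^ 2 + t * (1 - t) * g + 1)
        - 2 * R2 * ((1 - t) * ip 3 + t * ip 4)
      rw [ip_three, ip_four]
      have e : R2 * ((1 - t) ^ 2 + t ^ 2 + t * (1 - t) * g + 1)
        - 2 * R2 * ((1 - t) * (-(1 + g) / 2) + t * (g / 2)) - R2 * (2 - g)
        = R2 * (2 - g) * ((1 - t) * (1 + g - t)) := by
        have : g ^ 2 = 1 - g := by rw [← hg]; ring
        ring_nf
        rw [this]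
        ring
      rw [hR] at e
      nlinarith [mul_nonneg (sub_nonneg.2 h1) (by linarith : (0 : ℝ) ≤ 1 + g - t)]
    · change 1 ≤ R2 * ((1 - t) ^ 2 + t ^ 2 + t * (1 - t) * g + 1)
        - 2 * R2 * ((1 - t) * ip 2 + t * ip 3)
      rw [ip_two, ip_three]
      have e : R2 * ((1 - t) ^ 2 + t ^ 2 + t * (1 - t) * g + 1)
        - 2 * R2 * ((1 - t) * (-(1 + g) / 2) + t * (-(1 + g) / 2)) - R2 * (2 - g)
        = R2 * (2 - g) * (1 + g - t * (1 - t)) := by
        have : g ^ 2 = 1 - g := by rw [← hg]; ring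
        ring_nf
        rw [this]
        ring
      rw [hR] at e
      nlinarith [mul_nonneg h0 (sub_nonneg.2 h1)]
    · change 1 ≤ R2 * ((1 - t) ^ 2 + t ^ 2 + t * (1 - t) * g + 1)
        - 2 * R2 * ((1 - t) * ip 1 + t * ip 2)
      rw [ip_one, ip_two]
      have e : R2 * ((1 - t) ^ 2 + t ^ 2 + t * (1 - t) * g + 1)
        - 2 * R2 * ((1 - t) * (g / 2) + t * (-(1 + g) / 2)) - R2 * (2 - g)
        = R2 * (2 - g) * (t * (g + t)) := by
        have : g ^ 2 = 1 - g := by rw [← hg]; ring
        ring_nf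
        rw [this]
        ring
      rw [hR] at e
      nlinarith [mul_nonneg h0 (by linarith : (0 : ℝ) ≤ g + t)]
  nlinarith

/-- Every point of the pentagon is at distance less than one from some vertex. -/
lemma exists_near (x : E2) (hx : x ∈ pentagon) : ∃ i, dist x (pentVertex i) < 1 := by
  by_contra hcon
  push Not at hcon
  have h1 : ∀ i, inner ℝ x (pentVertex i) ≤ (‖x‖ ^ 2 + R2 - 1) / 2 := by
    intro i
    have h2 := hcon i
    have h3 : dist x (pentVertex i) ^ 2 = ‖x‖ ^ 2 - 2 * inner ℝ x (pentVertex i) + R2 := by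
      rw [dist_eq_norm, norm_sub_sq_real, norm_P_sq]
    nlinarith
  have h4 : pentagon ⊆ {y | inner ℝ x y ≤ (‖x‖ ^ 2 + R2 - 1) / 2} := by
    apply convexHull_min
    · rintro _ ⟨i, rfl⟩
      exact h1 i
    · exact convex_halfSpace_le (IsLinearMap.mk (fun a b => inner_add_right _ _ _)
        (fun c a => by rw [inner_smul_right, smul_eq_mul])) _
  have h5 := h4 hx
  simp only [Set.mem_ofPred_eq] at h5
  rw [real_inner_self_eq_norm_sq] at h5
  have h6 := R2_lt
  nlinarith [sq_nonneg ‖x‖]

/-- The linear functional of side `j`. -/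
noncomputable def ell (j : ZMod 5) (x : E2) : ℝ :=
  inner ℝ (pentVertex j + pentVertex (j + 1)) x

/-- Its maximum. -/
noncomputable def ellMax : ℝ := R2 * (1 + g / 2)

lemma ell_add (j : ZMod 5) (x y : E2) : ell j (x + y) = ell j x + ell j y := by
  unfold ell; rw [inner_add_right]

lemma ell_smul (j : ZMod 5) (c : ℝ) (x : E2) : ell j (c • x) = c * ell j x := by
  unfold ell; rw [inner_smul_right]

lemma ell_P (j k : ZMod 5) : ell j (pentVertex k) = R2 * (ip (j - k) + ip (j + 1 - k)) := by
  unfold ell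
  rw [inner_add_left, inner_P, inner_P]
  ring

lemma ell_P_left (j : ZMod 5) : ell j (pentVertex j) = ellMax := by
  rw [ell_P, sub_self, show j + 1 - j = 1 by ring, ip_zero, ip_one]
  rfl

lemma ell_P_right (j : ZMod 5) : ell j (pentVertex (j + 1)) = ellMax := by
  rw [ell_P, show j - (j + 1) = 4 by rw [sub_add_cancel_left]; decide, sub_self, ip_zero,
    ip_four]
  unfold ellMax
  ring

lemma ell_P_lt (j k : ZMod 5) (h1 : k ≠ j) (h2 : k ≠ j + 1) :
    ell j (pentVertex k) < ellMax := by
  obtain ⟨l, rfl⟩ : ∃ l, k = j + l := ⟨k - j, by ring⟩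
  rw [ell_P, show j - (j + l) = -l by ring, show j + 1 - (j + l) = 1 - l by ring]
  have hg0 := g_pos
  have hRp := R2_pos
  unfold ellMax
  apply mul_lt_mul_of_pos_left _ hRp
  fin_cases l
  · exact absurd (add_zero j) h1
  · exact absurd rfl h2
  · change ip 3 + ip 4 < _
    rw [ip_three, ip_four]
    linarith
  · change ip 2 + ip 3 < _
    rw [ip_two, ip_three]
    linarith
  · change ip 1 + ip 2 < _
    rw [ip_one, ip_two]
    linarith

lemma ell_P_le (j k : ZMod 5) : ell j (pentVertex k) ≤ ellMax := by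
  by_cases h1 : k = j
  · rw [h1, ell_P_left]
  · by_cases h2 : k = j + 1
    · rw [h2, ell_P_right]
    · exact (ell_P_lt j k h1 h2).le

lemma ell_side (j i : ZMod 5) (t : ℝ) :
    ell j (sidePoint i t) = (1 - t) * ell j (pentVertex i) + t * ell j (pentVertex (i + 1)) := by
  rw [sidePoint_eq, ell_add, ell_smul, ell_smul]

lemma ell_side_self (i : ZMod 5) (t : ℝ) : ell i (sidePoint i t) = ellMax := by
  rw [ell_side, ell_P_left, ell_P_right]
  ring

lemma ell_side_lt (j i : ZMod 5) {t : ℝ} (h0 : 0 < t) (h1 : t < 1) (hij : j ≠ i) :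
    ell j (sidePoint i t) < ellMax := by
  rw [ell_side]
  have a1 := ell_P_le j i
  have a2 := ell_P_le j (i + 1)
  have h : ell j (pentVertex i) < ellMax ∨ ell j (pentVertex (i + 1)) < ellMax := by
    by_cases h3 : i = j + 1
    · right
      subst h3
      apply ell_P_lt
      · rw [add_assoc]
        intro h
        have : (1 + 1 : ZMod 5) = 0 := by simpa using h
        exact absurd this (by decide)
      · intro h
        have : (1 : ZMod 5) = 0 :=
          add_left_cancel (a := j + 1) (h.trans (add_zero (j + 1)).symm)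
        exact absurd this (by decide)
    · left
      exact ell_P_lt j i (fun h => hij h.symm) h3
  rcases h with h | h
  · nlinarith
  · nlinarith

lemma sidePoint_inj (i : ZMod 5) {a b : ℝ} (h : sidePoint i a = sidePoint i b) : a = b := by
  unfold sidePoint at h
  have hne : pentVertex i ≠ pentVertex (i + 1) := by
    intro h
    have := dist_P_one i
    rw [h, dist_self] at this
    exact zero_ne_one this
  rcases AffineMap.lineMap_eq_lineMap_iff.1 h with h | h
  · exact absurd h hne
  · exact h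

/-- Open sides are disjoint from the other sides. -/
lemma sidePoint_unique (i j : ZMod 5) {t r : ℝ} (h0 : 0 < t) (h1 : t < 1)
    (h : sidePoint i t = sidePoint j r) : i = j ∧ t = r := by
  by_cases hij : j = i
  · subst hij
    exact ⟨rfl, sidePoint_inj _ h⟩
  · have h2 := ell_side_lt j i h0 h1 hij
    rw [h, ell_side_self] at h2
    exact absurd h2 (lt_irrefl _)

/-- The point inside the pentagon near vertex `i`. -/
noncomputable def cornerPoint (i : ZMod 5) (t : ℝ) : E2 :=
  (1 - 2 * t) • pentVertex i + t • pentVertex (i + 1) + t • pentVertex (i - 1)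

lemma cornerPoint_mem (i : ZMod 5) {t : ℝ} (h0 : 0 ≤ t) (h1 : t ≤ 1 / 2) :
    cornerPoint i t ∈ pentagon := by
  have h := pentagon_convex.sum_mem (t := Finset.univ) (w := ![1 - 2 * t, t, t])
    (z := ![pentVertex i, pentVertex (i + 1), pentVertex (i - 1)]) ?_ ?_ ?_
  · rw [Fin.sum_univ_three] at h
    exact h
  · intro k _
    fin_cases k
    · change 0 ≤ 1 - 2 * t
      linarith
    · exact h0
    · exact h0
  · rw [Fin.sum_univ_three]
    change 1 - 2 * t + t + t = 1
    ring
  · intro k _
    fin_cases k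
    · exact P_mem _
    · exact P_mem _
    · exact P_mem _

lemma cornerPoint_not_side (i j : ZMod 5) {t : ℝ} (h0 : 0 < t) (h1 : t < 1 / 2) (r : ℝ) :
    cornerPoint i t ≠ sidePoint j r := by
  intro h
  have h2 := ell_side_self j r
  rw [← h] at h2
  unfold cornerPoint at h2
  rw [ell_add, ell_add, ell_smul, ell_smul, ell_smul] at h2
  have a1 := ell_P_le j i
  have a2 := ell_P_le j (i + 1)
  have a3 := ell_P_le j (i - 1)
  have h3 : ell j (pentVertex (i + 1)) < ellMax ∨ ell j (pentVertex (i - 1)) < ellMax := by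
    by_cases hj : i + 1 = j + 1
    · right
      have : i = j := add_right_cancel hj
      subst this
      apply ell_P_lt
      · intro h
        have : (-1 : ZMod 5) = 0 :=
          add_left_cancel (a := i) (by rw [← sub_eq_add_neg, add_zero]; exact h)
        exact absurd this (by decide)
      · intro h
        have h4 : i - 1 = i + 1 := h
        have : (-1 : ZMod 5) = 1 := by
          have h5 : i + (-1) = i + 1 := by rw [← sub_eq_add_neg]; exact h4
          exact add_left_cancel h5
        exact absurd this (by decide)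
    · by_cases hj' : i + 1 = j
      · right
        subst hj'
        apply ell_P_lt
        · intro h
          have h5 : i + (-1) = i + 1 := by rw [← sub_eq_add_neg]; exact h
          have : (-1 : ZMod 5) = 1 := add_left_cancel h5
          exact absurd this (by decide)
        · intro h
          have h5 : i + (-1) = i + (1 + 1) := by rw [← sub_eq_add_neg, ← add_assoc]; exact h
          have : (-1 : ZMod 5) = 1 + 1 := add_left_cancel h5
          exact absurd this (by decide)
      · left
        exact ell_P_lt j (i + 1) hj' hj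
  rcases h3 with h3 | h3
  · nlinarith
  · nlinarith

end Pool.Agent.Lib.MP_59160a_co
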