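import Mathlib
import Pool.Agent.Lib.MP_59160a_co.W1
import Pool.Agent.Lib.MP_59160a_co.W2

/-!
On a pentagonal surface homeomorphic to the sphere every cocycle modulo two is a coboundary.
-/

set_option autoImplicit false

namespace Pool.Agent.Lib.MP_59160a_co

open Set

lemma P_inj {i j : ZMod 5} (h : pentVertex i = pentVertex j) : i = j := by
  by_contra hij
  by_cases h1 : i = j + 1
  · subst h1
    have := dist_P_one j
    rw [h, dist_self] at this
    exact zero_ne_one this
  · have := ell_P_lt j i hij h1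
    rw [h, ell_P_left] at this
    exact lt_irrefl _ this

/-- The vertices as points of the pentagon. -/
noncomputable def vert (i : ZMod 5) : pentagon := ⟨pentVertex i, P_mem i⟩

/-- The side points as points of the pentagon. -/
noncomputable def sidePt (i : ZMod 5) (t : ℝ) (h0 : 0 ≤ t) (h1 : t ≤ 1) : pentagon :=
  ⟨sidePoint i t, sidePoint_mem i h0 h1⟩

/-- The hat function of a vertex. -/
noncomputable def hat (i : ZMod 5) (x : pentagon) : ℝ := max 0 (1 - dist (x : E2) (pentVertex i))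

lemma hat_continuous (i : ZMod 5) : Continuous (hat i) := by
  unfold hat
  fun_prop

lemma hat_vert (i : ZMod 5) : hat i (vert i) = 1 := by
  simp [hat, vert]

lemma hat_side_left (i : ZMod 5) (x : pentagon) {t : ℝ} (h0 : 0 ≤ t) (h1 : t ≤ 1)
    (hx : (x : E2) = sidePoint i t) : hat i x = 1 - t := by
  unfold hat
  rw [hx, dist_side_left i h0, max_eq_right (by linarith)]

lemma hat_side_right (i : ZMod 5) (x : pentagon) {t : ℝ} (h0 : 0 ≤ t) (h1 : t ≤ 1)
    (hx : (x : E2) = sidePoint i t) : hat (i + 1) x = t := by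
  unfold hat
  rw [hx, dist_side_right i h1, max_eq_right (by linarith)]
  ring

lemma hat_side_far (i j : ZMod 5) (x : pentagon) {t : ℝ} (h0 : 0 ≤ t) (h1 : t ≤ 1)
    (hx : (x : E2) = sidePoint i t) (hj : j ≠ i) (hj' : j ≠ i + 1) : hat j x = 0 := by
  unfold hat
  rw [hx]
  apply max_eq_left
  have := dist_side_far i j h0 h1 hj hj'
  linarith

/-- Signs. -/
noncomputable def sgn (a : ZMod 2) : ℝ := if a = 0 then 1 else -1

lemma sgn_add (a b : ZMod 2) : sgn (a + b) = sgn a * sgn b := by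
  have h : ∀ a b : ZMod 2, (a = 0 ∧ b = 0 ∧ a + b = 0) ∨ (a = 0 ∧ b ≠ 0 ∧ a + b ≠ 0) ∨
    (a ≠ 0 ∧ b = 0 ∧ a + b ≠ 0) ∨ (a ≠ 0 ∧ b ≠ 0 ∧ a + b = 0) := by decide
  unfold sgn
  rcases h a b with ⟨h1, h2, h3⟩ | ⟨h1, h2, h3⟩ | ⟨h1, h2, h3⟩ | ⟨h1, h2, h3⟩ <;>
  simp [h1, h2, h3]

lemma sgn_mul_self (a : ZMod 2) : sgn a * sgn a = 1 := by
  unfold sgn
  split <;> norm_num

lemma sgn_ne (a : ZMod 2) : sgn a ≠ 0 := by
  unfold sgn
  split <;> norm_num

lemma sgn_or (a : ZMod 2) : sgn a = 1 ∨ sgn a = -1 := by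
  unfold sgn
  split
  · exact Or.inl rfl
  · exact Or.inr rfl

namespace PentComplex

variable (M : PentComplex)

/-- The vertex point of the surface given by a corner of a pentagon. -/
noncomputable def vp (d : Fin M.n × ZMod 5) : M.Carrier := M.pt d.1 (vert d.2)

lemma pt_rel {F F' : Fin M.n} {x x' : pentagon} (h : M.Rel (F, x) (F', x')) :
    M.pt F x = M.pt F' x' := Quot.sound h

lemma vp_glue_left (d : Fin M.n × ZMod 5) :
    M.vp d = M.vp ((M.glue d).1, if M.rev d then (M.glue d).2 + 1 else (M.glue d).2) := by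
  apply M.pt_rel
  refine ⟨d.2, 0, le_rfl, zero_le_one, ?_, rfl, ?_⟩
  · exact (sidePoint_zero d.2).symm
  · change pentVertex _ = sidePoint (M.glue d).2 (if M.rev d then 1 - 0 else 0)
    by_cases h : M.rev d = true
    · rw [if_pos h, if_pos h, sub_zero, sidePoint_one]
    · rw [if_neg h, if_neg h, sidePoint_zero]

lemma vp_glue_right (d : Fin M.n × ZMod 5) :
    M.vp (d.1, d.2 + 1)
      = M.vp ((M.glue d).1, if M.rev d then (M.glue d).2 else (M.glue d).2 + 1) := by
  apply M.pt_rel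
  refine ⟨d.2, 1, zero_le_one, le_rfl, ?_, rfl, ?_⟩
  · exact (sidePoint_one d.2).symm
  · change pentVertex _ = sidePoint (M.glue d).2 (if M.rev d then 1 - 1 else 1)
    by_cases h : M.rev d = true
    · rw [if_pos h, if_pos h, sub_self, sidePoint_zero]
    · rw [if_neg h, if_neg h, sidePoint_one]

variable (f : M.Carrier → E3)

/-- The vector valued hat function twisted by the signs `s`. -/
noncomputable def hh (s : Fin M.n × ZMod 5 → ZMod 2) (a : Fin M.n × pentagon) :
    Fin M.n × ZMod 5 → ℝ :=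
  fun e => ∑ i : ZMod 5, if f (M.vp (a.1, i)) = f (M.vp e) then
    sgn (s (a.1, i)) * hat i a.2 else 0

variable {f}

lemma pos_inj (hiso : ∀ F, Isometry fun x : pentagon => f (M.pt F x)) (F : Fin M.n)
    {i j : ZMod 5} (h : f (M.vp (F, i)) = f (M.vp (F, j))) : i = j := by
  have h1 := (hiso F).injective h
  exact P_inj (congrArg Subtype.val h1)

lemma hh_self (hiso : ∀ F, Isometry fun x : pentagon => f (M.pt F x))
    (s : Fin M.n × ZMod 5 → ZMod 2) (a : Fin M.n × pentagon) (i : ZMod 5) :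
    M.hh f s a (a.1, i) = sgn (s (a.1, i)) * hat i a.2 := by
  unfold hh
  rw [Finset.sum_eq_single i]
  · rw [if_pos rfl]
  · intro j _ hj
    rw [if_neg]
    intro h
    exact hj (M.pos_inj hiso a.1 h)
  · intro h
    exact absurd (Finset.mem_univ i) h

lemma hh_ne (hiso : ∀ F, Isometry fun x : pentagon => f (M.pt F x))
    (s : Fin M.n × ZMod 5 → ZMod 2) (a : Fin M.n × pentagon) : M.hh f s a ≠ 0 := by
  intro h
  obtain ⟨i, hi⟩ := exists_near a.2 a.2.2
  have h1 := congrFun h (a.1, i)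
  rw [M.hh_self hiso] at h1
  simp only [Pi.zero_apply] at h1
  rcases mul_eq_zero.1 h1 with h2 | h2
  · exact sgn_ne _ h2
  · unfold hat at h2
    rw [max_eq_right (by linarith)] at h2
    linarith

lemma hh_side (s : Fin M.n × ZMod 5 → ZMod 2) (F : Fin M.n) (i : ZMod 5) (x : pentagon) {t : ℝ}
    (h0 : 0 ≤ t) (h1 : t ≤ 1) (hx : (x : E2) = sidePoint i t) (e : Fin M.n × ZMod 5) :
    M.hh f s (F, x) e =
      (if f (M.vp (F, i)) = f (M.vp e) then sgn (s (F, i)) * (1 - t) else 0)
      + (if f (M.vp (F, i + 1)) = f (M.vp e) then sgn (s (F, i + 1)) * t else 0) := by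
  unfold hh
  have hne : i ≠ i + 1 := by
    intro h
    have : (0 : ZMod 5) = 1 := add_left_cancel (a := i) (by rw [add_zero]; exact h)
    exact absurd this (by decide)
  rw [← Finset.sum_subset (Finset.subset_univ {i, i + 1}), Finset.sum_pair hne]
  · rw [hat_side_left i x h0 h1 hx, hat_side_right i x h0 h1 hx]
  · intro j _ hj
    simp only [Finset.mem_insert, Finset.mem_singleton, not_or] at hj
    rw [hat_side_far i j x h0 h1 hx hj.1 hj.2, mul_zero, ite_self]

lemma hh_rel (s z : Fin M.n × ZMod 5 → ZMod 2) (hz : ∀ d, z (M.glue d) = z d)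
    (hs : ∀ d : Fin M.n × ZMod 5, s d + s (d.1, d.2 + 1) = z d)
    (a b : Fin M.n × pentagon) (h : M.Rel a b) :
    M.hh f s a = M.hh f s b ∨ M.hh f s a = - M.hh f s b := by
  obtain ⟨F, x⟩ := a
  obtain ⟨F', x'⟩ := b
  obtain ⟨i, t, h0, h1, hx, hF, hx'⟩ := h
  simp only at hx hF hx'
  subst hF
  have hv1 := congrArg f (M.vp_glue_left (F, i))
  have hv2 := congrArg f (M.vp_glue_right (F, i))
  simp only at hv2
  have e1 := hs (F, i)
  have e2 := hs (M.glue (F, i))
  rw [hz] at e2
  simp only at e1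
  set d' := M.glue (F, i) with hd'
  have huse : ∀ u : ℝ, (u = 1 ∨ u = -1) → (∀ e, M.hh f s (F, x) e = u * M.hh f s (d'.1, x') e) →
      M.hh f s (F, x) = M.hh f s (d'.1, x') ∨ M.hh f s (F, x) = - M.hh f s (d'.1, x') := by
    rintro u (rfl | rfl) h
    · left
      funext e
      rw [h e, one_mul]
    · right
      funext e
      rw [h e, Pi.neg_apply]
      ring
  by_cases hr : M.rev (F, i) = true
  · rw [if_pos hr] at hx' hv1 hv2
    have h0' : (0 : ℝ) ≤ 1 - t := by linarith
    have h1' : 1 - t ≤ 1 := by linarith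
    apply huse (sgn (s (F, i) + s (d'.1, d'.2 + 1))) (sgn_or _)
    intro e
    rw [M.hh_side s F i x h0 h1 hx e, M.hh_side s d'.1 d'.2 x' h0' h1' hx' e, hv1, hv2]
    have e3 : s (F, i) + s (d'.1, d'.2 + 1) = s (F, i + 1) + s (d'.1, d'.2) := by
      have h3 : ∀ a b c d z : ZMod 2, a + b = z → c + d = z → a + d = b + c := by decide
      exact h3 _ _ _ _ _ e1 e2
    have a1 : sgn (s (F, i) + s (d'.1, d'.2 + 1)) * sgn (s (d'.1, d'.2 + 1))
        = sgn (s (F, i)) := by
      rw [sgn_add, mul_assoc, sgn_mul_self, mul_one]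
    have a2 : sgn (s (F, i) + s (d'.1, d'.2 + 1)) * sgn (s (d'.1, d'.2))
        = sgn (s (F, i + 1)) := by
      rw [e3, sgn_add, mul_assoc, sgn_mul_self, mul_one]
    rw [← a1, ← a2]
    split <;> split <;> ring
  · rw [if_neg hr] at hx' hv1 hv2
    apply huse (sgn (s (F, i) + s (d'.1, d'.2))) (sgn_or _)
    intro e
    rw [M.hh_side s F i x h0 h1 hx e, M.hh_side s d'.1 d'.2 x' h0 h1 hx' e, hv1, hv2]
    have e3 : s (F, i) + s (d'.1, d'.2) = s (F, i + 1) + s (d'.1, d'.2 + 1) := by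
      have h3 : ∀ a b c d z : ZMod 2, a + b = z → c + d = z → a + c = b + d := by decide
      exact h3 _ _ _ _ _ e1 e2
    have a1 : sgn (s (F, i) + s (d'.1, d'.2)) * sgn (s (d'.1, d'.2))
        = sgn (s (F, i)) := by
      rw [sgn_add, mul_assoc, sgn_mul_self, mul_one]
    have a2 : sgn (s (F, i) + s (d'.1, d'.2)) * sgn (s (d'.1, d'.2 + 1))
        = sgn (s (F, i + 1)) := by
      rw [e3, sgn_add, mul_assoc, sgn_mul_self, mul_one]
    rw [← a1, ← a2]
    split <;> split <;> ring

/-- Partial sums of a function on the sides. -/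
def psum (z : Fin M.n × ZMod 5 → ZMod 2) (d : Fin M.n × ZMod 5) : ZMod 2 :=
  (![0, z (d.1, 0), z (d.1, 0) + z (d.1, 1), z (d.1, 0) + z (d.1, 1) + z (d.1, 2),
    z (d.1, 0) + z (d.1, 1) + z (d.1, 2) + z (d.1, 3)] : Fin 5 → ZMod 2) d.2

lemma psum_add (z : Fin M.n × ZMod 5 → ZMod 2) (hsum : ∀ F, ∑ i : ZMod 5, z (F, i) = 0)
    (d : Fin M.n × ZMod 5) : M.psum z d + M.psum z (d.1, d.2 + 1) = z d := by
  obtain ⟨F, i⟩ := d
  have h := hsum F
  have h5 : ∑ i : ZMod 5, z (F, i) = z (F, 0) + z (F, 1) + z (F, 2) + z (F, 3) + z (F, 4) :=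
    Fin.sum_univ_five (fun i : Fin 5 => z (F, i))
  rw [h5] at h
  have key : ∀ a b c d e : ZMod 2, a + b + c + d + e = 0 → 0 + a = a ∧ a + (a + b) = b ∧
    (a + b) + (a + b + c) = c ∧ (a + b + c) + (a + b + c + d) = d ∧
    (a + b + c + d) + 0 = e := by decide
  obtain ⟨k0, k1, k2, k3, k4⟩ := key _ _ _ _ _ h
  fin_cases i
  · exact k0
  · exact k1
  · exact k2
  · exact k3
  · exact k4

instance : PreconnectedSpace pentagon :=
  Subtype.preconnectedSpace pentagon_convex.isPreconnected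

theorem cocycle_trivial (hM : M.IsSphere)
    (hiso : ∀ F, Isometry fun x : pentagon => f (M.pt F x))
    (z : Fin M.n × ZMod 5 → ZMod 2) (hz : ∀ d, z (M.glue d) = z d)
    (hsum : ∀ F, ∑ i : ZMod 5, z (F, i) = 0) :
    ∃ q : Fin M.n × ZMod 5 → ZMod 2, (∀ d, z d = q d + q (d.1, d.2 + 1)) ∧
      ∀ d d', M.vp d = M.vp d' → q d = q d' := by
  classical
  obtain ⟨h⟩ := hM
  let s := M.psum z
  have hs : ∀ d : Fin M.n × ZMod 5, s d + s (d.1, d.2 + 1) = z d := M.psum_add z hsum
  let H : Fin M.n × pentagon → NZ (Fin M.n × ZMod 5) := fun a => ⟨M.hh f s a, M.hh_ne hiso s a⟩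
  have hHc : Continuous H := by
    apply Continuous.subtype_mk
    apply continuous_pi
    intro e
    rw [continuous_prod_of_discrete_left]
    intro F
    unfold hh
    apply continuous_finsetSum
    intro i _
    by_cases hc : f (M.vp (F, i)) = f (M.vp e)
    · simp only [hc, if_true]
      exact continuous_const.mul (hat_continuous i)
    · simp only [hc, if_false]
      exact continuous_const
  let φ : M.Carrier → PNZ (Fin M.n × ZMod 5) := Quot.lift (fun a => pnz _ (H a)) (by
    intro a b hab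
    rw [pnz_eq_iff]
    exact M.hh_rel s z hz hs a b hab)
  have hφc : Continuous φ :=
    continuous_quot_lift _ ((pnz_cover _).continuous.comp hHc)
  obtain ⟨Ψ, hΨ⟩ := lift_sphere (Fin M.n × ZMod 5) ⟨fun x => φ (h.symm x), hφc.comp h.symm.continuous⟩
  let Φ : M.Carrier → NZ (Fin M.n × ZMod 5) := fun m => Ψ (h m)
  have hΦc : Continuous Φ := Ψ.continuous.comp h.continuous
  have hΦ : ∀ m, pnz _ (Φ m) = φ m := by
    intro m
    have := hΨ (h m)
    simp only [ContinuousMap.coe_mk, Homeomorph.symm_apply_apply] at this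
    exact this
  have hptc : ∀ F, Continuous fun x : pentagon => M.pt F x := by
    intro F
    exact continuous_quot_mk.comp (Continuous.prodMk_right F)
  have hface : ∀ F : Fin M.n, ∃ u : ZMod 2, ∀ x : pentagon,
      (Φ (M.pt F x)).1 = sgn u • M.hh f s (F, x) := by
    intro F
    have h1 : pnz _ (Φ (M.pt F (vert 0))) = pnz _ (H (F, vert 0)) := hΦ _
    rw [pnz_eq_iff] at h1
    have hcase : ∃ w : ℤˣ, Φ (M.pt F (vert 0)) = w • H (F, vert 0) := by
      rcases h1 with h1 | h1
      · exact ⟨1, Subtype.ext (by rw [h1, one_smul])⟩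
      · refine ⟨-1, Subtype.ext ?_⟩
        rw [h1, nz_smul_val]
        simp [Units.smul_def]
    obtain ⟨w, hw⟩ := hcase
    have heq : (fun x : pentagon => Φ (M.pt F x)) = fun x : pentagon => w • H (F, x) := by
      refine (pnz_cov (Fin M.n × ZMod 5)).eq_of_comp_eq
        (g₁ := fun x : pentagon => Φ (M.pt F x)) (g₂ := fun x : pentagon => w • H (F, x))
        (hΦc.comp (hptc F)) ?_ ?_ (vert 0) hw
      · have := (pnz_cover (Fin M.n × ZMod 5)).toContinuousConstSMul
        exact (hHc.comp (Continuous.prodMk_right F)).const_smul w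
      · funext x
        simp only [Function.comp_apply]
        rw [hΦ, (pnz_cover (Fin M.n × ZMod 5)).map_smul]
        rfl
    rcases Int.units_eq_one_or w with rfl | rfl
    · refine ⟨0, fun x => ?_⟩
      have : Φ (M.pt F x) = (1 : ℤˣ) • H (F, x) := congrFun heq x
      rw [this, one_smul]
      simp [sgn, H]
    · refine ⟨1, fun x => ?_⟩
      have : Φ (M.pt F x) = (-1 : ℤˣ) • H (F, x) := congrFun heq x
      rw [this, nz_smul_val]
      simp [sgn, H, Units.smul_def]
  choose u hu using hface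
  let q : Fin M.n × ZMod 5 → ZMod 2 := fun d => if 0 < (Φ (M.vp d)).1 d then 0 else 1
  have hq : ∀ d, q d = u d.1 + s d := by
    intro d
    have h1 : (Φ (M.vp d)).1 d = sgn (u d.1 + s d) := by
      unfold vp
      rw [hu d.1 (vert d.2)]
      rw [Pi.smul_apply, smul_eq_mul]
      have := M.hh_self hiso s (d.1, vert d.2) d.2
      simp only at this
      rw [hat_vert, mul_one] at this
      rw [this, sgn_add]
    change (if 0 < (Φ (M.vp d)).1 d then 0 else 1) = u d.1 + s d
    rw [h1]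
    have h2 : ∀ a : ZMod 2, a = 0 ∨ a = 1 := by decide
    rcases h2 (u d.1 + s d) with h3 | h3
    · rw [h3]; simp [sgn]
    · rw [h3]; simp [sgn]
  refine ⟨q, ?_, ?_⟩
  · intro d
    rw [hq, hq, ← hs d]
    have h3 : ∀ a b c : ZMod 2, a + b = c + a + (c + b) := by decide
    exact h3 _ _ _
  · intro d d' hdd
    have h1 : (Φ (M.vp d')).1 d = (Φ (M.vp d')).1 d' := by
      have h2 : (Φ (M.vp d')).1 = sgn (u d'.1) • M.hh f s (d'.1, vert d'.2) := hu d'.1 (vert d'.2)
      rw [h2, Pi.smul_apply, Pi.smul_apply]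
      unfold hh
      rw [hdd]
    change (if 0 < (Φ (M.vp d)).1 d then (0 : ZMod 2) else 1)
      = if 0 < (Φ (M.vp d')).1 d' then (0 : ZMod 2) else 1
    rw [hdd, h1]

end PentComplex

end Pool.Agent.Lib.MP_59160a_co
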