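import Mathlib
import Pool.Agent.Lib.MP_59160a_co.W3
import Pool.Agent.Lib.MP_59160a_co.EulerFlags

/-!
A pentagonal surface homeomorphic to the sphere is orientable and has Euler number two.
-/

set_option autoImplicit false

namespace Pool.Agent.Lib.MP_59160a_co

namespace PentComplex

open Module

variable (M : PentComplex)

/-- Generating identifications of the corners. -/
def vrel (x y : Fin M.n × ZMod 5) : Prop :=
  ∃ d : Fin M.n × ZMod 5,
    (x = d ∧ y = ((M.glue d).1, if M.rev d then (M.glue d).2 + 1 else (M.glue d).2)) ∨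
    (x = (d.1, d.2 + 1) ∧
      y = ((M.glue d).1, if M.rev d then (M.glue d).2 else (M.glue d).2 + 1))

/-- The vertices of the surface. -/
abbrev VQ := Quotient (Relation.EqvGen.setoid M.vrel)

/-- The edges of the surface. -/
abbrev EQ := Quotient (Relation.EqvGen.setoid (pairRel M.glue))

/-- The vertex of a corner. -/
def vq (d : Fin M.n × ZMod 5) : M.VQ := qmk M.vrel d

/-- The edge of a side. -/
def eq (d : Fin M.n × ZMod 5) : M.EQ := qmk (pairRel M.glue) d

/-- The next corner. -/
def sh (d : Fin M.n × ZMod 5) : Fin M.n × ZMod 5 := (d.1, d.2 + 1)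

lemma vp_of_vrel {x y : Fin M.n × ZMod 5} (h : M.vrel x y) : M.vp x = M.vp y := by
  obtain ⟨d, ⟨rfl, rfl⟩ | ⟨rfl, rfl⟩⟩ := h
  · exact M.vp_glue_left _
  · exact M.vp_glue_right _

lemma vq_rev {d : Fin M.n × ZMod 5} (h : M.rev d = true) :
    M.vq d = M.vq (M.sh (M.glue d)) ∧ M.vq (M.sh d) = M.vq (M.glue d) := by
  constructor
  · refine qmk_eq ⟨d, Or.inl ⟨rfl, ?_⟩⟩
    rw [if_pos h]
    rfl
  · refine qmk_eq ⟨d, Or.inr ⟨rfl, ?_⟩⟩
    rw [if_pos h]

lemma vq_not_rev {d : Fin M.n × ZMod 5} (h : ¬ M.rev d = true) :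
    M.vq d = M.vq (M.glue d) ∧ M.vq (M.sh d) = M.vq (M.sh (M.glue d)) := by
  constructor
  · refine qmk_eq ⟨d, Or.inl ⟨rfl, ?_⟩⟩
    rw [if_neg h]
  · refine qmk_eq ⟨d, Or.inr ⟨rfl, ?_⟩⟩
    rw [if_neg h]
    rfl

lemma sum_sh {A : Type*} [AddCommMonoid A] (a : Fin M.n × ZMod 5 → A) :
    ∑ d, a (M.sh d) = ∑ d, a d := by
  rw [Fintype.sum_prod_type, Fintype.sum_prod_type]
  apply Finset.sum_congr rfl
  intro F _
  exact Equiv.sum_comp (Equiv.addRight (1 : ZMod 5)) (fun i => a (F, i))

theorem carrier_preconnected (hM : M.IsSphere) : PreconnectedSpace M.Carrier := by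
  obtain ⟨h⟩ := hM
  have : IsPreconnected (Metric.sphere (0 : E3) 1) :=
    (isPreconnected_sphere (by
      rw [← Module.finrank_eq_rank]
      simp) (0 : E3) 1)
  have : PreconnectedSpace (Metric.sphere (0 : E3) 1) := Subtype.preconnectedSpace this
  exact h.symm.surjective.denseRange.preconnectedSpace h.symm.continuous

theorem carrier_nonempty (hM : M.IsSphere) : Nonempty (Fin M.n) := by
  obtain ⟨h⟩ := hM
  obtain ⟨a, _⟩ := Quot.exists_rep (h.symm ⟨EuclideanSpace.single 0 1, by simp⟩ : M.Carrier)
  exact ⟨a.1⟩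

theorem face_conn (hM : M.IsSphere) (w : Fin M.n → Bool)
    (hw : ∀ d : Fin M.n × ZMod 5, w d.1 = w (M.glue d).1) (F F' : Fin M.n) : w F = w F' := by
  have := M.carrier_preconnected hM
  let W : M.Carrier → Bool := Quot.lift (fun a => w a.1) (by
    rintro a b ⟨i, t, _, _, _, hF, _⟩
    rw [hF]
    exact hw (a.1, i))
  have hW : Continuous W := by
    apply continuous_quot_lift
    exact (continuous_of_discreteTopology (f := w)).comp continuous_fst
  exact PreconnectedSpace.constant this hW (x := M.pt F (vert 0)) (y := M.pt F' (vert 0))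

variable {M}
variable {f : M.Carrier → E3}

theorem orient_euler (hM : M.IsSphere)
    (hiso : ∀ F, Isometry fun x : pentagon => f (M.pt F x)) :
    (∃ c : Fin M.n → ZMod 2, ∀ d : Fin M.n × ZMod 5,
      (if M.rev d then (0 : ZMod 2) else 1) = c d.1 + c (M.glue d).1) ∧
    2 * (Nat.card M.VQ + M.n) = 5 * M.n + 4 := by
  classical
  have hne := M.carrier_nonempty hM
  have hVne : Nonempty M.VQ := ⟨M.vq (hne.some, 0)⟩
  have heq : ∀ d, M.eq (M.glue d) = M.eq d := fun d => qmk_pair M.glue d
  have hAl : ∀ u : M.VQ → ZMod 2, ∀ x y, pairRel M.glue x y →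
      u (M.vq x) + u (M.vq (M.sh x)) = u (M.vq y) + u (M.vq (M.sh y)) := by
    rintro u x y rfl
    by_cases h : M.rev x = true
    · rw [(M.vq_rev h).1, (M.vq_rev h).2, add_comm]
    · rw [(M.vq_not_rev h).1, (M.vq_not_rev h).2]
  have hBl : ∀ u : Fin M.n → ZMod 2, ∀ x y, pairRel M.glue x y →
      u x.1 + u (M.glue x).1 = u y.1 + u (M.glue y).1 := by
    rintro u x y rfl
    rw [M.glue_glue, add_comm]
  let A : (M.VQ → ZMod 2) →ₗ[ZMod 2] (M.EQ → ZMod 2) :=
    { toFun := fun u => qlift (pairRel M.glue) (fun x => u (M.vq x) + u (M.vq (M.sh x))) (hAl u)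
      map_add' := by
        intro u v
        funext e
        obtain ⟨x, rfl⟩ := qmk_surj _ e
        simp only [Pi.add_apply, qlift_qmk]
        ring
      map_smul' := by
        intro c u
        funext e
        obtain ⟨x, rfl⟩ := qmk_surj _ e
        simp only [Pi.smul_apply, qlift_qmk, smul_eq_mul, RingHom.id_apply]
        ring }
  let B : (Fin M.n → ZMod 2) →ₗ[ZMod 2] (M.EQ → ZMod 2) :=
    { toFun := fun u => qlift (pairRel M.glue) (fun x => u x.1 + u (M.glue x).1) (hBl u)
      map_add' := by
        intro u v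
        funext e
        obtain ⟨x, rfl⟩ := qmk_surj _ e
        simp only [Pi.add_apply, qlift_qmk]
        ring
      map_smul' := by
        intro c u
        funext e
        obtain ⟨x, rfl⟩ := qmk_surj _ e
        simp only [Pi.smul_apply, qlift_qmk, smul_eq_mul, RingHom.id_apply]
        ring }
  have eA : ∀ u x, A u (M.eq x) = u (M.vq x) + u (M.vq (M.sh x)) := fun u x => rfl
  have eB : ∀ u x, B u (M.eq x) = u x.1 + u (M.glue x).1 := fun u x => rfl
  -- orthogonality
  have horth : ∀ u w, ∑ e, A u e * B w e = 0 := by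
    intro u w
    rw [sum_pair M.glue M.glue_glue M.glue_ne
      (fun d => (u (M.vq d) + u (M.vq (M.sh d))) * w d.1) (fun e => A u e * B w e)]
    · have h1 : ∑ d : Fin M.n × ZMod 5, (u (M.vq d) + u (M.vq (M.sh d))) * w d.1
          = ∑ d, u (M.vq d) * w d.1 + ∑ d, u (M.vq (M.sh d)) * w (M.sh d).1 := by
        rw [← Finset.sum_add_distrib]
        apply Finset.sum_congr rfl
        intro d _
        rw [add_mul]
        rfl
      rw [h1, M.sum_sh (fun d => u (M.vq d) * w d.1)]
      exact zmod2_add_self _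
    · intro d
      change A u (M.eq d) * B w (M.eq d) = (u (M.vq d) + u (M.vq (M.sh d))) * w d.1
        + (u (M.vq (M.glue d)) + u (M.vq (M.sh (M.glue d)))) * w (M.glue d).1
      rw [← eA u (M.glue d), heq, eA, eB]
      ring
  -- kernels
  have hkB : ∀ c, B c = 0 → ∀ x y, c x = c y := by
    intro c hc x y
    have h1 : ∀ d : Fin M.n × ZMod 5, c d.1 = c (M.glue d).1 := by
      intro d
      have := congrFun hc (M.eq d)
      rw [eB] at this
      exact zmod2_eq_of_add this
    have h2 := M.face_conn hM (fun F => decide (c F = 0)) (by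
      intro d
      simp only [h1 d]) x y
    have h3 : ∀ a b : ZMod 2, decide (a = 0) = decide (b = 0) → a = b := by decide
    exact h3 _ _ h2
  have hkA : ∀ c, A c = 0 → ∀ x y, c x = c y := by
    intro c hc x y
    obtain ⟨x, rfl⟩ := qmk_surj _ x
    obtain ⟨y, rfl⟩ := qmk_surj _ y
    have h1 : ∀ d : Fin M.n × ZMod 5, c (M.vq d) = c (M.vq (M.sh d)) := by
      intro d
      have := congrFun hc (M.eq d)
      rw [eA] at this
      exact zmod2_eq_of_add this
    have h2 : ∀ F : Fin M.n, ∀ i : ZMod 5, c (M.vq (F, i)) = c (M.vq (F, 0)) := by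
      intro F i
      have k0 := h1 (F, 0)
      have k1 := h1 (F, 1)
      have k2 := h1 (F, 2)
      have k3 := h1 (F, 3)
      change c (M.vq (F, 0)) = c (M.vq (F, 1)) at k0
      change c (M.vq (F, 1)) = c (M.vq (F, 2)) at k1
      change c (M.vq (F, 2)) = c (M.vq (F, 3)) at k2
      change c (M.vq (F, 3)) = c (M.vq (F, 4)) at k3
      fin_cases i
      · rfl
      · exact k0.symm
      · exact (k0.trans k1).symm
      · exact ((k0.trans k1).trans k2).symm
      · exact (((k0.trans k1).trans k2).trans k3).symm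
    have h3 : ∀ d : Fin M.n × ZMod 5, c (M.vq (d.1, 0)) = c (M.vq ((M.glue d).1, 0)) := by
      intro d
      rw [← h2 d.1 d.2, ← h2 (M.glue d).1 (M.glue d).2]
      change c (M.vq d) = c (M.vq (M.glue d))
      by_cases h : M.rev d = true
      · rw [h1 d, (M.vq_rev h).2]
      · rw [(M.vq_not_rev h).1]
    have h4 := M.face_conn hM (fun F => decide (c (M.vq (F, 0)) = 0)) (by
      intro d
      simp only [h3 d]) x.1 y.1
    have h5 : ∀ a b : ZMod 2, decide (a = 0) = decide (b = 0) → a = b := by decide
    have h6 := h5 _ _ h4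
    rw [← h2 x.1 x.2, ← h2 y.1 y.2] at h6
    exact h6
  -- exactness
  have hmem : ∀ w : M.EQ → ZMod 2, (∀ u, ∑ e, B u e * w e = 0) → w ∈ LinearMap.range A := by
    intro w hw
    obtain ⟨q, hq1, hq2⟩ := M.cocycle_trivial hM hiso (fun d => w (M.eq d))
      (fun d => by rw [heq]) (by
        intro F
        rw [← hw (fun F' => if F' = F then 1 else 0),
          sum_pair M.glue M.glue_glue M.glue_ne
            (fun d => (if d.1 = F then (1 : ZMod 2) else 0) * w (M.eq d))]
        · rw [Fintype.sum_prod_type, Finset.sum_eq_single F]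
          · simp
          · intro F' _ hF'
            apply Finset.sum_eq_zero
            intro i _
            rw [if_neg hF', zero_mul]
          · intro h
            exact absurd (Finset.mem_univ _) h
        · intro d
          change B _ (M.eq d) * w (M.eq d) = (if d.1 = F then (1 : ZMod 2) else 0) * w (M.eq d)
            + (if (M.glue d).1 = F then (1 : ZMod 2) else 0) * w (M.eq (M.glue d))
          rw [eB, heq]
          ring)
    refine ⟨qlift M.vrel q (fun x y h => hq2 x y (M.vp_of_vrel h)), ?_⟩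
    funext e
    obtain ⟨d, rfl⟩ := qmk_surj _ e
    exact (hq1 d).symm
  have r1 := card_le_of_orth_mem B A hmem
  have r2 := orth_rank_le A B horth
  have r3 := card_le_rank A hkA
  have r4 := card_le_rank B hkB
  have hone : A (fun _ => 1) = 0 := by
    funext e
    obtain ⟨d, rfl⟩ := qmk_surj _ e
    exact zmod2_add_self _
  have hone' : B (fun _ => 1) = 0 := by
    funext e
    obtain ⟨d, rfl⟩ := qmk_surj _ e
    exact zmod2_add_self _
  have r5 := rank_lt_card A hone
  have r6 := rank_lt_card B hone'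
  have r7 : 2 * Fintype.card M.EQ = Fintype.card (Fin M.n × ZMod 5) :=
    card_pair M.glue M.glue_glue M.glue_ne
  rw [Fintype.card_prod, Fintype.card_fin, ZMod.card] at r7
  rw [Fintype.card_fin] at r4 r6
  constructor
  · -- orientation
    have hrev : ∀ x y, pairRel M.glue x y →
        (if M.rev x then (0 : ZMod 2) else 1) = (if M.rev y then (0 : ZMod 2) else 1) := by
      rintro x y rfl
      rw [M.rev_glue]
    let w : M.EQ → ZMod 2 := qlift (pairRel M.glue) (fun d => if M.rev d then 0 else 1) hrev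
    have ew : ∀ d, w (M.eq d) = if M.rev d then 0 else 1 := fun d => rfl
    have hex := orth_exact A B horth (by omega) w (by
      intro u
      let a : Fin M.n × ZMod 5 → ℕ := fun d => (u (M.vq d)).val
      have hHl : ∀ x y, pairRel M.glue x y → a x + a (M.sh x) = a y + a (M.sh y) := by
        rintro x y rfl
        simp only [a]
        by_cases h : M.rev x = true
        · rw [(M.vq_rev h).1, (M.vq_rev h).2, add_comm]
        · rw [(M.vq_not_rev h).1, (M.vq_not_rev h).2]
      have hKl : ∀ x y, pairRel M.glue x y → a x + a (M.glue x) = a y + a (M.glue y) := by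
        rintro x y rfl
        rw [M.glue_glue, add_comm]
      let Hn : M.EQ → ℕ := qlift (pairRel M.glue) (fun d => a d + a (M.sh d)) hHl
      let Kn : M.EQ → ℕ := qlift (pairRel M.glue) (fun d => a d + a (M.glue d)) hKl
      have s1 : ∑ e, Kn e = ∑ d, a d :=
        sum_pair M.glue M.glue_glue M.glue_ne a Kn (fun d => rfl)
      have s2 : ∑ e, 2 * Hn e = ∑ d, (a d + a (M.sh d)) :=
        sum_pair M.glue M.glue_glue M.glue_ne (fun d => a d + a (M.sh d)) (fun e => 2 * Hn e)
          (fun d => by
            change 2 * (a d + a (M.sh d)) = a d + a (M.sh d) + (a (M.glue d) + a (M.sh (M.glue d)))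
            rw [← hHl d (M.glue d) rfl]
            ring)
      rw [Finset.sum_add_distrib, M.sum_sh a, ← Finset.mul_sum, ← two_mul] at s2
      have s3 : ∑ e, Hn e = ∑ e, Kn e := by
        rw [s1]
        exact Nat.eq_of_mul_eq_mul_left (by norm_num) s2
      have s4 : ∑ e, (Hn e : ZMod 2) = ∑ e, (Kn e : ZMod 2) := by
        rw [← Nat.cast_sum, ← Nat.cast_sum, s3]
      have s5 : ∀ e, (Hn e : ZMod 2) = A u e := by
        intro e
        obtain ⟨d, rfl⟩ := qmk_surj _ e
        change ((a d + a (M.sh d) : ℕ) : ZMod 2) = u (M.vq d) + u (M.vq (M.sh d))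
        push_cast
        rw [ZMod.natCast_zmod_val, ZMod.natCast_zmod_val]
      have s6 : ∀ e, (Kn e : ZMod 2) = A u e + A u e * w e := by
        intro e
        obtain ⟨d, rfl⟩ := qmk_surj _ e
        change ((a d + a (M.glue d) : ℕ) : ZMod 2) = A u (M.eq d) + A u (M.eq d) * w (M.eq d)
        push_cast
        rw [ZMod.natCast_zmod_val, ZMod.natCast_zmod_val, eA, ew]
        by_cases h : M.rev d = true
        · rw [if_pos h, (M.vq_rev h).2, mul_zero, add_zero]
        · rw [if_neg h, (M.vq_not_rev h).1, mul_one]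
          rw [zmod2_add_self, zmod2_add_self]
      simp only [s5, s6] at s4
      rw [Finset.sum_add_distrib] at s4
      have s7 : ∀ p q : ZMod 2, p = p + q → q = 0 := by decide
      exact s7 _ _ s4)
    obtain ⟨c, hc⟩ := hex
    refine ⟨c, fun d => ?_⟩
    have := congrFun hc (M.eq d)
    rw [eB, ew] at this
    exact this.symm
  · rw [Nat.card_eq_fintype_card]
    omega

end PentComplex

end Pool.Agent.Lib.MP_59160a_co
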