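import Pool.Agent.Lib.MP_59160a_co.Corner

/-!
Words in the axes of a dodecahedron and the level of a vector.
-/

set_option autoImplicit false
set_option linter.unusedSectionVars false

namespace Pool.Agent.Lib.MP_59160a_co

variable {V : Type*} [NormedAddCommGroup V] [InnerProductSpace ℝ V]

/-! ### Frames -/

/-- The corners of the dodecahedron with corner `B` (in any order). -/
inductive InFrame (B : Fin 3 → V) : (Fin 3 → V) → Prop
  | base : InFrame B B
  | mv (j : Fin 3) {h : Fin 3 → V} : InFrame B h → InFrame B (mv j h)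
  | perm (π : Equiv.Perm (Fin 3)) {h : Fin 3 → V} : InFrame B h → InFrame B (h ∘ π)

lemma InFrame.corner {B h : Fin 3 → V} (hB : IsCorner B) (hh : InFrame B h) : IsCorner h := by
  induction hh with
  | base => exact hB
  | mv j _ ih => exact ih.mv j
  | perm π _ ih => exact ih.perm π

lemma InFrame.ax {B h : Fin 3 → V} (hB : IsCorner B) (hh : InFrame B h) {n : V} :
    Ax B n ↔ Ax h n := by
  induction hh with
  | base => rfl
  | mv j hh ih =>
    rw [ih]
    constructor
    · intro hn; exact hn.mv (hh.corner hB) j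
    · intro hn
      have := hn.mv ((hh.corner hB).mv j) j
      rwa [mv_mv] at this
  | perm π hh ih => rw [ih, Ax.perm]

lemma InFrame.trans {B h k : Fin 3 → V} (h1 : InFrame B h) (h2 : InFrame h k) : InFrame B k := by
  induction h2 with
  | base => exact h1
  | mv j _ ih => exact ih.mv j
  | perm π _ ih => exact ih.perm π

lemma InFrame.int5 {B h : Fin 3 → V} (hB : IsCorner B) (hh : InFrame B h) (i j : Fin 3) :
    Int5 (inner ℝ (B i) (h j)) := by
  induction hh generalizing j with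
  | base =>
    rw [hB i j]
    split_ifs
    · exact Res.one.int5
    · exact res_c0.int5
  | mv k hh ih =>
    by_cases hjk : j = k
    · subst hjk
      rw [mv_self, inner_neg_right]
      exact (ih j).neg
    · rw [mv_ne (hh.corner hB) hjk, inner_add_right, real_inner_smul_right]
      exact (ih j).add (int5_g.mul (ih k))
  | perm π hh ih => exact ih (π j)

/-! ### Residues of axes -/

/-- The real number has a nonzero residue. -/
def Unit5 (x : ℝ) : Prop := ∃ r : ZMod 5, r ≠ 0 ∧ Res x r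

lemma Unit5.int5 {x : ℝ} (h : Unit5 x) : Int5 x := by
  obtain ⟨r, _, hr⟩ := h; exact ⟨r, hr⟩

lemma Unit5.neg {x : ℝ} (h : Unit5 x) : Unit5 (-x) := by
  obtain ⟨r, h0, hr⟩ := h; exact ⟨-r, neg_ne_zero.2 h0, hr.neg⟩

lemma unit5_one : Unit5 1 := ⟨1, by decide, Res.one⟩

lemma unit5_g : Unit5 g := ⟨2, by decide, res_g⟩

lemma Unit5.ne_zero {x : ℝ} (h : Unit5 x) : x ≠ 0 := by
  rintro rfl
  obtain ⟨r, h0, hr⟩ := h
  exact h0 (hr.unique Res.zero)

lemma tyA_val {C : Fin 3 → V} (h : IsCorner C) {n : V} {j : Fin 3} (hn : TyA C n j) :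
    Unit5 (inner ℝ n (C j)) ∧ ∀ i, i ≠ j → inner ℝ n (C i) = 0 := by
  rcases hn with rfl | rfl
  · refine ⟨?_, fun i hi => inner_nrm_ne h hi⟩
    rw [inner_nrm_self h]; exact unit5_one
  · refine ⟨?_, fun i hi => ?_⟩
    · rw [inner_neg_left, inner_nrm_self h]; exact unit5_one.neg
    · rw [inner_neg_left, inner_nrm_ne h hi, neg_zero]

lemma tyB_val {C : Fin 3 → V} (h : IsCorner C) {n : V} {j : Fin 3} (hn : TyB C n j) (i : Fin 3) :
    Unit5 (inner ℝ n (C i)) := by
  by_cases hij : i = j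
  · subst hij
    rcases hn with rfl | rfl
    · rw [inner_nrm_mv_self h]; exact unit5_one.neg
    · rw [inner_neg_left, inner_nrm_mv_self h, neg_neg]; exact unit5_one
  · rcases hn with rfl | rfl
    · rw [inner_nrm_mv_ne h hij]; exact unit5_g
    · rw [inner_neg_left, inner_nrm_mv_ne h hij]; exact unit5_g.neg

lemma Ax.val {C : Fin 3 → V} (h : IsCorner C) {n : V} (hn : Ax C n) (i : Fin 3) :
    inner ℝ n (C i) = 0 ∨ Unit5 (inner ℝ n (C i)) := by
  obtain ⟨j, hn | hn⟩ := hn
  · by_cases hij : i = j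
    · subst hij; exact Or.inr (tyA_val h hn).1
    · exact Or.inl ((tyA_val h hn).2 i hij)
  · exact Or.inr (tyB_val h hn i)

lemma Ax.val_int5 {C : Fin 3 → V} (h : IsCorner C) {n : V} (hn : Ax C n) (i : Fin 3) :
    Int5 (inner ℝ n (C i)) := by
  rcases hn.val h i with h0 | h0
  · rw [h0]; exact Res.zero.int5
  · exact h0.int5

lemma Ax.exists_unit {C : Fin 3 → V} (h : IsCorner C) {n : V} (hn : Ax C n) :
    ∃ i, Unit5 (inner ℝ n (C i)) := by
  obtain ⟨j, hn | hn⟩ := hn
  · exact ⟨j, (tyA_val h hn).1⟩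
  · exact ⟨j, tyB_val h hn j⟩

lemma inner_nrm_nrm_ne {C : Fin 3 → V} (h : IsCorner C) {j k : Fin 3} (hjk : k ≠ j) :
    inner ℝ (nrm C k) (nrm C j) = g := by
  rw [inner_nrm_right, inner_nrm h, inner_nrm h, inner_nrm h, inner_nrm h]
  rw [if_neg (Ne.symm hjk)]
  fin_cases k <;> simp

lemma inner_nrm_mv_nrm_self {C : Fin 3 → V} (h : IsCorner C) (j : Fin 3) :
    inner ℝ (nrm (mv j C) j) (nrm C j) = -g := by
  rw [inner_nrm_right, inner_nrm_mv_self h]
  obtain ⟨a, b, ha, hb, hab⟩ : ∃ a b : Fin 3, a ≠ j ∧ b ≠ j ∧ a ≠ b := by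
    revert j; decide
  have e : inner ℝ (nrm (mv j C) j) (C 0) + inner ℝ (nrm (mv j C) j) (C 1) +
      inner ℝ (nrm (mv j C) j) (C 2) = inner ℝ (nrm (mv j C) j) (C j) +
      inner ℝ (nrm (mv j C) j) (C a) + inner ℝ (nrm (mv j C) j) (C b) := by
    fin_cases j <;> fin_cases a <;> fin_cases b <;> simp_all <;> ring
  rw [e, inner_nrm_mv_self h, inner_nrm_mv_ne h ha, inner_nrm_mv_ne h hb]
  ring

lemma inner_nrm_mv_nrm_ne {C : Fin 3 → V} (h : IsCorner C) {j k : Fin 3} (hjk : j ≠ k) :
    inner ℝ (nrm (mv k C) k) (nrm C j) = g := by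
  rw [inner_nrm_right]
  obtain ⟨a, ha, hb⟩ : ∃ a : Fin 3, a ≠ j ∧ a ≠ k := by
    revert j k; decide
  have e : inner ℝ (nrm (mv k C) k) (C 0) + inner ℝ (nrm (mv k C) k) (C 1) +
      inner ℝ (nrm (mv k C) k) (C 2) = inner ℝ (nrm (mv k C) k) (C k) +
      inner ℝ (nrm (mv k C) k) (C j) + inner ℝ (nrm (mv k C) k) (C a) := by
    fin_cases j <;> fin_cases a <;> fin_cases k <;> simp_all <;> ring
  rw [e, inner_nrm_mv_self h, inner_nrm_mv_ne h hjk, inner_nrm_mv_ne h hb]
  have hg := g_sq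
  linear_combination (2 * g) * hg

/-- The inner product of an axis with a normal of the corner. -/
lemma Ax.inner_nrm_unit {C : Fin 3 → V} (h : IsCorner C) {n : V} (hn : Ax C n) (j : Fin 3)
    (h1 : n ≠ nrm C j) (h2 : n ≠ -nrm C j) : Unit5 (inner ℝ n (nrm C j)) := by
  obtain ⟨k, hn | hn⟩ := hn
  · have hkj : k ≠ j := by
      rintro rfl
      rcases hn with hn | hn
      · exact h1 hn
      · exact h2 hn
    rcases hn with rfl | rfl
    · rw [inner_nrm_nrm_ne h hkj]; exact unit5_g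
    · rw [inner_neg_left, inner_nrm_nrm_ne h hkj]; exact unit5_g.neg
  · by_cases hkj : k = j
    · subst hkj
      rcases hn with rfl | rfl
      · rw [inner_nrm_mv_nrm_self h]; exact unit5_g.neg
      · rw [inner_neg_left, inner_nrm_mv_nrm_self h, neg_neg]; exact unit5_g
    · rcases hn with rfl | rfl
      · rw [inner_nrm_mv_nrm_ne h (Ne.symm hkj)]; exact unit5_g
      · rw [inner_neg_left, inner_nrm_mv_nrm_ne h (Ne.symm hkj)]; exact unit5_g.neg

lemma Ax.inner_ax_unit {C : Fin 3 → V} (h : IsCorner C) {n m : V} (hn : Ax C n) (hm : Ax C m)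
    (h1 : m ≠ n) (h2 : m ≠ -n) : Unit5 (inner ℝ n m) := by
  have aux : ∀ {D : Fin 3 → V} (_ : IsCorner D) (j : Fin 3) (_ : Ax D n) (_ : TyA D m j),
      Unit5 (inner ℝ n m) := by
    intro D hD j hn' hm'
    rcases hm' with rfl | rfl
    · exact hn'.inner_nrm_unit hD j (Ne.symm h1) (fun e => h2 (by rw [e, neg_neg]))
    · rw [inner_neg_right]
      exact (hn'.inner_nrm_unit hD j (fun e => h2 (by rw [e])) (Ne.symm h1)).neg
  obtain ⟨j, hm | hm⟩ := hm
  · exact aux h j hn hm
  · exact aux (h.mv j) j (hn.mv h j) hm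

lemma Ax.inner_ax_int5 {C : Fin 3 → V} (h : IsCorner C) {n m : V} (hn : Ax C n) (hm : Ax C m) :
    Int5 (inner ℝ n m) := by
  have h2g : Int5 (2 - g) := Res.two.int5.sub int5_g
  by_cases h1 : m = n
  · subst h1; rw [hm.inner_self h]; exact h2g
  by_cases h2 : m = -n
  · subst h2; rw [inner_neg_right, hn.inner_self h]; exact h2g.neg
  exact (hn.inner_ax_unit h hm h1 h2).int5

/-! ### Words -/

/-- The isometry defined by a word. -/
noncomputable def R (l : List V) : V ≃ₗᵢ[ℝ] V := (l.map rf).prod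

@[simp] lemma R_nil : R ([] : List V) = 1 := rfl

lemma R_cons (n : V) (l : List V) : R (n :: l) = rf n * R l := by simp [R]

lemma R_append (l l' : List V) : R (l ++ l') = R l * R l' := by simp [R]

lemma R_singleton (n : V) : R [n] = rf n := by simp [R]

/-- Consecutive letters are not equal or opposite. -/
def Red (l : List V) : Prop := l.IsChain (fun n m => m ≠ n ∧ m ≠ -n)

lemma two_div_aux : s * (2 / (2 - g)) = 2 * (1 + g) := by
  have hg := g_sq
  have h1 : (2 - g) ≠ 0 := by have := g_lt; linarith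
  rw [s_eq]
  field_simp
  linear_combination hg

lemma res_two_g : Res (2 * (1 + g)) 1 := by
  have := Res.two.mul (Res.one.add res_g)
  have e : (1 : ZMod 5) = 2 * (1 + 2) := by decide
  rw [e]; exact this

/-- The main computation: a reduced word multiplies denominators. -/
theorem words_res {B : Fin 3 → V} (hB : IsCorner B) (l : List V) (hl : ∀ n ∈ l, Ax B n)
    (hred : Red l) (n₁ : V) (hn₁ : n₁ ∈ l.head?) (n₂ : V) (hn₂ : n₂ ∈ l.getLast?) (b : V)
    (hb : ∀ n, Ax B n → Int5 (inner ℝ b n)) :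
    ∃ c : ZMod 5, (Unit5 (inner ℝ b n₁) → c ≠ 0) ∧
      ∀ x r, (∀ n, Ax B n → Int5 (inner ℝ n x)) → Int5 (inner ℝ b x) →
        Res (inner ℝ n₂ x) r → Res (s ^ l.length * inner ℝ b (R l x)) (c * r) := by
  induction l generalizing n₁ b with
  | nil => simp at hn₁
  | cons n l' ih =>
    simp only [List.head?_cons, Option.mem_def, Option.some.injEq] at hn₁
    subst hn₁
    have hnAx : Ax B n := hl n (by simp)
    obtain ⟨rb, hrb⟩ := hb n hnAx
    have key : ∀ y : V, s * inner ℝ b (rf n y) =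
        s * inner ℝ b y - 2 * (1 + g) * (inner ℝ n y * inner ℝ b n) := by
      intro y
      rw [rf_apply, inner_sub_right, real_inner_smul_right, hnAx.inner_self hB, mul_sub,
        ← two_div_aux]
      ring
    rcases l' with _ | ⟨m, l''⟩
    · simp only [List.getLast?_singleton, Option.mem_def, Option.some.injEq] at hn₂
      subst hn₂
      refine ⟨-rb, ?_, ?_⟩
      · rintro ⟨r, h0, hr⟩
        have := hr.unique hrb
        subst this
        exact neg_ne_zero.2 h0
      · intro x r hx hbx hr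
        rw [R_singleton, List.length_singleton, pow_one, key]
        obtain ⟨t, ht⟩ := hbx
        have := (ht.s_mul).sub (res_two_g.mul (hr.mul hrb))
        have e : -rb * r = 0 - 1 * (r * rb) := by ring
        rw [e]; exact this
    · have hred' : Red (m :: l'') := by
        unfold Red at hred ⊢
        exact (List.isChain_cons_cons.1 hred).2
      have hrel : m ≠ n ∧ m ≠ -n := (List.isChain_cons_cons.1 hred).1
      have hl' : ∀ k ∈ m :: l'', Ax B k := fun k hk => hl k (List.mem_cons_of_mem _ hk)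
      have hn₂' : n₂ ∈ (m :: l'').getLast? := by
        rw [List.getLast?_cons_cons] at hn₂
        exact hn₂
      obtain ⟨cb, -, hcb⟩ := ih hl' hred' m (by simp) hn₂' b hb
      obtain ⟨cn, hcn0, hcn⟩ := ih hl' hred' m (by simp) hn₂' n
        (fun k hk => hnAx.inner_ax_int5 hB hk)
      have hcn0' : cn ≠ 0 := hcn0 (hnAx.inner_ax_unit hB (hl' m (by simp)) hrel.1 hrel.2)
      refine ⟨-(cn * rb), ?_, ?_⟩
      · rintro ⟨r, h0, hr⟩
        have := hr.unique hrb
        subst this
        exact neg_ne_zero.2 (mul_ne_zero hcn0' h0)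
      · intro x r hx hbx hr
        have h1 := (hcb x r hx hbx hr).s_mul
        have h2 := hcn x r hx (hx n hnAx) hr
        have e : s ^ (n :: m :: l'').length * inner ℝ b (R (n :: m :: l'') x) =
            s * (s ^ (m :: l'').length * inner ℝ b (R (m :: l'') x)) -
              2 * (1 + g) * ((s ^ (m :: l'').length * inner ℝ n (R (m :: l'') x)) *
                inner ℝ b n) := by
          rw [R_cons, List.length_cons, pow_succ]
          have := key (R (m :: l'') x)
          change s ^ (m :: l'').length * s * inner ℝ b (rf n (R (m :: l'') x)) = _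
          rw [mul_assoc, this]
          ring
        rw [e]
        have h3 := h1.sub (res_two_g.mul (h2.mul hrb))
        have e2 : -(cn * rb) * r = 0 - 1 * (cn * r * rb) := by ring
        rw [e2]; exact h3

/-! ### Levels -/

/-- `v` has level at most `k` relative to the corner `B`. -/
def Lv (B : Fin 3 → V) (k : ℕ) (v : V) : Prop := ∀ i, Int5 (s ^ k * inner ℝ (B i) v)

lemma Lv.mono {B : Fin 3 → V} {k m : ℕ} {v : V} (h : Lv B k v) (hkm : k ≤ m) : Lv B m v := by
  obtain ⟨d, rfl⟩ := Nat.exists_eq_add_of_le hkm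
  intro i
  obtain ⟨r, hr⟩ := h i
  rw [add_comm, pow_add, mul_assoc]
  rcases Nat.eq_zero_or_pos d with rfl | hd
  · rw [pow_zero, one_mul]; exact ⟨r, hr⟩
  · exact ⟨0, hr.s_pow hd⟩

lemma lv_frame {B h : Fin 3 → V} (hB : IsCorner B) (hh : InFrame B h) (j : Fin 3) :
    Lv B 0 (h j) := by
  intro i
  rw [pow_zero, one_mul]
  exact hh.int5 hB i j

lemma ax_int5_corner {B : Fin 3 → V} (hB : IsCorner B) (i : Fin 3) (n : V) (hn : Ax B n) :
    Int5 (inner ℝ (B i) n) := by
  rw [real_inner_comm]; exact hn.val_int5 hB i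

lemma ax_int5_frame {B h : Fin 3 → V} (hB : IsCorner B) (hh : InFrame B h) (j : Fin 3) (n : V)
    (hn : Ax B n) : Int5 (inner ℝ n (h j)) :=
  ((hh.ax hB).1 hn).val_int5 (hh.corner hB) j

lemma lv_word {B h : Fin 3 → V} (hB : IsCorner B) (hh : InFrame B h) (j : Fin 3) (l : List V)
    (hl : ∀ n ∈ l, Ax B n) (hred : Red l) : Lv B l.length (R l (h j)) := by
  rcases l.eq_nil_or_concat with rfl | ⟨l', n, rfl⟩
  · exact lv_frame hB hh j
  · intro i
    obtain ⟨n₁, hn₁⟩ : ∃ n₁, n₁ ∈ (l'.concat n).head? := by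
      rcases l' with _ | ⟨a, l''⟩
      · exact ⟨n, by simp⟩
      · exact ⟨a, by simp⟩
    have hn₂ : n ∈ (l'.concat n).getLast? := by simp
    obtain ⟨c, -, hc⟩ := words_res hB (l'.concat n) hl hred n₁ hn₁ n hn₂ (B i)
      (ax_int5_corner hB i)
    obtain ⟨r, hr⟩ := ax_int5_frame hB hh j n (hl n (by simp))
    exact (hc (h j) r (ax_int5_frame hB hh j) (hh.int5 hB i j) hr).int5

lemma not_lv_word {B h : Fin 3 → V} (hB : IsCorner B) (hh : InFrame B h) (j : Fin 3) (l : List V)
    (hl : ∀ n ∈ l, Ax B n) (hred : Red l) (n₂ : V) (hn₂ : n₂ ∈ l.getLast?)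
    (hne : inner ℝ n₂ (h j) ≠ 0) (k : ℕ) (hk : k < l.length) : ¬ Lv B k (R l (h j)) := by
  intro hlv
  obtain ⟨n₁, hn₁⟩ : ∃ n₁, n₁ ∈ l.head? := by
    rcases l with _ | ⟨a, l''⟩
    · simp at hn₂
    · exact ⟨a, by simp⟩
  have hmem : n₁ ∈ l := List.mem_of_mem_head? hn₁
  have hmem2 : n₂ ∈ l := List.mem_of_mem_getLast? hn₂
  obtain ⟨i, hi⟩ := (hl n₁ hmem).exists_unit hB
  rw [real_inner_comm] at hi
  obtain ⟨c, hc0, hc⟩ := words_res hB l hl hred n₁ hn₁ n₂ hn₂ (B i) (ax_int5_corner hB i)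
  obtain ⟨r, hr0, hr⟩ : Unit5 (inner ℝ n₂ (h j)) := by
    rcases ((hh.ax hB).1 (hl n₂ hmem2)).val (hh.corner hB) j with h0 | h0
    · exact absurd h0 hne
    · exact h0
  have h1 := hc (h j) r (ax_int5_frame hB hh j) (hh.int5 hB i j) hr
  obtain ⟨t, ht⟩ := hlv i
  have h2 : Res (s ^ l.length * inner ℝ (B i) (R l (h j))) 0 := by
    obtain ⟨d, hd⟩ := Nat.exists_eq_add_of_lt hk
    have e : l.length = (d + 1) + k := by omega
    rw [e, pow_add, mul_assoc]
    exact ht.s_pow (Nat.succ_pos d)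
  exact mul_ne_zero (hc0 hi) hr0 (h1.unique h2)

end Pool.Agent.Lib.MP_59160a_co
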